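import Pool.Agent.Lib.MP_c9a594_an.Folner
import Pool.Agent.Shared.Subspace.Main

/-!
# The ultrapower of `ℚ` with growth rates: a model of `Ctx`
-/

open Filter Topology Real Finset Pool.Agent.Subspace

namespace Pool.Agent.Lib.MP_c9a594_an

/-- The ultrapower of `ℚ`. -/
def UP (U : Ultrafilter ℕ) : Type := Germ (U : Filter ℕ) ℚ

noncomputable instance instFieldUP (U : Ultrafilter ℕ) : Field (UP U) :=
  inferInstanceAs (Field (Germ (U : Filter ℕ) ℚ))

instance instCharZeroUP (U : Ultrafilter ℕ) : CharZero (UP U) :=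
  inferInstanceAs (CharZero (Germ (U : Filter ℕ) ℚ))

/-- The class of a sequence. -/
noncomputable def germ (U : Ultrafilter ℕ) : (ℕ → ℚ) →+* UP U := Germ.coeRingHom _

variable {U : Ultrafilter ℕ}

lemma germ_eq {f g : ℕ → ℚ} : germ U f = germ U g ↔ ∀ᶠ k in U, f k = g k := Germ.coe_eq

lemma germ_surj : Function.Surjective (germ U) := fun z =>
  Germ.inductionOn (p := fun z : UP U => ∃ f, germ U f = z) z fun f => ⟨f, rfl⟩

lemma germ_inv (f : ℕ → ℚ) : germ U f⁻¹ = (germ U f)⁻¹ := rfl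

lemma germ_eq_zero {f : ℕ → ℚ} : germ U f = 0 ↔ ∀ᶠ k in U, f k = 0 := by
  rw [← map_zero (germ U), germ_eq]; rfl

lemma germ_smul (c : ℚ) (f : ℕ → ℚ) : c • germ U f = germ U fun k => c * f k := by
  rw [Rat.smul_def, ← eq_ratCast ((germ U).comp (Pi.constRingHom ℕ ℚ)) c]
  exact (map_mul (germ U) _ _).symm

lemma germ_sum {ι : Type*} (s : Finset ι) (f : ι → ℕ → ℚ) :
    ∑ i ∈ s, germ U (f i) = germ U fun k => ∑ i ∈ s, f i k := by
  rw [← map_sum]; congr 1; ext k; simp

lemma exists_lim {x : ℕ → ℝ} {A : ℝ} (h : ∀ᶠ k in U, |x k| ≤ A) :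
    ∃ r, |r| ≤ A ∧ Tendsto x U (𝓝 r) := by
  obtain ⟨r, hr, h1⟩ := (isCompact_Icc (a := -A) (b := A)).ultrafilter_le_nhds (U.map x)
    (le_principal_iff.mpr (h.mono fun k hk => abs_le.mp hk))
  exact ⟨r, abs_le.mpr hr, h1⟩

variable {S : Finset ℕ} {hS : ∀ p ∈ S, p.Prime}

lemma abs_log_plAbs_le (v : Option S) {z : ℤ} (hz : z ≠ 0) :
    |log (plAbs S hS v z)| ≤ log |(z : ℝ)| := by
  have h1 : (1 : ℝ) ≤ |(z : ℝ)| := by exact_mod_cast Int.one_le_abs hz
  have h0 : 0 < plAbs S hS v z := (plAbs S hS v).pos (by exact_mod_cast hz)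
  refine abs_le.mpr ⟨?_, log_le_log h0 (plAbs_le v z)⟩
  rw [← log_inv]
  refine log_le_log (by positivity) ?_
  rcases v with _ | p
  · rw [plAbs_none_int]; exact (inv_le_one_of_one_le₀ h1).trans h1
  · rw [plAbs_some_int p hz]
    refine inv_anti₀ (pow_pos (by exact_mod_cast (hS p p.2).pos) _) ?_
    have := Int.le_of_dvd (abs_pos.2 hz) ((dvd_abs _ _).2 (padicValInt_dvd (p := p) z))
    exact_mod_cast this

lemma sum_log_plAbs {a : ℕ} (ha : a ≠ 0) (h : ∀ p, p.Prime → p ∣ a → p ∈ S) :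
    ∑ v, log (plAbs S hS v a) = 0 := by
  have h1 : ∀ p : S, log (plAbs S hS (some p) a) = -(a.factorization p * log ((p : ℕ) : ℝ)) := by
    intro p
    have := plAbs_some_int (hS := hS) p (z := a) (by exact_mod_cast ha)
    rw [Int.cast_natCast] at this
    rw [this, log_inv, log_pow, Nat.factorization_def _ (hS p p.2)]
    simp [padicValInt]
  rw [Fintype.sum_option, plAbs_none]
  simp only [h1, sum_neg_distrib]
  rw [sum_coe_sort S fun p => (a.factorization p : ℝ) * log (p : ℝ), Rat.cast_natCast,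
    Nat.abs_cast, Real.log_nat_eq_sum_factorization, add_neg_eq_zero, Finsupp.sum]
  refine sum_subset (fun p hp => ?_) fun p _ hp => by simp [Finsupp.notMem_support_iff.mp hp]
  have := Nat.mem_primeFactors.mp hp
  exact h p this.1 this.2.1

lemma int_of_plAbs_le {ω : ℕ} (hω : ω ≠ 0) (h : ∀ p, p.Prime → p ∣ ω → p ∈ S) (f : ℤ) (m : ℕ)
    (hx : ∀ p : S, plAbs S hS (some p) (f / ω ^ m) ≤ 1) :
    (((f / ω ^ m : ℚ).num : ℤ) : ℚ) = f / ω ^ m := by
  set x : ℚ := f / ω ^ m with hxd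
  rw [← Rat.den_eq_one_iff]
  by_contra hd
  obtain ⟨p, hp, hpd⟩ := Nat.exists_prime_and_dvd hd
  have h1 : x.den ∣ ω ^ m := by
    have := Rat.den_dvd f (ω ^ m : ℕ)
    rw [Rat.divInt_eq_div, Int.cast_natCast, Nat.cast_pow] at this
    exact Int.natCast_dvd_natCast.mp this
  have hpS := h p hp (hp.dvd_of_dvd_pow (hpd.trans h1))
  have : Fact p.Prime := ⟨hp⟩
  have h2 : padicNorm p x ≤ 1 := by
    have := hx ⟨p, hpS⟩
    rw [plAbs_some] at this
    exact_mod_cast this
  have h3 : padicNorm p x.num < 1 := by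
    rw [← Rat.mul_den_eq_num, padicNorm.mul]
    exact mul_lt_one_of_nonneg_of_lt_one_right h2 (padicNorm.nonneg _)
      ((padicNorm.nat_lt_one_iff _).mpr hpd)
  rw [padicNorm.int_lt_one_iff] at h3
  exact hp.one_lt.ne' (Nat.eq_one_of_dvd_coprimes x.reduced (Int.natCast_dvd.mp h3) hpd)

variable (U) (q : ℕ → ℝ) (ω : ℕ)

/-- Nonzero elements of `ℤ[1/ω]` of at most exponential size. -/
def tameO : Submonoid (UP U) where
  carrier := {z | ∃ (f : ℕ → ℤ) (m : ℕ → ℕ) (C : ℝ), z = germ U (fun k => f k / ω ^ m k) ∧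
    ∀ᶠ k in U, f k ≠ 0 ∧ |(f k : ℝ)| ≤ exp (C * q k) ∧ (m k : ℝ) ≤ C * q k}
  one_mem' := ⟨1, 0, 0, by rw [← map_one (germ U), germ_eq]; simp, by simp⟩
  mul_mem' := by
    rintro _ _ ⟨f, m, C, rfl, h⟩ ⟨f', m', C', rfl, h'⟩
    refine ⟨f * f', m + m', C + C', ?_, (h.and h').mono fun k ⟨hk, hk'⟩ => ⟨mul_ne_zero hk.1 hk'.1,
      ?_, ?_⟩⟩
    · rw [← map_mul]; congr 1; ext k; simp [pow_add, div_mul_div_comm]
    · simp only [Pi.mul_apply, Int.cast_mul, abs_mul, add_mul, exp_add]
      exact mul_le_mul hk.2.1 hk'.2.1 (abs_nonneg _) (exp_pos _).le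
    · simp only [Pi.add_apply, Nat.cast_add, add_mul]
      exact add_le_add hk.2.2 hk'.2.2

variable (hS)

/-- The normalised logarithmic size of a sequence at a place. -/
noncomputable def rate (v : Option S) (f : ℕ → ℚ) (k : ℕ) : ℝ := log (plAbs S hS v (f k)) / q k

/-- The growth rate at a place. -/
noncomputable def ordU (v : Option S) (z : UP U) : ℝ :=
  limUnder U (rate hS q v (Function.surjInv germ_surj z))

variable {U q ω hS}

lemma rate_congr {f g : ℕ → ℚ} (h : germ U f = germ U g) (v : Option S) :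
    rate hS q v f =ᶠ[U] rate hS q v g :=
  (germ_eq.mp h).mono fun k hk => by simp only [rate, hk]

lemma ordU_eq {v : Option S} {f : ℕ → ℚ} {r : ℝ} (h : Tendsto (rate hS q v f) U (𝓝 r)) :
    ordU U hS q v (germ U f) = r :=
  (h.congr' (rate_congr (Function.surjInv_eq germ_surj _).symm v)).limUnder_eq

lemma ne_zero_of_mem (hω : ω ≠ 0) {f : ℕ → ℚ} (h : germ U f ∈ tameO U q ω) :
    ∀ᶠ k in U, f k ≠ 0 := by
  obtain ⟨g, m, C, e, h⟩ := h
  filter_upwards [h, germ_eq.mp e] with k hk e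
  rw [e]
  exact div_ne_zero (by exact_mod_cast hk.1) (by positivity)

lemma tendsto_ordU (hq : Tendsto q U atTop) (hω : ω ≠ 0) {f : ℕ → ℚ} (h : germ U f ∈ tameO U q ω)
    (v : Option S) : Tendsto (rate hS q v f) U (𝓝 (ordU U hS q v (germ U f))) := by
  obtain ⟨g, m, C, e, h⟩ := h
  obtain ⟨r, -, hr⟩ := exists_lim (U := U) (x := rate hS q v f) (A := C + C * log ω) (by
    filter_upwards [h, germ_eq.mp e, hq.eventually_gt_atTop 0] with k hk e hq
    have h1 := abs_log_plAbs_le (hS := hS) v hk.1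
    have h2 := abs_log_plAbs_le (hS := hS) v (z := ω) (by exact_mod_cast hω)
    have h3 : log |(g k : ℝ)| ≤ C * q k :=
      (log_le_iff_le_exp (abs_pos.mpr (by exact_mod_cast hk.1))).mpr hk.2.1
    have h4 : 0 ≤ log (ω : ℝ) := log_natCast_nonneg _
    simp only [Int.cast_natCast, Nat.abs_cast] at h2
    rw [rate, e, abs_div, abs_of_pos hq, div_le_iff₀ hq, map_div₀, map_pow,
      log_div ((plAbs S hS v).ne_zero (by exact_mod_cast hk.1))
        (pow_ne_zero _ ((plAbs S hS v).ne_zero (by exact_mod_cast hω))), log_pow]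
    refine (abs_sub _ _).trans ?_
    rw [abs_mul, Nat.abs_cast]
    nlinarith [mul_le_mul hk.2.2 h2 (abs_nonneg _) ((Nat.cast_nonneg _).trans hk.2.2)])
  rwa [ordU_eq hr]

lemma le_exp_of_ordU (hq : Tendsto q U atTop) (hω : ω ≠ 0) {f : ℕ → ℚ}
    (h : germ U f ∈ tameO U q ω) (v : Option S) {r : ℝ} (hr : ordU U hS q v (germ U f) < r) :
    ∀ᶠ k in U, plAbs S hS v (f k) ≤ exp (r * q k) := by
  filter_upwards [(tendsto_ordU hq hω h v).eventually_lt_const hr, hq.eventually_gt_atTop 0]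
    with k hk hq
  rw [rate, div_lt_iff₀ hq] at hk
  exact (le_exp_log _).trans (exp_le_exp.mpr hk.le)

lemma ordU_le (hq : Tendsto q U atTop) (hω : ω ≠ 0) {f : ℕ → ℚ}
    (h : germ U f ∈ tameO U q ω) (v : Option S) {r : ℝ}
    (hr : ∀ᶠ k in U, plAbs S hS v (f k) ≤ exp (r * q k)) : ordU U hS q v (germ U f) ≤ r := by
  refine le_of_tendsto (tendsto_ordU hq hω h v) ?_
  filter_upwards [hr, hq.eventually_gt_atTop 0, ne_zero_of_mem hω h] with k hk hq h0
  rw [rate, div_le_iff₀ hq]
  exact (log_le_iff_le_exp ((plAbs S hS v).pos h0)).mpr hk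

lemma int_mem (hq : Tendsto q U atTop) {f : ℕ → ℤ} {C : ℝ}
    (h : ∀ᶠ k in U, f k ≠ 0 ∧ |(f k : ℝ)| ≤ exp (C * q k)) :
    germ U (fun k => f k) ∈ tameO U q ω := by
  refine ⟨f, 0, |C|, by simp, ?_⟩
  filter_upwards [h, hq.eventually_ge_atTop 0] with k hk hq
  exact ⟨hk.1, hk.2.trans (exp_le_exp.mpr (mul_le_mul_of_nonneg_right (le_abs_self C) hq)),
    by simp only [Pi.zero_apply, Nat.cast_zero]; positivity⟩

lemma abs_ordU_int (hq : Tendsto q U atTop) {f : ℕ → ℤ} {C : ℝ}
    (h : ∀ᶠ k in U, f k ≠ 0 ∧ |(f k : ℝ)| ≤ exp (C * q k)) (v : Option S) :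
    |ordU U hS q v (germ U fun k => f k)| ≤ C := by
  refine le_of_tendsto (tendsto_ordU (ω := 1) hq one_ne_zero (int_mem hq h) v).abs ?_
  filter_upwards [h, hq.eventually_gt_atTop 0] with k hk hq
  rw [rate, abs_div, abs_of_pos hq, div_le_iff₀ hq]
  exact (abs_log_plAbs_le v hk.1).trans
    ((log_le_iff_le_exp (abs_pos.mpr (by exact_mod_cast hk.1))).mpr hk.2)

lemma exists_int (hq : Tendsto q U atTop) (hω : ω ≠ 0) (hωS : ∀ p, p.Prime → p ∣ ω → p ∈ S)
    {z : UP U} (h : z ∈ tameO U q ω) (hz : ∀ p : S, ordU U hS q (some p) z < 0) :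
    ∃ f : ℕ → ℤ, z = germ U fun k => f k := by
  obtain ⟨g, m, C, rfl, h'⟩ := id h
  refine ⟨fun k => ((g k : ℚ) / ω ^ m k).num, germ_eq.mpr ?_⟩
  filter_upwards [eventually_all.mpr fun p => le_exp_of_ordU hq hω h (some p) (hz p)] with k hk
  exact (int_of_plAbs_le hω hωS _ _ (by simpa using hk)).symm

lemma sub_ordU (hq : Tendsto q U atTop) (hω : ω ≠ 0) (hωS : ∀ p, p.Prime → p ∣ ω → p ∈ S)
    (N : ℕ) (x : Fin N → UP U) (w : Option S → Fin N → UP U) (hx : ∀ i, x i ∈ tameO U q ω)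
    (hw : ∀ v i, w v i ∈ tameO U q ω) (ix : LinearIndependent ℚ x)
    (iw : ∀ v, LinearIndependent ℚ (w v))
    (hs : ∀ v i, w v i ∈ Submodule.span ℚ (Set.range x)) :
    0 ≤ ∑ v, ∑ i, ordU U hS q v (w v i) := by
  by_contra! hneg
  simp only [Submodule.mem_span_range_iff_exists_fun] at hs
  choose L hL using hs
  choose f m C hf hC using hx
  have hdet : ∀ v, (Matrix.of (L v)).det ≠ 0 := fun v => by
    have h1 : LinearIndependent ℚ (Matrix.of (L v)).row :=
      LinearIndependent.of_comp (Fintype.linearCombination ℚ x) (by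
        convert iw v using 1
        ext i
        exact hL v i)
    exact ((Matrix.isUnit_iff_isUnit_det _).mp
      (Matrix.linearIndependent_rows_iff_isUnit.mp h1)).ne_zero
  set δ := -∑ v, ∑ i, ordU U hS q v (w v i) with hδ
  have hδ0 : 0 < δ := neg_pos.mpr hneg
  set n : ℝ := Fintype.card (Option S) * N with hn
  have hn0 : 0 ≤ n := by positivity
  set ε := δ / (2 * (n + 1)) with hε
  have hε0 : 0 < ε := by positivity
  let W : Option S → Fin N → ℕ → ℚ := fun v i k => ∑ j, L v i j * (f j k / ω ^ m j k)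
  have hW : ∀ v i, w v i = germ U (W v i) := fun v i => by
    rw [← hL, ← germ_sum]
    exact sum_congr rfl fun j _ => by rw [hf, germ_smul]
  obtain ⟨ζ, hζ, h0⟩ := subspace S hS N (fun v => Matrix.of (L v)) hdet U q hq
    (∑ v, ∑ i, |ordU U hS q v (w v i)| + ε + (∑ j, C j) * log ω) (δ / 2) (by positivity)
    (fun k j => f j k * ω ^ (∑ j, m j k - m j k))
    (fun k v i => (ordU U hS q v (w v i) + ε) * q k + (∑ j, m j k : ℕ) * log (plAbs S hS v ω)) (by
      filter_upwards [eventually_all.mpr hC, hq.eventually_ge_atTop 0,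
        eventually_all.mpr fun v => eventually_all.mpr fun i => le_exp_of_ordU (hS := hS) hq hω
          (hW v i ▸ hw v i) v (lt_add_of_pos_right _ hε0)] with k h1 h2 h3
      refine ⟨fun v i => ?_, ?_, fun v i => ?_⟩
      · have a1 : |ordU U hS q v (w v i)| ≤ ∑ v, ∑ i, |ordU U hS q v (w v i)| :=
          (single_le_sum (f := fun i => |ordU U hS q v (w v i)|) (fun _ _ => abs_nonneg _)
            (mem_univ i)).trans (single_le_sum (f := fun v => ∑ i, |ordU U hS q v (w v i)|)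
            (fun _ _ => by positivity) (mem_univ v))
        have a2 := abs_log_plAbs_le (hS := hS) v (z := ω) (by exact_mod_cast hω)
        simp only [Int.cast_natCast, Nat.abs_cast] at a2
        have a3 : ((∑ j, m j k : ℕ) : ℝ) ≤ (∑ j, C j) * q k := by
          push_cast; rw [sum_mul]; exact sum_le_sum fun j _ => (h1 j).2.2
        have a4 := mul_le_mul a3 a2 (abs_nonneg _) ((Nat.cast_nonneg _).trans a3)
        have a5 := mul_le_mul_of_nonneg_right ((abs_add_le _ ε).trans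
          (add_le_add a1 (abs_of_pos hε0).le)) h2
        refine (abs_add_le _ _).trans ?_
        rw [abs_mul, abs_mul, Nat.abs_cast, abs_of_nonneg h2]
        linarith
      · simp only [sum_add_distrib, add_mul, ← sum_mul, sum_const, card_univ, nsmul_eq_mul,
          Fintype.card_fin, ← mul_sum, sum_log_plAbs hω hωS]
        have a1 : n * ε ≤ δ / 2 := by
          rw [hε, mul_div_assoc', div_le_div_iff₀ (by positivity) (by positivity)]
          nlinarith
        have a2 := mul_le_mul_of_nonneg_right a1 h2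
        rw [hn] at a2
        nlinarith
      · have e : ((Matrix.of (L v)).mulVec fun j =>
            ((f j k * ω ^ (∑ j, m j k - m j k) : ℤ) : ℚ)) i = W v i k * ω ^ (∑ j, m j k) := by
          simp only [W, Matrix.mulVec, dotProduct, Matrix.of_apply, sum_mul]
          refine sum_congr rfl fun j _ => ?_
          have : (ω : ℚ) ≠ 0 := by exact_mod_cast hω
          push_cast
          rw [pow_sub₀ _ this (single_le_sum (f := fun j => m j k) (fun _ _ => Nat.zero_le _)
            (mem_univ j))]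
          ring
        rw [e, map_mul, map_pow, exp_add, exp_nat_mul,
          exp_log ((plAbs S hS v).pos (by exact_mod_cast hω)), hW]
        exact mul_le_mul_of_nonneg_right (h3 v i) (pow_nonneg ((plAbs S hS v).nonneg _) _))
  refine hζ (funext (Fintype.linearIndependent_iff.mp ix ζ ?_))
  simp only [hf, germ_smul, germ_sum]
  refine germ_eq_zero.mpr (h0.mono fun k hk => ?_)
  have : (ω : ℚ) ≠ 0 := by exact_mod_cast hω
  refine mul_right_cancel₀ (pow_ne_zero (∑ j, m j k) this) ?_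
  rw [zero_mul, ← hk, sum_mul]
  refine sum_congr rfl fun j _ => ?_
  push_cast
  rw [pow_sub₀ _ this (single_le_sum (f := fun j => m j k) (fun _ _ => Nat.zero_le _)
    (mem_univ j))]
  ring

variable (hS)

/-- The model. -/
noncomputable def ctxU (hq : Tendsto q U atTop) (hω : ω ≠ 0)
    (hωS : ∀ p, p.Prime → p ∣ ω → p ∈ S) : Ctx (UP U) (Option S) where
  O := tameO U q ω
  ord := ordU U hS q
  ord_mul v x hx y hy := by
    obtain ⟨f, rfl⟩ := germ_surj x
    obtain ⟨g, rfl⟩ := germ_surj y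
    rw [← map_mul]
    refine ordU_eq (((tendsto_ordU hq hω hx v).add (tendsto_ordU hq hω hy v)).congr' ?_)
    filter_upwards [ne_zero_of_mem hω hx, ne_zero_of_mem hω hy] with k h1 h2
    simp only [rate, Pi.mul_apply, map_mul]
    rw [log_mul ((plAbs S hS v).ne_zero h1) ((plAbs S hS v).ne_zero h2), add_div]
  sub := sub_ordU hq hω hωS

/-- Elements of growth rate at most `r` at the real place. -/
def small (hq : Tendsto q U atTop) (r : ℝ) : Submodule ℚ (UP U) where
  carrier := {z | ∀ f, z = germ U f → ∀ ε > 0, ∀ᶠ k in U, |(f k : ℝ)| ≤ exp ((r + ε) * q k)}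
  zero_mem' f hf ε _ := (germ_eq_zero.mp hf.symm).mono fun k hk => by simp [hk, (exp_pos _).le]
  add_mem' := by
    intro x y hx hy f hf ε hε
    obtain ⟨g, rfl⟩ := germ_surj x
    obtain ⟨g', rfl⟩ := germ_surj y
    rw [← map_add, germ_eq] at hf
    filter_upwards [hf, hx g rfl (ε / 2) (by positivity), hy g' rfl (ε / 2) (by positivity),
      (hq.const_mul_atTop (r := ε / 2) (by positivity)).eventually_ge_atTop 1] with k h1 h2 h3 h4
    rw [← h1, Pi.add_apply, Rat.cast_add, show (r + ε) * q k = ε / 2 * q k + (r + ε / 2) * q k by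
      ring, exp_add]
    have := add_one_le_exp (ε / 2 * q k)
    nlinarith [abs_add_le (g k : ℝ) (g' k), exp_pos ((r + ε / 2) * q k)]
  smul_mem' := by
    intro c x hx f hf ε hε
    obtain ⟨g, rfl⟩ := germ_surj x
    rw [germ_smul, germ_eq] at hf
    filter_upwards [hf, hx g rfl (ε / 2) (by positivity),
      (hq.const_mul_atTop (r := ε / 2) (by positivity)).eventually_ge_atTop |(c : ℝ)|]
      with k h1 h2 h4
    rw [← h1, Rat.cast_mul, abs_mul, show (r + ε) * q k = ε / 2 * q k + (r + ε / 2) * q k by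
      ring, exp_add]
    have := add_one_le_exp (ε / 2 * q k)
    exact mul_le_mul (by linarith) h2 (abs_nonneg _) (exp_pos _).le

variable {hS}

lemma mem_small (hq : Tendsto q U atTop) (hω : ω ≠ 0) {z : UP U} (h : z ∈ tameO U q ω) {r : ℝ}
    (hr : ordU U hS q none z ≤ r) : z ∈ small hq r := by
  rintro f rfl ε hε
  exact le_exp_of_ordU (hS := hS) hq hω h none (by linarith)

lemma exists_int_of_span {z : UP U}
    (h : z ∈ Submodule.span ℚ {z : UP U | ∃ f : ℕ → ℤ, z = germ U fun k => f k}) :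
    ∃ (d : ℤ) (f : ℕ → ℤ), d ≠ 0 ∧ (d : ℚ) • z = germ U fun k => f k := by
  induction h using Submodule.span_induction with
  | mem x hx => obtain ⟨f, rfl⟩ := hx; exact ⟨1, f, one_ne_zero, by simp⟩
  | zero => exact ⟨1, 0, one_ne_zero, by rw [smul_zero, eq_comm, germ_eq_zero]; simp⟩
  | add x y _ _ hx hy =>
    obtain ⟨d, f, hd, e⟩ := hx
    obtain ⟨d', f', hd', e'⟩ := hy
    refine ⟨d * d', fun k => d' * f k + d * f' k, mul_ne_zero hd hd', ?_⟩
    rw [smul_add, Int.cast_mul, mul_smul _ _ y, e', mul_comm, mul_smul, e, germ_smul, germ_smul,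
      ← map_add]
    congr 1; ext k; simp
  | smul c x _ hx =>
    obtain ⟨d, f, hd, e⟩ := hx
    refine ⟨c.den * d, fun k => c.num * f k, mul_ne_zero (by simp) hd, ?_⟩
    rw [smul_smul, show ((c.den * d : ℤ) : ℚ) * c = c.num * d by
      rw [← Rat.mul_den_eq_num]; push_cast; ring, mul_smul, e, germ_smul]
    congr 1; ext k; simp

end Pool.Agent.Lib.MP_c9a594_an
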