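import Pool.Agent.Lib.MP_c9a594_an.Folner

/-!
# Two lacunary expressions of one number: the abstract argument
-/

open MvPolynomial Finset

namespace Pool.Agent.Lib.MP_c9a594_an

variable {K Pl : Type} [Field K] [CharZero K] [Fintype Pl] {r : ℕ}

/-- A relation module of rank one has a generator dividing any given relation. -/
lemma exists_generator {J : Type} [Fintype J] {g : Fin r → K}
    (hinj : ∀ F : MvPolynomial (Fin r) ℚ, aeval g F = 0 → F = 0) {E : Option J → K}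
    (hE : ∀ Ψ : J → MvPolynomial (Fin r) ℚ, ∑ j, aeval g (Ψ j) * E (some j) = 0 → ∀ j, Ψ j = 0)
    {Ψ : Option J → MvPolynomial (Fin r) ℚ} (h0 : Ψ none ≠ 0)
    (hΨ : ∑ j, aeval g (Ψ j) * E j = 0) :
    ∃ (G : MvPolynomial (Fin r) ℚ) (Φ : Option J → MvPolynomial (Fin r) ℚ),
      (∀ j, Ψ j = G * Φ j) ∧ ∑ j, aeval g (Φ j) * E j = 0 ∧
      ∀ Θ : Option J → MvPolynomial (Fin r) ℚ, ∑ j, aeval g (Θ j) * E j = 0 →
        ∃ T, ∀ j, Θ j = T * Φ j := by
  obtain ⟨_, ⟨Φ, ⟨G, hG⟩, rfl⟩, hmin⟩ := (wellFounded_dvdNotUnit (α := MvPolynomial (Fin r) ℚ)).has_min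
    ((fun Φ : Option J → MvPolynomial (Fin r) ℚ => Φ none) '' {Φ | ∃ G, ∀ j, Ψ j = G * Φ j})
    ⟨_, Ψ, ⟨1, fun j => (one_mul _).symm⟩, rfl⟩
  have hG0 : G ≠ 0 := by rintro rfl; exact h0 (by rw [hG, zero_mul])
  have hΦ0 : Φ none ≠ 0 := by intro h; exact h0 (by rw [hG, h, mul_zero])
  have hΦ : ∑ j, aeval g (Φ j) * E j = 0 := by
    have : aeval g G * ∑ j, aeval g (Φ j) * E j = 0 := by
      rw [← hΨ, mul_sum]
      exact sum_congr rfl fun j _ => by rw [hG, map_mul, mul_assoc]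
    exact (mul_eq_zero.mp this).resolve_left fun h => hG0 (hinj G h)
  refine ⟨G, Φ, hG, hΦ, fun Θ hΘ => ?_⟩
  have h1 : ∀ j, Φ none * Θ j = Θ none * Φ j := by
    have := hE (fun j => Φ none * Θ (some j) - Θ none * Φ (some j)) (by
      rw [Fintype.sum_option] at hΦ hΘ
      simp only [map_sub, map_mul, sub_mul, sum_sub_distrib, mul_assoc, ← mul_sum]
      linear_combination aeval g (Φ none) * hΘ - aeval g (Θ none) * hΦ)
    rintro (_ | j)
    · exact mul_comm _ _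
    · exact sub_eq_zero.mp (this j)
  obtain ⟨a, b, c, hab, ha, hb⟩ :=
    UniqueFactorizationMonoid.exists_reduced_factors' (Θ none) (Φ none) hΦ0
  have hc : c ≠ 0 := by rintro rfl; exact hΦ0 (by rw [← hb, zero_mul])
  have h2 : ∀ j, b * Θ j = a * Φ j := fun j => mul_left_cancel₀ hc (by
    rw [← mul_assoc, ← mul_assoc, ha, hb, h1])
  have h3 : ∀ j, b ∣ Φ j := fun j => hab.symm.dvd_of_dvd_mul_left ⟨Θ j, (h2 j).symm⟩
  choose Φ' hΦ' using h3
  have hb0 : b ≠ 0 := by rintro rfl; exact hΦ0 (by rw [← hb, mul_zero])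
  have hu : IsUnit b := by
    by_contra hu
    refine hmin (Φ' none) ⟨Φ', ⟨G * b, fun j => by rw [hG, hΦ', mul_assoc]⟩, rfl⟩
      ⟨fun h => hΦ0 (by rw [hΦ', h, mul_zero]), b, hu, ?_⟩
    show Φ none = _
    rw [hΦ', mul_comm]
  obtain ⟨b', hb'⟩ := hu.exists_left_inv
  exact ⟨b' * a, fun j => by rw [mul_assoc, ← h2, ← mul_assoc, hb', one_mul]⟩

lemma split_support (A B : MvPolynomial (Fin r) ℚ) : ∃ A0 A1 : MvPolynomial (Fin r) ℚ,
    A = A0 + A1 ∧ (∀ e ∈ A0.support, e ∈ A.support ∧ e ∈ B.support) ∧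
      ∀ e ∈ A1.support, e ∈ (A - B).support := by
  have h : ∀ e, coeff e (∑ a ∈ B.support, monomial a (coeff a A)) =
      if e ∈ B.support then coeff e A else 0 := fun e => by
    simp only [coeff_sum, coeff_monomial]
    exact sum_ite_eq' _ _ _
  refine ⟨∑ a ∈ B.support, monomial a (coeff a A), A - ∑ a ∈ B.support, monomial a (coeff a A),
    by ring, fun e he => ?_, fun e he => ?_⟩
  · rw [mem_support_iff, h] at he
    by_cases h1 : e ∈ B.support
    · rw [if_pos h1] at he; exact ⟨mem_support_iff.mpr he, h1⟩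
    · exact absurd (if_neg h1) he
  · rw [mem_support_iff, coeff_sub, h] at he
    by_cases h1 : e ∈ B.support
    · rw [if_pos h1, sub_self] at he; exact absurd rfl he
    · rw [if_neg h1] at he
      rwa [mem_support_iff, coeff_sub, notMem_support_iff.mp h1]

namespace Ctx

variable (X : Ctx K Pl) {g : Fin r → K}

lemma folner2 {J : Type} [Fintype J] (hg : ∀ i, g i ∈ X.O)
    (hg0 : ∀ i, ∑ v, X.ord v (g i) = 0) {E : J → K} (hE : ∀ j, E j ∈ X.O)
    (Φ : J → MvPolynomial (Fin r) ℚ) (hΦ : ∑ j, aeval g (Φ j) * E j = 0)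
    (hker : ∀ Ψ : J → MvPolynomial (Fin r) ℚ, ∑ j, aeval g (Ψ j) * E j = 0 →
      ∃ T, ∀ j, Ψ j = T * Φ j) (w : Pl) {j j' : J} {e e' : Fin r →₀ ℕ}
    (he : e ∈ (Φ j).support) (he' : e' ∈ (Φ j').support) :
    X.ord w (E j) + X.wt g w e - (X.ord w (E j') + X.wt g w e') + ∑ v, X.ord v (E j') ≤
      ∑ j, ∑ v, X.ord v (E j) := by
  classical
  have h := X.folner w hg hg0 hE Φ hΦ hker (fun v => if v = w then j else j')
    (fun v => if v = w then e else e') (fun v => by split_ifs; exacts [he, he'])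
  refine le_trans (le_of_eq ?_) h
  have h1 := X.sum_wt hg0 e'
  rw [← add_sum_erase _ _ (mem_univ w)] at h1 ⊢
  conv_rhs => rw [← add_sum_erase _ _ (mem_univ w), if_pos rfl, if_pos rfl,
    sum_congr rfl (g := fun v => X.ord v (E j') + X.wt g v e') fun v hv => by
      rw [if_neg (mem_erase.mp hv).1, if_neg (mem_erase.mp hv).1], sum_add_distrib]
  linarith

/-- Linear disjointness. -/
lemma disjoint {J : Type} [Fintype J] (hg : ∀ i, g i ∈ X.O) (hg0 : ∀ i, ∑ v, X.ord v (g i) = 0)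
    (hinj : ∀ F : MvPolynomial (Fin r) ℚ, aeval g F = 0 → F = 0) {E : Option J → K}
    (hEO : ∀ j, E j ∈ X.O)
    (hE : ∀ Ψ : J → MvPolynomial (Fin r) ℚ, ∑ j, aeval g (Ψ j) * E (some j) = 0 → ∀ j, Ψ j = 0)
    {Ψ : Option J → MvPolynomial (Fin r) ℚ} (h0 : Ψ none ≠ 0)
    (hΨ : ∑ j, aeval g (Ψ j) * E j = 0) (w : Pl) {l : J} {e : Fin r →₀ ℕ}
    (he : e ∈ (Ψ (some l)).support) : ∃ e0 ∈ (Ψ none).support,
      X.ord w (E (some l)) + X.wt g w e ≤
        X.ord w (E none) + X.wt g w e0 + ∑ j, ∑ v, X.ord v (E (some j)) := by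
  obtain ⟨G, Φ, hG, hΦ, hker⟩ := exists_generator hinj hE h0 hΨ
  rw [hG] at he h0
  obtain ⟨a, ha, b, hb, rfl⟩ := mem_add.mp (support_mul _ _ he)
  obtain ⟨a', ha1, ha2⟩ := exists_lead (fun i => X.ord w (g i)) (left_ne_zero_of_mul h0)
  obtain ⟨b', hb1, hb2⟩ := exists_lead (fun i => X.ord w (g i)) (right_ne_zero_of_mul h0)
  refine ⟨a' + b', hG none ▸ lead_mem _ ha1 hb1 ha2 hb2, ?_⟩
  have h1 := X.folner2 hg hg0 hEO Φ hΦ hker w hb hb1
  have h2 : X.wt g w a ≤ X.wt g w a' := weight_le_of_key _ (ha2 a ha)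
  rw [Fintype.sum_option] at h1
  rw [map_add, map_add]
  linarith

/-- All monomials of `F` have growth rates within `c` of those of `ρ`. -/
def Near (g : Fin r → K) (ρ : Fin r →₀ ℕ) (c : ℝ) (F : MvPolynomial (Fin r) ℚ) : Prop :=
  ∀ e ∈ F.support, ∀ w, |X.wt g w e - X.wt g w ρ| ≤ c

variable {X} in
lemma Near.mul {ρ ρ' : Fin r →₀ ℕ} {c c' : ℝ} {F G : MvPolynomial (Fin r) ℚ}
    (h : X.Near g ρ c F) (h' : X.Near g ρ' c' G) : X.Near g (ρ + ρ') (c + c') (F * G) := by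
  intro e he w
  obtain ⟨a, ha, b, hb, rfl⟩ := mem_add.mp (support_mul _ _ he)
  rw [map_add, map_add, add_sub_add_comm]
  exact (abs_add_le _ _).trans (add_le_add (h a ha w) (h' b hb w))

lemma near_monomial (a : Fin r →₀ ℕ) (c : ℚ) : X.Near g a 0 (monomial a c) := by
  intro e he w
  have : e = a := by simpa using support_monomial_subset he
  simp [this]

lemma near_prod {ι : Type*} (s : Finset ι) {ρ : ι → Fin r →₀ ℕ} {c : ℝ}
    {F : ι → MvPolynomial (Fin r) ℚ} (h : ∀ i, X.Near g (ρ i) c (F i)) :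
    X.Near g (∑ i ∈ s, ρ i) (s.card * c) (∏ i ∈ s, F i) := by
  classical
  induction s using Finset.induction_on with
  | empty => simpa using X.near_monomial (g := g) 0 1
  | insert a s ha ih =>
    rw [sum_insert ha, prod_insert ha, card_insert_of_notMem ha]
    convert (h a).mul ih using 1
    push_cast; ring

/-- The spread of a primitive relation is bounded. -/
lemma spread {J : Type} [Fintype J] (hg : ∀ i, g i ∈ X.O) (hg0 : ∀ i, ∑ v, X.ord v (g i) = 0)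
    (hinj : ∀ F : MvPolynomial (Fin r) ℚ, aeval g F = 0 → F = 0) {E : Option J → K} {c : ℝ}
    (hc : 0 ≤ c) {n : ℕ} (hn : Fintype.card J ≤ n)
    (hEO : ∀ j, E j = 0 ∨ E j ∈ X.O ∧ ∀ v, |X.ord v (E j)| ≤ c) (hEO' : ∀ j, E (some j) ≠ 0)
    (hE : ∀ Ψ : J → MvPolynomial (Fin r) ℚ, ∑ j, aeval g (Ψ j) * E (some j) = 0 → ∀ j, Ψ j = 0)
    {Ψ : Option J → MvPolynomial (Fin r) ℚ} (h0 : Ψ none ≠ 0)
    (hΨ : ∑ j, aeval g (Ψ j) * E j = 0) :
    ∃ (Φ : Option J → MvPolynomial (Fin r) ℚ) (ρ : Fin r →₀ ℕ), Φ none ≠ 0 ∧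
      ∑ j, aeval g (Φ j) * E j = 0 ∧
      ∀ j, X.Near g ρ ((2 + (n + 2) * Fintype.card Pl) * c) (Φ j) := by
  by_cases hz : E none = 0
  · refine ⟨fun j => j.elim 1 fun _ => 0, 0, one_ne_zero, by simp [hz], ?_⟩
    rintro (_ | j)
    · exact fun e he w => (X.near_monomial (g := g) 0 1 e he w).trans (by positivity)
    · intro e he; simp at he
  have hO : ∀ j, E j ∈ X.O ∧ ∀ v, |X.ord v (E j)| ≤ c := by
    rintro (_ | j)
    exacts [(hEO _).resolve_left hz, (hEO _).resolve_left (hEO' j)]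
  obtain ⟨G, Φ, hG, hΦ, hker⟩ := exists_generator hinj hE h0 hΨ
  rw [hG] at h0
  obtain ⟨ρ, hρ⟩ := support_nonempty.mpr (right_ne_zero_of_mul h0)
  refine ⟨Φ, ρ, right_ne_zero_of_mul h0, hΦ, fun j e he w => ?_⟩
  have h1 := X.folner2 hg hg0 (fun j => (hO j).1) Φ hΦ hker w he hρ
  have h2 := X.folner2 hg hg0 (fun j => (hO j).1) Φ hΦ hker w hρ he
  have h3 : ∀ j, |∑ v, X.ord v (E j)| ≤ Fintype.card Pl * c := fun j =>
    (abs_sum_le_sum_abs _ _).trans (by simpa using sum_le_sum (s := univ) fun v _ => (hO j).2 v)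
  have h4 : ∑ j, ∑ v, X.ord v (E j) ≤ (n + 1) * (Fintype.card Pl * c) := by
    have := sum_le_sum (s := univ) fun j _ => (abs_le.mp (h3 j)).2
    simp only [sum_const, card_univ, Fintype.card_option, nsmul_eq_mul] at this
    refine this.trans (mul_le_mul_of_nonneg_right ?_ (by positivity))
    exact_mod_cast Nat.succ_le_succ hn
  have h5 := abs_le.mp ((hO j).2 w)
  have h6 := abs_le.mp ((hO none).2 w)
  have h7 := abs_le.mp (h3 j)
  have h8 := abs_le.mp (h3 none)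
  rw [abs_le]
  constructor <;> linarith

lemma inv_mon_mem (hg' : ∀ i, (g i)⁻¹ ∈ X.O) (a : Fin r →₀ ℕ) : (mon g a)⁻¹ ∈ X.O := by
  have := X.mon_mem hg' a
  simpa [mon] using this

lemma ord_frac (hg : ∀ i, g i ∈ X.O) (hg' : ∀ i, (g i)⁻¹ ∈ X.O) (hne : ∀ i, g i ≠ 0) {y : K}
    (hy : y ∈ X.O) (a b : Fin r →₀ ℕ) : y * mon g a * (mon g b)⁻¹ ∈ X.O ∧
      ∀ w, X.ord w (y * mon g a * (mon g b)⁻¹) = X.ord w y + X.wt g w a - X.wt g w b := by
  have h1 := X.mon_mem hg a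
  have h2 := X.inv_mon_mem hg' b
  refine ⟨X.O.mul_mem (X.O.mul_mem hy h1) h2, fun w => ?_⟩
  have h3 := X.ord_mul w _ (X.mon_mem hg b) _ h2
  have h4 : mon g b ≠ 0 := prod_ne_zero_iff.mpr fun i _ => pow_ne_zero _ (hne i)
  rw [mul_inv_cancel₀ h4, X.ord_one, X.ord_mon hg] at h3
  rw [X.ord_mul w _ (X.O.mul_mem hy h1) _ h2, X.ord_mul w _ hy _ h1, X.ord_mon hg]
  linarith

end Ctx

lemma mem_span_of_support {g : Fin r → K} {Z : Set K} {F : MvPolynomial (Fin r) ℚ} {y z : K}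
    (h : ∀ e ∈ F.support, y * mon g e * z ∈ Z) : aeval g F * y * z ∈ Submodule.span ℚ Z := by
  rw [aeval_eq_sum, sum_mul, sum_mul]
  refine Submodule.sum_mem _ fun e he => ?_
  rw [smul_mul_assoc, smul_mul_assoc, mul_comm (mon g e)]
  exact Submodule.smul_mem _ _ (Submodule.subset_span (h e he))

/-- The constant of `Ctx.main`. -/
def kap (n p : ℕ) (c C : ℝ) : ℝ := (1 + 2 * C) * (n * ((2 + (n + 2) * p) * c)) + c + n * (p * c)

/-- The abstract form of the Diophantine statement. -/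
theorem Ctx.main (X : Ctx K Pl) (v0 : Pl) {g : Fin r → K} (hg : ∀ i, g i ∈ X.O)
    (hg' : ∀ i, (g i)⁻¹ ∈ X.O) (hg0 : ∀ i, ∑ v, X.ord v (g i) = 0)
    (hinj : ∀ F : MvPolynomial (Fin r) ℚ, aeval g F = 0 → F = 0)
    {J T T' : Type} [Fintype J] [Fintype T] [Fintype T'] (V : J → K) {c : ℝ} (hc : 0 ≤ c)
    (hV : ∀ j, V j = 0 ∨ V j ∈ X.O ∧ ∀ v, |X.ord v (V j)| ≤ c) (e : T → J) (e' : T' → J)
    (k : T → ℚ) (k' : T' → ℚ) (u : T → Fin r →₀ ℕ) (u' : T' → Fin r →₀ ℕ) (u0 : Fin r →₀ ℕ)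
    (x Λ : K) (hx : mon g u0 * x = ∑ t, k t • (mon g (u t) * V (e t)))
    (hΛ : mon g u0 * (x - Λ) = ∑ t, k' t • (mon g (u' t) * V (e' t))) {Kc C : ℝ} (hC : 0 ≤ C)
    (hΛ' : Λ = 0 ∨ Λ ∈ X.O ∧ X.ord v0 Λ ≤ -Kc)
    (hsep : ∀ t t' R, (∀ w, |X.wt g w (u t) - X.wt g w (u' t')| ≤ R) →
      ∀ w, |X.wt g w (u t) - X.wt g w u0| ≤ C * R) :
    ∃ P Q : K, Q ≠ 0 ∧
      Q ∈ Submodule.span ℚ {z | z ∈ X.O ∧
        ∀ w, |X.ord w z| ≤ kap (Fintype.card J) (Fintype.card Pl) c C} ∧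
      P ∈ Submodule.span ℚ {z | z ∈ X.O ∧
        ∀ w, |X.ord w z| ≤ kap (Fintype.card J) (Fintype.card Pl) c C} ∧
      Q * x - P ∈ Submodule.span ℚ {z | z ∈ X.O ∧
        X.ord v0 z ≤ kap (Fintype.card J) (Fintype.card Pl) c C - Kc} := by
  classical
  have hne : ∀ i, g i ≠ 0 := fun i h => X_ne_zero (R := ℚ) i (hinj _ (by rw [aeval_X, h]))
  have hmon : ∀ a, mon g a ≠ 0 := fun a => prod_ne_zero_iff.mpr fun i _ => pow_ne_zero _ (hne i)
  obtain ⟨s, hE, hrel⟩ : ∃ s : Set J, (∀ Ψ : s → MvPolynomial (Fin r) ℚ,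
      ∑ j, aeval g (Ψ j) * V j = 0 → ∀ j, Ψ j = 0) ∧ ∀ i, ∃ Ψ : Option s → MvPolynomial (Fin r) ℚ,
      Ψ none ≠ 0 ∧ ∑ j, aeval g (Ψ j) * (j.elim (V i) fun l => V l) = 0 := by
    let : Algebra (MvPolynomial (Fin r) ℚ) K := (aeval g).toRingHom.toAlgebra
    obtain ⟨s, h1, h2⟩ := exists_maximal_linearIndepOn (MvPolynomial (Fin r) ℚ) V
    refine ⟨s, Fintype.linearIndependent_iff.mp h1, fun i => ?_⟩
    obtain ⟨a, ha, h3⟩ : ∃ a : MvPolynomial (Fin r) ℚ, a ≠ 0 ∧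
        a • V i ∈ Submodule.span (MvPolynomial (Fin r) ℚ) (V '' s) := by
      by_cases hi : i ∈ s
      · exact ⟨1, one_ne_zero, by rw [one_smul]; exact Submodule.subset_span ⟨i, hi, rfl⟩⟩
      · exact h2 i hi
    rw [Set.image_eq_range, Submodule.mem_span_range_iff_exists_fun] at h3
    obtain ⟨f, hf⟩ := h3
    refine ⟨fun j => j.elim (-a) f, neg_ne_zero.mpr ha, ?_⟩
    rw [Fintype.sum_option]
    change aeval g (-a) * V i + ∑ j : s, f j • V j = 0
    rw [hf, map_neg, neg_mul]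
    exact neg_add_cancel _
  have hEne : ∀ j : s, V j ≠ 0 := fun j hj => by
    have := hE (Pi.single j 1) (by
      rw [sum_eq_single j (fun b _ hb => by simp [hb]) (by simp), hj, mul_zero]) j
    simp at this
  have hEO : ∀ j : s, V j ∈ X.O ∧ ∀ v, |X.ord v (V j)| ≤ c := fun j =>
    (hV j).resolve_left (hEne j)
  set n := Fintype.card J
  set p := Fintype.card Pl
  have hn : Fintype.card s ≤ n := Fintype.card_subtype_le _
  set c1 : ℝ := (2 + (n + 2) * p) * c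
  have hsp : ∀ i, ∃ (Φ : Option s → MvPolynomial (Fin r) ℚ) (ρ : Fin r →₀ ℕ), Φ none ≠ 0 ∧
      ∑ j, aeval g (Φ j) * (j.elim (V i) fun l => V l) = 0 ∧ ∀ j, X.Near g ρ c1 (Φ j) := by
    intro i
    obtain ⟨Ψ, h0, hΨ⟩ := hrel i
    exact X.spread hg hg0 hinj hc hn (by rintro (_ | j); exacts [hV _, hV _]) hEne hE h0 hΨ
  choose Φ ρ hΦ0 hΦ hnear using hsp
  let N : J → s → MvPolynomial (Fin r) ℚ := fun i l =>
    ∏ j, if j = i then -Φ j (some l) else Φ j none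
  have hN : ∀ i l, X.Near g (∑ j, ρ j) (n * c1) (N i l) := fun i l =>
    X.near_prod univ fun j => by
      split_ifs
      · exact fun a ha => hnear j _ a (by simpa using ha)
      · exact hnear j _
  set Δ := ∏ j, Φ j none with hΔ
  have hΔn : X.Near g (u0 + ∑ j, ρ j) (0 + n * c1) (monomial u0 1 * Δ) :=
    (X.near_monomial u0 1).mul (X.near_prod univ fun j => hnear j none)
  have hΔV : ∀ i, aeval g Δ * V i = ∑ l, aeval g (N i l) * V l := fun i => by
    have h1 := hΦ i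
    rw [Fintype.sum_option] at h1
    have h2 : ∀ l, N i l = -Φ i (some l) * ∏ j ∈ univ.erase i, Φ j none := fun l => by
      simp only [N]
      rw [← mul_prod_erase _ _ (mem_univ i), if_pos rfl]
      exact congrArg _ (prod_congr rfl fun j hj => if_neg (mem_erase.mp hj).1)
    rw [hΔ, ← mul_prod_erase _ _ (mem_univ i)]
    simp only [h2, map_mul, map_neg, mul_right_comm _ (aeval g (∏ j ∈ univ.erase i, Φ j none)),
      ← sum_mul, neg_mul, sum_neg_distrib]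
    simp only [Option.elim] at h1
    rw [eq_neg_of_add_eq_zero_left h1, neg_mul]
  have hsum : ∀ {T : Type} [Fintype T] (e : T → J) (k : T → ℚ) (u : T → Fin r →₀ ℕ),
      aeval g Δ * ∑ t, k t • (mon g (u t) * V (e t)) =
      ∑ l, aeval g (∑ t, monomial (u t) (k t) * N (e t) l) * V l := by
    intro T _ e k u
    simp only [map_sum, sum_mul, map_mul, aeval_monomial_eq]
    rw [sum_comm, mul_sum]
    refine sum_congr rfl fun t _ => ?_
    simp only [mul_assoc, smul_mul_assoc, mul_smul_comm]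
    rw [mul_left_comm, hΔV, mul_sum, Finset.smul_sum]
  have hsupp : ∀ {T : Type} [Fintype T] (e : T → J) (k : T → ℚ) (u : T → Fin r →₀ ℕ) l a,
      a ∈ (∑ t, monomial (u t) (k t) * N (e t) l).support →
      ∃ t, ∀ w, |X.wt g w a - X.wt g w (u t + ∑ j, ρ j)| ≤ 0 + n * c1 := by
    intro T _ e k u l a ha
    obtain ⟨t, -, ht⟩ := mem_biUnion.mp (support_sum ha)
    exact ⟨t, ((X.near_monomial (u t) (k t)).mul (hN _ l)) a ht⟩
  set A : s → MvPolynomial (Fin r) ℚ := fun l => ∑ t, monomial (u t) (k t) * N (e t) l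
  set B : s → MvPolynomial (Fin r) ℚ := fun l => ∑ t, monomial (u' t) (k' t) * N (e' t) l
  have hA : aeval g (monomial u0 1 * Δ) * x = ∑ l, aeval g (A l) * V l := by
    rw [← hsum, ← hx, map_mul, aeval_monomial_eq, one_smul]; ring
  have hB : aeval g (monomial u0 1 * Δ) * (x - Λ) = ∑ l, aeval g (B l) * V l := by
    rw [← hsum, ← hΛ, map_mul, aeval_monomial_eq, one_smul]; ring
  have hΔ0 : monomial u0 (1 : ℚ) * Δ ≠ 0 :=
    mul_ne_zero (by simp) (prod_ne_zero_iff.mpr fun j _ => hΦ0 j)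
  choose A0 A1 hA01 hA0 hA1 using fun l => split_support (A l) (B l)
  set ρ0 := u0 + ∑ j, ρ j
  have hc1 : 0 ≤ c1 := by positivity
  have hkap : kap n p c C = (1 + 2 * C) * (n * c1) + c + n * (p * c) := rfl
  have hp1 : 0 ≤ C * (n * c1) := by positivity
  have hp2 : 0 ≤ n * (p * c) := by positivity
  have hp3 : 0 ≤ n * c1 := by positivity
  refine ⟨∑ l, aeval g (A0 l) * V l * (mon g ρ0)⁻¹,
    aeval g (monomial u0 1 * Δ) * 1 * (mon g ρ0)⁻¹, ?_, ?_, ?_, ?_⟩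
  · exact mul_ne_zero (mul_ne_zero (fun h => hΔ0 (hinj _ h)) one_ne_zero) (inv_ne_zero (hmon _))
  · refine mem_span_of_support fun a ha => ?_
    obtain ⟨h1, h2⟩ := X.ord_frac hg hg' hne X.O.one_mem a ρ0
    refine ⟨h1, fun w => ?_⟩
    rw [h2, X.ord_one, zero_add]
    refine (hΔn a ha w).trans ?_
    linarith
  · refine Submodule.sum_mem _ fun l _ => mem_span_of_support fun a ha => ?_
    obtain ⟨h1, h2⟩ := X.ord_frac hg hg' hne (hEO l).1 a ρ0
    refine ⟨h1, fun w => ?_⟩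
    obtain ⟨t, ht⟩ := hsupp e k u l a (hA0 l a ha).1
    obtain ⟨t', ht'⟩ := hsupp e' k' u' l a (hA0 l a ha).2
    have h3 := abs_le.mp (hsep t t' (2 * (n * c1)) (fun w => by
      have h4 := abs_le.mp (ht w)
      have h5 := abs_le.mp (ht' w)
      rw [map_add] at h4 h5
      rw [abs_le]
      constructor <;> linarith) w)
    have h4 := abs_le.mp (ht w)
    have h5 := abs_le.mp ((hEO l).2 w)
    rw [map_add] at h4
    rw [h2, map_add, abs_le]
    constructor <;> linarith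
  · have e1 : aeval g (monomial u0 1 * Δ) * 1 * (mon g ρ0)⁻¹ * x -
        ∑ l, aeval g (A0 l) * V l * (mon g ρ0)⁻¹ = ∑ l, aeval g (A1 l) * V l * (mon g ρ0)⁻¹ := by
      rw [mul_one, mul_right_comm, hA, sum_mul, ← sum_sub_distrib]
      exact sum_congr rfl fun l _ => by rw [hA01 l, map_add]; ring
    rw [e1]
    refine Submodule.sum_mem _ fun l _ => mem_span_of_support fun a ha => ?_
    obtain ⟨h1, h2⟩ := X.ord_frac hg hg' hne (hEO l).1 a ρ0
    refine ⟨h1, ?_⟩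
    have h3 : aeval g (monomial u0 1 * Δ) * Λ + ∑ l, aeval g (B l - A l) * V l = 0 := by
      simp only [map_sub, sub_mul, sum_sub_distrib]
      linear_combination hA - hB
    have ha' : a ∈ (B l - A l).support := by
      rw [← neg_sub, support_neg]; exact hA1 l a ha
    rcases hΛ' with h0 | ⟨h4, h5⟩
    · rw [h0, mul_zero, zero_add] at h3
      rw [hE _ h3 l] at ha'
      simp at ha'
    obtain ⟨e0, he0, h6⟩ := X.disjoint hg hg0 hinj (E := fun j => j.elim Λ fun l : s => V l)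
      (by rintro (_ | j); exacts [h4, (hEO j).1]) hE
      (Ψ := fun j => j.elim (monomial u0 1 * Δ) fun l => B l - A l) hΔ0
      (by rw [Fintype.sum_option]; exact h3) v0 (l := l) ha'
    have h7 := abs_le.mp (hΔn e0 he0 v0)
    have h8 : ∑ j : s, ∑ v, X.ord v (V j) ≤ n * (p * c) := by
      have := sum_le_sum (s := univ) fun (j : s) _ =>
        sum_le_sum (s := univ) fun v _ => (abs_le.mp ((hEO j).2 v)).2
      simp only [sum_const, card_univ, nsmul_eq_mul] at this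
      refine this.trans (mul_le_mul_of_nonneg_right ?_ (by positivity))
      exact_mod_cast hn
    simp only [Option.elim] at h6
    rw [h2]
    linarith

end Pool.Agent.Lib.MP_c9a594_an
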