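import Pool.Agent.Lib.MP_c9a594_an.Indep

/-!
# Lacunary sums in two independent bases that nearly agree are nearly rational
-/

open Filter Topology Real Finset Pool.Agent.Subspace

namespace Pool.Agent.Lib.MP_c9a594_an

variable {U : Ultrafilter ℕ} {q : ℕ → ℝ} {ω : ℕ}

lemma exists_const {α : Type} (U : Ultrafilter ℕ) (f : ℕ → α) {T : Set α} (hT : T.Finite)
    (h : ∀ k, f k ∈ T) : ∃ c, ∀ᶠ k in U, f k = c := by
  obtain ⟨c, -, hc⟩ := Ultrafilter.eq_pure_of_finite_mem (f := U.map f) hT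
    (Eventually.of_forall h : ∀ᶠ k in U, f k ∈ T)
  have : {c} ∈ U.map f := by rw [hc]; simp
  exact ⟨c, this⟩

lemma int_mem_or (hq : Tendsto q U atTop) {f : ℕ → ℤ} {C : ℝ}
    (h : ∀ᶠ k in U, |(f k : ℝ)| ≤ exp (C * q k)) :
    germ U (fun k => f k) = 0 ∨ ∀ᶠ k in U, f k ≠ 0 ∧ |(f k : ℝ)| ≤ exp (C * q k) := by
  by_cases h0 : ∀ᶠ k in U, f k = 0
  · exact Or.inl (germ_eq_zero.mpr (h0.mono fun k hk => by simp [hk]))
  · exact Or.inr ((Ultrafilter.eventually_not.mpr h0).and h)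

lemma add_mem_or (hq : Tendsto q U atTop) (hω : ω ≠ 0) {x y : UP U}
    (hx : x = 0 ∨ x ∈ tameO U q ω) (hy : y = 0 ∨ y ∈ tameO U q ω) :
    x + y = 0 ∨ x + y ∈ tameO U q ω := by
  rcases hx with rfl | ⟨f, m, C, rfl, h⟩
  · rwa [zero_add]
  rcases hy with rfl | ⟨f', m', C', rfl, h'⟩
  · rw [add_zero]; exact Or.inr ⟨f, m, C, rfl, h⟩
  have h0 : (ω : ℚ) ≠ 0 := by exact_mod_cast hω
  have e : germ U (fun k => f k / ω ^ m k) + germ U (fun k => f' k / ω ^ m' k) =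
      germ U fun k => (f k * ω ^ m' k + f' k * ω ^ m k : ℤ) / ω ^ (m k + m' k) := by
    rw [← map_add]; congr 1; ext k
    simp only [Pi.add_apply]
    push_cast; field_simp; ring
  rw [e]
  by_cases hz : ∀ᶠ k in U, f k * ω ^ m' k + f' k * ω ^ m k = 0
  · exact Or.inl (germ_eq_zero.mpr (hz.mono fun k hk => by rw [hk]; simp))
  refine Or.inr ⟨_, fun k => m k + m' k, 1 + (C + C') * (1 + log ω), rfl, ?_⟩
  filter_upwards [h, h', Ultrafilter.eventually_not.mpr hz, hq.eventually_ge_atTop 1]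
    with k h1 h2 h3 h4
  have a1 : 0 ≤ C * q k := (Nat.cast_nonneg _).trans h1.2.2
  have a2 : 0 ≤ C' * q k := (Nat.cast_nonneg _).trans h2.2.2
  have a3 : 0 ≤ log (ω : ℝ) := log_natCast_nonneg _
  have a4 : ∀ {z : ℤ} {n : ℕ} {A B : ℝ}, |(z : ℝ)| ≤ exp A → (n : ℝ) ≤ B →
      |(z : ℝ) * ω ^ n| ≤ exp (A + B * log ω) := fun {z n A B} hz hn => by
    rw [abs_mul, exp_add, abs_of_nonneg (a := (ω : ℝ) ^ n) (by positivity)]
    refine mul_le_mul hz ?_ (by positivity) (exp_pos _).le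
    rw [← exp_log (x := ω) (by positivity), ← exp_nat_mul, log_exp]
    exact exp_le_exp.mpr (mul_le_mul_of_nonneg_right hn a3)
  refine ⟨h3, ?_, by push_cast; nlinarith [h1.2.2, h2.2.2]⟩
  have b1 := (a4 h1.2.1 h2.2.2).trans (exp_le_exp.mpr
    (show _ ≤ (C + C') * (1 + log ω) * q k by nlinarith))
  have b2 := (a4 h2.2.1 h1.2.2).trans (exp_le_exp.mpr
    (show _ ≤ (C + C') * (1 + log ω) * q k by nlinarith))
  have b3 := add_one_le_exp (q k)
  push_cast
  rw [add_mul, one_mul, exp_add]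
  nlinarith [abs_add_le ((f k : ℝ) * ω ^ m' k) (f' k * ω ^ m k),
    exp_pos ((C + C') * (1 + log ω) * q k)]

lemma mul_mem_or {x y : UP U} (hx : x = 0 ∨ x ∈ tameO U q ω) (hy : y = 0 ∨ y ∈ tameO U q ω) :
    x * y = 0 ∨ x * y ∈ tameO U q ω := by
  rcases hx with rfl | hx
  · simp
  rcases hy with rfl | hy
  · simp
  exact Or.inr (Submonoid.mul_mem _ hx hy)

lemma zsmul_mem_or (hq : Tendsto q U atTop) (s : ℤ) {x : UP U} (hx : x = 0 ∨ x ∈ tameO U q ω) :
    (s : ℚ) • x = 0 ∨ (s : ℚ) • x ∈ tameO U q ω := by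
  have e : (s : ℚ) • x = germ U (fun _ => s) * x := by
    obtain ⟨f, rfl⟩ := germ_surj x
    rw [germ_smul, ← map_mul]; rfl
  rw [e]
  refine mul_mem_or ((int_mem_or hq (f := fun _ => s) (C := 1) ?_).imp_right (int_mem hq)) hx
  filter_upwards [hq.eventually_ge_atTop |(s : ℝ)|] with k hk
  linarith [add_one_le_exp (1 * q k)]

lemma mul_mem_of_span {W z : UP U} {Z : Set (UP U)} {N : Submodule ℚ (UP U)}
    (h : ∀ z ∈ Z, W * z ∈ N) (hz : z ∈ Submodule.span ℚ Z) : W * z ∈ N :=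
  (Submodule.span_le (p := N.comap (LinearMap.mulLeft ℚ W))).mpr h hz

variable {a b : ℕ}

lemma gm_const (c : ℤ × ℤ) (z : UP U) :
    gm U a b (fun _ => c) * z = ((a : ℚ) ^ c.1 * (b : ℚ) ^ c.2) • z := by
  obtain ⟨f, rfl⟩ := germ_surj z
  rw [germ_smul, gm, ← map_mul]; rfl

/-- Writing finitely many monomials in terms of independent ones. -/
lemma exists_monomials (ha : a ≠ 0) (hb : b ≠ 0) {ι : Type} [Fintype ι] (γ : ι → ℕ → ℤ × ℤ)
    (hγ : ∀ t, γ t ∈ tameE U q) :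
    ∃ (r : ℕ) (g : Fin r → ℕ → ℤ × ℤ) (u : ι → Fin r →₀ ℕ) (u0 : Fin r →₀ ℕ) (c : ι → ℤ × ℤ),
      (∀ i, g i ∈ tameE U q) ∧ (∀ n : Fin r → ℤ, ∑ i, n i • g i ∈ stdE U → ∀ i, n i = 0) ∧
      ∀ t, mon (fun i => gm U a b (g i)) u0 * gm U a b (γ t) =
        gm U a b (fun _ => c t) * mon (fun i => gm U a b (g i)) (u t) := by
  obtain ⟨r, g, u, hg, hu, hi⟩ := exists_presentation (stdE U) stdE_pure γ
  choose c hc using hu
  refine ⟨r, g,
    fun t => Finsupp.equivFunOnFinite.symm fun i => (u t i + ∑ t, (u t i).natAbs).toNat,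
    Finsupp.equivFunOnFinite.symm fun i => ∑ t, (u t i).natAbs, c,
    fun i => Submodule.span_le.mpr (Set.range_subset_iff.mpr hγ) (hg i), hi, fun t => ?_⟩
  rw [mon_gm ha hb, mon_gm ha hb, ← gm_add ha hb, ← gm_add ha hb, gm, gm, germ_eq]
  filter_upwards [hc t] with k hk
  have e : ∀ i, (((u t i + ∑ t, (u t i).natAbs).toNat : ℕ) : ℤ) =
      u t i + (∑ t, (u t i).natAbs : ℕ) := fun i => Int.toNat_of_nonneg (by
    have := single_le_sum (f := fun t => (u t i).natAbs) (fun _ _ => Nat.zero_le _) (mem_univ t)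
    omega)
  simp only [Finsupp.coe_equivFunOnFinite_symm, e, add_smul, sum_add_distrib, Pi.add_apply]
  rw [← hk, Pi.sub_apply, ← add_assoc, sub_add_cancel, add_comm (γ t k)]

set_option maxHeartbeats 400000 in
theorem dioph (a b : ℕ) (ha : 2 ≤ a) (hb : 2 ≤ b)
    (hab : ∀ k l : ℕ, 0 < k → 0 < l → a ^ k ≠ b ^ l) (D D' : ℕ) (c : ℝ) :
    ∃ κ : ℝ, ∀ (M M' : ℕ) (B K : ℝ), ∃ n0 : ℕ, ∀ n ≥ n0,
    ∀ (V : Fin D → ℤ) (V' : Fin D' → ℤ) (s : Fin M → ℤ) (s' : Fin M' → ℤ)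
      (i : Fin M → ℕ) (i' : Fin M' → ℕ) (e : Fin M → Fin D) (e' : Fin M' → Fin D'),
      (∀ j, |(V j : ℝ)| ≤ exp (c * n)) → (∀ j, |(V' j : ℝ)| ≤ exp (c * n)) →
      (∀ t, |s t| ≤ 1) → (∀ t, |s' t| ≤ 1) →
      (∀ t, (i t : ℝ) ≤ B * n) → (∀ t, (i' t : ℝ) ≤ B * n) →
      |∑ t, (s t * V (e t) : ℝ) / a ^ i t - ∑ t, (s' t * V' (e' t) : ℝ) / b ^ i' t|
        ≤ exp (-K * n) →
      ∃ P Q : ℤ, Q ≠ 0 ∧ |(Q : ℝ)| ≤ exp (κ * n) ∧
        |Q * (∑ t, (s t * V (e t) : ℝ) / a ^ i t) - P| ≤ exp ((κ - K) * n) := by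
  have ha0 : a ≠ 0 := by omega
  have hb0 : b ≠ 0 := by omega
  have hω := mul_ne_zero ha0 hb0
  set S := (a * b).primeFactors
  have hS : ∀ p ∈ S, p.Prime := fun p => Nat.prime_of_mem_primeFactors
  have hωS : ∀ p, p.Prime → p ∣ a * b → p ∈ S := fun p hp h =>
    Nat.mem_primeFactors.mpr ⟨hp, h, hω⟩
  obtain ⟨C0, hC0, hCr⟩ := exists_cramer hS ha hb hab hωS
  set κ0 := kap (Fintype.card (Fin D ⊕ Fin D')) (Fintype.card (Option S)) |c| (C0 * log a)
  obtain ⟨M0, hM0⟩ := exists_nat_gt (κ0 / log 2)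
  rw [div_lt_iff₀ (log_pos one_lt_two)] at hM0
  refine ⟨κ0 + M0 * (log a + log b) + 1, fun M M' B K => ?_⟩
  by_contra hbad
  simp only [not_exists, not_forall] at hbad
  choose n hn V V' s s' i i' e e' hV hV' hs hs' hi hi' hΛ hno using hbad
  let U := Ultrafilter.of (atTop : Filter ℕ)
  let q : ℕ → ℝ := fun k => n k
  have hq : Tendsto q U atTop := (tendsto_natCast_atTop_atTop.comp
    (tendsto_atTop_mono hn tendsto_id)).mono_left (Ultrafilter.of_le _)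
  obtain ⟨s0, hs0⟩ := exists_const U s (Set.Finite.pi' fun _ => Set.finite_Icc (-1) 1)
    fun k t => abs_le.mp (hs k t)
  obtain ⟨s0', hs0'⟩ := exists_const U s' (Set.Finite.pi' fun _ => Set.finite_Icc (-1) 1)
    fun k t => abs_le.mp (hs' k t)
  obtain ⟨e0, he0⟩ := exists_const U e Set.finite_univ fun _ => trivial
  obtain ⟨e0', he0'⟩ := exists_const U e' Set.finite_univ fun _ => trivial
  let γ : Fin M ⊕ Fin M' → ℕ → ℤ × ℤ :=
    Sum.elim (fun t k => (-i k t, 0)) fun t k => (0, -i' k t)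
  have hγ : ∀ t, γ t ∈ tameE U q := by
    rintro (t | t)
    · exact ⟨B, Eventually.of_forall fun k => by simpa [γ] using hi k t⟩
    · exact ⟨B, Eventually.of_forall fun k => by simpa [γ] using hi' k t⟩
  obtain ⟨r, g, u, u0, c0, hg, hgi, hu⟩ := exists_monomials (a := a) (b := b) ha0 hb0 γ hγ
  let X := ctxU hS hq hω hωS
  have hXo : X.ord = ordU U hS q := rfl
  have hgO : ∀ j, gm U a b (g j) ∈ X.O := fun j => gm_mem ha0 hb0 (hg j)
  have hwt : ∀ t w, X.wt (fun j => gm U a b (g j)) w (u t) - X.wt (fun j => gm U a b (g j)) w u0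
      = X.ord w (gm U a b (γ t)) := fun t w => by
    have h1 := congrArg (X.ord w) (hu t)
    have h2 : (fun _ => c0 t) ∈ tameE U q := ⟨1, (hq.eventually_ge_atTop ‖c0 t‖).mono
      fun k hk => by rwa [one_mul]⟩
    rw [X.ord_mul w _ (X.mon_mem hgO _) _ (gm_mem ha0 hb0 (hγ t)),
      X.ord_mul w _ (gm_mem ha0 hb0 h2) _ (X.mon_mem hgO _), X.ord_mon hgO, X.ord_mon hgO, hXo,
      ordU_gm (γ := fun _ => c0 t) ha0 hb0 (tendsto_const_nhds.div_atTop hq)
        (tendsto_const_nhds.div_atTop hq)] at h1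
    rw [hXo]
    linarith
  let Vb : Fin D ⊕ Fin D' → UP U :=
    Sum.elim (fun j => germ U fun k => V k j) fun j => germ U fun k => V' k j
  have hc : ∀ k, exp (c * n k) ≤ exp (|c| * q k) := fun k =>
    exp_le_exp.mpr (mul_le_mul_of_nonneg_right (le_abs_self c) (Nat.cast_nonneg _))
  have hVb : ∀ j, Vb j = 0 ∨ Vb j ∈ X.O ∧ ∀ v, |X.ord v (Vb j)| ≤ |c| := by
    rintro (j | j)
    · exact (int_mem_or hq (Eventually.of_forall fun k => (hV k j).trans (hc k))).imp_right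
        fun h => ⟨int_mem hq h, abs_ordU_int hq h⟩
    · exact (int_mem_or hq (Eventually.of_forall fun k => (hV' k j).trans (hc k))).imp_right
        fun h => ⟨int_mem hq h, abs_ordU_int hq h⟩
  let x : ℕ → ℚ := fun k => ∑ t, (s k t * V k (e k t) : ℚ) / a ^ i k t
  let y : ℕ → ℚ := fun k => ∑ t, (s' k t * V' k (e' k t) : ℚ) / b ^ i' k t
  have hx : germ U x = ∑ t, (s0 t : ℚ) • (gm U a b (γ (.inl t)) * Vb (.inl (e0 t))) := by
    simp only [gm, Vb, Sum.elim_inl, ← map_mul, germ_smul, germ_sum, germ_eq]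
    filter_upwards [hs0, he0] with k h1 h2
    exact sum_congr rfl fun t _ => by simp [γ, h1, h2]; ring
  have hy : germ U y = ∑ t, (s0' t : ℚ) • (gm U a b (γ (.inr t)) * Vb (.inr (e0' t))) := by
    simp only [gm, Vb, Sum.elim_inr, ← map_mul, germ_smul, germ_sum, germ_eq]
    filter_upwards [hs0', he0'] with k h1 h2
    exact sum_congr rfl fun t _ => by simp [γ, h1, h2]; ring
  have hmul : ∀ {T : Type} [Fintype T] (σ : T → ℤ) (τ : T → Fin M ⊕ Fin M') (z : T → UP U),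
      mon (fun j => gm U a b (g j)) u0 * ∑ t, (σ t : ℚ) • (gm U a b (γ (τ t)) * z t) =
      ∑ t, ((σ t : ℚ) * ((a : ℚ) ^ (c0 (τ t)).1 * (b : ℚ) ^ (c0 (τ t)).2)) •
        (mon (fun j => gm U a b (g j)) (u (τ t)) * z t) := by
    intro T _ σ τ z
    rw [mul_sum]
    exact sum_congr rfl fun t _ => by
      rw [mul_smul_comm, ← mul_assoc, hu, mul_assoc, gm_const, smul_smul]
  have hor : ∀ {T : Type} [Fintype T] (σ : T → ℤ) (τ : T → Fin M ⊕ Fin M')
      (ε : T → Fin D ⊕ Fin D'), ∑ t, (σ t : ℚ) • (gm U a b (γ (τ t)) * Vb (ε t)) = 0 ∨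
      ∑ t, (σ t : ℚ) • (gm U a b (γ (τ t)) * Vb (ε t)) ∈ tameO U q (a * b) := by
    intro T _ σ τ ε
    exact sum_induction _ (fun z => z = 0 ∨ z ∈ tameO U q (a * b)) (fun _ _ => add_mem_or hq hω)
      (Or.inl rfl) fun t _ => zsmul_mem_or hq _ (mul_mem_or (Or.inr (gm_mem ha0 hb0 (hγ _)))
        ((hVb _).imp_right And.left))
  obtain ⟨P, Q, hQ0, hQ, hP, hQP⟩ := X.main none hgO
    (fun j => gm_neg (g j) ▸ gm_mem ha0 hb0 (Submodule.neg_mem _ (hg j)))
    (fun j => sum_ordU_gm hq ha0 hb0 hωS (hg j)) (aeval_gm_injective ha hb hab hgi) Vb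
    (abs_nonneg c) hVb (fun t => .inl (e0 t)) (fun t => .inr (e0' t)) _ _ (fun t => u (.inl t))
    (fun t => u (.inr t)) u0 (germ U x) (germ U (x - y)) (by rw [hx, hmul])
    (by rw [map_sub, sub_sub_cancel, hy, hmul]) (Kc := K) (C := C0 * log a)
    (mul_nonneg hC0 (log_natCast_nonneg _)) (by
      have h1 : germ U (x - y) = 0 ∨ germ U (x - y) ∈ tameO U q (a * b) := by
        have := add_mem_or hq hω (hx ▸ hor _ _ _) (zsmul_mem_or hq (-1) (hy ▸ hor _ _ _))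
        rwa [Int.cast_neg, Int.cast_one, neg_one_smul, ← sub_eq_add_neg, ← map_sub] at this
      refine h1.imp_right fun h => ⟨h, ordU_le hq hω h none (Eventually.of_forall fun k => ?_)⟩
      rw [plAbs_none]
      convert hΛ k using 2
      simp [x, y])
    (fun t t' R h w => by
      obtain ⟨x1, y1, hx1, hy1⟩ := exists_hat hq (hγ (.inl t))
      obtain ⟨x2, y2, hx2, hy2⟩ := exists_hat hq (hγ (.inr t'))
      have hy1' : y1 = 0 := tendsto_nhds_unique hy1 (by simp [γ])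
      have hx2' : x2 = 0 := tendsto_nhds_unique hx2 (by simp [γ])
      have h1 := (hCr x1 (-y2) R fun v => by
        have := h v
        rw [← sub_sub_sub_cancel_right _ _ (X.wt (fun j => gm U a b (g j)) v u0), hwt, hwt, hXo,
          ordU_gm ha0 hb0 hx1 hy1, ordU_gm ha0 hb0 hx2 hy2, hy1', hx2'] at this
        convert this using 2
        ring).1
      have h2 := abs_log_plAbs_le (hS := hS) w (z := a) (by exact_mod_cast ha0)
      rw [Int.cast_natCast, Int.cast_natCast, Nat.abs_cast] at h2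
      rw [hwt, hXo, ordU_gm ha0 hb0 hx1 hy1, hy1', zero_mul, add_zero, abs_mul, mul_right_comm]
      exact mul_le_mul h1 h2 (abs_nonneg _) ((abs_nonneg _).trans h1))
  set W := gm U a b fun k => (M0 * n k, M0 * n k) with hW
  have hWO : W ∈ X.O := gm_mem ha0 hb0 ⟨M0, Eventually.of_forall fun k => by simp [q]⟩
  have hlim : Tendsto (fun k => ((M0 * n k : ℤ) : ℝ) / q k) U (𝓝 M0) :=
    tendsto_const_nhds.congr' ((hq.eventually_gt_atTop 0).mono fun k hk => by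
      have : (n k : ℝ) ≠ 0 := hk.ne'
      simp only [q]; push_cast; field_simp)
  have hWo : ∀ v z, z ∈ X.O → ordU U hS q v (W * z) =
      M0 * (log (plAbs S hS v a) + log (plAbs S hS v b)) + X.ord v z := fun v z hz => by
    rw [← hXo, X.ord_mul v _ hWO _ hz, hXo, hW,
      ordU_gm (γ := fun k => ((M0 * n k : ℤ), (M0 * n k : ℤ))) ha0 hb0 hlim hlim, mul_add]
  have hint : ∀ z ∈ Submodule.span ℚ {z | z ∈ X.O ∧ ∀ w, |X.ord w z| ≤ κ0},
      ∃ (d : ℤ) (f : ℕ → ℤ), d ≠ 0 ∧ (d : ℚ) • (W * z) = germ U fun k => f k := fun z hz => by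
    refine exists_int_of_span (mul_mem_of_span (fun z hz => Submodule.subset_span ?_) hz)
    refine exists_int (hS := hS) hq hω hωS (X.O.mul_mem hWO hz.1) fun p => ?_
    rw [hWo _ _ hz.1, ← log_mul ((plAbs S hS _).ne_zero (by simpa))
      ((plAbs S hS _).ne_zero (by simpa)), ← map_mul, ← Nat.cast_mul, log_plAbs_nat hω]
    have h1 : (1 : ℝ) ≤ (a * b).factorization p := by
      exact_mod_cast (hS p p.2).factorization_pos_of_dvd hω (Nat.dvd_of_mem_primeFactors p.2)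
    have h2 : log 2 ≤ log ((p : ℕ) : ℝ) := log_le_log two_pos (by exact_mod_cast (hS p p.2).two_le)
    have h3 := mul_le_mul h1 h2 (log_pos one_lt_two).le (zero_le_one.trans h1)
    have h4 := mul_le_mul_of_nonneg_left h3 (Nat.cast_nonneg (α := ℝ) M0)
    linarith [abs_le.mp (hz.2 (some p))]
  have hsm : ∀ {ρ : ℝ} {Z : Set (UP U)}, (∀ z ∈ Z, z ∈ X.O ∧ X.ord none z ≤ ρ) →
      ∀ z ∈ Submodule.span ℚ Z, W * z ∈ small hq (ρ + M0 * (log a + log b)) := fun h z hz => by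
    refine mul_mem_of_span
      (fun z hz => mem_small (hS := hS) hq hω (X.O.mul_mem hWO (h z hz).1) ?_) hz
    rw [hWo _ _ (h z hz).1, plAbs_none, plAbs_none]
    simp only [Rat.cast_natCast, Nat.abs_cast]
    linarith [(h z hz).2]
  obtain ⟨d, f, hd, hf⟩ := hint Q hQ
  obtain ⟨d', f', hd', hf'⟩ := hint P hP
  have e1 : ((d' * d : ℤ) : ℚ) • (W * Q) = germ U fun k => (d' * f k : ℤ) := by
    rw [Int.cast_mul, mul_smul, hf, germ_smul]; simp
  have e2 : ((d' * d : ℤ) : ℚ) • (W * (Q * germ U x - P)) =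
      germ U fun k => (d' * f k : ℤ) * x k - (d * f' k : ℤ) := by
    rw [mul_sub, smul_sub, ← mul_assoc, ← smul_mul_assoc, e1, mul_comm d', Int.cast_mul, mul_smul,
      hf', germ_smul, ← map_mul, ← map_sub]
    congr 1; ext k; simp
  have h1 : ¬ ∀ᶠ k in U, ((d' * f k : ℤ) : ℚ) = 0 := by
    rw [← germ_eq_zero, ← e1]
    refine smul_ne_zero (by exact_mod_cast mul_ne_zero hd' hd) (mul_ne_zero (fun h => ?_) hQ0)
    obtain ⟨k, hk⟩ := ((germ_eq_zero.mp h).and (ne_zero_of_mem hω hWO)).exists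
    exact hk.2 hk.1
  have h2 := Submodule.smul_mem _ _ (hsm (fun z hz => ⟨hz.1, (abs_le.mp (hz.2 none)).2⟩) Q hQ)
    _ e1 1 one_pos
  have h3 := Submodule.smul_mem _ _ (hsm (fun z hz => hz) _ hQP) _ e2 1 one_pos
  obtain ⟨k, h4, h5, h6⟩ := ((Ultrafilter.eventually_not.mpr h1).and (h2.and h3)).exists
  refine hno k (d * f' k) (d' * f k) ⟨by exact_mod_cast h4, by exact_mod_cast h5, ?_⟩
  convert h6 using 2
  · simp [x]
  · simp only [q, κ0]; ring

end Pool.Agent.Lib.MP_c9a594_an
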