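import Pool.Agent.Lib.MP_c9a594_an.Abs
import Pool.Agent.Lib.MP_c9a594_an.Tame

/-!
# Monomials in two multiplicatively independent integers
-/

open Filter Topology Real Finset Pool.Agent.Subspace MvPolynomial

namespace Pool.Agent.Lib.MP_c9a594_an

/-- A unit equation forces all growth rates to vanish. -/
lemma Ctx.unit_eq {K Pl : Type} [Field K] [CharZero K] [Fintype Pl] (X : Ctx K Pl) {J : Type}
    [Fintype J] {y : J → K} (hy : ∀ j, y j ∈ X.O) (h0 : ∀ j, ∑ v, X.ord v (y j) = 0)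
    (hi : LinearIndependent ℚ y) {c : J → ℚ} (hc : ∑ j, c j • y j = 1) {l : J} (hl : c l ≠ 0)
    (w : Pl) : X.ord w (y l) = 0 := by
  have hC : ∀ (F : MvPolynomial (Fin 0) ℚ) (z : K),
      aeval (Fin.elim0 : Fin 0 → K) F * z = coeff 0 F • z := fun F z => by
    conv_lhs => rw [eq_C_of_isEmpty F, aeval_C, ← Algebra.smul_def]
  have h1 : ∀ w, X.ord w (y l) ≤ 0 := fun w => by
    obtain ⟨e0, -, h⟩ := X.disjoint (g := Fin.elim0) (fun i => i.elim0) (fun i => i.elim0)
      (fun F hF => by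
        have := hC F 1
        rw [hF, zero_mul, eq_comm, smul_eq_zero] at this
        rw [eq_C_of_isEmpty F, this.resolve_right one_ne_zero, C_0])
      (E := fun j => j.elim 1 y) (by rintro (_ | j); exacts [X.O.one_mem, hy j])
      (fun Ψ hΨ j => by
        simp only [hC] at hΨ
        rw [eq_C_of_isEmpty (Ψ j), Fintype.linearIndependent_iff.mp hi _ hΨ j, C_0])
      (Ψ := fun j => j.elim (-1) fun j => C (c j)) (neg_ne_zero.mpr one_ne_zero)
      (by rw [Fintype.sum_option]; simp [← Rat.smul_def, hc]) w (l := l) (e := 0)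
      (by simpa using hl)
    simpa [Subsingleton.elim e0 0, X.ord_one, h0] using h
  exact (sum_eq_zero_iff_of_nonpos fun v _ => h1 v).mp (h0 l) w (mem_univ w)

/-- Finitely many elements modulo a pure subgroup are combinations of independent ones. -/
lemma exists_presentation {G ι : Type} [AddCommGroup G] [Fintype ι] (H : Submodule ℤ G)
    (hH : ∀ (n : ℤ) (x : G), n ≠ 0 → n • x ∈ H → x ∈ H) (γ : ι → G) :
    ∃ (r : ℕ) (g : Fin r → G) (u : ι → Fin r → ℤ),
      (∀ i, g i ∈ Submodule.span ℤ (Set.range γ)) ∧ (∀ t, γ t - ∑ i, u t i • g i ∈ H) ∧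
      ∀ n : Fin r → ℤ, ∑ i, n i • g i ∈ H → ∀ i, n i = 0 := by
  have : Module.IsTorsionFree ℤ (G ⧸ H) := by
    refine Module.IsTorsionFree.of_smul_eq_zero fun n x hx => ?_
    obtain ⟨x, rfl⟩ := H.mkQ_surjective x
    by_cases hn : n = 0
    · exact Or.inl hn
    · rw [← map_smul, Submodule.mkQ_apply, Submodule.Quotient.mk_eq_zero] at hx
      exact Or.inr ((Submodule.Quotient.mk_eq_zero _).mpr (hH n x hn hx))
  set N := (Submodule.span ℤ (Set.range γ)).map H.mkQ
  have : Module.Finite ℤ N :=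
    Module.Finite.iff_fg.mpr ((Submodule.fg_span (Set.finite_range γ)).map _)
  obtain ⟨r, b⟩ := Module.basisOfFiniteTypeTorsionFree' (R := ℤ) (M := N)
  choose g hg hgb using fun i => Submodule.mem_map.mp (b i).2
  have key : ∀ n : Fin r → ℤ, H.mkQ (∑ i, n i • g i) = (∑ i, n i • b i : N) := fun n => by
    simp only [map_sum, map_smul, hgb, Submodule.coe_sum, Submodule.coe_smul]
  refine ⟨r, g, fun t => b.repr ⟨H.mkQ (γ t),
    Submodule.mem_map_of_mem (Submodule.subset_span ⟨t, rfl⟩)⟩, hg, fun t => ?_, fun n hn => ?_⟩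
  · rw [← Submodule.Quotient.eq, ← Submodule.mkQ_apply, ← Submodule.mkQ_apply, key, b.sum_repr]
  · rw [← Submodule.Quotient.mk_eq_zero, ← Submodule.mkQ_apply, key,
      Submodule.coe_eq_zero] at hn
    exact Fintype.linearIndependent_iff.mp b.linearIndependent n hn

variable (U : Ultrafilter ℕ) (q : ℕ → ℝ) (a b : ℕ)

/-- The class of `a ^ α * b ^ β`. -/
noncomputable def gm (γ : ℕ → ℤ × ℤ) : UP U :=
  germ U fun k => (a : ℚ) ^ (γ k).1 * (b : ℚ) ^ (γ k).2

/-- Exponent sequences of at most linear growth. -/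
def tameE : Submodule ℤ (ℕ → ℤ × ℤ) where
  carrier := {γ | ∃ C : ℝ, ∀ᶠ k in U, ‖γ k‖ ≤ C * q k}
  zero_mem' := ⟨0, by simp⟩
  add_mem' := by
    rintro x y ⟨C, h⟩ ⟨C', h'⟩
    exact ⟨C + C', (h.and h').mono fun k hk =>
      (norm_add_le _ _).trans (by rw [add_mul]; exact add_le_add hk.1 hk.2)⟩
  smul_mem' := by
    rintro c x ⟨C, h⟩
    exact ⟨‖c‖ * C, h.mono fun k hk => (norm_zsmul_le _ _).trans
      (by rw [mul_assoc]; exact mul_le_mul_of_nonneg_left hk (norm_nonneg _))⟩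

/-- Exponent sequences that are almost constant. -/
def stdE : Submodule ℤ (ℕ → ℤ × ℤ) where
  carrier := {γ | ∃ c, ∀ᶠ k in U, γ k = c}
  zero_mem' := ⟨0, by simp⟩
  add_mem' := by
    rintro x y ⟨C, h⟩ ⟨C', h'⟩
    exact ⟨C + C', (h.and h').mono fun k hk => by rw [Pi.add_apply, hk.1, hk.2]⟩
  smul_mem' := by
    rintro c x ⟨C, h⟩
    exact ⟨c • C, h.mono fun k hk => by rw [Pi.smul_apply, hk]⟩

variable {U q a b}

lemma stdE_pure (n : ℤ) (x : ℕ → ℤ × ℤ) (hn : n ≠ 0) (h : n • x ∈ stdE U) : x ∈ stdE U := by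
  obtain ⟨c, h⟩ := h
  obtain ⟨k0, h0⟩ := h.exists
  exact ⟨x k0, h.mono fun k hk => smul_right_injective _ hn (hk.trans h0.symm)⟩

lemma tendsto_norm_of_not_std {x : ℕ → ℤ × ℤ} (h : x ∉ stdE U) :
    Tendsto (fun k => ‖x k‖) U atTop := by
  rcases (U.map x).le_cofinite_or_eq_pure with h1 | ⟨c, hc⟩
  · refine (tendsto_norm_cocompact_atTop (E := ℤ × ℤ)).comp ?_
    rw [cocompact_eq_cofinite]
    exact h1
  · refine absurd ⟨c, ?_⟩ h
    have : {c} ∈ U.map x := by rw [hc]; simp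
    exact this

lemma gm_add (ha : a ≠ 0) (hb : b ≠ 0) (γ γ' : ℕ → ℤ × ℤ) :
    gm U a b (γ + γ') = gm U a b γ * gm U a b γ' := by
  rw [gm, gm, gm, ← map_mul]
  congr 1; ext k
  simp only [Pi.add_apply, Prod.fst_add, Prod.snd_add, Pi.mul_apply]
  rw [zpow_add₀ (by exact_mod_cast ha), zpow_add₀ (by exact_mod_cast hb)]
  ring

lemma gm_zero : gm U a b 0 = 1 := by
  rw [gm, ← map_one (germ U)]; congr 1; ext k; simp

lemma gm_neg (γ : ℕ → ℤ × ℤ) : gm U a b (-γ) = (gm U a b γ)⁻¹ := by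
  rw [gm, gm, ← germ_inv]; congr 1; ext k; simp [mul_comm]

lemma mon_gm (ha : a ≠ 0) (hb : b ≠ 0) {r : ℕ} (g : Fin r → ℕ → ℤ × ℤ) (e : Fin r →₀ ℕ) :
    mon (fun i => gm U a b (g i)) e = gm U a b (∑ i, (e i : ℤ) • g i) := by
  let φ : Multiplicative (ℕ → ℤ × ℤ) →* UP U :=
    { toFun := fun γ => gm U a b γ.toAdd, map_one' := gm_zero,
      map_mul' := fun x y => gm_add ha hb _ _ }
  have : ∀ γ, gm U a b γ = φ (Multiplicative.ofAdd γ) := fun _ => rfl
  simp only [this, mon, ofAdd_sum, natCast_zsmul, ofAdd_nsmul, map_prod, map_pow]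

lemma gm_mem (ha : a ≠ 0) (hb : b ≠ 0) {γ : ℕ → ℤ × ℤ} (h : γ ∈ tameE U q) :
    gm U a b γ ∈ tameO U q (a * b) := by
  obtain ⟨C, h⟩ := h
  let m : ℕ → ℕ := fun k => (γ k).1.natAbs + (γ k).2.natAbs
  refine ⟨fun k => a ^ ((γ k).1 + m k).toNat * b ^ ((γ k).2 + m k).toNat, m,
    2 * C + 4 * C * log (a * b : ℕ), ?_, h.mono fun k hk => ?_⟩
  · rw [gm]; congr 1; ext k
    have h1 : (a : ℚ) ≠ 0 := by exact_mod_cast ha
    have h2 : (b : ℚ) ≠ 0 := by exact_mod_cast hb
    push_cast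
    rw [← zpow_natCast, ← zpow_natCast, Int.toNat_of_nonneg (by simp only [m]; omega),
      Int.toNat_of_nonneg (by simp only [m]; omega), zpow_add₀ h1, zpow_add₀ h2, mul_pow,
      zpow_natCast, zpow_natCast]
    field_simp
  · have h1 : (m k : ℝ) ≤ 2 * (C * q k) := by
      have e1 : (((γ k).1.natAbs : ℕ) : ℝ) = ‖(γ k).1‖ := by simp [Int.norm_eq_abs]
      have e2 : (((γ k).2.natAbs : ℕ) : ℝ) = ‖(γ k).2‖ := by simp [Int.norm_eq_abs]
      simp only [m, Nat.cast_add, e1, e2]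
      linarith [norm_fst_le (γ k), norm_snd_le (γ k)]
    have h2 : 0 ≤ C * q k := (norm_nonneg _).trans hk
    have h3 : 0 ≤ log ((a * b : ℕ) : ℝ) := log_natCast_nonneg _
    refine ⟨by positivity, ?_, by nlinarith⟩
    have h4 : a ^ ((γ k).1 + m k).toNat * b ^ ((γ k).2 + m k).toNat ≤ (a * b) ^ (2 * m k) := by
      rw [mul_pow]
      exact Nat.mul_le_mul (Nat.pow_le_pow_right (by omega) (by simp only [m]; omega))
        (Nat.pow_le_pow_right (by omega) (by simp only [m]; omega))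
    calc _ = ((a ^ ((γ k).1 + m k).toNat * b ^ ((γ k).2 + m k).toNat : ℕ) : ℝ) := by
          push_cast; exact abs_of_nonneg (by positivity)
      _ ≤ ((a * b : ℕ) : ℝ) ^ (2 * m k) := by exact_mod_cast h4
      _ = exp ((2 * m k : ℕ) * log (a * b : ℕ)) := by
          rw [exp_nat_mul, exp_log (by positivity)]
      _ ≤ _ := by
          rw [exp_le_exp, Nat.cast_mul]
          push_cast at h3 ⊢
          nlinarith

lemma exists_hat (hq : Tendsto q U atTop) {γ : ℕ → ℤ × ℤ} (h : γ ∈ tameE U q) :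
    ∃ x y : ℝ, Tendsto (fun k => ((γ k).1 : ℝ) / q k) U (𝓝 x) ∧
      Tendsto (fun k => ((γ k).2 : ℝ) / q k) U (𝓝 y) := by
  obtain ⟨C, h⟩ := h
  obtain ⟨x, -, hx⟩ := exists_lim (U := U) (x := fun k => ((γ k).1 : ℝ) / q k) (A := C) (by
    filter_upwards [h, hq.eventually_gt_atTop 0] with k hk hq
    rw [abs_div, abs_of_pos hq, div_le_iff₀ hq, ← Int.norm_eq_abs]
    exact (norm_fst_le _).trans hk)
  obtain ⟨y, -, hy⟩ := exists_lim (U := U) (x := fun k => ((γ k).2 : ℝ) / q k) (A := C) (by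
    filter_upwards [h, hq.eventually_gt_atTop 0] with k hk hq
    rw [abs_div, abs_of_pos hq, div_le_iff₀ hq, ← Int.norm_eq_abs]
    exact (norm_snd_le _).trans hk)
  exact ⟨x, y, hx, hy⟩

variable {S : Finset ℕ} {hS : ∀ p ∈ S, p.Prime}

lemma ordU_gm (ha : a ≠ 0) (hb : b ≠ 0) {γ : ℕ → ℤ × ℤ} {x y : ℝ}
    (hx : Tendsto (fun k => ((γ k).1 : ℝ) / q k) U (𝓝 x))
    (hy : Tendsto (fun k => ((γ k).2 : ℝ) / q k) U (𝓝 y)) (v : Option S) :
    ordU U hS q v (gm U a b γ) = x * log (plAbs S hS v a) + y * log (plAbs S hS v b) := by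
  refine ordU_eq (((hx.mul_const _).add (hy.mul_const _)).congr fun k => ?_)
  rw [rate, map_mul, map_zpow₀, map_zpow₀,
    log_mul (zpow_ne_zero _ ((plAbs S hS v).ne_zero (by exact_mod_cast ha)))
      (zpow_ne_zero _ ((plAbs S hS v).ne_zero (by exact_mod_cast hb))), log_zpow, log_zpow]
  ring

lemma sum_ordU_gm (hq : Tendsto q U atTop) (ha : a ≠ 0) (hb : b ≠ 0)
    (hωS : ∀ p, p.Prime → p ∣ a * b → p ∈ S) {γ : ℕ → ℤ × ℤ} (h : γ ∈ tameE U q) :
    ∑ v, ordU U hS q v (gm U a b γ) = 0 := by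
  obtain ⟨x, y, hx, hy⟩ := exists_hat hq h
  simp only [ordU_gm ha hb hx hy, sum_add_distrib, ← mul_sum]
  rw [sum_log_plAbs ha fun p hp h => hωS p hp (h.mul_right b),
    sum_log_plAbs hb fun p hp h => hωS p hp (h.mul_left a)]
  simp

lemma log_plAbs_nat (ha : a ≠ 0) (p : S) :
    log (plAbs S hS (some p) a) = -(a.factorization p * log ((p : ℕ) : ℝ)) := by
  have := plAbs_some_int (hS := hS) p (z := a) (by exact_mod_cast ha)
  rw [Int.cast_natCast] at this
  rw [this, log_inv, log_pow, Nat.factorization_def _ (hS p p.2)]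
  simp [padicValInt]

variable (hS) in
lemma exists_cramer (ha : 2 ≤ a) (hb : 2 ≤ b) (hab : ∀ k l : ℕ, 0 < k → 0 < l → a ^ k ≠ b ^ l)
    (hωS : ∀ p, p.Prime → p ∣ a * b → p ∈ S) : ∃ C : ℝ, 0 ≤ C ∧ ∀ x y R : ℝ,
      (∀ v, |x * log (plAbs S hS v a) + y * log (plAbs S hS v b)| ≤ R) →
        |x| ≤ C * R ∧ |y| ≤ C * R := by
  let f : ℝ × ℝ →ₗ[ℝ] (Option S → ℝ) := LinearMap.pi fun v =>
    log (plAbs S hS v a) • LinearMap.fst ℝ ℝ ℝ + log (plAbs S hS v b) • LinearMap.snd ℝ ℝ ℝ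
  have hf : ∀ x y v, f (x, y) v = x * log (plAbs S hS v a) + y * log (plAbs S hS v b) :=
    fun x y v => by simp [f, mul_comm]
  obtain ⟨K, -, hK⟩ := f.exists_antilipschitzWith (LinearMap.ker_eq_bot'.mpr fun ⟨x, y⟩ h => by
    have h1 : ∀ p, x * a.factorization p + y * b.factorization p = 0 := fun p => by
      by_cases hp : p ∈ S
      · have := congrFun h (some ⟨p, hp⟩)
        rw [hf, log_plAbs_nat (by omega), log_plAbs_nat (by omega), Pi.zero_apply] at this
        refine mul_right_cancel₀ (log_pos_of_mem hS ⟨p, hp⟩).ne' ?_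
        linarith
      · have : ∀ n, n ∣ a * b → n.factorization p = 0 := fun n hn => by
          by_cases hpp : p.Prime
          · exact Nat.factorization_eq_zero_of_not_dvd fun h => hp (hωS p hpp (h.trans hn))
          · exact Nat.factorization_eq_zero_of_not_prime _ hpp
        simp [this a (dvd_mul_right _ _), this b (dvd_mul_left _ _)]
    obtain ⟨p, hp, hpa⟩ := Nat.exists_prime_and_dvd (n := a) (by omega)
    have hl : 0 < a.factorization p := hp.factorization_pos_of_dvd (by omega) hpa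
    have hy : y = 0 := by
      by_contra hy
      have h2 : a ^ b.factorization p = b ^ a.factorization p := by
        refine Nat.eq_of_factorization_eq (by positivity) (by positivity) fun p' => ?_
        have : y * ((b.factorization p : ℝ) * a.factorization p') =
            y * (a.factorization p * b.factorization p') := by
          linear_combination (a.factorization p' : ℝ) * h1 p - (a.factorization p : ℝ) * h1 p'
        have := mul_left_cancel₀ hy this
        simp only [Nat.factorization_pow, Finsupp.smul_apply, smul_eq_mul]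
        exact_mod_cast this
      rcases (b.factorization p).eq_zero_or_pos with h0 | h0
      · rw [h0, pow_zero] at h2
        exact (Nat.one_lt_pow hl.ne' hb).ne h2
      · exact hab _ _ h0 hl h2
    have := h1 p
    rw [hy, zero_mul, add_zero, mul_eq_zero] at this
    exact Prod.ext (this.resolve_right (by exact_mod_cast hl.ne')) hy)
  refine ⟨K, K.2, fun x y R h => ?_⟩
  have h0 : 0 ≤ R := (abs_nonneg _).trans (h none)
  have h1 : ‖(x, y)‖ ≤ K * R := (ZeroHomClass.bound_of_antilipschitz f hK _).trans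
    (mul_le_mul_of_nonneg_left ((pi_norm_le_iff_of_nonneg h0).mpr fun v => by
      rw [hf]; exact h v) K.2)
  exact ⟨(norm_fst_le (x, y)).trans h1, (norm_snd_le (x, y)).trans h1⟩

/-- Monomials whose exponents differ by non-constant sequences are linearly independent. -/
theorem gm_independent (ha : 2 ≤ a) (hb : 2 ≤ b)
    (hab : ∀ k l : ℕ, 0 < k → 0 < l → a ^ k ≠ b ^ l) {J : Type} (γ : J → ℕ → ℤ × ℤ)
    (hγ : ∀ i j, γ i - γ j ∈ stdE U → i = j) :
    LinearIndependent ℚ fun j => gm U a b (γ j) := by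
  classical
  have ha0 : a ≠ 0 := by omega
  have hb0 : b ≠ 0 := by omega
  rw [linearIndependent_iff']
  intro s
  induction s using Finset.strongInduction with
  | H s ih =>
  intro c hc
  by_cases h0 : ∃ j ∈ s, c j = 0
  · obtain ⟨j, hj, hcj⟩ := h0
    rw [← add_sum_erase _ _ hj, hcj, zero_smul, zero_add] at hc
    intro i hi
    by_cases hij : i = j
    · rw [hij, hcj]
    · exact ih _ (erase_ssubset hj) c hc i (mem_erase.mpr ⟨hij, hi⟩)
  intro j hj
  exfalso
  push Not at h0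
  have hne : gm U a b (γ j) ≠ 0 := fun h => by
    have := gm_add (U := U) ha0 hb0 (γ j) (-γ j)
    rw [add_neg_cancel, gm_zero, h, zero_mul] at this
    exact one_ne_zero this
  let δ : s.erase j → ℕ → ℤ × ℤ := fun i => γ i - γ j
  have hδ : ∀ i, gm U a b (δ i) = gm U a b (γ i) * (gm U a b (γ j))⁻¹ := fun i => by
    rw [← gm_neg, ← gm_add ha0 hb0, ← sub_eq_add_neg]
  have h1 : ∑ i : s.erase j, (-c i / c j) • gm U a b (δ i) = 1 := by
    rw [← add_sum_erase _ _ hj, ← sum_coe_sort] at hc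
    simp only [hδ, div_eq_inv_mul, mul_smul, ← smul_mul_assoc, ← sum_mul, neg_smul,
      ← Finset.smul_sum, sum_neg_distrib]
    rw [← eq_neg_of_add_eq_zero_left hc, inv_smul_smul₀ (h0 j hj), mul_inv_cancel₀ hne]
  have hi : LinearIndependent ℚ fun i => gm U a b (δ i) := by
    have h2 : LinearIndepOn ℚ (fun j => gm U a b (γ j)) (s.erase j : Finset J) :=
      linearIndepOn_finset_iff.mpr (ih _ (erase_ssubset hj))
    simp only [hδ]
    exact h2.map' (LinearMap.mulRight ℚ _)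
      (LinearMap.ker_eq_bot.mpr (mul_left_injective₀ (inv_ne_zero hne)))
  obtain ⟨i1⟩ : Nonempty (s.erase j) := by
    by_contra h
    rw [not_nonempty_iff] at h
    simp at h1
  let q : ℕ → ℝ := fun k => ∑ i, ‖δ i k‖
  have hle : ∀ i k, ‖δ i k‖ ≤ q k := fun i k =>
    single_le_sum (f := fun i => ‖δ i k‖) (fun _ _ => norm_nonneg _) (mem_univ i)
  have hq : Tendsto q U atTop := tendsto_atTop_mono (hle i1)
    (tendsto_norm_of_not_std fun h => (mem_erase.mp i1.2).1 (hγ _ _ h))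
  have ht : ∀ i, δ i ∈ tameE U q := fun i => ⟨1, Eventually.of_forall fun k => by
    rw [one_mul]; exact hle i k⟩
  have hS : ∀ p ∈ (a * b).primeFactors, p.Prime := fun p => Nat.prime_of_mem_primeFactors
  have hωS : ∀ p, p.Prime → p ∣ a * b → p ∈ (a * b).primeFactors := fun p hp h =>
    Nat.mem_primeFactors.mpr ⟨hp, h, mul_ne_zero ha0 hb0⟩
  obtain ⟨C, -, hC⟩ := exists_cramer hS ha hb hab hωS
  have h3 : ∀ i, Tendsto (fun k => ‖δ i k‖ / q k) U (𝓝 0) := fun i => by
    obtain ⟨x, y, hx, hy⟩ := exists_hat hq (ht i)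
    have := hC x y 0 fun v => by
      rw [← ordU_gm ha0 hb0 hx hy]
      exact (abs_eq_zero.mpr ((ctxU hS hq (mul_ne_zero ha0 hb0) hωS).unit_eq
        (fun i => gm_mem ha0 hb0 (ht i)) (fun i => sum_ordU_gm hq ha0 hb0 hωS (ht i)) hi h1
        (div_ne_zero (neg_ne_zero.mpr (h0 _ (mem_erase.mp i.2).2)) (h0 j hj)) v)).le
    rw [mul_zero, abs_nonpos_iff, abs_nonpos_iff] at this
    rw [this.1] at hx
    rw [this.2] at hy
    have h4 := hx.abs.max hy.abs
    rw [abs_zero, max_self] at h4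
    refine h4.congr' ((hq.eventually_gt_atTop 0).mono fun k hk => ?_)
    simp only [abs_div, abs_of_pos hk, Prod.norm_def, Int.norm_eq_abs]
    exact (max_div_div_right hk.le _ _)
  have h4 := tendsto_finsetSum univ fun i _ => h3 i
  rw [sum_const_zero] at h4
  refine one_ne_zero (tendsto_nhds_unique (tendsto_const_nhds.congr' ?_) h4)
  filter_upwards [hq.eventually_gt_atTop 0] with k hk
  rw [← sum_div, div_self hk.ne']

lemma aeval_gm_injective (ha : 2 ≤ a) (hb : 2 ≤ b)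
    (hab : ∀ k l : ℕ, 0 < k → 0 < l → a ^ k ≠ b ^ l) {r : ℕ} {g : Fin r → ℕ → ℤ × ℤ}
    (hg : ∀ n : Fin r → ℤ, ∑ i, n i • g i ∈ stdE U → ∀ i, n i = 0)
    (F : MvPolynomial (Fin r) ℚ) (hF : aeval (fun i => gm U a b (g i)) F = 0) : F = 0 := by
  have h := gm_independent (U := U) ha hb hab
    (fun e : Fin r →₀ ℕ => ∑ i, (e i : ℤ) • g i) fun e e' h => by
      ext i
      have := hg (fun i => e i - e' i) (by simpa only [sub_smul, sum_sub_distrib] using h) i
      omega
  rw [aeval_eq_sum] at hF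
  simp only [mon_gm (by omega : a ≠ 0) (by omega : b ≠ 0)] at hF
  by_contra h0
  obtain ⟨e, he⟩ := support_nonempty.mpr h0
  exact mem_support_iff.mp he (linearIndependent_iff'.mp h _ _ hF e he)

end Pool.Agent.Lib.MP_c9a594_an
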