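import Pool.Agent.Lib.MP_c9a594_an.FinalAux
import Pool.Agent.Lib.MP_c9a594_an.Dioph

/-! # No linear complexity in two multiplicatively independent bases -/

open Filter Matrix Real

namespace Pool.Agent.Lib.MP_c9a594_an

/-- Low complexity in both bases at one scale forces a very good rational approximation. -/
theorem core (a b : ℕ) (ha : 2 ≤ a) (hb : 2 ≤ b)
    (hab : ∀ k l : ℕ, 0 < k → 0 < l → a ^ k ≠ b ^ l) (C : ℝ) :
    ∃ κ : ℝ, ∀ K : ℝ, ∃ n0 : ℕ, ∀ n ≥ n0, ∀ x : ℝ, (cx a x n + cx b x n : ℝ) ≤ C * n →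
      ∃ P Q : ℤ, Q ≠ 0 ∧ |(Q : ℝ)| ≤ exp (κ * n) ∧ |Q * x - P| ≤ exp (-K * n) :=
  core_of a b ha hb (dioph a b ha hb hab) C

/-- Linear complexity in both bases only occurs for finitely many rationals. -/
theorem finite_rational (a b : ℕ) (ha : 2 ≤ a) (hb : 2 ≤ b)
    (hab : ∀ k l : ℕ, 0 < k → 0 < l → a ^ k ≠ b ^ l) (C : ℝ) :
    ∃ F : Finset ℚ, ∀ x ∈ Set.Ico (0 : ℝ) 1,
      (∀ n : ℕ, 1 ≤ n → (cx a x n + cx b x n : ℝ) ≤ C * n) → ∃ r ∈ F, x = (r : ℝ) :=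
  finite_rational_of a b C (core a b ha hb hab C)

/-- Superlinear complexity for irrational numbers that are not Liouville numbers. -/
theorem nonLiouville (a b : ℕ) (ha : 2 ≤ a) (hb : 2 ≤ b)
    (hab : ∀ k l : ℕ, 0 < k → 0 < l → a ^ k ≠ b ^ l) (x : ℝ) (hx : Irrational x)
    (hL : ¬ Liouville x) :
    Tendsto (fun n : ℕ => (cx a x n + cx b x n : ℝ) / n) atTop atTop :=
  nonLiouville_of a b (core a b ha hb hab) x hx hL

end Pool.Agent.Lib.MP_c9a594_an
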