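import Pool.Agent.Lib.MP_c9a594_an.Words

/-! From the Diophantine input to the two final statements. -/

open Filter Real

namespace Pool.Agent.Lib.MP_c9a594_an

/-- The conclusion of `dioph`. -/
def Dioph (a b : ℕ) : Prop := ∀ (D D' : ℕ) (c : ℝ),
    ∃ κ : ℝ, ∀ (M M' : ℕ) (B K : ℝ), ∃ n0 : ℕ, ∀ n ≥ n0,
    ∀ (V : Fin D → ℤ) (V' : Fin D' → ℤ) (s : Fin M → ℤ) (s' : Fin M' → ℤ)
      (i : Fin M → ℕ) (i' : Fin M' → ℕ) (e : Fin M → Fin D) (e' : Fin M' → Fin D'),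
      (∀ j, |(V j : ℝ)| ≤ exp (c * n)) → (∀ j, |(V' j : ℝ)| ≤ exp (c * n)) →
      (∀ t, |s t| ≤ 1) → (∀ t, |s' t| ≤ 1) →
      (∀ t, (i t : ℝ) ≤ B * n) → (∀ t, (i' t : ℝ) ≤ B * n) →
      |∑ t, (s t * V (e t) : ℝ) / a ^ i t - ∑ t, (s' t * V' (e' t) : ℝ) / b ^ i' t|
        ≤ exp (-K * n) →
      ∃ P Q : ℤ, Q ≠ 0 ∧ |(Q : ℝ)| ≤ exp (κ * n) ∧
        |Q * (∑ t, (s t * V (e t) : ℝ) / a ^ i t) - P| ≤ exp ((κ - K) * n)

/-- The conclusion of `core`. -/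
def Core (a b : ℕ) (C : ℝ) : Prop :=
    ∃ κ : ℝ, ∀ K : ℝ, ∃ n0 : ℕ, ∀ n ≥ n0, ∀ x : ℝ, (cx a x n + cx b x n : ℝ) ≤ C * n →
      ∃ P Q : ℤ, Q ≠ 0 ∧ |(Q : ℝ)| ≤ exp (κ * n) ∧ |Q * x - P| ≤ exp (-K * n)

lemma exp_two {u v w : ℝ} (hu : u + 1 ≤ w) (hv : v + 1 ≤ w) : exp u + exp v ≤ exp w := by
  have h : ∀ u : ℝ, u + 1 ≤ w → 2 * exp u ≤ exp w := fun u hu => by
    refine le_trans ?_ (exp_le_exp.2 hu)
    rw [exp_add]
    have := add_one_le_exp (1 : ℝ)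
    nlinarith [exp_pos u]
  linarith [h u hu, h v hv]

theorem core_of (a b : ℕ) (ha : 2 ≤ a) (hb : 2 ≤ b) (hd : Dioph a b) (C : ℝ) : Core a b C := by
  obtain ⟨D, c, h1⟩ := words a ha C
  obtain ⟨D', c', h2⟩ := words b hb C
  obtain ⟨κ, h3⟩ := hd D D' (c + c')
  refine ⟨κ + c + c', fun K => ?_⟩
  obtain ⟨M, n1, B, h1⟩ := h1 (K + κ + 1 + |c| + |c'| + 1)
  obtain ⟨M', n2, B', h2⟩ := h2 (K + κ + 1 + |c| + |c'| + 1)
  obtain ⟨n3, h3⟩ := h3 M M' (max B B') (K + κ + 1)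
  refine ⟨max (max n1 n2) (max n3 1), fun n hn x hx => ?_⟩
  simp only [ge_iff_le, max_le_iff] at hn
  have p1 : (0 : ℝ) ≤ cx a x n := by positivity
  have p2 : (0 : ℝ) ≤ cx b x n := by positivity
  have hn1 : (1 : ℝ) ≤ n := by exact_mod_cast hn.2.2
  obtain ⟨d, V, s, i, e, a1, a2, a3, a4, a5, a6⟩ := h1 n hn.1.1 x (by linarith)
  obtain ⟨d', V', s', i', e', b1, b2, b3, b4, b5, b6⟩ := h2 n hn.1.2 x (by linarith)
  have e1 : ∑ t, (s t * ((d' * V (e t) : ℤ)) : ℝ) / a ^ i t =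
      d' * ∑ t, (s t * V (e t) : ℝ) / a ^ i t := by
    rw [Finset.mul_sum]
    refine Finset.sum_congr rfl fun t _ => ?_
    push_cast
    ring
  have e2 : ∑ t, (s' t * ((d * V' (e' t) : ℤ)) : ℝ) / b ^ i' t =
      d * ∑ t, (s' t * V' (e' t) : ℝ) / b ^ i' t := by
    rw [Finset.mul_sum]
    refine Finset.sum_congr rfl fun t _ => ?_
    push_cast
    ring
  have mul : ∀ {u v α β : ℝ}, |u| ≤ exp α → |v| ≤ exp β → |u * v| ≤ exp (α + β) := by
    intro u v α β h1 h2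
    rw [abs_mul, exp_add]
    exact mul_le_mul h1 h2 (abs_nonneg _) (exp_pos _).le
  have c1 := mul b2 a6
  have c2 := mul a2 b6
  have l1 := mul_nonneg (abs_nonneg c) (zero_le_one.trans hn1)
  have l2 := mul_nonneg (abs_nonneg c') (zero_le_one.trans hn1)
  have l3 := mul_le_mul_of_nonneg_right (le_abs_self c) (zero_le_one.trans hn1)
  have l4 := mul_le_mul_of_nonneg_right (le_abs_self c') (zero_le_one.trans hn1)
  obtain ⟨P, Q, q1, q2, q3⟩ := h3 n hn.2.1 (fun j => d' * V j) (fun j => d * V' j) s s' i i' e e'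
    (fun j => by
      push_cast
      exact (mul b2 (a3 j)).trans (le_of_eq (by congr 1; ring)))
    (fun j => by
      push_cast
      exact (mul a2 (b3 j)).trans (le_of_eq (by congr 1; ring))) a4 b4
    (fun t => (a5 t).trans (by gcongr; exact le_max_left _ _))
    (fun t => (b5 t).trans (by gcongr; exact le_max_right _ _)) (by
      rw [e1, e2]
      refine le_trans ?_ ((add_le_add c1 c2).trans (exp_two (by linarith) (by linarith)))
      rw [← abs_neg ((d' : ℝ) * (_ - _))]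
      exact le_trans (le_of_eq (by congr 1; ring)) (abs_add_le _ _))
  rw [e1] at q3
  refine ⟨P + Q * d * d' * ⌊x⌋, Q * d * d', mul_ne_zero (mul_ne_zero q1 a1) b1, ?_, ?_⟩
  · push_cast
    exact (mul (mul q2 a2) b2).trans (le_of_eq (by congr 1; ring))
  · refine le_trans ?_ ((add_le_add (mul q2 c1) q3).trans (exp_two (by linarith) (by linarith)))
    refine le_trans (le_of_eq ?_) (abs_add_le _ _)
    congr 1
    simp only [Int.fract]
    push_cast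
    ring

theorem finite_rational_of (a b : ℕ) (C : ℝ) (hc : Core a b C) :
    ∃ F : Finset ℚ, ∀ x ∈ Set.Ico (0 : ℝ) 1,
      (∀ n : ℕ, 1 ≤ n → (cx a x n + cx b x n : ℝ) ≤ C * n) → ∃ r ∈ F, x = (r : ℝ) := by
  classical
  obtain ⟨κ, h⟩ := hc
  obtain ⟨n0, h⟩ := h (2 * |κ| + 1)
  obtain ⟨N, hN⟩ : ∃ N : ℕ, exp (κ * (n0 + 1 : ℕ)) ≤ N := ⟨_, Nat.le_ceil _⟩
  refine ⟨(Finset.Icc (-(N : ℤ)) N ×ˢ Finset.Icc (-(N : ℤ)) N).image fun y => (y.1 : ℚ) / y.2,
    fun x hx hC => ?_⟩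
  choose P Q q1 q2 q3 using fun j : ℕ =>
    h (n0 + 1 + j) (by omega) x (hC (n0 + 1 + j) (by omega))
  have k0 := abs_nonneg κ
  have k1 := le_abs_self κ
  have step : ∀ j, (P (j + 1) : ℝ) / Q (j + 1) = P j / Q j := by
    intro j
    have a1 := q2 j
    have a2 := q2 (j + 1)
    have a3 := q3 j
    have a4 := q3 (j + 1)
    obtain ⟨n, hn, hn1⟩ : ∃ n : ℝ, ((n0 + 1 + j : ℕ) : ℝ) = n ∧ 1 ≤ n :=
      ⟨_, rfl, by exact_mod_cast (by omega : 1 ≤ n0 + 1 + j)⟩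
    have hn' : ((n0 + 1 + (j + 1) : ℕ) : ℝ) = n + 1 := by rw [← hn]; push_cast; ring
    rw [hn] at a1 a3
    rw [hn'] at a2 a4
    have b1 := mul_le_mul a1 a4 (abs_nonneg _) (exp_pos _).le
    have b2 := mul_le_mul a2 a3 (abs_nonneg _) (exp_pos _).le
    rw [← abs_mul, ← exp_add] at b1 b2
    have b3 : exp (κ * n + -(2 * |κ| + 1) * (n + 1)) ≤ exp (-1) := exp_le_exp.2 (by nlinarith)
    have b4 : exp (κ * (n + 1) + -(2 * |κ| + 1) * n) ≤ exp (-1) := exp_le_exp.2 (by nlinarith)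
    have b5 := Real.exp_neg_one_lt_d9
    have b6 : |((Q (j + 1) * P j - Q j * P (j + 1) : ℤ) : ℝ)| < 1 := by
      have : ((Q (j + 1) * P j - Q j * P (j + 1) : ℤ) : ℝ) =
          Q j * (Q (j + 1) * x - P (j + 1)) - Q (j + 1) * (Q j * x - P j) := by
        push_cast
        ring
      rw [this]
      linarith [abs_sub ((Q j : ℝ) * (Q (j + 1) * x - P (j + 1)))
        ((Q (j + 1) : ℝ) * (Q j * x - P j))]
    have b7 : Q (j + 1) * P j - Q j * P (j + 1) = 0 :=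
      Int.abs_lt_one_iff.1 (by exact_mod_cast b6)
    have b8 : (Q (j + 1) : ℝ) * P j - Q j * P (j + 1) = 0 := by exact_mod_cast b7
    rw [div_eq_div_iff (by exact_mod_cast q1 _) (by exact_mod_cast q1 _)]
    linarith
  have all : ∀ j, (P j : ℝ) / Q j = P 0 / Q 0 := by
    intro j
    induction j with
    | zero => rfl
    | succ j ih => rw [step, ih]
  have Q1 : ∀ j, (1 : ℝ) ≤ |(Q j : ℝ)| := fun j => by exact_mod_cast Int.one_le_abs (q1 j)
  have e : x = P 0 / Q 0 := by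
    by_contra c
    have c' : 0 < |x - P 0 / Q 0| := abs_pos.2 (sub_ne_zero.2 c)
    obtain ⟨j, hj⟩ := exists_nat_gt (1 / |x - P 0 / Q 0|)
    have a1 := q3 j
    have a2 : (Q j : ℝ) * x - P j = Q j * (x - P 0 / Q 0) := by
      have : (Q j : ℝ) ≠ 0 := by exact_mod_cast q1 j
      rw [← all j]
      field_simp
    have a3 : exp (-(2 * |κ| + 1) * ((n0 + 1 + j : ℕ) : ℝ)) ≤ exp (-j) := by
      refine exp_le_exp.2 ?_
      push_cast
      have : (0 : ℝ) ≤ n0 := by positivity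
      have : (0 : ℝ) ≤ j := by positivity
      nlinarith
    have a4 : exp (-(j : ℝ)) * (j + 1) ≤ 1 := by
      rw [exp_neg, inv_mul_le_iff₀ (exp_pos _), mul_one]
      exact add_one_le_exp _
    rw [a2, abs_mul] at a1
    rw [div_lt_iff₀ c'] at hj
    have a5 : |x - P 0 / Q 0| ≤ exp (-(j : ℝ)) := by nlinarith [Q1 j]
    have : (0 : ℝ) ≤ j := by positivity
    nlinarith [exp_pos (-(j : ℝ))]
  have hQ : |Q 0| ≤ N := by
    have := (q2 0).trans hN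
    exact_mod_cast this
  have hP : |P 0| ≤ N := by
    have a1 : (P 0 : ℝ) = Q 0 * x := by
      have : (Q 0 : ℝ) ≠ 0 := by exact_mod_cast q1 0
      rw [e]
      field_simp
    have a2 : |(P 0 : ℝ)| ≤ |(Q 0 : ℝ)| := by
      rw [a1, abs_mul, abs_of_nonneg hx.1]
      exact mul_le_of_le_one_right (abs_nonneg _) hx.2.le
    have a3 : |P 0| ≤ |Q 0| := by exact_mod_cast a2
    exact a3.trans hQ
  refine ⟨(P 0 : ℚ) / Q 0, Finset.mem_image.2 ⟨(P 0, Q 0), ?_, rfl⟩, by rw [e]; push_cast; rfl⟩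
  simp only [Finset.mem_product, Finset.mem_Icc]
  exact ⟨abs_le.1 hP, abs_le.1 hQ⟩

theorem nonLiouville_of (a b : ℕ) (hc : ∀ C, Core a b C) (x : ℝ) (hx : Irrational x)
    (hL : ¬ Liouville x) :
    Tendsto (fun n : ℕ => (cx a x n + cx b x n : ℝ) / n) atTop atTop := by
  rw [tendsto_atTop]
  intro C
  by_contra c
  apply hL
  intro m
  obtain ⟨κ, h⟩ := hc C
  obtain ⟨n0, h⟩ := h (m * (|κ| + 1) + 1)
  obtain ⟨n, h1, h2⟩ := ((not_eventually.1 c).and_eventually (eventually_ge_atTop (n0 + 1))).exists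
  have hn : (1 : ℝ) ≤ n := by exact_mod_cast (by omega : 1 ≤ n)
  rw [not_le, div_lt_iff₀ (by linarith)] at h1
  obtain ⟨P, Q, q1, q2, q3⟩ := h n (by omega) x h1.le
  have Q1 : (1 : ℝ) ≤ |(Q : ℝ)| := by exact_mod_cast Int.one_le_abs q1
  have Q0 : (Q : ℝ) ≠ 0 := by exact_mod_cast q1
  have e : ((2 * P * Q.sign : ℤ) : ℝ) / ((2 * |Q| : ℤ) : ℝ) = P / Q := by
    have : ((Q.sign : ℤ) : ℝ) * Q = |(Q : ℝ)| := by exact_mod_cast Int.sign_mul_self_eq_abs Q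
    push_cast
    rw [div_eq_div_iff (by positivity) Q0, ← this]
    ring
  refine ⟨2 * P * Q.sign, 2 * |Q|, by have := Int.one_le_abs q1; omega, ?_, ?_⟩
  · exact hx.ne_rational _ _
  · rw [e]
    have a1 : |x - P / Q| ≤ exp (-(m * (|κ| + 1) + 1) * n) := by
      have : (Q : ℝ) * x - P = Q * (x - P / Q) := by field_simp
      rw [this, abs_mul] at q3
      nlinarith [abs_nonneg (x - P / Q)]
    have a2 : ((2 * |Q| : ℤ) : ℝ) ≤ exp ((|κ| + 1) * n) := by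
      push_cast
      have := mul_le_mul_of_nonneg_right (le_abs_self κ) (zero_le_one.trans hn)
      have := exp_two (u := κ * n) (v := κ * n) (w := (|κ| + 1) * n) (by linarith) (by linarith)
      linarith
    have a3 : (0 : ℝ) < ((2 * |Q| : ℤ) : ℝ) := by push_cast; linarith
    refine a1.trans_lt ?_
    rw [lt_div_iff₀ (by positivity)]
    refine (mul_le_mul_of_nonneg_left (pow_le_pow_left₀ a3.le a2 m) (exp_pos _).le).trans_lt ?_
    rw [← exp_nat_mul, ← exp_add, exp_lt_one_iff]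
    linarith

end Pool.Agent.Lib.MP_c9a594_an
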