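import Pool.Agent.Shared.Subspace.Basic

/-!
# The monomial trick

An abstract setting (`Ctx`) in which the Subspace Theorem holds in asymptotic form, and the
inequality obtained by multiplying one relation by all monomials of a large box.
-/

open MvPolynomial Finset Filter Topology

namespace Pool.Agent.Lib.MP_c9a594_an

/-- A field with a multiplicative set of `S`-integers, growth rates at finitely many places, and
the Subspace Theorem in asymptotic form. -/
structure Ctx (K Pl : Type) [Field K] [CharZero K] [Fintype Pl] where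
  O : Submonoid K
  ord : Pl → K → ℝ
  ord_mul : ∀ v, ∀ x ∈ O, ∀ y ∈ O, ord v (x * y) = ord v x + ord v y
  sub : ∀ (N : ℕ) (x : Fin N → K) (w : Pl → Fin N → K), (∀ i, x i ∈ O) → (∀ v i, w v i ∈ O) →
    LinearIndependent ℚ x → (∀ v, LinearIndependent ℚ (w v)) →
    (∀ v i, w v i ∈ Submodule.span ℚ (Set.range x)) → 0 ≤ ∑ v, ∑ i, ord v (w v i)

/-- A total order on exponents refining a real weight. -/
noncomputable def key {r : ℕ} (w : Fin r → ℝ) (a : Fin r →₀ ℕ) : ℝ ×ₗ Lex (Fin r →₀ ℕ) :=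
  toLex (Finsupp.weight w a, toLex a)

section key

variable {r : ℕ} (w : Fin r → ℝ)

lemma key_add (a b : Fin r →₀ ℕ) : key w (a + b) = key w a + key w b := by
  simp only [key, map_add]; rfl

lemma key_inj {a b : Fin r →₀ ℕ} (h : key w a = key w b) : a = b :=
  toLex.injective (congrArg Prod.snd (toLex.injective h))

lemma weight_le_of_key {a b : Fin r →₀ ℕ} (h : key w a ≤ key w b) :
    Finsupp.weight w a ≤ Finsupp.weight w b := Prod.Lex.monotone_fst _ _ h

lemma exists_lead {P : MvPolynomial (Fin r) ℚ} (h : P ≠ 0) :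
    ∃ a ∈ P.support, ∀ a' ∈ P.support, key w a' ≤ key w a :=
  exists_max_image _ _ (support_nonempty.mpr h)

lemma lead_mem {P Q : MvPolynomial (Fin r) ℚ} {a b : Fin r →₀ ℕ} (ha : a ∈ P.support)
    (hb : b ∈ Q.support) (ha' : ∀ a' ∈ P.support, key w a' ≤ key w a)
    (hb' : ∀ b' ∈ Q.support, key w b' ≤ key w b) : a + b ∈ (P * Q).support := by
  rw [mem_support_iff, coeff_mul, sum_eq_single (a, b)]
  · exact mul_ne_zero (mem_support_iff.mp ha) (mem_support_iff.mp hb)
  · rintro ⟨x, y⟩ hxy hne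
    rw [HasAntidiagonal.mem_antidiagonal] at hxy
    by_contra h0
    have hx := ha' x (mem_support_iff.mpr (left_ne_zero_of_mul h0))
    have hy := hb' y (mem_support_iff.mpr (right_ne_zero_of_mul h0))
    have e : key w x + key w y = key w a + key w b := by
      rw [← key_add, ← key_add]; exact congrArg _ hxy
    have hx' : key w x = key w a := by
      by_contra hc
      exact absurd e (add_lt_add_of_lt_of_le (lt_of_le_of_ne hx hc) hy).ne
    have hxa := key_inj w hx'
    subst hxa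
    exact hne (Prod.ext rfl (add_left_cancel hxy))
  · intro h; exact absurd (HasAntidiagonal.mem_antidiagonal.mpr (rfl : (a, b).1 + (a, b).2 = a + b)) h

end key

/-- The box of exponents below `n`. -/
noncomputable def box {r : ℕ} (n : Fin r → ℕ) : Finset (Fin r →₀ ℕ) :=
  (Fintype.piFinset fun i => range (n i)).map Finsupp.equivFunOnFinite.symm.toEmbedding

lemma mem_box {r : ℕ} {n : Fin r → ℕ} {a : Fin r →₀ ℕ} : a ∈ box n ↔ ∀ i, a i < n i := by
  simp [box, mem_map_equiv, Fintype.mem_piFinset]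

lemma card_box {r : ℕ} (n : Fin r → ℕ) : (box n).card = ∏ i, n i := by
  simp [box, Fintype.card_piFinset]

/-- The monomial `g ^ a`. -/
noncomputable def mon {K : Type} [Field K] {r : ℕ} (g : Fin r → K) (a : Fin r →₀ ℕ) : K :=
  ∏ i, g i ^ a i

section

variable {K Pl : Type} [Field K] [CharZero K] [Fintype Pl] {r : ℕ}

omit [CharZero K] in
lemma mon_add (g : Fin r → K) (a b : Fin r →₀ ℕ) : mon g (a + b) = mon g a * mon g b := by
  simp [mon, pow_add, prod_mul_distrib]

lemma aeval_monomial_eq (g : Fin r → K) (a : Fin r →₀ ℕ) (c : ℚ) :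
    aeval g (monomial a c) = c • mon g a := by
  rw [aeval_monomial, Finsupp.prod_fintype _ _ (by simp), Algebra.smul_def, mon]

lemma aeval_eq_sum (g : Fin r → K) (P : MvPolynomial (Fin r) ℚ) :
    aeval g P = ∑ a ∈ P.support, coeff a P • mon g a := by
  conv_lhs => rw [P.as_sum, map_sum]
  simp only [aeval_monomial_eq]

namespace Ctx

variable (X : Ctx K Pl)

lemma ord_one (v : Pl) : X.ord v 1 = 0 := by
  have := X.ord_mul v 1 X.O.one_mem 1 X.O.one_mem
  rw [mul_one] at this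
  linarith

lemma ord_prod (v : Pl) {ι : Type*} (s : Finset ι) (f : ι → K) (hf : ∀ i ∈ s, f i ∈ X.O) :
    X.ord v (∏ i ∈ s, f i) = ∑ i ∈ s, X.ord v (f i) := by
  classical
  induction s using Finset.induction_on with
  | empty => simpa using X.ord_one v
  | insert a s ha ih =>
    have h2 : ∀ i ∈ s, f i ∈ X.O := fun i hi => hf i (mem_insert_of_mem hi)
    rw [prod_insert ha, sum_insert ha, X.ord_mul v _ (hf a (mem_insert_self _ _)) _
      (X.O.prod_mem h2), ih h2]

lemma ord_pow (v : Pl) {x : K} (hx : x ∈ X.O) (n : ℕ) : X.ord v (x ^ n) = n * X.ord v x := by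
  simpa using X.ord_prod v (range n) (fun _ => x) fun _ _ => hx

lemma mon_mem {g : Fin r → K} (hg : ∀ i, g i ∈ X.O) (a : Fin r →₀ ℕ) : mon g a ∈ X.O :=
  X.O.prod_mem fun i _ => X.O.pow_mem (hg i) _

/-- The growth rate of the monomial `g ^ a` at `v`. -/
noncomputable def wt (g : Fin r → K) (v : Pl) : (Fin r →₀ ℕ) →+ ℝ :=
  Finsupp.weight fun i => X.ord v (g i)

lemma ord_mon {g : Fin r → K} (hg : ∀ i, g i ∈ X.O) (v : Pl) (a : Fin r →₀ ℕ) :
    X.ord v (mon g a) = X.wt g v a := by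
  rw [mon, X.ord_prod v _ _ fun i _ => X.O.pow_mem (hg i) _, wt, Finsupp.weight_eq_sum]
  exact sum_congr rfl fun i _ => by rw [X.ord_pow v (hg i), nsmul_eq_mul]

lemma sum_wt {g : Fin r → K} (hg : ∀ i, ∑ v, X.ord v (g i) = 0) (a : Fin r →₀ ℕ) :
    ∑ v, X.wt g v a = 0 := by
  simp only [wt, Finsupp.weight_eq_sum]
  rw [sum_comm]
  exact sum_eq_zero fun i _ => by rw [← smul_sum, hg, smul_zero]

/-- The asymptotic Subspace Theorem for subfamilies of one family. -/
lemma sub_finset {T : Type} (f : T → K) (F0 : Finset T) (F : Pl → Finset T)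
    (hc : ∀ v, (F v).card = F0.card) (h0 : ∀ x ∈ F0, f x ∈ X.O) (hF : ∀ v, ∀ x ∈ F v, f x ∈ X.O)
    (i0 : LinearIndepOn ℚ f F0) (iF : ∀ v, LinearIndepOn ℚ f (F v))
    (hs : ∀ v, ∀ x ∈ F v, f x ∈ Submodule.span ℚ (f '' F0)) :
    0 ≤ ∑ v, ∑ x ∈ F v, X.ord v (f x) := by
  let e0 := F0.equivFin.symm
  let e := fun v => (Finset.equivFinOfCardEq (hc v)).symm
  have := X.sub F0.card (fun i => f (e0 i)) (fun v i => f (e v i)) (fun i => h0 _ (e0 i).2)
    (fun v i => hF v _ (e v i).2) (i0.comp e0 e0.injective)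
    (fun v => (iF v).comp (e v) (e v).injective) (fun v i => by
      refine Submodule.span_mono ?_ (hs v _ (e v i).2)
      rintro _ ⟨x, hx, rfl⟩
      exact ⟨e0.symm ⟨x, hx⟩, by simp⟩)
  refine this.trans_eq (sum_congr rfl fun v _ => ?_)
  rw [← sum_coe_sort (F v)]
  exact (e v).sum_comp fun x => X.ord v (f x)

end Ctx

variable {J : Type} [Fintype J] [DecidableEq J]

/-- The exponents that are kept. -/
noncomputable def fam (Φ : J → MvPolynomial (Fin r) ℚ) (L : ℕ) (j0 : J) (e0 : Fin r →₀ ℕ) :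
    Finset (J × (Fin r →₀ ℕ)) :=
  (univ ×ˢ box fun i => L + univ.sup fun j => (Φ j).degreeOf i) \
    (box fun _ => L).image fun t => (j0, t + e0)

omit [DecidableEq J] in
lemma piv_subset (Φ : J → MvPolynomial (Fin r) ℚ) (L : ℕ) {j0 : J} {e0 : Fin r →₀ ℕ}
    (h : e0 ∈ (Φ j0).support) {t : Fin r →₀ ℕ} (ht : t ∈ box fun _ => L) :
    (j0, t + e0) ∈ (univ : Finset J) ×ˢ box fun i => L + univ.sup fun j => (Φ j).degreeOf i := by
  refine mem_product.mpr ⟨mem_univ _, mem_box.mpr fun i => ?_⟩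
  have h1 := mem_box.mp ht i
  have h2 : e0 i ≤ univ.sup fun j => (Φ j).degreeOf i :=
    (monomial_le_degreeOf i h).trans (le_sup (f := fun j => (Φ j).degreeOf i) (mem_univ j0))
  simp only [Finsupp.coe_add, Pi.add_apply]
  omega

lemma sum_fam (Φ : J → MvPolynomial (Fin r) ℚ) (L : ℕ) {j0 : J} {e0 : Fin r →₀ ℕ}
    (h : e0 ∈ (Φ j0).support) {M : Type*} [AddCommMonoid M] (f : J × (Fin r →₀ ℕ) → M) :
    ∑ x ∈ fam Φ L j0 e0, f x + ∑ t ∈ box fun _ => L, f (j0, t + e0) =
      ∑ x ∈ univ ×ˢ box fun i => L + univ.sup fun j => (Φ j).degreeOf i, f x := by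
  rw [← sum_image (s := box fun _ => L) (g := fun t => (j0, t + e0)) (f := f)
    (fun a _ b _ hab => add_right_cancel (Prod.mk.inj hab).2), fam]
  refine sum_sdiff fun x hx => ?_
  obtain ⟨t, ht, rfl⟩ := mem_image.mp hx
  exact piv_subset Φ L h ht

lemma indep_fam (g : Fin r → K) (E : J → K) (Φ : J → MvPolynomial (Fin r) ℚ)
    (hker : ∀ Ψ : J → MvPolynomial (Fin r) ℚ, ∑ j, aeval g (Ψ j) * E j = 0 →
      ∃ T, ∀ j, Ψ j = T * Φ j) (w : Fin r → ℝ) {L : ℕ} (hL : 0 < L) {j0 : J} {e0 : Fin r →₀ ℕ}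
    (h : e0 ∈ (Φ j0).support) (hm : ∀ e ∈ (Φ j0).support, key w e ≤ key w e0) :
    LinearIndepOn ℚ (fun x : J × (Fin r →₀ ℕ) => E x.1 * mon g x.2) (fam Φ L j0 e0) := by
  rw [linearIndepOn_finset_iff]
  intro c hc
  let Ψ : J → MvPolynomial (Fin r) ℚ := fun j =>
    ∑ x ∈ fam Φ L j0 e0, if x.1 = j then monomial x.2 (c x) else 0
  have hΨ : ∀ j a, coeff a (Ψ j) = if (j, a) ∈ fam Φ L j0 e0 then c (j, a) else 0 := by
    intro j a
    rw [coeff_sum, ← sum_ite_eq' (fam Φ L j0 e0) (j, a) c]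
    refine sum_congr rfl fun x _ => ?_
    by_cases h1 : x.1 = j <;> by_cases h2 : x.2 = a <;> simp [h1, h2, Prod.ext_iff]
  obtain ⟨T, hT⟩ := hker Ψ (by
    rw [← hc]
    simp only [Ψ, map_sum, sum_mul]
    rw [sum_comm]
    refine sum_congr rfl fun x _ => ?_
    rw [sum_eq_single x.1 (fun j _ hj => by simp [hj.symm]) (by simp), if_pos rfl,
      aeval_monomial_eq, smul_mul_assoc, mul_comm])
  by_cases hT0 : T = 0
  · rintro ⟨j, a⟩ hx
    have := hΨ j a
    rw [hT, hT0, zero_mul, coeff_zero, if_pos hx] at this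
    exact this.symm
  exfalso
  obtain ⟨t, ht, ht'⟩ := exists_lead w hT0
  have h1 := lead_mem w ht h ht' hm
  rw [← hT, mem_support_iff, hΨ] at h1
  refine h1 (if_neg fun hmem => (Finset.mem_sdiff.mp hmem).2 (mem_image.mpr ⟨t, ?_, rfl⟩))
  refine mem_box.mpr fun i => (monomial_le_degreeOf i ht).trans_lt ?_
  have hdeg : ∀ j, (Ψ j).degreeOf i < L + univ.sup fun j => (Φ j).degreeOf i := by
    intro j
    rw [degreeOf_lt_iff (by omega)]
    intro a ha
    rw [mem_support_iff, hΨ] at ha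
    have : (j, a) ∈ fam Φ L j0 e0 := by
      by_contra hc; exact ha (if_neg hc)
    exact mem_box.mp (mem_product.mp (Finset.mem_sdiff.mp this).1).2 i
  obtain ⟨j, -, hj⟩ := exists_mem_eq_sup (univ : Finset J) ⟨j0, mem_univ _⟩
    fun j => (Φ j).degreeOf i
  by_cases hΦ : Φ j = 0
  · have := hdeg j0
    rw [hj, hT, degreeOf_mul_eq hT0 (support_nonempty.mp ⟨_, h⟩), hΦ, degreeOf_zero] at this
    omega
  · have := hdeg j
    rw [hj, hT, degreeOf_mul_eq hT0 hΦ] at this
    omega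

lemma span_fam (g : Fin r → K) (E : J → K) (Φ : J → MvPolynomial (Fin r) ℚ)
    (hΦ : ∑ j, aeval g (Φ j) * E j = 0) (w : Fin r → ℝ) (L : ℕ) {j0 : J} {e0 : Fin r →₀ ℕ}
    (h : e0 ∈ (Φ j0).support) (hm : ∀ e ∈ (Φ j0).support, key w e ≤ key w e0)
    {x : J × (Fin r →₀ ℕ)}
    (hx : x ∈ (univ : Finset J) ×ˢ box fun i => L + univ.sup fun j => (Φ j).degreeOf i) :
    E x.1 * mon g x.2 ∈ Submodule.span ℚ
      ((fun x : J × (Fin r →₀ ℕ) => E x.1 * mon g x.2) '' fam Φ L j0 e0) := by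
  set W := Submodule.span ℚ ((fun x : J × (Fin r →₀ ℕ) => E x.1 * mon g x.2) '' fam Φ L j0 e0)
  have hfam : ∀ x ∈ fam Φ L j0 e0, E x.1 * mon g x.2 ∈ W := fun x hx =>
    Submodule.subset_span ⟨x, hx, rfl⟩
  have key1 : ∀ t ∈ box fun _ : Fin r => L, E j0 * mon g (t + e0) ∈ W := by
    intro t ht
    have : IsStrictOrder (Fin r →₀ ℕ) fun a b => key w a < key w b :=
      { irrefl := fun a => lt_irrefl _, trans := fun a b c => lt_trans }
    refine ((box fun _ : Fin r => L).finite_toSet.wellFoundedOn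
      (r := fun a b => key w a < key w b)).induction (P := fun t => E j0 * mon g (t + e0) ∈ W)
      ht fun t ht ih => ?_
    have h0 : ∑ y ∈ univ.sigma fun j => (Φ j).support,
        coeff y.2 (Φ y.1) • (E y.1 * mon g (t + y.2)) = 0 := by
      rw [sum_sigma, ← mul_zero (mon g t), ← hΦ, mul_sum]
      refine sum_congr rfl fun j _ => ?_
      rw [aeval_eq_sum, sum_mul, mul_sum]
      refine sum_congr rfl fun e _ => ?_
      rw [mon_add, smul_mul_assoc, mul_smul_comm]
      congr 1; ring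
    rw [← add_sum_erase _ _ (a := ⟨j0, e0⟩) (mem_sigma.mpr ⟨mem_univ _, h⟩),
      add_eq_zero_iff_eq_neg] at h0
    rw [← W.smul_mem_iff (mem_support_iff.mp h), h0]
    refine W.neg_mem (W.sum_mem fun y hy => W.smul_mem _ ?_)
    obtain ⟨hne, hy⟩ := mem_erase.mp hy
    have hy2 := (mem_sigma.mp hy).2
    by_cases hp : (y.1, t + y.2) ∈ (box fun _ => L).image fun t => (j0, t + e0)
    · obtain ⟨t', ht', e⟩ := mem_image.mp hp
      obtain ⟨j, a⟩ := y
      obtain ⟨e1, e2⟩ := Prod.mk.inj e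
      dsimp only at e1 e2 hy2 ⊢
      subst e1
      rw [← e2]
      refine ih t' ht' ?_
      have h1 : key w a < key w e0 :=
        lt_of_le_of_ne (hm a hy2) fun hc => hne (by rw [key_inj w hc])
      have h2 : key w t' + key w e0 = key w t + key w a := by rw [← key_add, ← key_add, e2]
      exact lt_of_add_lt_add_right (h2.trans_lt (add_lt_add_right h1 _))
    · exact hfam (y.1, t + y.2) (Finset.mem_sdiff.mpr ⟨piv_subset Φ L hy2 ht, hp⟩)
  by_cases hp : x ∈ (box fun _ => L).image fun t => (j0, t + e0)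
  · obtain ⟨t, ht, rfl⟩ := mem_image.mp hp
    exact key1 t ht
  · exact hfam x (Finset.mem_sdiff.mpr ⟨hx, hp⟩)

lemma le_of_box {A H : ℝ} (δ : Fin r → ℕ)
    (h : ∀ L : ℕ, 0 < L → (L : ℝ) ^ r * A ≤ (∏ i, ((L + δ i : ℕ) : ℝ)) * H) : A ≤ H := by
  have h1 : Tendsto (fun L : ℕ => (∏ i, (1 + (δ i : ℝ) / L)) * H) atTop
      (𝓝 ((∏ _i : Fin r, (1 + 0)) * H)) :=
    (tendsto_finsetProd _ fun i _ =>
      tendsto_const_nhds.add (tendsto_const_div_atTop_nhds_zero_nat _)).mul_const H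
  simp only [add_zero, prod_const_one, one_mul] at h1
  refine ge_of_tendsto h1 ((eventually_gt_atTop 0).mono fun L hL => ?_)
  have hL' : (0 : ℝ) < L := by exact_mod_cast hL
  have e : ∏ i, ((L + δ i : ℕ) : ℝ) = (L : ℝ) ^ r * ∏ i, (1 + (δ i : ℝ) / L) := by
    rw [← Fin.prod_const, ← prod_mul_distrib]
    refine prod_congr rfl fun i _ => ?_
    push_cast; field_simp
  have := h L hL
  rw [e, mul_assoc] at this
  exact le_of_mul_le_mul_left this (by positivity)

/-- The inequality coming from one generating relation. -/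
theorem Ctx.folner (X : Ctx K Pl) (v0 : Pl) {g : Fin r → K} (hg : ∀ i, g i ∈ X.O)
    (hg0 : ∀ i, ∑ v, X.ord v (g i) = 0) {E : J → K} (hE : ∀ j, E j ∈ X.O)
    (Φ : J → MvPolynomial (Fin r) ℚ) (hΦ : ∑ j, aeval g (Φ j) * E j = 0)
    (hker : ∀ Ψ : J → MvPolynomial (Fin r) ℚ, ∑ j, aeval g (Ψ j) * E j = 0 →
      ∃ T, ∀ j, Ψ j = T * Φ j) (jv : Pl → J) (ev : Pl → Fin r →₀ ℕ)
    (hev : ∀ v, ev v ∈ (Φ (jv v)).support) :
    ∑ v, (X.ord v (E (jv v)) + X.wt g v (ev v)) ≤ ∑ j, ∑ v, X.ord v (E j) := by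
  have := fun v => exists_lead (fun i => X.ord v (g i)) (support_nonempty.mp ⟨_, hev v⟩)
  choose e he hm using this
  refine (sum_le_sum fun v _ => add_le_add_right (weight_le_of_key _ (hm v _ (hev v))) _).trans ?_
  refine le_of_box (fun i => univ.sup fun j => (Φ j).degreeOf i) fun L hL => ?_
  have hO : ∀ x : J × (Fin r →₀ ℕ), E x.1 * mon g x.2 ∈ X.O := fun x =>
    X.O.mul_mem (hE _) (X.mon_mem hg _)
  have hord : ∀ v j a, X.ord v (E j * mon g a) = X.ord v (E j) + X.wt g v a := fun v j a => by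
    rw [X.ord_mul v _ (hE _) _ (X.mon_mem hg _), X.ord_mon hg]
  have h1 := X.sub_finset (fun x : J × (Fin r →₀ ℕ) => E x.1 * mon g x.2)
    (fam Φ L (jv v0) (e v0)) (fun v => fam Φ L (jv v) (e v)) (fun v => by
      have h1 := sum_fam Φ L (he v) fun _ => 1
      have h2 := sum_fam Φ L (he v0) fun _ => 1
      simp only [sum_const, smul_eq_mul, mul_one] at h1 h2
      omega) (fun x _ => hO x) (fun _ x _ => hO x)
    (indep_fam g E Φ hker _ hL (he v0) (hm v0)) (fun v => indep_fam g E Φ hker _ hL (he v) (hm v))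
    (fun v x hx => span_fam g E Φ hΦ _ L (he v0) (hm v0) (Finset.mem_sdiff.mp hx).1)
  have h2 := fun v => sum_fam Φ L (he v) fun x => X.ord v (E x.1 * mon g x.2)
  have h3 := sum_congr (rfl (a := (univ : Finset Pl))) fun v _ => h2 v
  simp only [hord] at h1 h3
  rw [sum_add_distrib, sum_comm (t := box _), sum_comm (t := univ ×ˢ box _)] at h3
  simp only [sum_add_distrib, map_add, X.sum_wt hg0, add_zero, zero_add] at h3 h1
  rw [sum_product] at h3
  simp only [sum_const, card_box, nsmul_eq_mul, ← mul_sum, prod_const, card_univ,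
    Fintype.card_fin] at h3
  push_cast at h3 ⊢
  simp only [sum_add_distrib]
  change (L : ℝ) ^ r * (∑ v, X.ord v (E (jv v)) + ∑ v, X.wt g v (e v)) ≤ _
  linarith

end

end Pool.Agent.Lib.MP_c9a594_an
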