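import Mathlib

/-!
Sets visited with uniform density zero (upper Banach density zero along every orbit).
-/

open Filter Topology MeasureTheory Set
open scoped ENNReal

namespace Pool.Agent.Lib.MP_c9a594_an

variable {α : Type*}

open Classical in
/-- Number of times below N at which the orbit of x lies in E. -/
noncomputable def cnt (f : α → α) (E : Set α) (x : α) (N : ℕ) : ℕ :=
  ((Finset.range N).filter (fun n => f^[n] x ∈ E)).card

/-- Uniform density zero of the visits. -/
def Small (f : α → α) (E : Set α) : Prop :=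
  ∀ δ : ℝ, 0 < δ → ∃ N₀ : ℕ, ∀ N, N₀ ≤ N → ∀ x, (cnt f E x N : ℝ) ≤ δ * N

open Classical in
theorem cnt_eq_sum (f : α → α) (E : Set α) (x : α) (N : ℕ) :
    cnt f E x N = ∑ n ∈ Finset.range N, if f^[n] x ∈ E then 1 else 0 := by
  unfold cnt
  rw [Finset.card_filter]

theorem cnt_le (f : α → α) (E : Set α) (x : α) (N : ℕ) : cnt f E x N ≤ N := by
  classical
  unfold cnt
  exact (Finset.card_filter_le _ _).trans (by simp)

theorem cnt_mono (f : α → α) {E F : Set α} (h : E ⊆ F) (x : α) (N : ℕ) :
    cnt f E x N ≤ cnt f F x N := by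
  classical
  unfold cnt
  apply Finset.card_le_card
  intro n hn
  simp only [Finset.mem_filter] at hn ⊢
  exact ⟨hn.1, h hn.2⟩

theorem cnt_union (f : α → α) (E F : Set α) (x : α) (N : ℕ) :
    cnt f (E ∪ F) x N ≤ cnt f E x N + cnt f F x N := by
  classical
  simp only [cnt_eq_sum]
  rw [← Finset.sum_add_distrib]
  apply Finset.sum_le_sum
  intro n _
  by_cases h1 : f^[n] x ∈ E <;> by_cases h2 : f^[n] x ∈ F <;> simp [h1, h2]

theorem cnt_add (f : α → α) (E : Set α) (x : α) (k N : ℕ) :
    cnt f E x (k + N) = cnt f E x k + cnt f E (f^[k] x) N := by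
  classical
  simp only [cnt_eq_sum]
  rw [Finset.sum_range_add]
  congr 1
  apply Finset.sum_congr rfl
  intro n _
  rw [add_comm k n, Function.iterate_add_apply]

theorem cnt_mono_right (f : α → α) (E : Set α) (x : α) {N N' : ℕ} (h : N ≤ N') :
    cnt f E x N ≤ cnt f E x N' := by
  obtain ⟨d, rfl⟩ := Nat.exists_eq_add_of_le h
  rw [cnt_add]
  omega

theorem cnt_preimage (f : α → α) (E : Set α) (x : α) (k N : ℕ) :
    cnt f (f^[k] ⁻¹' E) x N = cnt f E (f^[k] x) N := by
  classical
  simp only [cnt_eq_sum]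
  apply Finset.sum_congr rfl
  intro n _
  rw [mem_preimage, ← Function.iterate_add_apply, ← Function.iterate_add_apply, add_comm]

theorem Small.mono {f : α → α} {E F : Set α} (hF : Small f F) (h : E ⊆ F) : Small f E := by
  intro δ hδ
  obtain ⟨N₀, hN⟩ := hF δ hδ
  exact ⟨N₀, fun N hN' x => le_trans (by exact_mod_cast cnt_mono f h x N) (hN N hN' x)⟩

theorem small_empty (f : α → α) : Small f (∅ : Set α) := by
  intro δ hδ
  refine ⟨0, fun N _ x => ?_⟩
  have : cnt f (∅ : Set α) x N = 0 := by simp [cnt]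
  rw [this]
  push_cast
  positivity

theorem Small.union {f : α → α} {E F : Set α} (hE : Small f E) (hF : Small f F) :
    Small f (E ∪ F) := by
  intro δ hδ
  obtain ⟨N₁, h₁⟩ := hE (δ / 2) (by positivity)
  obtain ⟨N₂, h₂⟩ := hF (δ / 2) (by positivity)
  refine ⟨max N₁ N₂, fun N hN x => ?_⟩
  have h3 : (cnt f (E ∪ F) x N : ℝ) ≤ cnt f E x N + cnt f F x N := by
    exact_mod_cast cnt_union f E F x N
  have := h₁ N (le_trans (le_max_left _ _) hN) x
  have := h₂ N (le_trans (le_max_right _ _) hN) x
  linarith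

theorem small_biUnion {ι : Type*} {f : α → α} (s : Finset ι) (E : ι → Set α)
    (h : ∀ i ∈ s, Small f (E i)) : Small f (⋃ i ∈ s, E i) := by
  classical
  induction s using Finset.induction_on with
  | empty => simpa using small_empty f
  | insert i s hi ih =>
    rw [Finset.set_biUnion_insert]
    exact (h i (Finset.mem_insert_self _ _)).union
      (ih fun j hj => h j (Finset.mem_insert_of_mem hj))

theorem Small.preimage {f : α → α} {E : Set α} (hE : Small f E) (k : ℕ) :
    Small f (f^[k] ⁻¹' E) := by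
  intro δ hδ
  obtain ⟨N₀, hN⟩ := hE δ hδ
  exact ⟨N₀, fun N hN' x => by rw [cnt_preimage]; exact hN N hN' _⟩

/-- Transfer along a semiconjugacy. -/
theorem Small.semiconj {β : Type*} {f : α → α} {g : β → β} {π : α → β}
    (h : Function.Semiconj π f g) {E : Set β} (hE : Small g E) : Small f (π ⁻¹' E) := by
  classical
  intro δ hδ
  obtain ⟨N₀, hN⟩ := hE δ hδ
  refine ⟨N₀, fun N hN' x => ?_⟩
  have : cnt f (π ⁻¹' E) x N = cnt g E (π x) N := by
    simp only [cnt_eq_sum]
    apply Finset.sum_congr rfl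
    intro n _
    rw [mem_preimage, (h.iterate_right n).eq]
  rw [this]
  exact hN N hN' _

/-- Double counting. -/
theorem sum_cnt_comm (f : α → α) (E : Set α) (x : α) (L N : ℕ) :
    ∑ n ∈ Finset.range L, cnt f E (f^[n] x) N = ∑ k ∈ Finset.range N, cnt f E (f^[k] x) L := by
  classical
  simp only [cnt_eq_sum]
  rw [Finset.sum_comm]
  apply Finset.sum_congr rfl
  intro k _
  apply Finset.sum_congr rfl
  intro n _
  rw [← Function.iterate_add_apply, ← Function.iterate_add_apply, add_comm]

/-- The pattern lemma. -/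
theorem pattern {f : α → α} {F : Set α} (hF : ¬ Small f F) :
    ∃ δ : ℝ, 0 < δ ∧ ∀ N : ℕ, 1 ≤ N → ∃ K : Finset ℕ, K ⊆ Finset.range N ∧
      δ * N < K.card ∧ ¬ Small f {x | x ∈ F ∧ ∀ k ∈ K, f^[k] x ∈ F} := by
  classical
  unfold Small at hF
  push Not at hF
  obtain ⟨d, hd, hF⟩ := hF
  refine ⟨d / 2, by positivity, fun N hN => ?_⟩
  set G : Set α := {x | d / 2 * N < cnt f F x N} with hG
  have hNpos : (0 : ℝ) < N := by exact_mod_cast hN
  have hGns : ¬ Small f G := by
    intro hs
    obtain ⟨L₀, hL₀⟩ := hs (d / 4) (by positivity)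
    obtain ⟨L₁, hL₁⟩ := exists_nat_gt (4 * N / d)
    obtain ⟨L, hL, x, hx⟩ := hF (max L₀ L₁)
    have h1 := hL₀ L (le_trans (le_max_left _ _) hL) x
    have hL1 : (L₁ : ℝ) ≤ L := by exact_mod_cast le_trans (le_max_right _ _) hL
    have hlow : (N : ℝ) * (cnt f F x L - N) ≤ ∑ k ∈ Finset.range N, (cnt f F (f^[k] x) L : ℝ) := by
      have : ∀ k ∈ Finset.range N, (cnt f F x L - N : ℝ) ≤ (cnt f F (f^[k] x) L : ℝ) := by
        intro k hk
        have hk' : k < N := Finset.mem_range.1 hk
        have h2 : cnt f F x L ≤ cnt f F x (k + L) := cnt_mono_right f F x (by omega)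
        rw [cnt_add] at h2
        have h3 := cnt_le f F x k
        have h4 : cnt f F x L ≤ N + cnt f F (f^[k] x) L := by omega
        have h5 : (cnt f F x L : ℝ) ≤ N + cnt f F (f^[k] x) L := by exact_mod_cast h4
        linarith
      have := Finset.card_nsmul_le_sum _ _ _ this
      simpa using this
    have hup : ∑ n ∈ Finset.range L, (cnt f F (f^[n] x) N : ℝ)
        ≤ N * cnt f G x L + d / 2 * N * L := by
      rw [cnt_eq_sum f G]
      push_cast
      rw [Finset.mul_sum]
      have : d / 2 * N * L = ∑ n ∈ Finset.range L, d / 2 * (N : ℝ) := by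
        simp [mul_comm]
      rw [this, ← Finset.sum_add_distrib]
      apply Finset.sum_le_sum
      intro n _
      by_cases hn : f^[n] x ∈ G
      · have : (cnt f F (f^[n] x) N : ℝ) ≤ N := by exact_mod_cast cnt_le f F _ N
        simp only [hn, if_true]
        have : 0 ≤ d / 2 * (N : ℝ) := by positivity
        linarith
      · simp only [hn, if_false]
        simp only [hG, mem_ofPred_eq, not_lt] at hn
        linarith
    have hcomm : ∑ n ∈ Finset.range L, (cnt f F (f^[n] x) N : ℝ)
        = ∑ k ∈ Finset.range N, (cnt f F (f^[k] x) L : ℝ) := by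
      exact_mod_cast sum_cnt_comm f F x L N
    have h6 : (N : ℝ) * (cnt f F x L - N) ≤ N * (cnt f G x L + d / 2 * L) := by
      calc _ ≤ _ := hlow
        _ = _ := hcomm.symm
        _ ≤ _ := hup
        _ = _ := by ring
    have h7 := le_of_mul_le_mul_left h6 hNpos
    have h8 : 4 * (N : ℝ) < L * d := by
      rw [div_lt_iff₀ hd] at hL₁
      nlinarith
    nlinarith
  -- split G according to the pattern
  set S : Finset (Finset ℕ) :=
    (Finset.range N).powerset.filter (fun K => d / 2 * N < (K.card : ℝ)) with hS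
  have hcover : G ⊆ ⋃ K ∈ S, {x | ∀ k ∈ K, f^[k] x ∈ F} := by
    intro x hx
    simp only [mem_iUnion]
    refine ⟨(Finset.range N).filter (fun n => f^[n] x ∈ F), ?_, ?_⟩
    · simp only [hS, Finset.mem_filter, Finset.mem_powerset]
      exact ⟨Finset.filter_subset _ _, hx⟩
    · intro k hk
      exact (Finset.mem_filter.1 hk).2
  have : ∃ K ∈ S, ¬ Small f {x | ∀ k ∈ K, f^[k] x ∈ F} := by
    by_contra hcon
    push Not at hcon
    exact hGns ((small_biUnion S _ hcon).mono hcover)
  obtain ⟨K, hKS, hK⟩ := this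
  simp only [hS, Finset.mem_filter, Finset.mem_powerset] at hKS
  have hKne : K.Nonempty := by
    rw [← Finset.card_pos]
    have : (0 : ℝ) < K.card := lt_trans (by positivity) hKS.2
    exact_mod_cast this
  set k₀ := K.min' hKne with hk₀
  refine ⟨K.image (fun k => k - k₀), ?_, ?_, ?_⟩
  · intro k hk
    obtain ⟨j, hj, rfl⟩ := Finset.mem_image.1 hk
    have := Finset.mem_range.1 (hKS.1 hj)
    exact Finset.mem_range.2 (by omega)
  · rw [Finset.card_image_of_injOn]
    · exact hKS.2
    · intro i hi j hj hij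
      have h1 := K.min'_le i hi
      have h2 := K.min'_le j hj
      simp only at hij
      omega
  · intro hs
    apply hK
    refine (hs.preimage k₀).mono ?_
    intro x hx
    refine ⟨hx _ (K.min'_mem hKne), ?_⟩
    intro k hk
    obtain ⟨j, hj, rfl⟩ := Finset.mem_image.1 hk
    have h1 := K.min'_le j hj
    rw [← Function.iterate_add_apply]
    have : j - k₀ + k₀ = j := by omega
    rw [this]
    exact hx j hj

/-- Passing from an iterate to the map. -/
theorem Small.of_iterate {f : α → α} {E : Set α} {u : ℕ} (hu : 0 < u) (hE : Small f^[u] E) :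
    Small f E := by
  classical
  intro δ hδ
  obtain ⟨N₀, hN⟩ := hE (δ / 2) (by positivity)
  refine ⟨u * N₀ + u, fun N hN' x => ?_⟩
  have hsub : (Finset.range N).filter (fun n => f^[n] x ∈ E) ⊆
      (Finset.range u).biUnion (fun c => ((Finset.range (N / u + 1)).filter
        (fun m => (f^[u])^[m] (f^[c] x) ∈ E)).image (fun m => u * m + c)) := by
    intro n hn
    simp only [Finset.mem_filter, Finset.mem_range] at hn
    simp only [Finset.mem_biUnion, Finset.mem_range, Finset.mem_image, Finset.mem_filter]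
    refine ⟨n % u, Nat.mod_lt _ hu, n / u, ⟨?_, ?_⟩, Nat.div_add_mod n u⟩
    · exact Nat.lt_succ_of_le (Nat.div_le_div_right hn.1.le)
    · rw [← Function.iterate_mul, ← Function.iterate_add_apply, Nat.div_add_mod]
      exact hn.2
  have h1 : cnt f E x N ≤ ∑ c ∈ Finset.range u, cnt f^[u] E (f^[c] x) (N / u + 1) := by
    unfold cnt
    refine (Finset.card_le_card hsub).trans (Finset.card_biUnion_le.trans ?_)
    apply Finset.sum_le_sum
    intro c _
    exact Finset.card_image_le
  have hq : N₀ ≤ N / u + 1 := by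
    have : N₀ ≤ N / u := (Nat.le_div_iff_mul_le hu).2 (by rw [mul_comm]; omega)
    omega
  have h2 : ∑ c ∈ Finset.range u, (cnt f^[u] E (f^[c] x) (N / u + 1) : ℝ)
      ≤ u * (δ / 2 * ((N / u + 1 : ℕ) : ℝ)) := by
    have := Finset.sum_le_card_nsmul (Finset.range u)
      (fun c => (cnt f^[u] E (f^[c] x) (N / u + 1) : ℝ)) (δ / 2 * ((N / u + 1 : ℕ) : ℝ))
      (fun c _ => hN _ hq _)
    simpa using this
  have h3 : u * (N / u + 1) ≤ 2 * N := by
    have := Nat.mul_div_le N u
    rw [mul_add]
    omega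
  have h3' : (u : ℝ) * ((N / u + 1 : ℕ) : ℝ) ≤ 2 * N := by exact_mod_cast h3
  have h1' : (cnt f E x N : ℝ) ≤ ∑ c ∈ Finset.range u, (cnt f^[u] E (f^[c] x) (N / u + 1) : ℝ) := by
    exact_mod_cast h1
  nlinarith

/-- The integral of the visit count. -/
theorem lintegral_cnt [MeasurableSpace α] {μ : Measure α} {f : α → α}
    (hf : MeasurePreserving f μ μ) {V : Set α} (hV : MeasurableSet V) (N : ℕ) :
    ∫⁻ y, (cnt f V y N : ℝ≥0∞) ∂μ = N * μ V := by
  classical
  have : ∀ y, (cnt f V y N : ℝ≥0∞)
      = ∑ n ∈ Finset.range N, (f^[n] ⁻¹' V).indicator (fun _ => (1 : ℝ≥0∞)) y := by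
    intro y
    rw [cnt_eq_sum]
    push_cast
    apply Finset.sum_congr rfl
    intro n _
    simp [indicator_apply]
  simp_rw [this]
  rw [lintegral_finsetSum]
  · have : ∀ n ∈ Finset.range N,
        ∫⁻ y, (f^[n] ⁻¹' V).indicator (fun _ => (1 : ℝ≥0∞)) y ∂μ = μ V := by
      intro n _
      rw [lintegral_indicator_const ((hf.iterate n).measurable hV), one_mul,
        (hf.iterate n).measure_preimage hV.nullMeasurableSet]
    rw [Finset.sum_congr rfl this]
    simp
  · intro n _
    exact measurable_const.indicator ((hf.iterate n).measurable hV)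

/-- A small set is null for every finite invariant measure. -/
theorem Small.measure_zero [MeasurableSpace α] {μ : Measure α} [IsFiniteMeasure μ] {f : α → α}
    (hf : MeasurePreserving f μ μ) {E : Set α} (hE : MeasurableSet E) (hs : Small f E) :
    μ E = 0 := by
  have key : ∀ δ : ℝ, 0 < δ → μ.real E ≤ δ * μ.real univ := by
    intro δ hδ
    obtain ⟨N₀, hN⟩ := hs δ hδ
    have h1 := lintegral_cnt hf hE (N₀ + 1)
    have h2 : ∫⁻ y, (cnt f E y (N₀ + 1) : ℝ≥0∞) ∂μ
        ≤ ∫⁻ _, ENNReal.ofReal (δ * ((N₀ + 1 : ℕ) : ℝ)) ∂μ := by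
      apply lintegral_mono
      intro y
      have := hN (N₀ + 1) (by omega) y
      simp only
      rw [← ENNReal.ofReal_natCast]
      exact ENNReal.ofReal_le_ofReal this
    rw [h1, lintegral_const] at h2
    have h3 := ENNReal.toReal_mono (by finiteness) h2
    rw [ENNReal.toReal_mul, ENNReal.toReal_mul, ENNReal.toReal_ofReal (by positivity),
      ENNReal.toReal_natCast] at h3
    have hpos : (0 : ℝ) < ((N₀ + 1 : ℕ) : ℝ) := by positivity
    change ((N₀ + 1 : ℕ) : ℝ) * μ.real E ≤ δ * ((N₀ + 1 : ℕ) : ℝ) * μ.real univ at h3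
    have h4 : ((N₀ + 1 : ℕ) : ℝ) * μ.real E ≤ ((N₀ + 1 : ℕ) : ℝ) * (δ * μ.real univ) := by
      linarith
    exact le_of_mul_le_mul_left h4 hpos
  have h0 : μ.real E ≤ 0 := by
    apply le_of_forall_pos_le_add
    intro ε hε
    have hm : 0 ≤ μ.real univ := measureReal_nonneg
    have := key (ε / (μ.real univ + 1)) (by positivity)
    have h2 : ε / (μ.real univ + 1) * μ.real univ ≤ ε := by
      rw [div_mul_eq_mul_div, div_le_iff₀ (by positivity)]
      nlinarith
    linarith
  have : μ.real E = 0 := le_antisymm h0 measureReal_nonneg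
  exact (measureReal_eq_zero_iff (by finiteness)).1 this

end Pool.Agent.Lib.MP_c9a594_an
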