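import Mathlib
import Pool.Agent.Lib.MP_c9a594_an.Small

/-!
Null closed sets are visited with uniform density zero by an irrational rotation, and the
exponents for which the two-sided orbit under multiplication by B is not dense at a given scale
form such a set.
-/

open Filter Topology MeasureTheory Set Metric
open scoped ENNReal

namespace Pool.Agent.Lib.MP_c9a594_an

/-- A proper closed forward invariant set is null. -/
theorem null_of_closed_inv {B : ℕ} (hB : 2 ≤ B) {W : Set UnitAddCircle} (hW : IsClosed W)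
    (hinv : ∀ z ∈ W, B • z ∈ W) (hne : W ≠ univ) : volume W = 0 := by
  have herg : Ergodic (fun y : UnitAddCircle => B • y) volume :=
    AddCircle.ergodic_nsmul (by omega)
  have h := herg.ae_empty_or_univ_of_ae_le_preimage hW.measurableSet.nullMeasurableSet
    (LE.le.eventuallyLE (fun z hz => hinv z hz))
  rcases h with h | h
  · exact ae_eq_empty.1 h
  · exfalso
    have h1 : volume Wᶜ = 0 := ae_eq_univ.1 h
    have h2 : Wᶜ.Nonempty := nonempty_compl.2 hne
    exact (hW.isOpen_compl.measure_pos volume h2).ne' h1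

theorem iterate_add_right_eq (α : UnitAddCircle) (k : ℕ) (x : UnitAddCircle) :
    (fun y => y + α)^[k] x = x + k • α := by
  induction k with
  | zero => simp
  | succ k ih => rw [Function.iterate_succ_apply', ih, succ_nsmul, add_assoc]

/-- An irrational rotation visits a closed null set with uniform density zero. -/
theorem small_rot {α : ℝ} (hα : Irrational α) {D : Set UnitAddCircle} (hD : IsClosed D)
    (h0 : volume D = 0) : Small (fun y : UnitAddCircle => y + (α : UnitAddCircle)) D := by
  classical
  intro δ hδ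
  have ht := tendsto_measure_thickening_of_isClosed (μ := volume) (s := D)
    ⟨1, one_pos, measure_ne_top _ _⟩ hD
  rw [h0] at ht
  have hev : ∀ᶠ r in 𝓝[>] (0 : ℝ), volume (thickening r D) < ENNReal.ofReal (δ / 2) :=
    ht.eventually (gt_mem_nhds (by simpa using hδ))
  obtain ⟨r, hr, hr0⟩ := (hev.and self_mem_nhdsWithin).exists
  have hr0' : 0 < r := hr0
  have hdense : DenseRange (fun n : ℕ => n • (α : UnitAddCircle)) := by
    rw [← denseRange_zsmul_iff_nsmul, AddCircle.denseRange_zsmul_coe_iff]
    simpa using hα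
  obtain ⟨t, ht⟩ := isCompact_univ.elim_finite_subcover
    (fun n : ℕ => ball (n • (α : UnitAddCircle)) r) (fun _ => isOpen_ball) (by
      intro c _
      obtain ⟨n, hn⟩ := hdense.exists_dist_lt c hr0'
      exact mem_iUnion.2 ⟨n, hn⟩)
  obtain ⟨Q, hQ⟩ := t.bddAbove
  set V := thickening r D with hV
  set f : UnitAddCircle → UnitAddCircle := fun y => y + (α : UnitAddCircle) with hf
  refine ⟨Q, fun L hL x => ?_⟩
  have hpt : ∀ y, cnt f D x L ≤ cnt f V y (Q + L) := by
    intro y
    have := ht (mem_univ (x - y))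
    simp only [mem_iUnion] at this
    obtain ⟨i, hi, hxi⟩ := this
    have hiQ : i ≤ Q := hQ hi
    have h1 : cnt f D x L ≤ cnt f V (f^[i] y) L := by
      simp only [cnt_eq_sum]
      apply Finset.sum_le_sum
      intro k _
      by_cases hk : f^[k] x ∈ D
      · have : f^[k] (f^[i] y) ∈ V := by
          rw [hV, mem_thickening_iff]
          refine ⟨_, hk, ?_⟩
          rw [hf, iterate_add_right_eq, iterate_add_right_eq, iterate_add_right_eq,
            dist_add_right, dist_comm]
          rw [mem_ball, dist_eq_norm] at hxi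
          rw [dist_eq_norm]
          convert hxi using 2
          abel
        simp [hk, this]
      · simp [hk]
    calc cnt f D x L ≤ cnt f V (f^[i] y) L := h1
      _ ≤ cnt f V y (i + L) := by rw [cnt_add]; omega
      _ ≤ cnt f V y (Q + L) := cnt_mono_right f V y (by omega)
  have hmp : MeasurePreserving f volume volume := measurePreserving_add_right volume _
  have hint := lintegral_cnt hmp (isOpen_thickening.measurableSet : MeasurableSet V) (Q + L)
  have h2 : (cnt f D x L : ℝ≥0∞) ≤ ((Q + L : ℕ) : ℝ≥0∞) * volume V := by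
    rw [← hint]
    calc (cnt f D x L : ℝ≥0∞) = ∫⁻ _ : UnitAddCircle, (cnt f D x L : ℝ≥0∞) := by
          rw [lintegral_const]; simp
      _ ≤ _ := lintegral_mono (fun y => by simp only; exact_mod_cast hpt y)
  have h3 : (cnt f D x L : ℝ≥0∞) ≤ ((Q + L : ℕ) : ℝ≥0∞) * ENNReal.ofReal (δ / 2) :=
    h2.trans (by gcongr)
  have h4 := ENNReal.toReal_mono (by finiteness) h3
  rw [ENNReal.toReal_mul, ENNReal.toReal_ofReal (by positivity), ENNReal.toReal_natCast,
    ENNReal.toReal_natCast] at h4
  have h5 : ((Q + L : ℕ) : ℝ) ≤ 2 * L := by exact_mod_cast (by omega : Q + L ≤ 2 * L)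
  nlinarith

/-- The preimage in the line of a null set of the circle is null. -/
theorem null_preimage_coe {W : Set UnitAddCircle} (h0 : volume W = 0) :
    volume (((↑) : ℝ → UnitAddCircle) ⁻¹' W) = 0 := by
  have hcover : ((↑) : ℝ → UnitAddCircle) ⁻¹' W
      = ⋃ n : ℤ, (((↑) : ℝ → UnitAddCircle) ⁻¹' W ∩ Ioc (n : ℝ) (n + 1)) := by
    rw [← inter_iUnion, iUnion_Ioc_intCast, inter_univ]
  rw [hcover]
  apply measure_iUnion_null
  intro n
  have h1 := (UnitAddCircle.measurePreserving_mk (n : ℝ)).quasiMeasurePreserving.preimage_null h0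
  rwa [Measure.restrict_apply' measurableSet_Ioc] at h1

/-- Exponents whose two-sided orbit stays away from some point. -/
def Bad (B : ℕ) (η : ℝ) : Set ℝ :=
  {s | ∃ w : UnitAddCircle, ∀ l : ℤ, η ≤ dist (((B : ℝ) ^ (s + l) : ℝ) : UnitAddCircle) w}

theorem isClosed_bad {B : ℕ} (hB : 2 ≤ B) (η : ℝ) : IsClosed (Bad B η) := by
  have hBpos : (0 : ℝ) < B := by exact_mod_cast (by omega : 0 < B)
  have h1 : IsClosed {p : ℝ × UnitAddCircle |
      ∀ l : ℤ, η ≤ dist (((B : ℝ) ^ (p.1 + l) : ℝ) : UnitAddCircle) p.2} := by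
    simp only [ofPred_forall]
    apply isClosed_iInter
    intro l
    apply isClosed_le continuous_const
    apply Continuous.dist _ continuous_snd
    apply (AddCircle.continuous_mk' 1).comp
    exact Continuous.rpow continuous_const (by fun_prop) (fun _ => Or.inl hBpos.ne')
  have h2 := isClosedMap_fst_of_compactSpace _ h1
  convert h2 using 1
  ext s
  simp [Bad]

theorem bad_add_int {B : ℕ} {η s : ℝ} (n : ℤ) (hs : s ∈ Bad B η) : s + n ∈ Bad B η := by
  obtain ⟨w, hw⟩ := hs
  refine ⟨w, fun l => ?_⟩
  have := hw (n + l)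
  push_cast at this
  rwa [add_assoc]

theorem null_bad {B : ℕ} (hB : 2 ≤ B) {η : ℝ} (hη : 0 < η) : volume (Bad B η) = 0 := by
  have hBpos : (0 : ℝ) < B := by exact_mod_cast (by omega : 0 < B)
  have hB1 : (1 : ℝ) < B := by exact_mod_cast (by omega : 1 < B)
  set c : ℕ → UnitAddCircle := TopologicalSpace.denseSeq UnitAddCircle with hc
  have hcd : DenseRange c := TopologicalSpace.denseRange_denseSeq _
  set E : ℕ → Set UnitAddCircle := fun i => {θ | ∀ m : ℕ, η / 2 ≤ dist (B ^ m • θ) (c i)} with hE
  have hEnull : ∀ i, volume (E i) = 0 := by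
    intro i
    apply null_of_closed_inv hB
    · simp only [hE, ofPred_forall]
      apply isClosed_iInter
      intro m
      apply isClosed_le continuous_const
      fun_prop
    · intro z hz m
      have := hz (m + 1)
      rwa [pow_succ, mul_smul] at this
    · intro h
      have : c i ∈ E i := by rw [h]; trivial
      have := this 0
      simp at this
      linarith
  have hU : volume (⋃ i, E i) = 0 := measure_iUnion_null hEnull
  have hP := null_preimage_coe hU
  set P : Set ℝ := ((↑) : ℝ → UnitAddCircle) ⁻¹' (⋃ i, E i) ∩ Ioi 0 with hPdef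
  have hP0 : volume P = 0 := measure_mono_null inter_subset_left hP
  have himg : volume ((fun t : ℝ => Real.log t / Real.log B) '' P) = 0 := by
    apply addHaar_image_eq_zero_of_differentiableOn_of_addHaar_eq_zero _ _ hP0
    intro t ht
    have : t ≠ 0 := ne_of_gt ht.2
    exact ((Real.differentiableAt_log this).div_const _).differentiableWithinAt
  refine measure_mono_null ?_ himg
  rintro s ⟨w, hw⟩
  refine ⟨(B : ℝ) ^ s, ⟨?_, Real.rpow_pos_of_pos hBpos s⟩, ?_⟩
  · obtain ⟨i, hi⟩ := hcd.exists_dist_lt w (half_pos hη)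
    refine mem_iUnion.2 ⟨i, fun m => ?_⟩
    have h1 := hw m
    have h2 : (((B : ℝ) ^ (s + ((m : ℤ) : ℝ)) : ℝ) : UnitAddCircle)
        = B ^ m • (((B : ℝ) ^ s : ℝ) : UnitAddCircle) := by
      rw [← AddCircle.coe_nsmul, Real.rpow_add hBpos]
      congr 1
      simp [mul_comm]
    rw [h2] at h1
    have h3 := dist_triangle (B ^ m • (((B : ℝ) ^ s : ℝ) : UnitAddCircle)) (c i) w
    rw [dist_comm] at hi
    linarith
  · simp only
    rw [Real.log_rpow hBpos]
    have : Real.log B ≠ 0 := (Real.log_pos hB1).ne'
    field_simp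

theorem small_bad {B : ℕ} (hB : 2 ≤ B) {η : ℝ} (hη : 0 < η) {α : ℝ} (hα : Irrational α) :
    Small (fun s : ℝ => s + α) (Bad B η) := by
  set D : Set UnitAddCircle := ((↑) : ℝ → UnitAddCircle) '' (Bad B η ∩ Icc 0 1) with hD
  have hDc : IsClosed D :=
    ((isCompact_Icc.inter_left (isClosed_bad hB η)).image (AddCircle.continuous_mk' 1)).isClosed
  have hpre : ((↑) : ℝ → UnitAddCircle) ⁻¹' D ⊆ Bad B η := by
    rintro s ⟨s', hs', h⟩
    have h1 : ((s - s' : ℝ) : UnitAddCircle) = 0 := by
      rw [AddCircle.coe_sub, h, sub_self]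
    obtain ⟨n, hn⟩ := (AddCircle.coe_eq_zero_iff _).1 h1
    have : s = s' + n := by
      simp at hn
      linarith
    rw [this]
    exact bad_add_int n hs'.1
  have hD0 : volume D = 0 := by
    rw [← (UnitAddCircle.measurePreserving_mk 0).measure_preimage
      hDc.measurableSet.nullMeasurableSet]
    apply le_antisymm _ (zero_le)
    calc _ ≤ volume (((↑) : ℝ → UnitAddCircle) ⁻¹' D) := Measure.restrict_le_self _
      _ ≤ volume (Bad B η) := measure_mono hpre
      _ = 0 := null_bad hB hη
  have hs := small_rot hα hDc hD0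
  have hsc : Function.Semiconj ((↑) : ℝ → UnitAddCircle) (fun s : ℝ => s + α)
      (fun y : UnitAddCircle => y + (α : UnitAddCircle)) := fun s => by simp
  refine (hs.semiconj hsc).mono ?_
  intro s hs'
  refine ⟨Int.fract s, ⟨?_, Int.fract_nonneg s, (Int.fract_lt_one s).le⟩, ?_⟩
  · have := bad_add_int (-⌊s⌋) hs'
    convert this using 1
    rw [Int.fract]
    push_cast
    ring
  · exact AddCircle.coe_fract s

end Pool.Agent.Lib.MP_c9a594_an
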