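import Mathlib
import Pool.Agent.Lib.MP_c9a594_an.Rot

/-!
Closed B-invariant subsets of the circle that are recurrent along a family of finite sets of
exponents of A. This is the argument of Furstenberg and Boshernitzan, run for recurrent sets
instead of invariant sets.
-/

open Filter Topology MeasureTheory Set Metric
open scoped ENNReal

namespace Pool.Agent.Lib.MP_c9a594_an

/-- The family K contains, at each level and for each starting number, an exponent making the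
two-sided orbit dense at that level. -/
def Large (A B : ℕ) (K : ℕ → Finset ℕ) : Prop :=
  ∀ j : ℕ, ∀ x : ℝ, 0 < x → ∃ k ∈ K j, ∀ w : UnitAddCircle, ∃ l : ℤ,
    dist (((A : ℝ) ^ k * (x * (B : ℝ) ^ l) : ℝ) : UnitAddCircle) w < 1 / ((j : ℝ) + 1)

/-- Closed, invariant and recurrent sets. -/
structure Good (A B : ℕ) (K : ℕ → Finset ℕ) (Z : Set UnitAddCircle) : Prop where
  closed : IsClosed Z
  inv : ∀ z ∈ Z, B • z ∈ Z
  recur : ∀ k : ℕ → ℕ, (∀ j, k j ∈ K j) → ∀ z : ℕ → UnitAddCircle, (∀ j, z j ∈ Z) →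
    ∀ w, Tendsto (fun j => A ^ k j • z j) (hyperfilter ℕ : Filter ℕ) (𝓝 w) → w ∈ Z

/-- Linear combinations of two points of a set. -/
def comb (p q : ℤ) (Z : Set UnitAddCircle) : Set UnitAddCircle :=
  (fun x : UnitAddCircle × UnitAddCircle => p • x.1 + q • x.2) '' (Z ×ˢ Z)

theorem mem_comb {p q : ℤ} {Z : Set UnitAddCircle} {w : UnitAddCircle} :
    w ∈ comb p q Z ↔ ∃ x ∈ Z, ∃ y ∈ Z, p • x + q • y = w := by
  constructor
  · rintro ⟨⟨x, y⟩, ⟨hx, hy⟩, h⟩
    exact ⟨x, hx, y, hy, h⟩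
  · rintro ⟨x, hx, y, hy, h⟩
    exact ⟨(x, y), ⟨hx, hy⟩, h⟩

theorem isClosed_comb (p q : ℤ) {Z : Set UnitAddCircle} (hZ : IsClosed Z) :
    IsClosed (comb p q Z) :=
  ((hZ.isCompact.prod hZ.isCompact).image (by fun_prop)).isClosed

theorem comb_inv {B : ℕ} (p q : ℤ) {Z : Set UnitAddCircle} (hZ : ∀ z ∈ Z, B • z ∈ Z) :
    ∀ z ∈ comb p q Z, B • z ∈ comb p q Z := by
  intro w hw
  obtain ⟨x, hx, y, hy, rfl⟩ := mem_comb.1 hw
  refine mem_comb.2 ⟨_, hZ x hx, _, hZ y hy, ?_⟩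
  rw [smul_add, smul_comm B p, smul_comm B q]

theorem exists_ulim (g : ℕ → UnitAddCircle) :
    ∃ w, Tendsto g (hyperfilter ℕ : Filter ℕ) (𝓝 w) := by
  obtain ⟨w, -, hw⟩ := isCompact_univ.ultrafilter_le_nhds ((hyperfilter ℕ).map g) (by simp)
  exact ⟨w, hw⟩

theorem Good.lin {A B : ℕ} {K : ℕ → Finset ℕ} {Z : Set UnitAddCircle} (hZ : Good A B K Z)
    (p q : ℤ) : Good A B K (comb p q Z) where
  closed := isClosed_comb p q hZ.closed
  inv := comb_inv p q hZ.inv
  recur := by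
    intro k hk z hz w hw
    choose x hx y hy hxy using fun j => mem_comb.1 (hz j)
    obtain ⟨w₁, h₁⟩ := exists_ulim (fun j => A ^ k j • x j)
    obtain ⟨w₂, h₂⟩ := exists_ulim (fun j => A ^ k j • y j)
    refine mem_comb.2 ⟨w₁, hZ.recur k hk x hx _ h₁, w₂, hZ.recur k hk y hy _ h₂, ?_⟩
    have h3 : Tendsto (fun j => p • (A ^ k j • x j) + q • (A ^ k j • y j))
        (hyperfilter ℕ : Filter ℕ) (𝓝 (p • w₁ + q • w₂)) :=
      (h₁.const_smul p).add (h₂.const_smul q)
    refine tendsto_nhds_unique h3 (hw.congr fun j => ?_)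
    rw [← hxy j, smul_add, smul_comm _ p, smul_comm _ q]

theorem pow_smul_fixed {A : ℕ} {τ : UnitAddCircle} (h : A • τ = τ) (k : ℕ) : A ^ k • τ = τ := by
  induction k with
  | zero => simp
  | succ k ih => rw [pow_succ, mul_smul, h, ih]

theorem Good.shift {A B : ℕ} {K : ℕ → Finset ℕ} {Z : Set UnitAddCircle} (hZ : Good A B K Z)
    {τ : UnitAddCircle} (hA : A • τ = τ) (hB : B • τ = τ) :
    Good A B K {z | z ∈ Z ∧ z + τ ∈ Z} where
  closed := hZ.closed.inter (hZ.closed.preimage (by fun_prop))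
  inv := by
    rintro z ⟨h1, h2⟩
    refine ⟨hZ.inv z h1, ?_⟩
    have := hZ.inv _ h2
    rwa [smul_add, hB] at this
  recur := by
    intro k hk z hz w hw
    refine ⟨hZ.recur k hk z (fun j => (hz j).1) w hw,
      hZ.recur k hk (fun j => z j + τ) (fun j => (hz j).2) _ ?_⟩
    refine (hw.add_const τ).congr fun j => ?_
    rw [smul_add, pow_smul_fixed hA]

theorem pow_inv {B : ℕ} {Z : Set UnitAddCircle} (hZ : ∀ z ∈ Z, B • z ∈ Z) (m : ℕ) :
    ∀ z ∈ Z, B ^ m • z ∈ Z := by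
  induction m with
  | zero => simp
  | succ m ih =>
    intro z hz
    rw [pow_succ', mul_smul]
    exact hZ _ (ih z hz)

theorem coe_pow_mul (B m : ℕ) (x : ℝ) :
    (((B : ℝ) ^ m * x : ℝ) : UnitAddCircle) = B ^ m • (x : UnitAddCircle) := by
  rw [← AddCircle.coe_nsmul]
  congr 1
  simp

/-- Rescaling a small positive element. -/
theorem rescale {B : ℕ} (hB : 2 ≤ B) {W : Set UnitAddCircle} (hW : ∀ z ∈ W, B • z ∈ W)
    (i : ℕ) {δ : ℝ} (h0 : 0 < δ) (h1 : δ < 1 / (B : ℝ) ^ i) (hδ : (δ : UnitAddCircle) ∈ W) :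
    ∃ s ∈ Icc (1 : ℝ) B, ((s / (B : ℝ) ^ (i + 1) : ℝ) : UnitAddCircle) ∈ W := by
  have hB1 : (1 : ℝ) < B := by exact_mod_cast (by omega : 1 < B)
  have hBpos : (0 : ℝ) < B := by linarith
  have hpi : (0 : ℝ) < (B : ℝ) ^ i := by positivity
  have h2 : 1 ≤ 1 / (δ * (B : ℝ) ^ i) := by
    rw [le_div_iff₀ (by positivity)]
    rw [lt_div_iff₀ hpi] at h1
    linarith
  obtain ⟨m, hm1, hm2⟩ := exists_nat_pow_near h2 hB1
  refine ⟨(B : ℝ) ^ m * δ * (B : ℝ) ^ (i + 1), ⟨?_, ?_⟩, ?_⟩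
  · rw [div_lt_iff₀ (by positivity)] at hm2
    have : (B : ℝ) ^ (m + 1) * (δ * (B : ℝ) ^ i) = (B : ℝ) ^ m * δ * (B : ℝ) ^ (i + 1) := by ring
    linarith
  · rw [le_div_iff₀ (by positivity)] at hm1
    have : (B : ℝ) ^ m * δ * (B : ℝ) ^ (i + 1) = ((B : ℝ) ^ m * (δ * (B : ℝ) ^ i)) * B := by ring
    rw [this]
    nlinarith
  · rw [mul_div_assoc, div_self (by positivity), mul_one, coe_pow_mul]
    exact pow_inv hW m _ hδ

/-- A closed invariant set with arbitrarily small positive elements contains a two-sided orbit. -/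
theorem exists_two_sided {B : ℕ} (hB : 2 ≤ B) {W : Set UnitAddCircle} (hc : IsClosed W)
    (hW : ∀ z ∈ W, B • z ∈ W)
    (hacc : ∀ ε : ℝ, 0 < ε → ∃ δ : ℝ, 0 < δ ∧ δ < ε ∧ (δ : UnitAddCircle) ∈ W) :
    ∃ x : ℝ, 0 < x ∧ ∀ l : ℤ, ((x * (B : ℝ) ^ l : ℝ) : UnitAddCircle) ∈ W := by
  have hB1 : (1 : ℝ) < B := by exact_mod_cast (by omega : 1 < B)
  have hBpos : (0 : ℝ) < B := by linarith
  set S : ℕ → Set ℝ := fun i =>
    Icc (1 : ℝ) B ∩ {s | ((s / (B : ℝ) ^ (i + 1) : ℝ) : UnitAddCircle) ∈ W} with hS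
  have hScl : ∀ i, IsClosed (S i) := fun i =>
    isClosed_Icc.inter (hc.preimage ((AddCircle.continuous_mk' 1).comp (by fun_prop)))
  have hstep : ∀ (i : ℕ) (s : ℝ), ((s / (B : ℝ) ^ (i + 1) : ℝ) : UnitAddCircle) ∈ W →
      ((s / (B : ℝ) ^ i : ℝ) : UnitAddCircle) ∈ W := by
    intro i s hs
    have := pow_inv hW 1 _ hs
    rw [← coe_pow_mul] at this
    convert this using 2
    field_simp
    ring
  obtain ⟨x, hx⟩ := IsCompact.nonempty_iInter_of_sequence_nonempty_isCompact_isClosed S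
    (fun i s hs => ⟨hs.1, hstep _ _ hs.2⟩)
    (fun i => by
      obtain ⟨δ, h0, h1, h2⟩ := hacc (1 / (B : ℝ) ^ i) (by positivity)
      obtain ⟨s, hs1, hs2⟩ := rescale hB hW i h0 h1 h2
      exact ⟨s, hs1, hs2⟩)
    (isCompact_Icc.of_isClosed_subset (hScl 0) inter_subset_left) hScl
  rw [mem_iInter] at hx
  refine ⟨x, lt_of_lt_of_le one_pos (hx 0).1.1, fun l => ?_⟩
  have h1 := pow_inv hW (l + (l.natAbs + 1 : ℕ)).toNat _ (hx l.natAbs).2
  rw [← coe_pow_mul] at h1
  convert h1 using 2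
  have hnn : 0 ≤ l + (l.natAbs + 1 : ℕ) := by omega
  rw [← zpow_natCast, Int.toNat_of_nonneg hnn, zpow_add₀ hBpos.ne', zpow_natCast]
  field_simp

theorem Good.eq_univ_of_pos {A B : ℕ} (hB : 2 ≤ B) {K : ℕ → Finset ℕ} (hK : Large A B K)
    {W : Set UnitAddCircle} (hW : Good A B K W)
    (hacc : ∀ ε : ℝ, 0 < ε → ∃ δ : ℝ, 0 < δ ∧ δ < ε ∧ (δ : UnitAddCircle) ∈ W) :
    W = univ := by
  obtain ⟨x, hx, hxl⟩ := exists_two_sided hB hW.closed hW.inv hacc
  choose k hk hkw using fun j => hK j x hx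
  apply eq_univ_of_forall
  intro w
  choose l hl using fun j => hkw j w
  refine hW.recur k hk (fun j => ((x * (B : ℝ) ^ l j : ℝ) : UnitAddCircle)) (fun j => hxl _) w ?_
  refine Tendsto.mono_left ?_ Nat.hyperfilter_le_atTop
  rw [tendsto_iff_dist_tendsto_zero]
  refine squeeze_zero (fun _ => dist_nonneg) (fun j => ?_) tendsto_one_div_add_atTop_nhds_zero_nat
  rw [← coe_pow_mul]
  exact (hl j).le

/-- Zero is an accumulation point. -/
def Acc0 (W : Set UnitAddCircle) : Prop := ∀ ε : ℝ, 0 < ε → ∃ z ∈ W, z ≠ 0 ∧ ‖z‖ < ε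

theorem exists_rep (z : UnitAddCircle) : ∃ t : ℝ, (t : UnitAddCircle) = z ∧ |t| = ‖z‖ := by
  induction z using QuotientAddGroup.induction_on with
  | H x =>
    refine ⟨x - round x, ?_, ?_⟩
    · rw [AddCircle.coe_sub]
      have : (((round x : ℤ) : ℝ) : UnitAddCircle) = 0 :=
        (AddCircle.coe_eq_zero_iff _).2 ⟨round x, by simp⟩
      rw [this, sub_zero]
    · exact UnitAddCircle.norm_eq.symm

theorem Good.eq_univ {A B : ℕ} (hB : 2 ≤ B) {K : ℕ → Finset ℕ} (hK : Large A B K)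
    {W : Set UnitAddCircle} (hW : Good A B K W) (hacc : Acc0 W) : W = univ := by
  by_cases h1 : ∀ ε : ℝ, 0 < ε → ∃ δ : ℝ, 0 < δ ∧ δ < ε ∧ (δ : UnitAddCircle) ∈ W
  · exact hW.eq_univ_of_pos hB hK h1
  · push Not at h1
    obtain ⟨ε₁, hε₁, h1⟩ := h1
    have h2 : comb (-1) 0 W = univ := by
      apply (hW.lin (-1) 0).eq_univ_of_pos hB hK
      intro ε hε
      obtain ⟨z, hz, hz0, hzn⟩ := hacc (min ε ε₁) (lt_min hε hε₁)
      obtain ⟨t, rfl, ht⟩ := exists_rep z
      have ht0 : t ≠ 0 := by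
        rintro rfl
        exact hz0 (by simp)
      have ha : |t| < ε := by rw [ht]; exact lt_of_lt_of_le hzn (min_le_left _ _)
      have hb : |t| < ε₁ := by rw [ht]; exact lt_of_lt_of_le hzn (min_le_right _ _)
      rcases lt_or_gt_of_ne ht0 with h | h
      · refine ⟨-t, by linarith, by linarith [neg_le_abs t], ?_⟩
        exact mem_comb.2 ⟨_, hz, _, hz, by simp⟩
      · exact absurd hz (h1 t h (by linarith [le_abs_self t]))
    apply eq_univ_of_forall
    intro w
    have : -w ∈ comb (-1) 0 W := by rw [h2]; trivial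
    obtain ⟨x, hx, y, -, hxy⟩ := mem_comb.1 this
    have : x = w := by simpa using hxy
    rwa [← this]

theorem countable_tors : {r : UnitAddCircle | IsOfFinAddOrder r}.Countable := by
  have : {r : UnitAddCircle | IsOfFinAddOrder r} ⊆
      ⋃ n : ℕ, {u : UnitAddCircle | (n + 1) • u = 0} := by
    intro r hr
    obtain ⟨n, hn, h⟩ := isOfFinAddOrder_iff_nsmul_eq_zero.1 hr
    refine mem_iUnion.2 ⟨n - 1, ?_⟩
    have : n - 1 + 1 = n := by omega
    simp only [mem_ofPred_eq, this, h]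
  refine Countable.mono this (countable_iUnion fun n => ?_)
  exact (AddCircle.finite_torsion 1 (Nat.succ_pos n)).countable

theorem nontors_smul {n : ℕ} (hn : 0 < n) {z : UnitAddCircle} (hz : ¬ IsOfFinAddOrder z) :
    ¬ IsOfFinAddOrder (n • z) := fun h => hz (h.of_nsmul hn.ne')

/-- An invariant set with a non-torsion point has small nonzero differences. -/
theorem acc0_of_nontors {B : ℕ} (hB : 2 ≤ B) {W : Set UnitAddCircle} (hW : ∀ z ∈ W, B • z ∈ W)
    {y : UnitAddCircle} (hy : y ∈ W) (hn : ¬ IsOfFinAddOrder y) : Acc0 (comb 1 (-1) W) := by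
  intro ε hε
  obtain ⟨z, -, φ, hφ, hlim⟩ := isCompact_univ.tendsto_subseq
    (x := fun n : ℕ => B ^ n • y) (fun _ => mem_univ _)
  have hcau := hlim.cauchySeq
  rw [Metric.cauchySeq_iff'] at hcau
  obtain ⟨j, hj⟩ := hcau ε hε
  refine ⟨B ^ φ (j + 1) • y - B ^ φ j • y, mem_comb.2 ⟨_, pow_inv hW (φ (j + 1)) y hy, _,
    pow_inv hW (φ j) y hy, by simp [sub_eq_add_neg]⟩, ?_, ?_⟩
  · intro h
    apply hn
    have hlt : B ^ φ j < B ^ φ (j + 1) := Nat.pow_lt_pow_right (by omega) (hφ (by omega))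
    refine isOfFinAddOrder_iff_nsmul_eq_zero.2 ⟨B ^ φ (j + 1) - B ^ φ j, by omega, ?_⟩
    rw [sub_nsmul _ hlt.le, ← sub_eq_add_neg]
    exact h
  · rw [← dist_eq_norm]
    exact hj (j + 1) (by omega)

theorem null_tors_translates {W : Set UnitAddCircle} (h0 : volume W = 0) :
    volume (⋃ r ∈ {r : UnitAddCircle | IsOfFinAddOrder r},
      ((fun z => z + r) ⁻¹' W ∪ (fun z => r - z) ⁻¹' W)) = 0 := by
  rw [measure_biUnion_null_iff countable_tors]
  intro r _
  apply measure_union_null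
  · rw [measure_preimage_add_right]; exact h0
  · exact (Measure.measurePreserving_sub_left volume r).quasiMeasurePreserving.preimage_null h0

theorem volume_univ_ne : volume (univ : Set UnitAddCircle) ≠ 0 := by simp

/-- The inductive step. -/
theorem Good.step {A B : ℕ} (hB : 2 ≤ B) {K : ℕ → Finset ℕ} (hK : Large A B K)
    {W : Set UnitAddCircle} (hW : Good A B K W) (hne : W ≠ univ) (hacc : Acc0 (comb 1 (-1) W))
    (τ : UnitAddCircle) : ∃ y, ¬ IsOfFinAddOrder y ∧ y ∈ W ∧ y + τ ∈ W := by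
  have h0 : volume W = 0 := null_of_closed_inv hB hW.closed hW.inv hne
  have hU := null_tors_translates h0
  have h1 : comb 1 (-1) W = univ := (hW.lin 1 (-1)).eq_univ hB hK hacc
  set V : Set UnitAddCircle := closure {z | z ∈ W ∧ ¬ IsOfFinAddOrder z} with hV
  have hVW : V ⊆ W := closure_minimal (fun z hz => hz.1) hW.closed
  have hVinv : ∀ z ∈ V, B • z ∈ V := by
    have : MapsTo (fun z : UnitAddCircle => B • z) {z | z ∈ W ∧ ¬ IsOfFinAddOrder z}
        {z | z ∈ W ∧ ¬ IsOfFinAddOrder z} :=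
      fun z hz => ⟨hW.inv z hz.1, nontors_smul (by omega) hz.2⟩
    exact fun z hz => this.closure (by fun_prop) hz
  have h2 : comb 1 (-1) V = univ := by
    by_contra hcon
    have h3 := null_of_closed_inv hB (isClosed_comb 1 (-1) isClosed_closure)
      (comb_inv 1 (-1) hVinv) hcon
    apply volume_univ_ne
    refine measure_mono_null ?_ (measure_union_null h3 hU)
    intro w _
    have : w ∈ comb 1 (-1) W := by rw [h1]; trivial
    obtain ⟨x, hx, y, hy, hxy⟩ := mem_comb.1 this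
    have hxy' : x - y = w := by simpa [sub_eq_add_neg] using hxy
    by_cases hxt : IsOfFinAddOrder x
    · right
      simp only [mem_iUnion]
      refine ⟨x, hxt, Or.inr ?_⟩
      have : x - w = y := by rw [← hxy']; abel
      simpa [this] using hy
    · by_cases hyt : IsOfFinAddOrder y
      · right
        simp only [mem_iUnion]
        refine ⟨y, hyt, Or.inl ?_⟩
        have : w + y = x := by rw [← hxy']; abel
        simpa [this] using hx
      · left
        exact mem_comb.2 ⟨x, subset_closure ⟨hx, hxt⟩, y, subset_closure ⟨hy, hyt⟩, hxy⟩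
  have : τ ∈ comb 1 (-1) V := by rw [h2]; trivial
  obtain ⟨x, hx, y, hy, hxy⟩ := mem_comb.1 this
  have hxy' : y + τ = x := by rw [← hxy]; simp
  refine ⟨y, ?_, hVW hy, by rw [hxy']; exact hVW hx⟩
  intro hyt
  obtain ⟨q, hq, hqy⟩ := isOfFinAddOrder_iff_nsmul_eq_zero.1 hyt
  have hqpos : (0 : ℝ) < q := by exact_mod_cast hq
  have h4 : comb q 0 W = univ := by
    apply (hW.lin q 0).eq_univ hB hK
    intro ε hε
    obtain ⟨z, hz, hzd⟩ := Metric.mem_closure_iff.1 hy (ε / q) (by positivity)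
    refine ⟨q • z, mem_comb.2 ⟨z, hz.1, z, hz.1, by simp⟩, ?_, ?_⟩
    · intro h
      exact hz.2 (isOfFinAddOrder_iff_nsmul_eq_zero.2 ⟨q, hq, h⟩)
    · have : q • z = q • (z - y) := by rw [smul_sub, hqy, sub_zero]
      rw [this]
      have h5 : ‖q • (z - y)‖ ≤ q * ‖z - y‖ := norm_nsmul_le
      rw [dist_comm, dist_eq_norm, lt_div_iff₀ hqpos] at hzd
      linarith
  apply volume_univ_ne
  refine measure_mono_null ?_ hU
  intro w _
  have : q • w ∈ comb q 0 W := by rw [h4]; trivial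
  obtain ⟨z, hz, z', -, hzz⟩ := mem_comb.1 this
  have hzz' : q • z = q • w := by simpa using hzz
  simp only [mem_iUnion]
  refine ⟨z - w, isOfFinAddOrder_iff_nsmul_eq_zero.2 ⟨q, hq, by rw [smul_sub, hzz', sub_self]⟩,
    Or.inl ?_⟩
  simpa using hz

/-- The iterated intersections. -/
def chain (Z : Set UnitAddCircle) (τ : UnitAddCircle) : ℕ → Set UnitAddCircle
  | 0 => Z
  | i + 1 => {z | z ∈ chain Z τ i ∧ z + τ ∈ chain Z τ i}

theorem chain_mem {Z : Set UnitAddCircle} {τ : UnitAddCircle} (i : ℕ) :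
    ∀ y ∈ chain Z τ i, ∀ s ≤ i, y + s • τ ∈ Z := by
  induction i with
  | zero =>
    intro y hy s hs
    have : s = 0 := by omega
    simpa [this, chain] using hy
  | succ i ih =>
    intro y hy s hs
    rcases Nat.eq_zero_or_pos s with h | h
    · exact ih y hy.1 s (by omega)
    · have := ih _ hy.2 (s - 1) (by omega)
      have h2 : s = s - 1 + 1 := by omega
      rw [h2, succ_nsmul]
      convert this using 1
      abel

/-- A recurrent proper set with small differences contains arbitrarily long progressions with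
step any common fixed point. -/
theorem Good.progression {A B : ℕ} (hB : 2 ≤ B) {K : ℕ → Finset ℕ} (hK : Large A B K)
    {Z : Set UnitAddCircle} (hZ : Good A B K Z) (hne : Z ≠ univ) (hacc : Acc0 (comb 1 (-1) Z))
    {τ : UnitAddCircle} (hA : A • τ = τ) (hBτ : B • τ = τ) (i : ℕ) :
    ∃ y, ∀ s ≤ i, y + s • τ ∈ Z := by
  have key : ∀ i, Good A B K (chain Z τ i) ∧ Acc0 (comb 1 (-1) (chain Z τ i)) := by
    intro i
    induction i with
    | zero => exact ⟨hZ, hacc⟩
    | succ i ih =>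
      have hg := ih.1.shift hA hBτ
      refine ⟨hg, ?_⟩
      have hne' : chain Z τ i ≠ univ := by
        intro h
        apply hne
        apply eq_univ_of_forall
        intro w
        have : w ∈ chain Z τ i := by rw [h]; trivial
        simpa using chain_mem i w this 0 (by omega)
      obtain ⟨y, hy, hy1, hy2⟩ := ih.1.step hB hK hne' ih.2 τ
      exact acc0_of_nontors hB hg.inv ⟨hy1, hy2⟩ hy
  obtain ⟨z, hz, -⟩ := (key i).2 1 one_pos
  obtain ⟨x, hx, -⟩ := mem_comb.1 hz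
  exact ⟨x, chain_mem i x hx⟩

end Pool.Agent.Lib.MP_c9a594_an
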