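import Mathlib

/-! Growth of the iterates of a morphism of a free monoid. -/

namespace Pool.Agent.Lib.MP_c9a594_an.H93

open Filter

variable {A : Type} [DecidableEq A] (σ : A → List A)

/-- The iterates of the morphism. -/
def it (k : ℕ) (w : List A) : List A := (fun v : List A => v.flatMap σ)^[k] w

omit [DecidableEq A] in
lemma it_succ (k : ℕ) (w : List A) : it σ (k + 1) w = it σ k (w.flatMap σ) := rfl

omit [DecidableEq A] in
lemma it_add (k j : ℕ) (w : List A) : it σ (k + j) w = it σ k (it σ j w) :=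
  Function.iterate_add_apply _ _ _ _

omit [DecidableEq A] in
lemma it_append (k : ℕ) (u v : List A) : it σ k (u ++ v) = it σ k u ++ it σ k v := by
  induction k generalizing u v with
  | zero => rfl
  | succ k ih => rw [it_succ, it_succ, it_succ, List.flatMap_append, ih]

omit [DecidableEq A] in
lemma it_nil (k : ℕ) : it σ k [] = [] := by
  induction k with
  | zero => rfl
  | succ k ih => rw [it_succ]; exact ih

omit [DecidableEq A] in
lemma it_cons (k : ℕ) (b : A) (v : List A) : it σ k (b :: v) = it σ k [b] ++ it σ k v :=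
  it_append σ k [b] v

omit [DecidableEq A] in
lemma it_sum (f : List A → ℕ) (h0 : f [] = 0) (h : ∀ u v, f (u ++ v) = f u + f v) (k : ℕ)
    (w : List A) : f (it σ k w) = (w.map fun b => f (it σ k [b])).sum := by
  induction w with
  | nil => simp [it_nil, h0]
  | cons b v ih => rw [it_cons, h, ih]; simp

lemma count_mul_le (f : A → ℕ) (b : A) (w : List A) : w.count b * f b ≤ (w.map f).sum := by
  induction w with
  | nil => simp
  | cons c v ih =>
    rw [List.count_cons, List.map_cons, List.sum_cons]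
    by_cases h : c = b
    · subst h; simp; linarith
    · simp [h]; omega

/-- Length of the iterates of a letter. -/
def len (k : ℕ) (b : A) : ℕ := (it σ k [b]).length

/-- Number of occurrences of `c` in the iterates of `b`. -/
def cnt (k : ℕ) (b c : A) : ℕ := (it σ k [b]).count c

omit [DecidableEq A] in
lemma length_it (k : ℕ) (w : List A) : (it σ k w).length = (w.map (len σ k)).sum :=
  it_sum σ List.length rfl (fun _ _ => List.length_append) k w

lemma count_it (k : ℕ) (w : List A) (c : A) :
    (it σ k w).count c = (w.map fun b => cnt σ k b c).sum :=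
  it_sum σ (List.count c) rfl (fun _ _ => List.count_append) k w

omit [DecidableEq A] in
lemma len_succ (k : ℕ) (b : A) : len σ (k + 1) b = ((σ b).map (len σ k)).sum := by
  rw [len, it_succ, length_it]; simp

lemma cnt_succ (k : ℕ) (b c : A) : cnt σ (k + 1) b c = ((σ b).map fun d => cnt σ k d c).sum := by
  rw [cnt, it_succ, count_it]; simp

lemma cnt_mul_len (k j : ℕ) (b c : A) : cnt σ j b c * len σ k c ≤ len σ (k + j) b := by
  rw [len.eq_1 σ (k + j), it_add, length_it]
  exact count_mul_le _ _ _

lemma pow_le_cnt {q : ℕ} {b : A} (h : 2 ≤ cnt σ q b b) (t : ℕ) : 2 ^ t ≤ cnt σ (q * t) b b := by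
  induction t with
  | zero => simp [cnt, it]
  | succ t ih =>
    rw [mul_add, mul_one, cnt, it_add, count_it]
    refine le_trans ?_ (count_mul_le (fun d => cnt σ (q * t) d b) b _)
    rw [pow_succ, mul_comm]
    exact Nat.mul_le_mul h ih

/-- Number of descendants whose ancestors all avoid `Z`. -/
def av (Z : Finset A) : ℕ → A → ℕ
  | 0, b => if b ∈ Z then 0 else 1
  | k + 1, b => if b ∈ Z then 0 else ((σ b).map (av Z k)).sum

lemma av_mem {Z : Finset A} {b : A} (h : b ∈ Z) (k : ℕ) : av σ Z k b = 0 := by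
  cases k <;> simp [av, h]

omit [DecidableEq A] in
lemma sum_map_le {f g : A → ℕ} (h : ∀ b, f b ≤ g b) (w : List A) :
    (w.map f).sum ≤ (w.map g).sum := List.sum_le_sum fun b _ => h b

lemma mul_len_le {Z : Finset A} {T J : ℕ} (h : ∀ b ∈ Z, T ≤ cnt σ J b b) (k : ℕ) (b : A) :
    T * len σ k b ≤ len σ (k + J) b + T * av σ Z k b := by
  induction k generalizing b with
  | zero =>
    by_cases hb : b ∈ Z
    · exact le_add_right ((Nat.mul_le_mul_right _ (h b hb)).trans (cnt_mul_len σ _ _ _ _))
    · simp [av, hb, len, it]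
  | succ k ih =>
    by_cases hb : b ∈ Z
    · exact le_add_right ((Nat.mul_le_mul_right _ (h b hb)).trans (cnt_mul_len σ _ _ _ _))
    · rw [add_right_comm, len_succ, len_succ, av, if_neg hb, ← List.sum_map_mul_left,
        ← List.sum_map_mul_left, ← List.sum_map_add]
      exact sum_map_le ih _

lemma av_le [Fintype A] {s : ℕ} (hs : ∀ b, (σ b).length ≤ s) (r : ℕ) : ∀ Z : Finset A,
    Zᶜ.card = r → (∀ b ∉ Z, ∀ t, cnt σ t b b ≤ 1) → ∀ k b,
    av σ Z k b ≤ ((s + 1) * (k + 1)) ^ r := by
  induction r with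
  | zero =>
    intro Z hZ _ k b
    rw [av_mem σ (by simpa using Finset.eq_empty_iff_forall_notMem.1 (Finset.card_eq_zero.1 hZ) b)]
    simp
  | succ r ih =>
    intro Z hZ h1 k b
    by_cases hb : b ∈ Z
    · simp [av_mem σ hb]
    have ih := ih (insert b Z) (by
      rw [Finset.compl_insert, Finset.card_erase_of_mem (by simpa using hb), hZ]; rfl)
      fun c hc => h1 c fun h => hc (Finset.mem_insert_of_mem h)
    set F := ((s + 1) * (k + 1)) ^ r with hF
    have F1 : 1 ≤ F := Nat.one_le_pow _ _ (by positivity)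
    have key : ∀ j ≤ k, ∀ d, av σ Z j d ≤ av σ (insert b Z) j d +
        (s + 1) * F * ∑ t ∈ Finset.range (j + 1), cnt σ t d b := by
      intro j
      induction j with
      | zero =>
        intro _ d
        by_cases hd : d = b
        · subst hd
          simp only [av, if_neg hb, cnt, it]
          simp
          nlinarith
        · simp [av, hd]
      | succ j ihj =>
        intro hj d
        by_cases hd : d ∈ Z
        · simp [av_mem σ hd]
        have e : ∀ w : List A, (w.map fun c => ∑ t ∈ Finset.range (j + 1), cnt σ t c b).sum =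
            ∑ t ∈ Finset.range (j + 1), (w.map fun c => cnt σ t c b).sum := fun w => by
          induction w with
          | nil => simp
          | cons c w h => simp only [List.map_cons, List.sum_cons, h, Finset.sum_add_distrib]
        rw [av, if_neg hd]
        refine (sum_map_le (ihj (by omega)) _).trans ?_
        rw [List.sum_map_add, List.sum_map_mul_left, e, Finset.sum_range_succ' _ (j + 1), mul_add]
        simp only [← cnt_succ]
        by_cases hdb : d = b
        · subst hdb
          have : ((σ d).map (av σ (insert d Z) j)).sum ≤ s * F := by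
            refine (List.sum_le_card_nsmul _ F fun y hy => ?_).trans ?_
            · obtain ⟨c, _, rfl⟩ := List.mem_map.1 hy
              exact (ih j c).trans (Nat.pow_le_pow_left (by gcongr; omega) _)
            · simpa using Nat.mul_le_mul_right F (hs d)
          have c0 : cnt σ 0 d d = 1 := by simp [cnt, it]
          rw [c0]
          nlinarith
        · rw [av, if_neg (by simp [hd, hdb])]
          omega
    refine (key k le_rfl b).trans ?_
    rw [av_mem σ (Finset.mem_insert_self _ _), zero_add, pow_succ, ← hF]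
    have := Finset.sum_le_card_nsmul (Finset.range (k + 1)) (fun t => cnt σ t b b) 1
      fun t _ => h1 b hb t
    simp only [Finset.card_range, smul_eq_mul, mul_one] at this
    nlinarith [Nat.mul_le_mul_left ((s + 1) * F) this]

/-- At every scale, a long iterate is a bounded concatenation of short iterates of letters. -/
theorem exists_scale [Fintype A] (c : A) {θ : ℝ} (hθ : 1 < θ)
    (h : ∀ᶠ k in atTop, θ ^ k ≤ len σ k c) (T : ℕ) : ∃ M n0 : ℕ, ∀ n ≥ n0, ∃ k j,
      (it σ j [c]).length ≤ M ∧ (∀ b ∈ it σ j [c], len σ k b ≤ n) ∧ T * n ≤ len σ (k + j) c := by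
  classical
  set Z : Finset A := Finset.univ.filter fun b => ∃ q, 2 ≤ cnt σ q b b with hZ
  obtain ⟨s, hs⟩ : ∃ s, ∀ b, (σ b).length ≤ s :=
    ⟨_, fun b => Finset.le_sup (f := fun b => (σ b).length) (Finset.mem_univ b)⟩
  have hav := av_le σ hs _ Z rfl fun b hb t => by
    by_contra g
    exact hb (Finset.mem_filter.2 ⟨Finset.mem_univ _, t, by omega⟩)
  generalize Zᶜ.card = r at hav
  obtain ⟨J, hJ⟩ : ∃ J, ∀ b ∈ Z, 2 * T ≤ cnt σ J b b := by
    have : ∀ b, ∃ q, 0 < q ∧ (b ∈ Z → 2 ≤ cnt σ q b b) := fun b => by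
      by_cases hb : b ∈ Z
      · obtain ⟨q, hq⟩ := (Finset.mem_filter.1 hb).2
        refine ⟨q, Nat.pos_of_ne_zero ?_, fun _ => hq⟩
        rintro rfl
        simp [cnt, it] at hq
      · exact ⟨1, one_pos, fun g => absurd g hb⟩
    choose q q0 hq using this
    refine ⟨(∏ b, q b) * (2 * T), fun b hb => ?_⟩
    obtain ⟨u, hu⟩ : q b ∣ ∏ b, q b := Finset.dvd_prod_of_mem _ (Finset.mem_univ b)
    have u0 : 0 < u := Nat.pos_of_mul_pos_left (hu ▸ Finset.prod_pos fun b _ => q0 b)
    rw [hu, mul_assoc]
    exact le_trans (le_trans (Nat.le_mul_of_pos_left _ u0) Nat.lt_two_pow_self.le)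
      (pow_le_cnt σ (hq b hb) _)
  have : ∀ b, ∃ i, (∃ j, b ∈ it σ j [c]) → b ∈ it σ i [c] := fun b => by
    by_cases g : ∃ j, b ∈ it σ j [c]
    · obtain ⟨j, hj⟩ := g
      exact ⟨j, fun _ => hj⟩
    · exact ⟨0, fun g' => absurd g' g⟩
  choose ρ hρ using this
  have lim : ∀ᶠ k : ℕ in atTop, (2 * ((s + 1) * (k + 1 + 1)) ^ r : ℝ) ≤ θ ^ k := by
    have := (tendsto_pow_const_div_const_pow_of_one_lt r hθ).eventually_le_const
      (show (0 : ℝ) < 1 / (2 * ((s + 1) * 3) ^ r) by positivity)
    filter_upwards [this, eventually_ge_atTop 1] with k h1 h2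
    rw [div_le_div_iff₀ (by positivity) (by positivity), one_mul] at h1
    refine le_trans ?_ h1
    have : (1 : ℝ) ≤ k := by exact_mod_cast h2
    rw [mul_left_comm, ← mul_pow]
    refine mul_le_mul_of_nonneg_left (pow_le_pow_left₀ (by positivity) ?_ _) zero_le_two
    nlinarith [Nat.cast_nonneg (α := ℝ) s]
  obtain ⟨k0, hk0⟩ := eventually_atTop.1 (h.and lim)
  refine ⟨Finset.univ.sup fun b => len σ (1 + J + ρ b) c, 2 * ((s + 1) * (k0 + 1 + 1)) ^ r + 1,
    fun n hn => ?_⟩
  have ex : ∃ k, ∃ b, (∃ j, b ∈ it σ j [c]) ∧ n < len σ k b := by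
    obtain ⟨k, h1, h2⟩ := (h.and
      ((tendsto_pow_atTop_atTop_of_one_lt hθ).eventually_gt_atTop (n : ℝ))).exists
    exact ⟨k, c, ⟨0, by simp [it]⟩, by exact_mod_cast h2.trans_le h1⟩
  obtain ⟨b, hb, hb'⟩ := Nat.find_spec ex
  have hmin := fun k => Nat.find_min ex (m := k)
  generalize Nat.find ex = k at hb' hmin
  obtain _ | k := k
  · simp [len, it] at hb'; omega
  have low : ∀ d, (∃ j, d ∈ it σ j [c]) → len σ k d ≤ n := fun d hd =>
    not_lt.1 fun g => hmin k (by omega) ⟨d, hd, g⟩
  refine ⟨k, 1 + J + ρ b, Finset.le_sup (f := fun b => len σ (1 + J + ρ b) c) (Finset.mem_univ b),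
    fun d hd => low d ⟨_, hd⟩, ?_⟩
  have a1 := mul_len_le σ hJ (k + 1) b
  have a2 := cnt_mul_len σ (k + 1 + J) (ρ b) c b
  have a3 : 1 ≤ cnt σ (ρ b) c b := List.count_pos_iff.2 (hρ b hb)
  have a4 : 2 * av σ Z (k + 1) b ≤ n := by
    refine (Nat.mul_le_mul_left 2 (hav _ _)).trans ?_
    rcases le_or_gt k0 k with g | g
    · have := ((hk0 k g).2.trans (hk0 k g).1).trans
        (Nat.cast_le.2 (low c ⟨0, by simp [it]⟩) : (len σ k c : ℝ) ≤ n)
      exact_mod_cast this
    · refine le_trans ?_ (le_trans (Nat.le_succ _) hn)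
      gcongr
  rw [show k + (1 + J + ρ b) = k + 1 + J + ρ b by ring]
  nlinarith [Nat.mul_le_mul_left T a4, Nat.mul_le_mul_left T hb'.le,
    Nat.mul_le_mul_right (len σ (k + 1 + J) b) a3]

end Pool.Agent.Lib.MP_c9a594_an.H93
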