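import Pool.Agent.Lib.MP_c9a594_an.FinalAux
import Pool.Agent.Lib.MP_c9a594_an.H93Growth

/-! Morphic expansions, and a uniform superlinear bound. -/

open Filter Real

namespace Pool.Agent.Lib.MP_c9a594_an

/-- The digit of index `k` in the base `a` expansion of the fractional part of `x`. -/
noncomputable def digit (a : ℕ) (x : ℝ) (k : ℕ) : ℤ := ⌊(a : ℝ) * Int.fract ((a : ℝ) ^ k * x)⌋

/-- `u` is a morphic sequence of exponential growth: there are a morphism `σ` on a finite alphabet,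
a letter `c` and a coding `φ` such that the words `σ^k(c)` have exponentially growing lengths
and their images under `φ` are initial segments of `u`. -/
def Morphic (u : ℕ → ℤ) : Prop :=
  ∃ (m : ℕ) (σ : Fin m → List (Fin m)) (c : Fin m) (φ : Fin m → ℤ) (θ : ℝ), 1 < θ ∧
    (∀ᶠ k : ℕ in atTop, θ ^ k ≤ (((fun v => v.flatMap σ)^[k] [c]).length : ℝ)) ∧
    ∀ (k i : ℕ) (h : i < ((fun v => v.flatMap σ)^[k] [c]).length),
      u i = φ ((fun v => v.flatMap σ)^[k] [c])[i]

namespace H93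

/-- The approximation property of `words` for one number. -/
def Rep (a : ℕ) (x : ℝ) : Prop := ∃ (D : ℕ) (c : ℝ), ∀ K : ℝ, ∃ (M n0 : ℕ) (B : ℝ), ∀ n ≥ n0,
    ∃ (d : ℤ) (V : Fin D → ℤ) (s : Fin M → ℤ) (i : Fin M → ℕ) (e : Fin M → Fin D),
      d ≠ 0 ∧ |(d : ℝ)| ≤ exp (c * n) ∧ (∀ j, |(V j : ℝ)| ≤ exp (c * n)) ∧ (∀ t, |s t| ≤ 1) ∧
      (∀ t, (i t : ℝ) ≤ B * n) ∧
      |d * Int.fract x - ∑ t, (s t * V (e t) : ℝ) / a ^ i t| ≤ exp (-K * n)

theorem rep_of_linear (a : ℕ) (ha : 2 ≤ a) (x C : ℝ) (h : ∀ n : ℕ, 1 ≤ n → (cx a x n : ℝ) ≤ C * n) :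
    Rep a x := by
  obtain ⟨D, c, h1⟩ := words a ha C
  refine ⟨D, c, fun K => ?_⟩
  obtain ⟨M, n0, B, h1⟩ := h1 K
  exact ⟨M, n0 + 1, B, fun n hn => h1 n (by omega) x (h n (by omega))⟩

section
variable {a : ℕ} (X : Dig a) {A : Type} (φ : A → ℤ)

/-- The value of a word. -/
def val (a : ℕ) (φ : A → ℤ) (L : List A) : ℤ := L.foldl (fun z b => a * z + φ b) 0

/-- The word is read at position `p`. -/
def Mat (p : ℕ) (L : List A) : Prop := ∀ (i : ℕ) (h : i < L.length), X.dg (p + i) = φ L[i]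

lemma Mat.left {p : ℕ} {L L' : List A} (h : Mat X φ p (L ++ L')) : Mat X φ p L := fun i hi => by
  rw [h i (by simp; omega), List.getElem_append_left hi]

lemma Mat.right {p : ℕ} {L L' : List A} (h : Mat X φ p (L ++ L')) :
    Mat X φ (p + L.length) L' := fun i hi => by
  rw [add_assoc, h (L.length + i) (by simp; omega), List.getElem_append_right (by omega)]
  simp

lemma Mat.W_eq {p : ℕ} {L : List A} (h : Mat X φ p L) : X.W p L.length = val a φ L := by
  induction L using List.reverseRecOn with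
  | nil => rfl
  | append_singleton L b ih =>
    have := h.right X φ 0 (by simp)
    rw [List.length_append, List.length_singleton, Dig.W, ih (h.left X φ), val, val,
      List.foldl_append]
    simpa using this

lemma Mat.sum (σ : A → List A) (k : ℕ) (c : A) (w : List A) : ∀ p, Mat X φ p (it σ k w) →
    (∀ b ∈ w, ∃ q, Mat X φ q (it σ k [b])) ∧
    ∃ i : ℕ → ℕ, (∀ t, i t ≤ (it σ k w).length) ∧ X.t p = ∑ t ∈ Finset.range w.length,
      (val a φ (it σ k [w.getD t c]) : ℝ) / a ^ i t +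
        X.t (p + (it σ k w).length) / a ^ (it σ k w).length := by
  induction w with
  | nil => exact fun p _ => ⟨by simp, fun _ => 0, by simp, by simp [it_nil]⟩
  | cons b w ih =>
    intro p h
    rw [it_cons] at h ⊢
    obtain ⟨h1, i, h2, h3⟩ := ih _ (h.right X φ)
    refine ⟨fun d hd => ?_, fun t => (it σ k [b]).length + Nat.casesOn t 0 i, fun t => ?_, ?_⟩
    · rcases List.mem_cons.1 hd with rfl | g
      exacts [⟨p, h.left X φ⟩, h1 d g]
    · rw [List.length_append]
      cases t with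
      | zero => simp
      | succ t => simpa using h2 t
    · have e := X.W_spec p (it σ k [b]).length
      have a0 : (0 : ℝ) < a := zero_lt_one.trans X.apos
      rw [(h.left X φ).W_eq, h3] at e
      rw [List.length_cons, Finset.sum_range_succ', List.length_append]
      simp only [List.getD_cons_succ, List.getD_cons_zero, pow_add, ← add_assoc,
        div_mul_eq_div_div_swap, ← Finset.sum_div, Nat.rec_zero, pow_zero, div_one]
      rw [← add_div, ← add_div, eq_div_iff (by positivity)]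
      linarith

end

theorem rep_of_morphic (a : ℕ) (ha : 2 ≤ a) (x : ℝ) (h : Morphic (digit a x)) : Rep a x := by
  classical
  obtain ⟨m, σ, c, φ, θ, hθ, h1, h2⟩ := h
  set X := dig a ha x with hX
  have a1 := X.apos
  have hd : ∀ i, X.dg i = digit a x i := fun i => by
    have := X.step i
    have e : X.t i = Int.fract ((a : ℝ) ^ i * x) := rfl
    rw [digit, ← e, this, eq_comm, Int.floor_eq_iff]
    constructor <;> linarith [X.t0 (i + 1), X.t1 (i + 1)]
  refine ⟨m, log a, fun K => ?_⟩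
  obtain ⟨M, n0, hM⟩ := exists_scale σ c hθ h1 ⌈K / log a⌉₊
  refine ⟨M, n0, M, fun n hn => ?_⟩
  obtain ⟨k, j, g1, g2, g3⟩ := hM n hn
  have mat : Mat X φ 0 (it σ k (it σ j [c])) := fun i hi => by
    simp only [← it_add] at hi ⊢
    rw [zero_add, hd]
    exact h2 _ i hi
  rw [len, it_add] at g3
  generalize it σ j [c] = w at g1 g2 g3 mat
  obtain ⟨m1, i, m2, m3⟩ := Mat.sum X φ σ k c w 0 mat
  have ea : ∀ l : ℕ, exp (log a * l) = a ^ l := fun l => by
    rw [mul_comm, exp_nat_mul, exp_log (by linarith)]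
  refine ⟨1, fun b => if b ∈ w then val a φ (it σ k [b]) else 0,
    fun t => if t.1 < w.length then 1 else 0, fun t => i t, fun t => w.getD t c, one_ne_zero, ?_,
    fun b => ?_, fun t => ?_, fun t => ?_, ?_⟩
  · rw [ea]; simpa using one_le_pow₀ a1.le
  · rw [ea]
    dsimp only
    split_ifs with g
    · obtain ⟨q, hq⟩ := m1 b g
      rw [← hq.W_eq, abs_of_nonneg (by exact_mod_cast X.W_nonneg _ _)]
      refine le_trans ?_ (pow_le_pow_right₀ a1.le (g2 b g))
      exact_mod_cast (X.W_lt _ _).le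
    · simp
  · dsimp only
    split_ifs <;> simp
  · have := (m2 t).trans ((length_it σ k w).le.trans (List.sum_le_card_nsmul _ n fun y hy => by
      obtain ⟨b, hb, rfl⟩ := List.mem_map.1 hy
      exact g2 b hb))
    simp only [List.length_map, smul_eq_mul] at this
    exact_mod_cast this.trans (Nat.mul_le_mul_right n g1)
  · have e : ∑ t : Fin M, (((if t.1 < w.length then 1 else 0 : ℤ) : ℝ) *
        ((if w.getD t c ∈ w then val a φ (it σ k [w.getD t c]) else 0 : ℤ) : ℝ)) / a ^ i t =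
        ∑ t ∈ Finset.range w.length, (val a φ (it σ k [w.getD t c]) : ℝ) / a ^ i t := by
      rw [Fin.sum_univ_eq_sum_range (fun t => (((if t < w.length then 1 else 0 : ℤ) : ℝ) *
        ((if w.getD t c ∈ w then val a φ (it σ k [w.getD t c]) else 0 : ℤ) : ℝ)) / a ^ i t), eq_comm]
      refine Finset.sum_subset_zero_on_sdiff (Finset.range_subset_range.2 g1) (fun t ht => ?_)
        fun t ht => ?_
      · rw [if_neg (by simpa using (Finset.mem_sdiff.1 ht).2)]; simp
      · have ht := Finset.mem_range.1 ht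
        rw [if_pos ht, if_pos (by rw [List.getD_eq_getElem _ _ ht]; exact List.getElem_mem ht)]
        simp
    have e0 : X.t 0 = Int.fract x := by simp [hX, dig]
    rw [e, ← e0, m3, Int.cast_one, one_mul, add_sub_cancel_left,
      abs_of_nonneg (div_nonneg (X.t0 _) (by positivity)), ← ea, div_le_iff₀ (exp_pos _), ← exp_add]
    refine (X.t1 _).le.trans (one_le_exp ?_)
    have l0 : 0 < log a := log_pos a1
    have b1 : K ≤ ⌈K / log a⌉₊ * log a := (div_le_iff₀ l0).1 (Nat.le_ceil _)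
    have b2 : (⌈K / log a⌉₊ * n : ℝ) ≤ (it σ k w).length := by exact_mod_cast g3
    nlinarith [Nat.cast_nonneg (α := ℝ) n]

theorem core_of_rep (a b : ℕ) (hd : Dioph a b) (x : ℝ) (h1 : Rep a x) (h2 : Rep b x) :
    ∃ κ : ℝ, ∀ K : ℝ, ∃ n0 : ℕ, ∀ n ≥ n0,
      ∃ P Q : ℤ, Q ≠ 0 ∧ |(Q : ℝ)| ≤ exp (κ * n) ∧ |Q * x - P| ≤ exp (-K * n) := by
  obtain ⟨D, c, h1⟩ := h1
  obtain ⟨D', c', h2⟩ := h2
  obtain ⟨κ, h3⟩ := hd D D' (c + c')
  refine ⟨κ + c + c', fun K => ?_⟩
  obtain ⟨M, n1, B, h1⟩ := h1 (K + κ + 1 + |c| + |c'| + 1)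
  obtain ⟨M', n2, B', h2⟩ := h2 (K + κ + 1 + |c| + |c'| + 1)
  obtain ⟨n3, h3⟩ := h3 M M' (max B B') (K + κ + 1)
  refine ⟨max (max n1 n2) (max n3 1), fun n hn => ?_⟩
  simp only [ge_iff_le, max_le_iff] at hn
  have hn1 : (1 : ℝ) ≤ n := by exact_mod_cast hn.2.2
  obtain ⟨d, V, s, i, e, a1, a2, a3, a4, a5, a6⟩ := h1 n hn.1.1
  obtain ⟨d', V', s', i', e', b1, b2, b3, b4, b5, b6⟩ := h2 n hn.1.2
  have e1 : ∑ t, (s t * ((d' * V (e t) : ℤ)) : ℝ) / a ^ i t =
      d' * ∑ t, (s t * V (e t) : ℝ) / a ^ i t := by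
    rw [Finset.mul_sum]
    refine Finset.sum_congr rfl fun t _ => ?_
    push_cast
    ring
  have e2 : ∑ t, (s' t * ((d * V' (e' t) : ℤ)) : ℝ) / b ^ i' t =
      d * ∑ t, (s' t * V' (e' t) : ℝ) / b ^ i' t := by
    rw [Finset.mul_sum]
    refine Finset.sum_congr rfl fun t _ => ?_
    push_cast
    ring
  have mul : ∀ {u v α β : ℝ}, |u| ≤ exp α → |v| ≤ exp β → |u * v| ≤ exp (α + β) := by
    intro u v α β h1 h2
    rw [abs_mul, exp_add]
    exact mul_le_mul h1 h2 (abs_nonneg _) (exp_pos _).le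
  have c1 := mul b2 a6
  have c2 := mul a2 b6
  have l1 := mul_nonneg (abs_nonneg c) (zero_le_one.trans hn1)
  have l2 := mul_nonneg (abs_nonneg c') (zero_le_one.trans hn1)
  have l3 := mul_le_mul_of_nonneg_right (le_abs_self c) (zero_le_one.trans hn1)
  have l4 := mul_le_mul_of_nonneg_right (le_abs_self c') (zero_le_one.trans hn1)
  obtain ⟨P, Q, q1, q2, q3⟩ := h3 n hn.2.1 (fun j => d' * V j) (fun j => d * V' j) s s' i i' e e'
    (fun j => by
      push_cast
      exact (mul b2 (a3 j)).trans (le_of_eq (by congr 1; ring)))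
    (fun j => by
      push_cast
      exact (mul a2 (b3 j)).trans (le_of_eq (by congr 1; ring))) a4 b4
    (fun t => (a5 t).trans (by gcongr; exact le_max_left _ _))
    (fun t => (b5 t).trans (by gcongr; exact le_max_right _ _)) (by
      rw [e1, e2]
      refine le_trans ?_ ((add_le_add c1 c2).trans (exp_two (by linarith) (by linarith)))
      rw [← abs_neg ((d' : ℝ) * (_ - _))]
      exact le_trans (le_of_eq (by congr 1; ring)) (abs_add_le _ _))
  rw [e1] at q3
  refine ⟨P + Q * d * d' * ⌊x⌋, Q * d * d', mul_ne_zero (mul_ne_zero q1 a1) b1, ?_, ?_⟩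
  · push_cast
    exact (mul (mul q2 a2) b2).trans (le_of_eq (by congr 1; ring))
  · refine le_trans ?_ ((add_le_add (mul q2 c1) q3).trans (exp_two (by linarith) (by linarith)))
    refine le_trans (le_of_eq ?_) (abs_add_le _ _)
    congr 1
    simp only [Int.fract]
    push_cast
    ring

/-- A chain of very good approximations forces rationality. -/
theorem chain (x : ℝ) (A B : ℕ → ℝ) (h : ∀ᶠ n : ℕ in atTop, (A (n + 1) + 1 ≤ B n ∧
    A n + 1 ≤ B (n + 1) ∧ n ≤ B n) ∧
      ∃ P Q : ℤ, Q ≠ 0 ∧ |(Q : ℝ)| ≤ exp (A n) ∧ |Q * x - P| ≤ exp (-B n)) : ¬ Irrational x := by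
  obtain ⟨n0, h⟩ := eventually_atTop.1 h
  choose P Q q1 q2 q3 using fun j : ℕ => (h (n0 + j) (by omega)).2
  have step : ∀ j, (P (j + 1) : ℝ) / Q (j + 1) = P j / Q j := by
    intro j
    obtain ⟨a1, a2, _⟩ := (h (n0 + j) (by omega)).1
    have b1 := mul_le_mul (q2 j) (q3 (j + 1)) (abs_nonneg _) (exp_pos _).le
    have b2 := mul_le_mul (q2 (j + 1)) (q3 j) (abs_nonneg _) (exp_pos _).le
    rw [← abs_mul, ← exp_add, ← add_assoc] at b1 b2
    have b3 := b1.trans ((exp_le_exp (y := -1)).2 (by linarith))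
    have b4 := b2.trans ((exp_le_exp (y := -1)).2 (by linarith))
    have b5 := Real.exp_neg_one_lt_d9
    have b6 : |((Q (j + 1) * P j - Q j * P (j + 1) : ℤ) : ℝ)| < 1 := by
      have : ((Q (j + 1) * P j - Q j * P (j + 1) : ℤ) : ℝ) =
          Q j * (Q (j + 1) * x - P (j + 1)) - Q (j + 1) * (Q j * x - P j) := by
        push_cast
        ring
      rw [this]
      linarith [abs_sub ((Q j : ℝ) * (Q (j + 1) * x - P (j + 1)))
        ((Q (j + 1) : ℝ) * (Q j * x - P j))]
    have b7 : Q (j + 1) * P j - Q j * P (j + 1) = 0 :=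
      Int.abs_lt_one_iff.1 (by exact_mod_cast b6)
    have b8 : (Q (j + 1) : ℝ) * P j - Q j * P (j + 1) = 0 := by exact_mod_cast b7
    rw [div_eq_div_iff (by exact_mod_cast q1 _) (by exact_mod_cast q1 _)]
    linarith
  have all : ∀ j, (P j : ℝ) / Q j = P 0 / Q 0 := by
    intro j
    induction j with
    | zero => rfl
    | succ j ih => rw [step, ih]
  intro hx
  have c' : 0 < |x - P 0 / Q 0| := abs_pos.2 (sub_ne_zero.2 (hx.ne_rational _ _))
  obtain ⟨j, hj⟩ := exists_nat_gt (-log |x - P 0 / Q 0|)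
  have a1 := q3 j
  have a2 : (Q j : ℝ) * x - P j = Q j * (x - P 0 / Q 0) := by
    have : (Q j : ℝ) ≠ 0 := by exact_mod_cast q1 j
    rw [← all j]
    field_simp
  have a3 := (h (n0 + j) (by omega)).1.2.2
  have Q1 : (1 : ℝ) ≤ |(Q j : ℝ)| := by exact_mod_cast Int.one_le_abs (q1 j)
  rw [a2, abs_mul] at a1
  have a5 := (log_le_iff_le_exp c').2 ((le_mul_of_one_le_left c'.le Q1).trans a1)
  push_cast at a3
  linarith [Nat.cast_nonneg (α := ℝ) n0]

theorem not_irrational_of_rep (a b : ℕ) (hd : Dioph a b) (x : ℝ) (h1 : Rep a x) (h2 : Rep b x) :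
    ¬ Irrational x := by
  obtain ⟨κ, h⟩ := core_of_rep a b hd x h1 h2
  obtain ⟨n0, h⟩ := h (2 * |κ| + 1)
  refine chain x (fun n => κ * n) (fun n => (2 * |κ| + 1) * n) ?_
  filter_upwards [eventually_ge_atTop n0, eventually_ge_atTop 1] with n g1 g2
  have : (1 : ℝ) ≤ n := by exact_mod_cast g2
  have k0 := abs_nonneg κ
  have k1 := le_abs_self κ
  refine ⟨⟨?_, ?_, ?_⟩, by simpa only [neg_mul] using h n g1⟩
  · push_cast; nlinarith
  · push_cast; nlinarith
  · nlinarith

end H93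

open H93

/-- No irrational number is of linear complexity or morphic in both bases. -/
theorem low_of (a b : ℕ) (ha : 2 ≤ a) (hb : 2 ≤ b) (hd : Dioph a b) (x : ℝ) (hx : Irrational x) :
    ¬ (((∃ C : ℝ, ∀ n : ℕ, 1 ≤ n → (cx a x n : ℝ) ≤ C * n) ∨ Morphic (digit a x)) ∧
      ((∃ C : ℝ, ∀ n : ℕ, 1 ≤ n → (cx b x n : ℝ) ≤ C * n) ∨ Morphic (digit b x))) := fun h =>
  not_irrational_of_rep a b hd x
    (h.1.elim (fun ⟨C, g⟩ => rep_of_linear a ha x C g) (rep_of_morphic a ha x))
    (h.2.elim (fun ⟨C, g⟩ => rep_of_linear b hb x C g) (rep_of_morphic b hb x)) hx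

/-- A superlinear bound which is uniform in the number. -/
theorem omega_of (a b : ℕ) (hc : ∀ C, Core a b C) : ∃ ω : ℕ → ℕ, Tendsto ω atTop atTop ∧
    ∀ x : ℝ, Irrational x → ∃ᶠ n : ℕ in atTop, n * ω n < cx a x n + cx b x n := by
  classical
  choose κ h using fun j : ℕ => hc j
  let k : ℕ → ℝ := fun j => ∑ i ∈ Finset.range (j + 1), |κ i|
  have km : Monotone k := fun i j hij => Finset.sum_le_sum_of_subset_of_nonneg
    (Finset.range_subset_range.2 (by omega)) fun _ _ _ => abs_nonneg _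
  have k0 : ∀ j, 0 ≤ k j := fun j => Finset.sum_nonneg fun _ _ => abs_nonneg _
  have k1 : ∀ j, κ j ≤ k j := fun j => (le_abs_self _).trans
    (Finset.single_le_sum (f := fun i => |κ i|) (fun _ _ => abs_nonneg _) (by simp))
  choose n0 h using fun j => h j (2 * k (j + 1) + 1)
  let N : ℕ → ℕ := fun j => ∑ i ∈ Finset.range (j + 1), (n0 i + 1)
  have Nm : StrictMono N := strictMono_nat_of_lt_succ fun j => by
    simp only [N, Finset.sum_range_succ _ (j + 1)]; omega
  have N1 : ∀ j, n0 j + 1 ≤ N j := fun j =>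
    Finset.single_le_sum (f := fun i => n0 i + 1) (fun _ _ => Nat.zero_le _) (by simp)
  let ω : ℕ → ℕ := fun n => Nat.findGreatest (fun j => N j ≤ n) n
  have w1 : ∀ n j, N j ≤ n → j ≤ ω n := fun n j g =>
    Nat.le_findGreatest ((Nm.id_le j).trans g) g
  have w2 : ∀ n, N 0 ≤ n → N (ω n) ≤ n := fun n g =>
    Nat.findGreatest_spec (P := fun j => N j ≤ n) (Nat.zero_le n) g
  refine ⟨ω, tendsto_atTop.2 fun j => (eventually_ge_atTop (N j)).mono fun n => w1 n j,
    fun x hx => ?_⟩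
  by_contra c
  refine chain x (fun n => k (ω n) * n) (fun n => (2 * k (ω n + 1) + 1) * n) ?_ hx
  filter_upwards [not_frequently.1 c, eventually_ge_atTop (N 0)] with n g1 g2
  have n1 : (1 : ℝ) ≤ n := by exact_mod_cast le_trans (Nat.le_add_left _ _) ((N1 0).trans g2)
  have m1 : ω (n + 1) ≤ ω n + 1 := by
    have := w2 (n + 1) (by omega)
    generalize ω (n + 1) = i at this
    obtain _ | i := i
    · omega
    · exact Nat.succ_le_succ (w1 n i (by have := Nm (Nat.lt_add_one i); omega))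
  have m2 : ω n ≤ ω (n + 1) + 1 := (w1 (n + 1) _ ((w2 n g2).trans (Nat.le_succ n))).trans
    (Nat.le_succ _)
  obtain ⟨P, Q, q1, q2, q3⟩ := h (ω n) n (by have := N1 (ω n); have := w2 n g2; omega) x (by
    rw [mul_comm]; exact_mod_cast not_lt.1 g1)
  refine ⟨⟨?_, ?_, ?_⟩, P, Q, q1, q2.trans (exp_le_exp.2 (by gcongr; exact k1 _)),
    by simpa only [neg_mul] using q3⟩
  · push_cast; nlinarith [km m1, k0 (ω (n + 1))]
  · push_cast; nlinarith [km m2, k0 (ω n)]
  · nlinarith [k0 (ω n + 1)]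

end Pool.Agent.Lib.MP_c9a594_an
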