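import Pool.Agent.Lib.MP_c9a594_an.Final

/-! # A superlinear complexity bound which is uniform in the number -/

open Filter Real

namespace Pool.Agent.Lib.MP_c9a594_an

/-- A chain of very good approximations consists of one rational number, the number itself. -/
theorem H93.chain_eq (x : ℝ) (A B : ℕ → ℝ) (n0 : ℕ) (h : ∀ n ≥ n0, (A (n + 1) + 1 ≤ B n ∧
    A n + 1 ≤ B (n + 1) ∧ n ≤ B n) ∧
      ∃ P Q : ℤ, Q ≠ 0 ∧ |(Q : ℝ)| ≤ exp (A n) ∧ |Q * x - P| ≤ exp (-B n)) :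
    ∃ P Q : ℤ, Q ≠ 0 ∧ |(Q : ℝ)| ≤ exp (A n0) ∧ x = P / Q := by
  choose P Q q1 q2 q3 using fun j : ℕ => (h (n0 + j) (by omega)).2
  have step : ∀ j, (P (j + 1) : ℝ) / Q (j + 1) = P j / Q j := by
    intro j
    obtain ⟨a1, a2, _⟩ := (h (n0 + j) (by omega)).1
    have b1 := mul_le_mul (q2 j) (q3 (j + 1)) (abs_nonneg _) (exp_pos _).le
    have b2 := mul_le_mul (q2 (j + 1)) (q3 j) (abs_nonneg _) (exp_pos _).le
    rw [← abs_mul, ← exp_add, ← add_assoc] at b1 b2
    have b3 := b1.trans ((exp_le_exp (y := -1)).2 (by linarith))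
    have b4 := b2.trans ((exp_le_exp (y := -1)).2 (by linarith))
    have b5 := Real.exp_neg_one_lt_d9
    have b6 : |((Q (j + 1) * P j - Q j * P (j + 1) : ℤ) : ℝ)| < 1 := by
      have : ((Q (j + 1) * P j - Q j * P (j + 1) : ℤ) : ℝ) =
          Q j * (Q (j + 1) * x - P (j + 1)) - Q (j + 1) * (Q j * x - P j) := by
        push_cast
        ring
      rw [this]
      linarith [abs_sub ((Q j : ℝ) * (Q (j + 1) * x - P (j + 1)))
        ((Q (j + 1) : ℝ) * (Q j * x - P j))]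
    have b7 : Q (j + 1) * P j - Q j * P (j + 1) = 0 :=
      Int.abs_lt_one_iff.1 (by exact_mod_cast b6)
    have b8 : (Q (j + 1) : ℝ) * P j - Q j * P (j + 1) = 0 := by exact_mod_cast b7
    rw [div_eq_div_iff (by exact_mod_cast q1 _) (by exact_mod_cast q1 _)]
    linarith
  have all : ∀ j, (P j : ℝ) / Q j = P 0 / Q 0 := by
    intro j
    induction j with
    | zero => rfl
    | succ j ih => rw [step, ih]
  refine ⟨P 0, Q 0, q1 0, q2 0, ?_⟩
  by_contra hx
  have c' : 0 < |x - P 0 / Q 0| := abs_pos.2 (sub_ne_zero.2 hx)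
  obtain ⟨j, hj⟩ := exists_nat_gt (-log |x - P 0 / Q 0|)
  have a1 := q3 j
  have a2 : (Q j : ℝ) * x - P j = Q j * (x - P 0 / Q 0) := by
    have : (Q j : ℝ) ≠ 0 := by exact_mod_cast q1 j
    rw [← all j]
    field_simp
  have a3 := (h (n0 + j) (by omega)).1.2.2
  have Q1 : (1 : ℝ) ≤ |(Q j : ℝ)| := by exact_mod_cast Int.one_le_abs (q1 j)
  rw [a2, abs_mul] at a1
  have a5 := (log_le_iff_le_exp c').2 ((le_mul_of_one_le_left c'.le Q1).trans a1)
  push_cast at a3
  linarith [Nat.cast_nonneg (α := ℝ) n0]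

/-- A superlinear bound, uniform in the number, with finitely many rational exceptions. -/
theorem uniform_of (a b : ℕ) (hc : ∀ C, Core a b C) : ∃ ω : ℕ → ℝ, Tendsto ω atTop atTop ∧
    ∀ n0 : ℕ, ∃ F : Finset ℚ, ∀ x ∈ Set.Ico (0 : ℝ) 1,
      (∀ n ≥ n0, (cx a x n + cx b x n : ℝ) ≤ n * ω n) → ∃ r ∈ F, x = (r : ℝ) := by
  classical
  choose κ h using fun j : ℕ => hc j
  let k : ℕ → ℝ := fun j => ∑ i ∈ Finset.range (j + 1), |κ i|
  have km : Monotone k := fun i j hij => Finset.sum_le_sum_of_subset_of_nonneg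
    (Finset.range_subset_range.2 (by omega)) fun _ _ _ => abs_nonneg _
  have k0 : ∀ j, 0 ≤ k j := fun j => Finset.sum_nonneg fun _ _ => abs_nonneg _
  have k1 : ∀ j, κ j ≤ k j := fun j => (le_abs_self _).trans
    (Finset.single_le_sum (f := fun i => |κ i|) (fun _ _ => abs_nonneg _) (by simp))
  choose n0 h using fun j => h j (2 * k (j + 1) + 1)
  let N : ℕ → ℕ := fun j => ∑ i ∈ Finset.range (j + 1), (n0 i + 1)
  have Nm : StrictMono N := strictMono_nat_of_lt_succ fun j => by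
    simp only [N, Finset.sum_range_succ _ (j + 1)]; omega
  have N1 : ∀ j, n0 j + 1 ≤ N j := fun j =>
    Finset.single_le_sum (f := fun i => n0 i + 1) (fun _ _ => Nat.zero_le _) (by simp)
  let ω : ℕ → ℕ := fun n => Nat.findGreatest (fun j => N j ≤ n) n
  have w1 : ∀ n j, N j ≤ n → j ≤ ω n := fun n j g =>
    Nat.le_findGreatest ((Nm.id_le j).trans g) g
  have w2 : ∀ n, N 0 ≤ n → N (ω n) ≤ n := fun n g =>
    Nat.findGreatest_spec (P := fun j => N j ≤ n) (Nat.zero_le n) g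
  refine ⟨fun n => ω n, tendsto_natCast_atTop_atTop.comp
    (tendsto_atTop.2 fun j => (eventually_ge_atTop (N j)).mono fun n => w1 n j), fun m => ?_⟩
  obtain ⟨L, hL⟩ : ∃ L : ℕ, exp (k (ω (m + N 0)) * (m + N 0 : ℕ)) ≤ L := ⟨_, Nat.le_ceil _⟩
  refine ⟨(Finset.Icc (-(L : ℤ)) L ×ˢ Finset.Icc (-(L : ℤ)) L).image fun y => (y.1 : ℚ) / y.2,
    fun x hx hC => ?_⟩
  obtain ⟨P, Q, q1, q2, e⟩ := H93.chain_eq x (fun n => k (ω n) * n)
      (fun n => (2 * k (ω n + 1) + 1) * n) (m + N 0) (fun n hn => by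
    have g2 : N 0 ≤ n := by omega
    have n1 : (1 : ℝ) ≤ n := by exact_mod_cast le_trans (Nat.le_add_left _ _) ((N1 0).trans g2)
    have m1 : ω (n + 1) ≤ ω n + 1 := by
      have := w2 (n + 1) (by omega)
      generalize ω (n + 1) = i at this
      obtain _ | i := i
      · omega
      · exact Nat.succ_le_succ (w1 n i (by have := Nm (Nat.lt_add_one i); omega))
    have m2 : ω n ≤ ω (n + 1) + 1 := (w1 (n + 1) _ ((w2 n g2).trans (Nat.le_succ n))).trans
      (Nat.le_succ _)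
    obtain ⟨P, Q, q1, q2, q3⟩ := h (ω n) n (by have := N1 (ω n); have := w2 n g2; omega) x (by
      rw [mul_comm]; exact hC n (by omega))
    refine ⟨⟨?_, ?_, ?_⟩, P, Q, q1, q2.trans (exp_le_exp.2 (by gcongr; exact k1 _)),
      by simpa only [neg_mul] using q3⟩
    · push_cast; nlinarith [km m1, k0 (ω (n + 1))]
    · push_cast; nlinarith [km m2, k0 (ω n)]
    · nlinarith [k0 (ω n + 1)])
  have hQ : |Q| ≤ L := by
    have := q2.trans hL
    exact_mod_cast this
  have hP : |P| ≤ L := by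
    have a1 : (P : ℝ) = Q * x := by
      have : (Q : ℝ) ≠ 0 := by exact_mod_cast q1
      rw [e]
      field_simp
    have a2 : |(P : ℝ)| ≤ |(Q : ℝ)| := by
      rw [a1, abs_mul, abs_of_nonneg hx.1]
      exact mul_le_of_le_one_right (abs_nonneg _) hx.2.le
    have a3 : |P| ≤ |Q| := by exact_mod_cast a2
    exact a3.trans hQ
  refine ⟨(P : ℚ) / Q, Finset.mem_image.2 ⟨(P, Q), ?_, rfl⟩, by rw [e]; push_cast; rfl⟩
  simp only [Finset.mem_product, Finset.mem_Icc]
  exact ⟨abs_le.1 hP, abs_le.1 hQ⟩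

end Pool.Agent.Lib.MP_c9a594_an
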