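import Mathlib
import Pool.Agent.Lib.MP_c9a594_an.Good

/-!
The tower construction and the main theorem on the circle.
-/

open Filter Topology MeasureTheory Set Metric
open scoped ENNReal

namespace Pool.Agent.Lib.MP_c9a594_an

theorem iterate_smul_eq (A k : ℕ) (x : UnitAddCircle) :
    (fun y : UnitAddCircle => A • y)^[k] x = A ^ k • x := by
  induction k with
  | zero => simp
  | succ k ih => rw [Function.iterate_succ_apply', ih, pow_succ', mul_smul]

theorem iterate_add_real (α : ℝ) (k : ℕ) (x : ℝ) : (fun y => y + α)^[k] x = x + k * α := by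
  induction k with
  | zero => simp
  | succ k ih => rw [Function.iterate_succ_apply', ih]; push_cast; ring

theorem tower_step {β : Type*} {A B : ℕ} (hA : 2 ≤ A) (hB : 2 ≤ B)
    (hirr : Irrational (Real.log A / Real.log B)) {f : β → β} {F : Set β} (hF : ¬ Small f F)
    (j : ℕ) : ∃ (K : Finset ℕ) (F' : Set β), F' ⊆ F ∧ ¬ Small f F' ∧
      (∀ x ∈ F', ∀ k ∈ K, f^[k] x ∈ F) ∧
      ∀ x : ℝ, 0 < x → ∃ k ∈ K, ∀ w : UnitAddCircle, ∃ l : ℤ,
        dist (((A : ℝ) ^ k * (x * (B : ℝ) ^ l) : ℝ) : UnitAddCircle) w < 1 / ((j : ℝ) + 1) := by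
  classical
  have hB1 : (1 : ℝ) < B := by exact_mod_cast (by omega : 1 < B)
  have hBpos : (0 : ℝ) < B := by linarith
  have hApos : (0 : ℝ) < A := by exact_mod_cast (by omega : 0 < A)
  have hlog : Real.log B ≠ 0 := (Real.log_pos hB1).ne'
  obtain ⟨δ, hδ, hpat⟩ := pattern hF
  obtain ⟨N₀, hN₀⟩ := small_bad hB (η := 1 / ((j : ℝ) + 1)) (by positivity) hirr δ hδ
  obtain ⟨K, hKN, hKc, hKs⟩ := hpat (N₀ + 1) (by omega)
  refine ⟨K, _, fun x hx => hx.1, hKs, fun x hx => hx.2, fun x hx => ?_⟩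
  by_contra hcon
  push Not at hcon
  set s : ℝ := Real.log x / Real.log B with hs
  have h1 := hN₀ (N₀ + 1) (by omega) s
  have h2 : K.card ≤ cnt (fun s : ℝ => s + Real.log A / Real.log B)
      (Bad B (1 / ((j : ℝ) + 1))) s (N₀ + 1) := by
    unfold cnt
    apply Finset.card_le_card
    intro k hk
    rw [Finset.mem_filter]
    refine ⟨hKN hk, ?_⟩
    obtain ⟨w, hw⟩ := hcon k hk
    refine ⟨w, fun l => ?_⟩
    have h3 : (B : ℝ) ^ ((fun y => y + Real.log A / Real.log B)^[k] s + l)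
        = (A : ℝ) ^ k * (x * (B : ℝ) ^ l) := by
      rw [iterate_add_real, Real.rpow_add hBpos, Real.rpow_add hBpos, Real.rpow_intCast]
      have h4 : (B : ℝ) ^ s = x := by
        rw [Real.rpow_def_of_pos hBpos, hs, mul_div_cancel₀ _ hlog, Real.exp_log hx]
      have h5 : (B : ℝ) ^ ((k : ℝ) * (Real.log A / Real.log B)) = (A : ℝ) ^ k := by
        rw [Real.rpow_def_of_pos hBpos]
        have : Real.log B * ((k : ℝ) * (Real.log A / Real.log B)) = k * Real.log A := by
          field_simp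
        rw [this, ← Real.log_pow, Real.exp_log (by positivity)]
      rw [h4, h5]
      ring
    rw [h3]
    exact hw l
  have h2' : (K.card : ℝ) ≤ cnt (fun s : ℝ => s + Real.log A / Real.log B)
      (Bad B (1 / ((j : ℝ) + 1))) s (N₀ + 1) := by exact_mod_cast h2
  linarith

theorem pos_of_acc0 {W : Set UnitAddCircle} (h : Acc0 (comb 1 (-1) W)) :
    ∀ ε : ℝ, 0 < ε → ∃ δ : ℝ, 0 < δ ∧ δ < ε ∧ (δ : UnitAddCircle) ∈ comb 1 (-1) W := by
  intro ε hε
  obtain ⟨z, hz, hz0, hzn⟩ := h ε hε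
  obtain ⟨t, rfl, ht⟩ := exists_rep z
  have ht0 : t ≠ 0 := by
    rintro rfl
    exact hz0 (by simp)
  have ha : |t| < ε := by rw [ht]; exact hzn
  rcases lt_or_gt_of_ne ht0 with h | h
  · refine ⟨-t, by linarith, by linarith [neg_le_abs t], ?_⟩
    obtain ⟨x, hx, y, hy, hxy⟩ := mem_comb.1 hz
    refine mem_comb.2 ⟨y, hy, x, hx, ?_⟩
    rw [AddCircle.coe_neg, ← hxy]
    simp
  · exact ⟨t, h, by linarith [le_abs_self t], hz⟩

/-- A decreasing intersection of closed invariant sets with small differences has small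
differences. -/
theorem acc0_iInter {B : ℕ} (hB : 2 ≤ B) {C : ℕ → Set UnitAddCircle} (hc : ∀ j, IsClosed (C j))
    (hinv : ∀ j, ∀ z ∈ C j, B • z ∈ C j) (hdec : ∀ j, C (j + 1) ⊆ C j)
    (hacc : ∀ j, Acc0 (comb 1 (-1) (C j))) : Acc0 (comb 1 (-1) (⋂ j, C j)) := by
  have hB1 : (1 : ℝ) < B := by exact_mod_cast (by omega : 1 < B)
  have hBpos : (0 : ℝ) < B := by linarith
  intro ε hε
  obtain ⟨i, hi⟩ := exists_pow_lt_of_lt_one (lt_min hε one_pos) (show 1 / (B : ℝ) < 1 by
    rw [div_lt_one hBpos]; exact hB1)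
  set S : ℕ → Set (ℝ × UnitAddCircle × UnitAddCircle) := fun j =>
    (Icc (1 : ℝ) B ×ˢ (C j ×ˢ C j)) ∩
      {p | p.2.1 - p.2.2 = ((p.1 / (B : ℝ) ^ (i + 1) : ℝ) : UnitAddCircle)} with hS
  have hScl : ∀ j, IsClosed (S j) := fun j =>
    (isClosed_Icc.prod ((hc j).prod (hc j))).inter
      (isClosed_eq (by fun_prop) ((AddCircle.continuous_mk' 1).comp (by fun_prop)))
  obtain ⟨p, hp⟩ := IsCompact.nonempty_iInter_of_sequence_nonempty_isCompact_isClosed S
    (fun j p hp => ⟨⟨hp.1.1, hdec j hp.1.2.1, hdec j hp.1.2.2⟩, hp.2⟩)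
    (fun j => by
      obtain ⟨δ, h0, h1, h2⟩ := pos_of_acc0 (hacc j) (1 / (B : ℝ) ^ i) (by positivity)
      obtain ⟨s, hs1, hs2⟩ := rescale hB (comb_inv 1 (-1) (hinv j)) i h0 h1 h2
      obtain ⟨x, hx, y, hy, hxy⟩ := mem_comb.1 hs2
      refine ⟨(s, x, y), ⟨hs1, hx, hy⟩, ?_⟩
      simp only [mem_ofPred_eq]
      rw [← hxy]
      simp [sub_eq_add_neg])
    ((isCompact_Icc.prod ((hc 0).isCompact.prod (hc 0).isCompact)).of_isClosed_subset (hScl 0)
      inter_subset_left) hScl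
  rw [mem_iInter] at hp
  have h1 := (hp 0).1.1
  have h2 : p.2.1 - p.2.2 = ((p.1 / (B : ℝ) ^ (i + 1) : ℝ) : UnitAddCircle) := (hp 0).2
  have hpos : 0 < p.1 / (B : ℝ) ^ (i + 1) := by
    have := h1.1
    positivity
  have hlt : p.1 / (B : ℝ) ^ (i + 1) < min ε 1 := by
    refine lt_of_le_of_lt ?_ hi
    rw [one_div, inv_pow, div_le_iff₀ (by positivity), pow_succ, ← mul_assoc,
      inv_mul_cancel₀ (by positivity), one_mul]
    exact h1.2
  refine ⟨p.2.1 - p.2.2, mem_comb.2 ⟨p.2.1, mem_iInter.2 fun j => (hp j).1.2.1, p.2.2,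
    mem_iInter.2 fun j => (hp j).1.2.2, by simp [sub_eq_add_neg]⟩, ?_, ?_⟩
  · rw [h2]
    intro h
    obtain ⟨n, hn⟩ := (AddCircle.coe_eq_zero_iff _).1 h
    have h3 : (n : ℝ) = p.1 / (B : ℝ) ^ (i + 1) := by simpa using hn
    have h4 : (0 : ℝ) < n := by rw [h3]; exact hpos
    have h5 : (n : ℝ) < 1 := by rw [h3]; exact lt_of_lt_of_le hlt (min_le_right _ _)
    have h6 : 0 < n := by exact_mod_cast h4
    have h7 : n < 1 := by exact_mod_cast h5
    omega
  · rw [h2]
    refine lt_of_le_of_lt QuotientAddGroup.norm_mk_le_norm ?_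
    rw [Real.norm_eq_abs, abs_of_pos hpos]
    exact lt_of_lt_of_le hlt (min_le_left _ _)

/-- Irrational points whose orbit under multiplication by B misses J. -/
def Avoid (B : ℕ) (J : Set UnitAddCircle) : Set UnitAddCircle :=
  {z | ¬ IsOfFinAddOrder z ∧ ∀ m : ℕ, B ^ m • z ∉ J}

theorem small_avoid_fixed {A B : ℕ} (hA : 2 ≤ A) (hB : 2 ≤ B)
    (hirr : Irrational (Real.log A / Real.log B)) {τ : UnitAddCircle} (hAτ : A • τ = τ)
    (hBτ : B • τ = τ) {J : Set UnitAddCircle} (hJ : IsOpen J) {i : ℕ}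
    (hhit : ∀ y, ∃ s ≤ i, y + s • τ ∈ J) :
    Small (fun y : UnitAddCircle => A • y) (Avoid B J) := by
  by_contra hns
  set f : UnitAddCircle → UnitAddCircle := fun y => A • y with hf
  have hstep := fun (F : {F : Set UnitAddCircle // ¬ Small f F}) (j : ℕ) =>
    tower_step hA hB hirr F.2 j
  choose K F' hsub hns' hret hlarge using hstep
  let G : ℕ → {F : Set UnitAddCircle // ¬ Small f F} := fun j =>
    Nat.rec ⟨Avoid B J, hns⟩ (fun j F => ⟨F' F j, hns' F j⟩) j
  have hG0 : (G 0).1 = Avoid B J := rfl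
  have hGs : ∀ j, (G (j + 1)).1 = F' (G j) j := fun _ => rfl
  have hGdec : ∀ j, (G (j + 1)).1 ⊆ (G j).1 := fun j => hsub (G j) j
  have hGA : ∀ j, (G j).1 ⊆ Avoid B J := by
    intro j
    induction j with
    | zero => exact subset_rfl
    | succ j ih => exact (hGdec j).trans ih
  set KK : ℕ → Finset ℕ := fun j => K (G j) j with hKK
  have hK : Large A B KK := fun j => hlarge (G j) j
  set O : ℕ → Set UnitAddCircle := fun j => {z | ∃ x ∈ (G j).1, ∃ m : ℕ, B ^ m • x = z} with hO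
  set C : ℕ → Set UnitAddCircle := fun j => closure (O j) with hC
  have hCc : ∀ j, IsClosed (C j) := fun _ => isClosed_closure
  have hCinv : ∀ j, ∀ z ∈ C j, B • z ∈ C j := by
    intro j
    have : MapsTo (fun z : UnitAddCircle => B • z) (O j) (O j) := by
      rintro z ⟨x, hx, m, rfl⟩
      exact ⟨x, hx, m + 1, by simp only; rw [pow_succ', mul_smul]⟩
    exact fun z hz => this.closure (by fun_prop) hz
  have hCdec : ∀ j, C (j + 1) ⊆ C j := by
    intro j
    apply closure_mono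
    rintro z ⟨x, hx, m, rfl⟩
    exact ⟨x, hGdec j hx, m, rfl⟩
  have hCanti : Antitone C := antitone_nat_of_succ_le hCdec
  have hCret : ∀ j, ∀ k ∈ KK j, ∀ z ∈ C (j + 1), A ^ k • z ∈ C j := by
    intro j k hk
    have : MapsTo (fun z : UnitAddCircle => A ^ k • z) (O (j + 1)) (O j) := by
      rintro z ⟨x, hx, m, rfl⟩
      refine ⟨A ^ k • x, ?_, m, by simp only; rw [smul_comm]⟩
      have := hret (G j) j x hx k hk
      have h2 : f^[k] x = A ^ k • x := iterate_smul_eq A k x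
      rwa [h2] at this
    exact fun z hz => this.closure (by fun_prop) hz
  have hCacc : ∀ j, Acc0 (comb 1 (-1) (C j)) := by
    intro j
    have hne : (G j).1.Nonempty := by
      by_contra h
      rw [not_nonempty_iff_eq_empty] at h
      apply (G j).2
      rw [h]
      exact small_empty f
    obtain ⟨x, hx⟩ := hne
    exact acc0_of_nontors hB (hCinv j) (subset_closure ⟨x, hx, 0, by simp⟩) (hGA j hx).1
  have hCJ : C 0 ⊆ Jᶜ := by
    apply closure_minimal _ hJ.isClosed_compl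
    rintro z ⟨x, hx, m, rfl⟩
    exact hx.2 m
  have hZ : Good A B KK (⋂ j, C j) :=
    { closed := isClosed_iInter hCc
      inv := fun z hz => mem_iInter.2 fun j => hCinv j z (mem_iInter.1 hz j)
      recur := by
        intro k hk z hz w hw
        refine mem_iInter.2 fun i => (hCc i).mem_of_tendsto hw ?_
        have : ∀ᶠ j in (hyperfilter ℕ : Filter ℕ), i ≤ j :=
          Nat.hyperfilter_le_atTop (eventually_ge_atTop i)
        filter_upwards [this] with j hj
        exact hCanti hj (hCret j _ (hk j) _ (mem_iInter.1 (hz j) (j + 1))) }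
  have hne : (⋂ j, C j) ≠ univ := by
    intro h
    obtain ⟨s, -, hs⟩ := hhit 0
    have : (0 + s • τ) ∈ ⋂ j, C j := by rw [h]; trivial
    exact hCJ (mem_iInter.1 this 0) hs
  obtain ⟨y, hy⟩ := hZ.progression hB hK hne (acc0_iInter hB hCc hCinv hCdec hCacc) hAτ hBτ i
  obtain ⟨s, hs, hsJ⟩ := hhit y
  exact hCJ (mem_iInter.1 (hy s hs) 0) hsJ

theorem irrational_log_div {A B : ℕ} (hA : 2 ≤ A) (hB : 2 ≤ B)
    (h : ∀ m n : ℕ, A ^ m = B ^ n → m = 0 ∧ n = 0) : Irrational (Real.log A / Real.log B) := by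
  have hB1 : (1 : ℝ) < B := by exact_mod_cast (by omega : 1 < B)
  have hA1 : (1 : ℝ) < A := by exact_mod_cast (by omega : 1 < A)
  have hlB := Real.log_pos hB1
  have hlA := Real.log_pos hA1
  rintro ⟨r, hr⟩
  have hrpos : 0 < r := by
    have : (0 : ℝ) < r := by rw [hr]; positivity
    exact_mod_cast this
  have hnum : 0 < r.num := Rat.num_pos.2 hrpos
  have h1 : (r.den : ℝ) * Real.log A = (r.num.toNat : ℝ) * Real.log B := by
    have h2 : (r : ℝ) = r.num / r.den := Rat.cast_def r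
    have h3 : ((r.num.toNat : ℕ) : ℝ) = (r.num : ℝ) := by
      rw [← Int.cast_natCast, Int.toNat_of_nonneg hnum.le]
    have h4 : (0 : ℝ) < r.den := by exact_mod_cast r.den_pos
    rw [h3]
    rw [h2, div_eq_div_iff h4.ne' hlB.ne'] at hr
    linarith
  rw [← Real.log_pow, ← Real.log_pow] at h1
  have h5 := Real.log_injOn_pos (by simp only [mem_Ioi]; positivity)
    (by simp only [mem_Ioi]; positivity) h1
  have h6 : A ^ r.den = B ^ r.num.toNat := by exact_mod_cast h5
  exact r.den_pos.ne' (h _ _ h6).1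

/-- The main theorem on the circle. -/
theorem small_avoid {a b : ℕ} (ha : 2 ≤ a) (hb : 2 ≤ b)
    (hab : ∀ m n : ℕ, a ^ m = b ^ n → m = 0 ∧ n = 0) {J : Set UnitAddCircle} (hJ : IsOpen J)
    (hne : J.Nonempty) : Small (fun y : UnitAddCircle => a • y) (Avoid b J) := by
  obtain ⟨c, hc⟩ := hne
  obtain ⟨r, hr, hball⟩ := Metric.isOpen_iff.1 hJ c hc
  obtain ⟨M, hM⟩ := exists_nat_one_div_lt hr
  set t : ℕ := a * b * (M + 1) + 1 with ht
  have htM : M + 1 ≤ t := by
    have : 1 ≤ a * b := Nat.mul_pos (by omega) (by omega)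
    nlinarith
  have htpos : (0 : ℝ) < t := by exact_mod_cast (by omega : 0 < t)
  have hta : Nat.Coprime a t := by
    rw [ht, mul_assoc]
    simp
  have htb : Nat.Coprime b t := by
    rw [ht, mul_comm a b, mul_assoc]
    simp
  set u := Nat.totient t with hu
  have hupos : 0 < u := Nat.totient_pos.2 (by omega)
  set τ : UnitAddCircle := ((1 / (t : ℝ) : ℝ) : UnitAddCircle) with hτ
  have htτ : t • τ = 0 := by
    rw [hτ, ← AddCircle.coe_nsmul]
    refine (AddCircle.coe_eq_zero_iff _).2 ⟨1, ?_⟩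
    simp only [one_smul, nsmul_eq_mul]
    field_simp
  have hfix : ∀ n : ℕ, Nat.Coprime n t → n ^ u • τ = τ := by
    intro n hn
    have h1 : n ^ u ≡ 1 [MOD t] := Nat.ModEq.pow_totient hn
    have h2 := nsmul_eq_mod_nsmul (n ^ u) htτ
    have h3 := nsmul_eq_mod_nsmul 1 htτ
    rw [h2, h1, ← h3, one_nsmul]
  have hA : 2 ≤ a ^ u := le_trans ha (Nat.le_self_pow hupos.ne' a)
  have hB : 2 ≤ b ^ u := le_trans hb (Nat.le_self_pow hupos.ne' b)
  have hirr : Irrational (Real.log (a ^ u : ℕ) / Real.log (b ^ u : ℕ)) := by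
    apply irrational_log_div hA hB
    intro m n h
    rw [← pow_mul, ← pow_mul] at h
    obtain ⟨h1, h2⟩ := hab _ _ h
    exact ⟨(Nat.mul_eq_zero.1 h1).resolve_left hupos.ne',
      (Nat.mul_eq_zero.1 h2).resolve_left hupos.ne'⟩
  have hhit : ∀ y, ∃ s ≤ t, y + s • τ ∈ J := by
    intro y
    obtain ⟨v, hv⟩ : ∃ v : ℝ, (v : UnitAddCircle) = c - y := QuotientAddGroup.mk_surjective _
    have hv' : ((Int.fract v : ℝ) : UnitAddCircle) = c - y := by rw [AddCircle.coe_fract, hv]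
    have h0 := Int.fract_nonneg v
    have h1 := Int.fract_lt_one v
    set w := Int.fract v with hw
    refine ⟨⌊w * t⌋₊, ?_, hball ?_⟩
    · apply Nat.floor_le_of_le
      nlinarith
    · rw [mem_ball, dist_eq_norm]
      have h2 : y + ⌊w * t⌋₊ • τ - c = (((⌊w * t⌋₊ : ℝ) / t - w : ℝ) : UnitAddCircle) := by
        rw [AddCircle.coe_sub, hv', hτ, ← AddCircle.coe_nsmul, nsmul_eq_mul, mul_one_div]
        abel
      rw [h2]
      refine lt_of_le_of_lt QuotientAddGroup.norm_mk_le_norm ?_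
      have h3 : (⌊w * t⌋₊ : ℝ) ≤ w * t := Nat.floor_le (by positivity)
      have h4 : w * t < ⌊w * t⌋₊ + 1 := Nat.lt_floor_add_one _
      have h5 : (⌊w * t⌋₊ : ℝ) / t - w = ((⌊w * t⌋₊ : ℝ) - w * t) / t := by field_simp
      have h6 : (1 : ℝ) / t ≤ 1 / ((M : ℝ) + 1) := by
        apply one_div_le_one_div_of_le (by positivity)
        exact_mod_cast htM
      rw [Real.norm_eq_abs, h5, abs_div, abs_of_pos htpos]
      have h7 : |(⌊w * t⌋₊ : ℝ) - w * t| ≤ 1 := by
        rw [abs_le]; constructor <;> linarith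
      calc _ ≤ 1 / (t : ℝ) := by gcongr
        _ ≤ _ := h6
        _ < r := hM
  have hs := small_avoid_fixed hA hB hirr (hfix a hta) (hfix b htb) hJ hhit
  apply Small.of_iterate hupos
  have hfun : (fun y : UnitAddCircle => a • y)^[u] = fun y => (a ^ u) • y :=
    funext fun y => iterate_smul_eq a u y
  rw [hfun]
  refine hs.mono ?_
  intro z hz
  refine ⟨hz.1, fun m => ?_⟩
  rw [← pow_mul]
  exact hz.2 _

end Pool.Agent.Lib.MP_c9a594_an
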