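import Mathlib
import Pool.Agent.Lib.MP_c9a594_an.Tower

/-!
Transfer of the main theorem from the circle to fractional parts of real numbers.
-/

open Filter Topology MeasureTheory Set Metric
open scoped ENNReal

namespace Pool.Agent.Lib.MP_c9a594_an

theorem nontors_iff {x : ℝ} : ¬ IsOfFinAddOrder (x : UnitAddCircle) ↔ Irrational x := by
  rw [AddCircle.not_isOfFinAddOrder_iff_forall_rat_ne_div]
  simp [Irrational]

theorem isOpen_arc (u v : ℝ) : IsOpen (((↑) : ℝ → UnitAddCircle) '' Ioo u v) :=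
  QuotientAddGroup.isOpenMap_coe _ isOpen_Ioo

theorem mem_arc {u v : ℝ} (hu : 0 ≤ u) (hv : v ≤ 1) {y : ℝ} :
    (y : UnitAddCircle) ∈ ((↑) : ℝ → UnitAddCircle) '' Ioo u v ↔ Int.fract y ∈ Ioo u v := by
  constructor
  · rintro ⟨s, hs, h⟩
    have h1 : ((y - s : ℝ) : UnitAddCircle) = 0 := by
      rw [AddCircle.coe_sub, h, sub_self]
    obtain ⟨n, hn⟩ := (AddCircle.coe_eq_zero_iff _).1 h1
    have h2 : y = s + n := by
      simp at hn
      linarith
    have h3 : Int.fract y = s := by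
      rw [h2, Int.fract_add_intCast, Int.fract_eq_self.2 ⟨by linarith [hs.1], by linarith [hs.2]⟩]
    rwa [h3]
  · intro h
    exact ⟨_, h, AddCircle.coe_fract y⟩

theorem uniform_density (a b : ℕ) (ha : 2 ≤ a) (hb : 2 ≤ b)
    (hab : ∀ m n : ℕ, a ^ m = b ^ n → m = 0 ∧ n = 0)
    (u v : ℝ) (hu : 0 ≤ u) (huv : u < v) (hv : v ≤ 1) (δ : ℝ) (hδ : 0 < δ) :
    ∃ N₀ : ℕ, ∀ N : ℕ, N₀ ≤ N → ∀ x : ℝ, Irrational x →
      (({n : ℕ | n < N ∧ ∀ m : ℕ,
        Int.fract ((a : ℝ) ^ n * (b : ℝ) ^ m * x) ∉ Set.Ioo u v}.ncard : ℕ) : ℝ) ≤ δ * N := by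
  classical
  obtain ⟨N₀, hN₀⟩ := small_avoid ha hb hab (isOpen_arc u v)
    ((nonempty_Ioo.2 huv).image _) δ hδ
  refine ⟨N₀, fun N hN x hx => le_trans ?_ (hN₀ N hN (x : UnitAddCircle))⟩
  unfold cnt
  rw [← Set.ncard_coe_finset]
  apply Nat.cast_le.2
  apply Set.ncard_le_ncard _ (Finset.finite_toSet _)
  rintro n ⟨hn, hm⟩
  simp only [Finset.coe_filter, Finset.mem_range, mem_ofPred_eq]
  refine ⟨hn, ?_⟩
  rw [iterate_smul_eq]
  refine ⟨nontors_smul (by positivity) (nontors_iff.2 hx), fun m h => hm m ?_⟩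
  rw [← coe_pow_mul, ← coe_pow_mul, mem_arc hu hv] at h
  convert h using 2
  ring

theorem measurableSet_avoid (b : ℕ) {J : Set UnitAddCircle} (hJ : IsOpen J) :
    MeasurableSet (Avoid b J) := by
  have h1 : MeasurableSet {z : UnitAddCircle | IsOfFinAddOrder z} := countable_tors.measurableSet
  have h2 : IsClosed {z : UnitAddCircle | ∀ m : ℕ, b ^ m • z ∉ J} := by
    simp only [ofPred_forall]
    apply isClosed_iInter
    intro m
    exact hJ.isClosed_compl.preimage (f := fun z : UnitAddCircle => b ^ m • z) (by fun_prop)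
  exact h1.compl.inter h2.measurableSet

theorem ae_dense (a b : ℕ) (ha : 2 ≤ a) (hb : 2 ≤ b)
    (hab : ∀ m n : ℕ, a ^ m = b ^ n → m = 0 ∧ n = 0)
    (μ : Measure ℝ) [IsFiniteMeasure μ]
    (hμ : MeasurePreserving (fun x : ℝ => Int.fract ((a : ℝ) * x)) μ μ) :
    ∀ᵐ x ∂μ, Irrational x →
      closure (Set.range (fun n : ℕ => Int.fract ((b : ℝ) ^ n * x))) = Set.Icc 0 1 := by
  have hsc : Function.Semiconj ((↑) : ℝ → UnitAddCircle) (fun x : ℝ => Int.fract ((a : ℝ) * x))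
      (fun y : UnitAddCircle => a • y) := by
    intro x
    simp only
    rw [AddCircle.coe_fract, ← AddCircle.coe_nsmul, nsmul_eq_mul]
  have key : ∀ p : ℚ × ℚ, ∀ᵐ (x : ℝ) ∂μ, (p.1 : ℝ) < p.2 →
      (x : UnitAddCircle) ∉ Avoid b (((↑) : ℝ → UnitAddCircle) '' Ioo (p.1 : ℝ) p.2) := by
    intro p
    by_cases h : (p.1 : ℝ) < p.2
    · have hs := (small_avoid ha hb hab (isOpen_arc p.1 p.2)
        ((nonempty_Ioo.2 h).image _)).semiconj hsc
      have h0 := hs.measure_zero hμ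
        (AddCircle.measurable_mk' (measurableSet_avoid b (isOpen_arc p.1 p.2)))
      filter_upwards [measure_eq_zero_iff_ae_notMem.1 h0] with x hx _
      exact hx
    · exact Eventually.of_forall fun x hx => absurd hx h
  filter_upwards [ae_all_iff.2 key] with x hx hirr
  apply Subset.antisymm
  · apply closure_minimal _ isClosed_Icc
    rintro _ ⟨n, rfl⟩
    exact ⟨Int.fract_nonneg _, (Int.fract_lt_one _).le⟩
  · intro y hy
    rw [Metric.mem_closure_iff]
    intro ε hε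
    have hlt : max 0 (y - ε) < min 1 (y + ε) := by
      rw [max_lt_iff, lt_min_iff, lt_min_iff]
      refine ⟨⟨one_pos, by linarith [hy.1]⟩, by linarith [hy.2], by linarith⟩
    obtain ⟨q₁, h1, h2⟩ := exists_rat_btwn hlt
    obtain ⟨q₂, h3, h4⟩ := exists_rat_btwn h2
    have h5 := hx (q₁, q₂) h3
    simp only [Avoid, mem_ofPred_eq, not_and, not_forall, not_not] at h5
    obtain ⟨m, hm⟩ := h5 (nontors_iff.2 hirr)
    rw [max_lt_iff] at h1
    rw [lt_min_iff] at h4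
    rw [← coe_pow_mul, mem_arc h1.1.le h4.1.le] at hm
    refine ⟨_, ⟨m, rfl⟩, ?_⟩
    rw [Real.dist_eq, abs_lt]
    constructor <;> linarith [hm.1, hm.2, h1.2, h4.2]

end Pool.Agent.Lib.MP_c9a594_an
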