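import Mathlib

/-! Generic choice of `n + 1` vectors whose maximal minors have no common prime factor. -/

namespace Pool.Agent.Lib.MP_c9a594_an

/-- Finitely many subspaces, none containing `L`, do not cover `L`. -/
theorem bert_avoid {M : Type} [AddCommGroup M] [Module ℚ M] (L : Submodule ℚ M)
    (S : Set (Submodule ℚ M)) (hS : S.Finite) (h : ∀ B ∈ S, ∃ y ∈ L, y ∉ B) :
    ∃ y ∈ L, ∀ B ∈ S, y ∉ B := by
  classical
  have hne : (⊤ : Submodule ℚ L) ∉ (hS.toFinset.image (fun B => B.comap L.subtype)) := by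
    intro hmem
    rw [Finset.mem_image] at hmem
    obtain ⟨B, hB, hB'⟩ := hmem
    obtain ⟨y, hy, hyB⟩ := h B (hS.mem_toFinset.1 hB)
    have : (⟨y, hy⟩ : L) ∈ B.comap L.subtype := by rw [hB']; trivial
    exact hyB this
  have h2 := Subspace.biUnion_ne_univ_of_top_notMem hne
  obtain ⟨y, hy⟩ := (Set.ne_univ_iff_exists_notMem _).1 h2
  refine ⟨y, y.2, fun B hB hyB => hy ?_⟩
  simp only [Set.mem_iUnion]
  exact ⟨B.comap L.subtype, Finset.mem_image.2 ⟨B, hS.mem_toFinset.2 hB, rfl⟩, hyB⟩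

/-- A line not contained in any of finitely many subspaces has a point outside all of them. -/
theorem bert_line {M : Type} [AddCommGroup M] [Module ℚ M]
    (S : Set (Submodule ℚ M)) (hS : S.Finite) (b y : M) (h : ∀ B ∈ S, b ∉ B ∨ y ∉ B) :
    ∃ t : ℚ, ∀ B ∈ S, b + t • y ∉ B := by
  have hfin : (⋃ B ∈ S, {t : ℚ | b + t • y ∈ B}).Finite := by
    refine hS.biUnion fun B hB => Set.Subsingleton.finite ?_
    intro s hs t ht
    by_contra hst
    have h1 : (s - t) • y ∈ B := by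
      have := B.sub_mem hs ht
      rwa [add_sub_add_left_eq_sub, ← sub_smul] at this
    have hy : y ∈ B := by
      have := B.smul_mem (s - t)⁻¹ h1
      rwa [smul_smul, inv_mul_cancel₀ (sub_ne_zero.2 hst), one_smul] at this
    have hb : b ∈ B := by
      have := B.sub_mem hs (B.smul_mem s hy)
      rwa [add_sub_cancel_right] at this
    rcases h B hB with h' | h'
    · exact h' hb
    · exact h' hy
  obtain ⟨t, ht⟩ := hfin.exists_notMem
  refine ⟨t, fun B hB hm => ht ?_⟩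
  simp only [Set.mem_iUnion]
  exact ⟨B, hB, hm⟩

theorem bert_affine {M : Type} [AddCommGroup M] [Module ℚ M] (L : Submodule ℚ M)
    (S : Set (Submodule ℚ M)) (hS : S.Finite) (h : ∀ B ∈ S, ∃ y ∈ L, y ∉ B) (b : M) :
    ∃ z, z - b ∈ L ∧ ∀ B ∈ S, z ∉ B := by
  obtain ⟨y, hy, hyS⟩ := bert_avoid L S hS h
  obtain ⟨t, ht⟩ := bert_line S hS b y fun B hB => Or.inr (hyS B hB)
  refine ⟨b + t • y, ?_, ht⟩
  rw [add_sub_cancel_left]
  exact L.smul_mem t hy

/-- The multiples of `π`, as a rational subspace. -/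
def bert_pr {R : Type} [CommRing R] [Algebra ℚ R] (π : R) : Submodule ℚ R :=
  (Ideal.span {π}).restrictScalars ℚ

theorem bert_mem_pr {R : Type} [CommRing R] [Algebra ℚ R] (π r : R) :
    r ∈ bert_pr π ↔ π ∣ r := by
  unfold bert_pr
  rw [Submodule.restrictScalars_mem, Ideal.mem_span_singleton]

theorem bert_fin {R : Type} [CommRing R] [IsDomain R] [UniqueFactorizationMonoid R] [Algebra ℚ R]
    (P : Set R) (hP : ∀ π ∈ P, Prime π) (d : R) (hd : d ≠ 0) :
    {C : Submodule ℚ R | ∃ π ∈ P, π ∣ d ∧ C = bert_pr π}.Finite := by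
  classical
  refine ((UniqueFactorizationMonoid.factors d).toFinset.finite_toSet.image bert_pr).subset ?_
  rintro C ⟨π, hπ, hπd, rfl⟩
  obtain ⟨q, hq, hq'⟩ :=
    UniqueFactorizationMonoid.exists_mem_factors_of_dvd hd (hP π hπ).irreducible hπd
  refine ⟨q, by simpa using hq, ?_⟩
  unfold bert_pr
  rw [Ideal.span_singleton_eq_span_singleton.2 hq']

section Steps

variable {R M : Type} [CommRing R] [Algebra ℚ R]
  [AddCommGroup M] [Module R M] [Module ℚ M] [IsScalarTower ℚ R M] {n : ℕ}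

/-- `x` agrees with `Z` below slot `i` and lies in `L` from slot `i` on. -/
def bert_Comp (L : Submodule ℚ M) (Z : Fin n → M) (i : ℕ) (x : Fin n → M) : Prop :=
  (∀ j : Fin n, (j : ℕ) < i → x j = Z j) ∧ (∀ j : Fin n, i ≤ (j : ℕ) → x j ∈ L)

theorem bert_smul (D : M [⋀^Fin n]→ₗ[R] R) (x : Fin n → M) (i : Fin n) (t : ℚ) (z : M) :
    D (Function.update x i (t • z)) = t • D (Function.update x i z) := by
  rw [← algebraMap_smul R t z, D.map_update_smul, algebraMap_smul]

/-- The vectors `z` with `D (update x i z) ∈ C`. -/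
def bert_slot (D : M [⋀^Fin n]→ₗ[R] R) (x : Fin n → M) (i : Fin n) (C : Submodule ℚ R) :
    Submodule ℚ M where
  carrier := {z | D (Function.update x i z) ∈ C}
  add_mem' := by
    intro a b ha hb
    simp only [Set.mem_ofPred_eq] at ha hb ⊢
    rw [D.map_update_add]
    exact C.add_mem ha hb
  zero_mem' := by
    simp only [Set.mem_ofPred_eq]
    rw [D.map_update_zero]
    exact C.zero_mem
  smul_mem' := by
    intro t z hz
    simp only [Set.mem_ofPred_eq] at hz ⊢
    rw [bert_smul]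
    exact C.smul_mem t hz

theorem bert_mem_slot (D : M [⋀^Fin n]→ₗ[R] R) (x : Fin n → M) (i : Fin n) (C : Submodule ℚ R)
    (z : M) : z ∈ bert_slot D x i C ↔ D (Function.update x i z) ∈ C := Iff.rfl

/-- The vectors that are bad in slot `i` for every completion. -/
def bert_Bad (D : M [⋀^Fin n]→ₗ[R] R) (L : Submodule ℚ M) (Z : Fin n → M) (i : Fin n)
    (C : Submodule ℚ R) : Submodule ℚ M :=
  ⨅ x : {x : Fin n → M // bert_Comp L Z i x}, bert_slot D x.1 i C

theorem bert_mem_Bad (D : M [⋀^Fin n]→ₗ[R] R) (L : Submodule ℚ M) (Z : Fin n → M) (i : Fin n)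
    (C : Submodule ℚ R) (z : M) :
    z ∈ bert_Bad D L Z i C ↔ ∀ x, bert_Comp L Z i x → D (Function.update x i z) ∈ C := by
  unfold bert_Bad
  rw [Submodule.mem_iInf]
  exact ⟨fun h x hx => h ⟨x, hx⟩, fun h x => h x.1 x.2⟩

/-- The invariant for a subspace `C`. -/
def bert_Inv (D : M [⋀^Fin n]→ₗ[R] R) (L : Submodule ℚ M) (Z : Fin n → M) (i : ℕ)
    (C : Submodule ℚ R) : Prop :=
  ∃ x, bert_Comp L Z i x ∧ D x ∉ C

theorem bert_proper (D : M [⋀^Fin n]→ₗ[R] R) (L : Submodule ℚ M) (Z : Fin n → M) (i : Fin n)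
    (C : Submodule ℚ R) (h : bert_Inv D L Z i C) : ∃ y ∈ L, y ∉ bert_Bad D L Z i C := by
  obtain ⟨x, hx, hxC⟩ := h
  refine ⟨x i, hx.2 i le_rfl, fun hm => hxC ?_⟩
  have := (bert_mem_Bad D L Z i C _).1 hm x hx
  rwa [Function.update_eq_self] at this

theorem bert_next (D : M [⋀^Fin n]→ₗ[R] R) (L : Submodule ℚ M) (Z : Fin n → M) (i : Fin n)
    (C : Submodule ℚ R) (z : M) (h : z ∉ bert_Bad D L Z i C) :
    bert_Inv D L (Function.update Z i z) (i + 1) C := by
  rw [bert_mem_Bad] at h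
  push Not at h
  obtain ⟨x, hx, hxC⟩ := h
  refine ⟨Function.update x i z, ⟨fun j hj => ?_, fun j hj => ?_⟩, hxC⟩
  · by_cases hji : j = i
    · subst hji
      simp
    · rw [Function.update_of_ne hji, Function.update_of_ne hji]
      refine hx.1 j ?_
      have : (j : ℕ) ≠ i := fun h' => hji (Fin.ext h')
      omega
  · have hji : j ≠ i := by
      rintro rfl
      omega
    rw [Function.update_of_ne hji]
    exact hx.2 j (by omega)

theorem bert_strong [IsDomain R] [UniqueFactorizationMonoid R]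
    (D : M [⋀^Fin n]→ₗ[R] R) (L : Submodule ℚ M) (P : Set R) (hP : ∀ π ∈ P, Prime π)
    (T : Set (Submodule ℚ R)) (hT : T.Finite) (hbot : ⊥ ∈ T) (Z : Fin n → M) (i : Fin n)
    (hi : (i : ℕ) + 1 < n) (hTi : ∀ C ∈ T, bert_Inv D L Z i C)
    (hPi : ∀ π ∈ P, bert_Inv D L Z i (bert_pr π)) (b : M) :
    ∃ z, z - b ∈ L ∧ (∀ C ∈ T, z ∉ bert_Bad D L Z i C) ∧
      ∀ π ∈ P, z ∉ bert_Bad D L Z i (bert_pr π) := by
  obtain ⟨b', hb', hb'B⟩ := bert_affine L {bert_Bad D L Z i ⊥} (Set.finite_singleton _)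
    (fun B hB => by
      rw [Set.mem_singleton_iff] at hB
      subst hB
      exact bert_proper D L Z i ⊥ (hTi ⊥ hbot)) b
  have hb'B := hb'B _ rfl
  rw [bert_mem_Bad] at hb'B
  push Not at hb'B
  obtain ⟨x1, hx1, hd1⟩ := hb'B
  rw [Submodule.mem_bot] at hd1
  let j : Fin n := ⟨i + 1, hi⟩
  have hji : j ≠ i := by
    intro h
    have := congrArg Fin.val h
    simp only [j] at this
    omega
  have hij : (i : ℕ) ≤ j := by simp only [j]; omega
  obtain ⟨y, hy, hyS⟩ := bert_avoid L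
    (insert (bert_slot D (Function.update x1 i b') j ⊥) (bert_Bad D L Z i ''
      (T ∪ {C : Submodule ℚ R | ∃ π ∈ P, π ∣ D (Function.update x1 i b') ∧ C = bert_pr π})))
    (((hT.union (bert_fin P hP _ hd1)).image _).insert _) (by
      rintro B (rfl | ⟨C, hC | ⟨π, hπ, -, rfl⟩, rfl⟩)
      · refine ⟨x1 j, hx1.2 j hij, fun hm => hd1 ?_⟩
        rw [bert_mem_slot, Submodule.mem_bot] at hm
        have he : x1 j = Function.update x1 i b' j := (Function.update_of_ne hji _ _).symm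
        rwa [he, Function.update_eq_self] at hm
      · exact bert_proper D L Z i C (hTi C hC)
      · exact bert_proper D L Z i _ (hPi π hπ))
  have hd2 : D (Function.update (Function.update x1 i b') j y) ≠ 0 := by
    have := hyS _ (Set.mem_insert _ _)
    rwa [bert_mem_slot, Submodule.mem_bot] at this
  obtain ⟨t, ht⟩ := bert_line (bert_Bad D L Z i ''
      (T ∪ {C : Submodule ℚ R | ∃ π ∈ P,
        π ∣ D (Function.update (Function.update x1 i b') j y) ∧ C = bert_pr π}))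
    ((hT.union (bert_fin P hP _ hd2)).image _) b' y (by
      rintro B ⟨C, hC | ⟨π, hπ, -, rfl⟩, rfl⟩
      · exact Or.inr (hyS _ (Set.mem_insert_of_mem _ ⟨C, Or.inl hC, rfl⟩))
      · by_cases hb : b' ∈ bert_Bad D L Z i (bert_pr π)
        · refine Or.inr (hyS _ (Set.mem_insert_of_mem _ ⟨_, Or.inr ⟨π, hπ, ?_, rfl⟩, rfl⟩))
          exact (bert_mem_pr _ _).1 ((bert_mem_Bad D L Z i _ _).1 hb x1 hx1)
        · exact Or.inl hb)
  refine ⟨b' + t • y, ?_, fun C hC => ht _ ⟨C, Or.inl hC, rfl⟩, fun π hπ hm => ?_⟩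
  · have : b' + t • y - b = (b' - b) + t • y := by abel
    rw [this]
    exact L.add_mem hb' (L.smul_mem t hy)
  · refine ht _ ⟨_, Or.inr ⟨π, hπ, ?_, rfl⟩, rfl⟩ hm
    have hc : bert_Comp L Z i (Function.update x1 j y) := by
      refine ⟨fun k hk => ?_, fun k hk => ?_⟩
      · have hkj : k ≠ j := by
          rintro rfl
          omega
        rw [Function.update_of_ne hkj]
        exact hx1.1 k hk
      · by_cases hkj : k = j
        · subst hkj
          simpa using hy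
        · rw [Function.update_of_ne hkj]
          exact hx1.2 k hk
    have h1 := (bert_mem_pr _ _).1 ((bert_mem_Bad D L Z i _ _).1 hm _ hc)
    have h2 : D (Function.update (Function.update x1 j y) i y) = 0 := by
      refine D.map_eq_zero_of_eq _ (i := i) (j := j) ?_ hji.symm
      rw [Function.update_self, Function.update_of_ne hji, Function.update_self]
    rwa [D.map_update_add, bert_smul, h2, smul_zero, add_zero,
      Function.update_comm hji] at h1

theorem bert_stage [IsDomain R] [UniqueFactorizationMonoid R]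
    (D : M [⋀^Fin n]→ₗ[R] R) (L : Submodule ℚ M) (P : Set R) (hP : ∀ π ∈ P, Prime π)
    (T : Set (Submodule ℚ R)) (hT : T.Finite) (hbot : ⊥ ∈ T)
    (hT0 : ∀ C ∈ T, ∃ x : Fin n → M, (∀ i, x i ∈ L) ∧ D x ∉ C)
    (hP0 : ∀ π ∈ P, ∃ x : Fin n → M, (∀ i, x i ∈ L) ∧ ¬ π ∣ D x) (b : Fin n → M) (i : ℕ)
    (hi : i < n) :
    ∃ Z : Fin n → M, (∀ j : Fin n, (j : ℕ) < i → Z j - b j ∈ L) ∧ (∀ C ∈ T, bert_Inv D L Z i C) ∧
      ∀ π ∈ P, bert_Inv D L Z i (bert_pr π) := by
  induction i with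
  | zero =>
    refine ⟨b, fun j hj => absurd hj (Nat.not_lt_zero _), fun C hC => ?_, fun π hπ => ?_⟩
    · obtain ⟨x, hx, hxC⟩ := hT0 C hC
      exact ⟨x, ⟨fun j hj => absurd hj (Nat.not_lt_zero _), fun j _ => hx j⟩, hxC⟩
    · obtain ⟨x, hx, hxC⟩ := hP0 π hπ
      exact ⟨x, ⟨fun j hj => absurd hj (Nat.not_lt_zero _), fun j _ => hx j⟩,
        fun h => hxC ((bert_mem_pr _ _).1 h)⟩
  | succ i ih =>
    obtain ⟨Z, hZ, hZT, hZP⟩ := ih (by omega)
    let k : Fin n := ⟨i, by omega⟩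
    obtain ⟨z, hz, hzT, hzP⟩ := bert_strong D L P hP T hT hbot Z k hi hZT hZP (b k)
    refine ⟨Function.update Z k z, fun j hj => ?_, fun C hC => bert_next D L Z k C z (hzT C hC),
      fun π hπ => bert_next D L Z k _ z (hzP π hπ)⟩
    by_cases hjk : j = k
    · subst hjk
      simpa using hz
    · rw [Function.update_of_ne hjk]
      refine hZ j ?_
      have : (j : ℕ) ≠ i := fun h' => hjk (Fin.ext h')
      omega

end Steps

theorem bertini {R M : Type} [CommRing R] [IsDomain R] [UniqueFactorizationMonoid R] [Algebra ℚ R]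
    [AddCommGroup M] [Module R M] [Module ℚ M] [IsScalarTower ℚ R M] {n : ℕ}
    (D : M [⋀^Fin n]→ₗ[R] R) (L : Submodule ℚ M) (P : Set R) (hP : ∀ π ∈ P, Prime π)
    (hD : ∀ π ∈ P, ∃ x : Fin n → M, (∀ i, x i ∈ L) ∧ ¬ π ∣ D x)
    {A : Type} [Finite A] (C : A → Submodule ℚ R)
    (hC : ∀ a, ∃ x : Fin n → M, (∀ i, x i ∈ L) ∧ D x ∉ C a)
    (h0 : ∃ x : Fin n → M, (∀ i, x i ∈ L) ∧ D x ≠ 0) (b : Fin n → M) :
    ∃ (Z : Fin n → M) (Z0 : M), (∀ i, Z i - b i ∈ L) ∧ Z0 ∈ L ∧ D Z ≠ 0 ∧ (∀ a, D Z ∉ C a) ∧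
      ∀ π ∈ P, π ∣ D Z → ∃ i, ¬ π ∣ D (Function.update Z i Z0) := by
  rcases n with _ | m
  · refine ⟨b, 0, fun i => i.elim0, L.zero_mem, ?_, fun a => ?_, fun π hπ hd => ?_⟩
    · obtain ⟨x, -, hx⟩ := h0
      rwa [Subsingleton.elim b x]
    · obtain ⟨x, -, hx⟩ := hC a
      rwa [Subsingleton.elim b x]
    · obtain ⟨x, -, hx⟩ := hD π hπ
      rw [Subsingleton.elim b x] at hd
      exact absurd hd hx
  have hT : (insert ⊥ (Set.range C) : Set (Submodule ℚ R)).Finite := (Set.finite_range C).insert _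
  obtain ⟨Z, hZ, hZT, hZP⟩ := bert_stage D L P hP (insert ⊥ (Set.range C)) hT
    (Set.mem_insert _ _) (by
      rintro B (rfl | ⟨a, rfl⟩)
      · obtain ⟨x, hx, hx0⟩ := h0
        exact ⟨x, hx, fun h => hx0 ((Submodule.mem_bot ℚ).1 h)⟩
      · exact hC a) hD b m (Nat.lt_succ_self m)
  have key : ∀ (x : Fin (m + 1) → M) (z : M), bert_Comp L Z (Fin.last m : Fin (m + 1)) x →
      Function.update x (Fin.last m) z = Function.update Z (Fin.last m) z := by
    intro x z hx
    funext j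
    by_cases hj : j = Fin.last m
    · subst hj
      simp
    · rw [Function.update_of_ne hj, Function.update_of_ne hj]
      exact hx.1 j (Fin.val_lt_last hj)
  have key2 : ∀ (B : Submodule ℚ R) (z : M), z ∉ bert_Bad D L Z (Fin.last m) B →
      D (Function.update Z (Fin.last m) z) ∉ B := by
    intro B z hz hm
    refine hz ((bert_mem_Bad D L Z _ B z).2 fun x hx => ?_)
    rwa [key x z hx]
  obtain ⟨z, hz, hzT⟩ := bert_affine L (bert_Bad D L Z (Fin.last m) '' insert ⊥ (Set.range C))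
    (hT.image _) (by
      rintro B ⟨B', hB', rfl⟩
      exact bert_proper D L Z (Fin.last m) B' (hZT B' hB')) (b (Fin.last m))
  have hd : D (Function.update Z (Fin.last m) z) ≠ 0 := fun h =>
    key2 ⊥ z (hzT _ ⟨⊥, Set.mem_insert _ _, rfl⟩) ((Submodule.mem_bot ℚ).2 h)
  obtain ⟨Z0, hZ0, hZ0S⟩ := bert_avoid L (bert_Bad D L Z (Fin.last m) ''
      {B : Submodule ℚ R | ∃ π ∈ P, π ∣ D (Function.update Z (Fin.last m) z) ∧ B = bert_pr π})
    ((bert_fin P hP _ hd).image _) (by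
      rintro B ⟨B', ⟨π, hπ, -, rfl⟩, rfl⟩
      exact bert_proper D L Z (Fin.last m) _ (hZP π hπ))
  refine ⟨Function.update Z (Fin.last m) z, Z0, fun j => ?_, hZ0, hd,
    fun a => key2 _ z (hzT _ ⟨C a, Set.mem_insert_of_mem _ ⟨a, rfl⟩, rfl⟩),
    fun π hπ hπd => ⟨Fin.last m, fun h => ?_⟩⟩
  · by_cases hj : j = Fin.last m
    · subst hj
      simpa using hz
    · rw [Function.update_of_ne hj]
      exact hZ j (Fin.val_lt_last hj)
  · rw [Function.update_idem] at h
    exact key2 _ Z0 (hZ0S _ ⟨_, ⟨π, hπ, hπd, rfl⟩, rfl⟩) ((bert_mem_pr _ _).2 h)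

end Pool.Agent.Lib.MP_c9a594_an
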