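import Pool.Agent.Lib.MP_c9a594_an.Abs

/-! The abstract setting of the sharp two-base theorem. -/

open MvPolynomial Finset

namespace Pool.Agent.Lib.MP_c9a594_an

/-- A `Ctx` with independent units `g`, a ring `A` of integers and modules `B v β` of elements of
growth rate at most `β` at the place `v`. -/
structure Ctx2 (K Pl : Type) [Field K] [CharZero K] [Fintype Pl] (r : ℕ) extends Ctx K Pl where
  g : Fin r → K
  A : Subalgebra ℚ K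
  B : Pl → ℝ → Submodule ℚ K
  g_A : ∀ i, g i ∈ A
  sum_g : ∀ i, ∑ v, ord v (g i) = 0
  inj : ∀ F : MvPolynomial (Fin r) ℚ, aeval g F = 0 → F = 0
  mem_O : ∀ z ∈ A, z ≠ 0 → z ∈ O
  one_B : ∀ v, 1 ∈ B v 0
  g_B : ∀ v i, g i ∈ B v (ord v (g i))
  mul_B : ∀ v β β', ∀ z ∈ B v β, ∀ z' ∈ B v β', z * z' ∈ B v (β + β')
  B_mono : ∀ v, Monotone (B v)
  ord_le : ∀ v β, ∀ z ∈ A, z ≠ 0 → z ∈ B v β → ord v z ≤ β
  exists_B : ∀ v, ∀ z ∈ A, ∃ β, z ∈ B v β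
  div_B : ∀ v β β', ∀ w ∈ A, w ≠ 0 → w ∈ B v β → ord v w = β →
    ∀ z, w * z ∈ B v (β + β') → z ∈ B v β'
  sep : ∃ m : Option Pl → Fin r →₀ ℕ, ∀ v c, c ≠ some v →
    toCtx.wt g v (m c) < toCtx.wt g v (m (some v))

end Pool.Agent.Lib.MP_c9a594_an
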