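import Mathlib

/-! Copy dimension of a digit expansion. -/

open Filter

namespace Pool.Agent.Lib.MP_c9a594_an

/-- The first `N` letters of `u` are generated from `n` free base `a` digits by `M` copy
operations: there is a word `v` that starts with `n` arbitrary digits and continues with
`u 0, …, u (N - 1)`, and the part of `v` after the free digits is covered by `M` consecutive
intervals `[p m, p (m + 1))`, each of which repeats the letters `d m ≥ 1` places earlier in `v`. -/
def CopyGen (a : ℕ) (u : ℕ → ℤ) (n N M : ℕ) : Prop :=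
  ∃ (v : ℕ → ℤ) (p d : ℕ → ℕ), (∀ k < n, 0 ≤ v k ∧ v k < a) ∧ (∀ k < N, v (n + k) = u k) ∧
    p 0 = n ∧ n + N ≤ p M ∧
    ∀ m < M, 0 < d m ∧ d m ≤ p m ∧ ∀ k, p m ≤ k → k < p (m + 1) → v k = v (k - d m)

/-- The copy dimension of `x` in base `a`: the infimum of the `s ≥ 0` such that, for some `M` and
all large `N`, the first `N` digits of `x` are generated from `⌊s N⌋` free digits by `M` copy
operations. -/
noncomputable def copyDim (a : ℕ) (x : ℝ) : ℝ :=
  sInf {s : ℝ | 0 ≤ s ∧ ∃ M : ℕ, ∀ᶠ N : ℕ in atTop,
    CopyGen a (fun k => ⌊(a : ℝ) * Int.fract ((a : ℝ) ^ k * x)⌋) ⌊s * N⌋₊ N M}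

/-- The overlap of two bases: the sum over the primes `p` of the smaller of the two shares
`v_p(a) log p / log a` and `v_p(b) log p / log b`. It is `0` for coprime bases. -/
noncomputable def overlap (a b : ℕ) : ℝ :=
  ∑ p ∈ (a * b).primeFactors,
    min (a.factorization p * Real.log p / Real.log a) (b.factorization p * Real.log p / Real.log b)

end Pool.Agent.Lib.MP_c9a594_an
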