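import Pool.Agent.Lib.MP_c9a594_an.SharpDefs
import Pool.Agent.Lib.MP_c9a594_an.Tame

/-! Copy-generated expansions in the ultrapower. -/

open Filter Topology Real Finset

namespace Pool.Agent.Lib.MP_c9a594_an

namespace H79R

/-- The value of the word of length `l` that starts at `t`, as a fraction. -/
def G (a : ℕ) (v : ℕ → ℤ) (t l : ℕ) : ℚ := ∑ j ∈ range l, (v (t + j) : ℚ) / a ^ (j + 1)

section Words

variable {a : ℕ} {v : ℕ → ℤ}

lemma G_zero (t : ℕ) : G a v t 0 = 0 := by simp [G]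

lemma G_add (t l l' : ℕ) :
    G a v t (l + l') = G a v t l + ((a : ℚ) ^ l)⁻¹ * G a v (t + l) l' := by
  unfold G
  rw [sum_range_add, mul_sum]
  congr 1
  refine sum_congr rfl fun j _ => ?_
  rw [add_assoc t, add_assoc l, pow_add, div_eq_mul_inv, div_eq_mul_inv, mul_inv]
  ring

lemma G_congr {v' : ℕ → ℤ} {t t' l : ℕ} (h : ∀ j < l, v (t + j) = v' (t' + j)) :
    G a v t l = G a v' t' l :=
  sum_congr rfl fun j hj => by rw [h j (mem_range.1 hj)]

lemma G_int (ha : 2 ≤ a) (h : ∀ k, 0 ≤ v k ∧ v k < a) (t l : ℕ) :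
    ∃ W : ℤ, 0 ≤ W ∧ W < (a : ℤ) ^ l ∧ G a v t l = ((a : ℚ) ^ l)⁻¹ * W := by
  induction l with
  | zero => exact ⟨0, le_rfl, by simp, by simp [G]⟩
  | succ l ih =>
    obtain ⟨W, h0, h1, h2⟩ := ih
    have ha0 : (a : ℚ) ≠ 0 := by positivity
    have ha1 : (0 : ℤ) ≤ a := by positivity
    refine ⟨a * W + v (t + l), add_nonneg (mul_nonneg ha1 h0) (h _).1, ?_, ?_⟩
    · have h3 := (h (t + l)).2
      have h4 : (a : ℤ) * (W + 1) ≤ a * a ^ l := mul_le_mul_of_nonneg_left h1 ha1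
      rw [pow_succ']
      linarith
    · unfold G at h2 ⊢
      rw [sum_range_succ, h2]
      push_cast
      field_simp
      ring

lemma G_shift {p δ t l : ℕ} (hδ : δ ≤ p) (ht : p ≤ t)
    (h : ∀ k, p ≤ k → k < t + l → v k = v (k - δ)) : G a v t l = G a v (t - δ) l :=
  G_congr fun j hj => by
    rw [h (t + j) (by omega) (by omega)]
    congr 1
    omega

lemma G_core {p δ : ℕ} (h0 : 0 < δ) (hδ : δ ≤ p) (l : ℕ)
    (h : ∀ k, p ≤ k → k < p + l → v k = v (k - δ)) :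
    ∃ j r, r ≤ δ ∧ j * δ ≤ l ∧ G a v p l =
      (∑ i ∈ range j, (((a : ℚ) ^ δ)⁻¹) ^ i) * G a v (p - δ) δ +
        (((a : ℚ) ^ δ)⁻¹) ^ j * G a v (p - δ) r := by
  induction l using Nat.strong_induction_on with
  | _ l ih =>
    rw [G_shift hδ le_rfl h]
    by_cases hl : l ≤ δ
    · exact ⟨0, l, hl, by simp, by simp⟩
    · obtain ⟨j, r, h1, h2, h3⟩ := ih (l - δ) (by omega) fun k hk hk' => h k hk (by omega)
      refine ⟨j + 1, r, h1, by rw [add_mul]; omega, ?_⟩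
      conv_lhs => rw [show l = δ + (l - δ) by omega, G_add, Nat.sub_add_cancel hδ, h3]
      rw [geom_sum_succ]
      ring

lemma G_dec {p δ : ℕ} (h0 : 0 < δ) (hδ : δ ≤ p) (l t : ℕ)
    (h : ∀ k, p ≤ k → k < t + l → v k = v (k - δ)) :
    ∃ x : ℕ × ℕ × ℕ × ℕ, x.1 + x.2.1 ≤ p ∧ x.2.2.2 ≤ δ ∧ x.2.1 + x.2.2.1 * δ ≤ l ∧ G a v t l =
      G a v x.1 x.2.1 + ((a : ℚ) ^ x.2.1)⁻¹ *
        ((∑ i ∈ range x.2.2.1, (((a : ℚ) ^ δ)⁻¹) ^ i) * G a v (p - δ) δ +
          ((a : ℚ) ^ (x.2.2.1 * δ))⁻¹ * G a v (p - δ) x.2.2.2) := by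
  induction t using Nat.strong_induction_on with
  | _ t ih =>
    by_cases ht : t ≤ p
    · by_cases hl : t + l ≤ p
      · exact ⟨(t, l, 0, 0), hl, by simp, by simp, by simp [G_zero]⟩
      · obtain ⟨j, r, h1, h2, h3⟩ := G_core (a := a) h0 hδ (t + l - p)
          fun k hk hk' => h k hk (by omega)
        refine ⟨(t, p - t, j, r), by simp only; omega, h1, by simp only; omega, ?_⟩
        conv_lhs => rw [show l = (p - t) + (t + l - p) by omega, G_add, Nat.add_sub_cancel' ht, h3]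
        simp only [inv_pow, ← pow_mul, mul_comm δ j]
    · rw [G_shift hδ (by omega) h]
      exact ih (t - δ) (by omega) fun k hk hk' => h k hk (by omega)

lemma G_blocks {L J t l : ℕ} (hL : 0 < L) (h : t + l ≤ J * L) :
    ∃ x : ℕ × ℕ × ℕ × ℕ, x.1 ≤ L ∧ x.2.2.2 ≤ L ∧ x.2.1 + x.2.2.1 ≤ J ∧ G a v t l =
      G a v t x.1 + ((a : ℚ) ^ x.1)⁻¹ * (G a v (x.2.1 * L) (x.2.2.1 * L) +
        ((a : ℚ) ^ (x.2.2.1 * L))⁻¹ * G a v ((x.2.1 + x.2.2.1) * L) x.2.2.2) := by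
  by_cases hl : l ≤ L
  · exact ⟨(l, 0, 0, 0), hl, by simp, by simp, by simp [G_zero]⟩
  · have h1 := Nat.mod_lt t hL
    have h2 := Nat.div_add_mod' t L
    set l1 := L - t % L with hl1
    have h3 := Nat.mod_lt (l - l1) hL
    have h4 := Nat.div_add_mod' (l - l1) L
    have h5 : t + l1 = (t / L + 1) * L := by rw [add_mul]; omega
    refine ⟨(l1, t / L + 1, (l - l1) / L, (l - l1) % L), by simp only; omega, h3.le, ?_, ?_⟩
    · refine Nat.le_of_mul_le_mul_right ?_ hL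
      simp only
      rw [add_mul, ← h5]
      omega
    · conv_lhs => rw [show l = l1 + ((l - l1) / L * L + (l - l1) % L) by omega, G_add, G_add, h5]
      simp only [add_mul]

end Words

variable {U : Ultrafilter ℕ} {q : ℕ → ℝ} {a : ℕ}

lemma ev_const {α : Type} (f : ℕ → α) {T : Set α} (hT : T.Finite)
    (h : ∀ᶠ k in U, f k ∈ T) : ∃ c ∈ T, ∀ᶠ k in U, f k = c := by
  obtain ⟨c, hcT, hc⟩ := Ultrafilter.eq_pure_of_finite_mem (f := U.map f) hT h
  have : {c} ∈ U.map f := by rw [hc]; simp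
  exact ⟨c, hcT, this⟩

lemma nat_lim (hq : Tendsto q U atTop) {m : ℕ → ℕ} {C : ℝ} (h : ∀ᶠ k in U, (m k : ℝ) ≤ C * q k) :
    ∃ η, 0 ≤ η ∧ Tendsto (fun k => (m k : ℝ) / q k) U (𝓝 η) := by
  have h0 := hq.eventually_gt_atTop 0
  obtain ⟨η, -, h1⟩ := exists_lim (U := U) (x := fun k => (m k : ℝ) / q k) (A := C) (by
    filter_upwards [h, h0] with k h1 h2
    rwa [abs_of_nonneg (by positivity), div_le_iff₀ h2])
  exact ⟨η, ge_of_tendsto h1 (h0.mono fun k hk => by positivity), h1⟩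

variable (U q a) in
/-- Subspaces that are stable under powers of `a` with exponents of nonpositive rate. -/
def Stab (B : Submodule ℚ (UP U)) : Prop :=
  ∀ (i : ℕ → ℤ) (ξ : ℝ), ξ ≤ 0 → Tendsto (fun k => (i k : ℝ) / q k) U (𝓝 ξ) →
    ∀ z ∈ B, germ U (fun k => (a : ℚ) ^ i k) * z ∈ B

variable (U q a) in
/-- The span of the powers of `a` with exponents of rate zero. -/
noncomputable def D0 : Submodule ℚ (UP U) :=
  Submodule.span ℚ {z : UP U | ∃ i : ℕ → ℤ,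
    Tendsto (fun k => (i k : ℝ) / q k) U (𝓝 0) ∧ z = germ U fun k => (a : ℚ) ^ i k}

variable (U q a) in
/-- Admissible denominators. -/
def DD (d : ℕ → ℤ) : Prop :=
  (∀ᶠ k in U, d k ≠ 0) ∧ (∀ ε > 0, ∀ᶠ k in U, |(d k : ℝ)| ≤ exp (ε * q k)) ∧
    germ U (fun k => d k) ∈ D0 U q a

variable (U q a) in
/-- The span of the words of a dictionary, moved by exponents of nonpositive rate. -/
noncomputable def Sp (F : Set (ℕ → ℤ)) : Submodule ℚ (UP U) :=
  Submodule.span ℚ {z : UP U | ∃ (i : ℕ → ℤ) (ξ : ℝ) (w : ℕ → ℤ), w ∈ F ∧ ξ ≤ 0 ∧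
    Tendsto (fun k => (i k : ℝ) / q k) U (𝓝 ξ) ∧ z = germ U fun k => (a : ℚ) ^ i k * w k}

lemma Stab.inv (hq : Tendsto q U atTop) {B : Submodule ℚ (UP U)} (hB : Stab U q a B) {m : ℕ → ℕ}
    {C : ℝ} (h : ∀ᶠ k in U, (m k : ℝ) ≤ C * q k) {z : UP U} (hz : z ∈ B) :
    germ U (fun k => ((a : ℚ) ^ m k)⁻¹) * z ∈ B := by
  obtain ⟨η, h0, h1⟩ := nat_lim hq h
  have := hB (fun k => -(m k : ℤ)) (-η) (by linarith) (by simpa [neg_div] using h1.neg) z hz
  simpa using this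

lemma Stab.d0 {B : Submodule ℚ (UP U)} (hB : Stab U q a B) {d z : UP U} (hd : d ∈ D0 U q a)
    (hz : z ∈ B) : d * z ∈ B := by
  induction hd using Submodule.span_induction with
  | mem x hx =>
    obtain ⟨i, h1, rfl⟩ := hx
    exact hB i 0 le_rfl h1 z hz
  | zero => simp
  | add x y _ _ h1 h2 => rw [add_mul]; exact B.add_mem h1 h2
  | smul c x _ h1 => rw [smul_mul_assoc]; exact B.smul_mem c h1

lemma lim_add {i i' : ℕ → ℤ} {ξ ξ' : ℝ} (h : Tendsto (fun k => (i k : ℝ) / q k) U (𝓝 ξ))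
    (h' : Tendsto (fun k => (i' k : ℝ) / q k) U (𝓝 ξ')) :
    Tendsto (fun k => ((i k + i' k : ℤ) : ℝ) / q k) U (𝓝 (ξ + ξ')) := by
  simpa [add_div] using h.add h'

lemma D0_mul (ha : 2 ≤ a) {d e : UP U} (hd : d ∈ D0 U q a) (he : e ∈ D0 U q a) :
    d * e ∈ D0 U q a := by
  have ha0 : (a : ℚ) ≠ 0 := by positivity
  induction hd using Submodule.span_induction with
  | mem x hx =>
    obtain ⟨i, h1, rfl⟩ := hx
    induction he using Submodule.span_induction with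
    | mem y hy =>
      obtain ⟨i', h2, rfl⟩ := hy
      refine Submodule.subset_span ⟨fun k => i k + i' k, by simpa using lim_add h1 h2, ?_⟩
      rw [← map_mul]
      congr 1
      ext k
      simp [zpow_add₀ ha0]
    | zero => simp
    | add x y _ _ h1 h2 => rw [mul_add]; exact add_mem h1 h2
    | smul c x _ h1 => rw [mul_smul_comm]; exact Submodule.smul_mem _ c h1
  | zero => simp
  | add x y _ _ h1 h2 => rw [add_mul]; exact add_mem h1 h2
  | smul c x _ h1 => rw [smul_mul_assoc]; exact Submodule.smul_mem _ c h1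

lemma one_mem_D0 : (1 : UP U) ∈ D0 U q a :=
  Submodule.subset_span ⟨0, by simp, by rw [← map_one (germ U)]; congr 1⟩

lemma DD_one (hq : Tendsto q U atTop) : DD U q a 1 := by
  refine ⟨by simp, fun ε hε => ?_, ?_⟩
  · filter_upwards [hq.eventually_ge_atTop 0] with k hk
    simpa using by positivity
  · convert one_mem_D0 (U := U) (q := q) (a := a)
    rw [← map_one (germ U)]
    congr 1

lemma DD.mul (ha : 2 ≤ a) {d e : ℕ → ℤ} (hd : DD U q a d) (he : DD U q a e) :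
    DD U q a (d * e) := by
  refine ⟨?_, fun ε hε => ?_, ?_⟩
  · filter_upwards [hd.1, he.1] with k h1 h2
    exact mul_ne_zero h1 h2
  · filter_upwards [hd.2.1 (ε / 2) (by positivity), he.2.1 (ε / 2) (by positivity)] with k h1 h2
    rw [Pi.mul_apply, Int.cast_mul, abs_mul, show ε * q k = ε / 2 * q k + ε / 2 * q k by ring,
      exp_add]
    exact mul_le_mul h1 h2 (abs_nonneg _) (exp_pos _).le
  · convert D0_mul ha hd.2.2 he.2.2
    rw [← map_mul]
    congr 1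
    ext k
    simp

lemma Sp_stab (ha : 2 ≤ a) (F : Set (ℕ → ℤ)) : Stab U q a (Sp U q a F) := by
  have ha0 : (a : ℚ) ≠ 0 := by positivity
  intro i ξ hξ hi z hz
  induction hz using Submodule.span_induction with
  | mem y hy =>
    obtain ⟨i', ξ', w, h1, h2, h3, rfl⟩ := hy
    refine Submodule.subset_span ⟨fun k => i k + i' k, ξ + ξ', w, h1, by linarith,
      lim_add hi h3, ?_⟩
    rw [← map_mul]
    congr 1
    ext k
    simp [zpow_add₀ ha0, mul_assoc]
  | zero => simp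
  | add x y _ _ h1 h2 => rw [mul_add]; exact add_mem h1 h2
  | smul c x _ h1 => rw [mul_smul_comm]; exact Submodule.smul_mem _ c h1

lemma Sp_mono {F F' : Set (ℕ → ℤ)} (h : F ⊆ F') : Sp U q a F ≤ Sp U q a F' :=
  Submodule.span_mono fun _ ⟨i, ξ, w, h1, h2⟩ => ⟨i, ξ, w, h h1, h2⟩

lemma mem_Sp {F : Set (ℕ → ℤ)} {w : ℕ → ℤ} (h : w ∈ F) : germ U (fun k => w k) ∈ Sp U q a F :=
  Submodule.subset_span ⟨0, 0, w, h, le_rfl, by simp, by simp⟩

lemma geom (hq : Tendsto q U atTop) (ha : 2 ≤ a) {B : Submodule ℚ (UP U)} (hB : Stab U q a B)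
    {δ : ℕ → ℕ} {C : ℝ} (h0 : ∀ᶠ k in U, 0 < δ k) (hδ : ∀ᶠ k in U, (δ k : ℝ) ≤ C * q k) :
    ∃ e, DD U q a e ∧ ∀ j : ℕ → ℕ, (∀ᶠ k in U, ((j k * δ k : ℕ) : ℝ) ≤ C * q k) → ∀ z ∈ B,
      germ U (fun k => e k) * germ U (fun k => ∑ i ∈ range (j k), (((a : ℚ) ^ δ k)⁻¹) ^ i) * z
        ∈ B := by
  obtain ⟨η, h1, h2⟩ := nat_lim hq hδ
  have hq0 := hq.eventually_gt_atTop 0
  have ha0 : (a : ℚ) ≠ 0 := by positivity
  rcases h1.eq_or_lt with rfl | h1
  · have h3 : Tendsto (fun k => ((δ k : ℤ) : ℝ) / q k) U (𝓝 0) := by simpa using h2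
    refine ⟨fun k => a ^ δ k - 1, ⟨?_, fun ε hε => ?_, ?_⟩, fun j hj z hz => ?_⟩
    · filter_upwards [h0] with k hk
      have : (1 : ℤ) < a ^ δ k := one_lt_pow₀ (by omega) hk.ne'
      omega
    · have hla : 0 < log a := log_pos (by exact_mod_cast ha)
      filter_upwards [h2.eventually (gt_mem_nhds (div_pos hε hla)), hq0] with k hk hk'
      rw [div_lt_div_iff₀ hk' hla] at hk
      have h4 : (1 : ℝ) ≤ a ^ δ k := one_le_pow₀ (by exact_mod_cast (by omega : 1 ≤ a))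
      push_cast
      rw [abs_of_nonneg (by linarith)]
      calc (a : ℝ) ^ δ k - 1 ≤ exp (δ k * log a) := by
            rw [exp_nat_mul, exp_log (by positivity)]; linarith
        _ ≤ _ := exp_le_exp.2 hk.le
    · have h4 : germ U (fun k => (a : ℚ) ^ (δ k : ℤ)) ∈ D0 U q a :=
        Submodule.subset_span ⟨_, h3, rfl⟩
      convert sub_mem h4 one_mem_D0
      rw [← map_one (germ U), ← map_sub]
      congr 1
      ext k
      simp
    · convert hB _ 0 le_rfl h3 _ (sub_mem hz (hB.inv hq hj hz)) using 1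
      rw [← one_sub_mul, ← mul_assoc, ← map_one (germ U), ← map_sub, ← map_mul, ← map_mul]
      congr 2
      ext k
      have h4 := mul_neg_geom_sum (((a : ℚ) ^ δ k)⁻¹) (j k)
      simp only [Pi.mul_apply, Pi.sub_apply, Pi.one_apply, zpow_natCast]
      rw [mul_comm (j k), pow_mul, ← inv_pow _ (j k), ← h4, ← mul_assoc]
      push_cast
      congr 1
      field_simp
  · refine ⟨1, DD_one hq, fun j hj z hz => ?_⟩
    obtain ⟨J, -, hJ⟩ := ev_const (U := U) j (Set.finite_Iic ⌈C / (η / 2)⌉₊) (by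
      filter_upwards [h2.eventually (lt_mem_nhds (half_lt_self h1)), hq0, hj] with k h3 h4 h5
      rw [lt_div_iff₀ h4] at h3
      have h6 : (j k : ℝ) ≤ C / (η / 2) := by
        rw [le_div_iff₀ (by positivity)]
        refine le_of_mul_le_mul_right ?_ h4
        push_cast at h5
        rw [mul_assoc]
        exact (mul_le_mul_of_nonneg_left h3.le (by positivity)).trans h5
      exact_mod_cast h6.trans (Nat.le_ceil _))
    have e1 : germ U (fun k => (1 : ℕ → ℤ) k) *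
        germ U (fun k => ∑ i ∈ range (j k), (((a : ℚ) ^ δ k)⁻¹) ^ i) =
        ∑ i ∈ range J, germ U (fun k => ((a : ℚ) ^ (i * δ k))⁻¹) := by
      rw [germ_sum, ← map_mul, germ_eq]
      filter_upwards [hJ] with k hk
      simp [hk, ← pow_mul, mul_comm]
    rw [e1, sum_mul]
    refine sum_mem fun i hi => hB.inv hq (C := C) ?_ hz
    filter_upwards [hJ, hj] with k h3 h4
    refine le_trans ?_ h4
    exact_mod_cast Nat.mul_le_mul_right _ (h3 ▸ (mem_range.1 hi).le)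

lemma step (hq : Tendsto q U atTop) (ha : 2 ≤ a) {B : Submodule ℚ (UP U)} (hB : Stab U q a B)
    {v : ℕ → ℕ → ℤ} {p p' δ T : ℕ → ℕ} {C : ℝ} (hT : ∀ᶠ k in U, (T k : ℝ) ≤ C * q k)
    (hper : ∀ᶠ k in U, 0 < δ k ∧ δ k ≤ p k ∧ ∀ x, p k ≤ x → x < p' k → v k x = v k (x - δ k))
    (hG : ∀ t l : ℕ → ℕ, (∀ᶠ k in U, t k + l k ≤ p k ∧ t k + l k ≤ T k) →
      germ U (fun k => G a (v k) (t k) (l k)) ∈ B) :
    ∃ e, DD U q a e ∧ ∀ t l : ℕ → ℕ, (∀ᶠ k in U, t k + l k ≤ p' k ∧ t k + l k ≤ T k) →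
      germ U (fun k => e k) * germ U (fun k => G a (v k) (t k) (l k)) ∈ B := by
  have hle : ∀ {m : ℕ → ℕ}, (∀ᶠ k in U, m k ≤ T k) → ∀ᶠ k in U, (m k : ℝ) ≤ C * q k := fun h => by
    filter_upwards [h, hT] with k h1 h2
    exact le_trans (by exact_mod_cast h1) h2
  rcases U.em fun k => p k ≤ T k with hp | hp
  swap
  · refine ⟨1, DD_one hq, fun t l h => hB.d0 (DD_one hq).2.2 (hG t l ?_)⟩
    filter_upwards [h, hp] with k h1 h2
    omega
  obtain ⟨e, he, h1⟩ := geom hq ha hB (δ := δ) (C := C) (hper.mono fun k hk => hk.1) (hle (by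
    filter_upwards [hper, hp] with k h1 h2
    omega))
  refine ⟨e, he, fun t l h => ?_⟩
  obtain ⟨x, hx⟩ := Filter.Eventually.choice (l := U) (r := fun k (x : ℕ × ℕ × ℕ × ℕ) =>
      x.1 + x.2.1 ≤ p k ∧ x.2.2.2 ≤ δ k ∧ x.2.1 + x.2.2.1 * δ k ≤ l k ∧ G a (v k) (t k) (l k) =
      G a (v k) x.1 x.2.1 + ((a : ℚ) ^ x.2.1)⁻¹ *
        ((∑ i ∈ range x.2.2.1, (((a : ℚ) ^ δ k)⁻¹) ^ i) * G a (v k) (p k - δ k) (δ k) +
          ((a : ℚ) ^ (x.2.2.1 * δ k))⁻¹ * G a (v k) (p k - δ k) x.2.2.2)) (by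
    filter_upwards [hper, h] with k h2 h3
    exact G_dec h2.1 h2.2.1 _ _ fun y h4 h5 => h2.2.2 y h4 (by omega))
  have h2 : ∀ᶠ k in U, (((x k).2.2.1 * δ k : ℕ) : ℝ) ≤ C * q k := hle (by
    filter_upwards [hx, h] with k h2 h3
    omega)
  have h3 := add_mem (hB.d0 he.2.2 (hG (fun k => (x k).1) (fun k => (x k).2.1) (by
      filter_upwards [hx, hp] with k h2 h3
      omega)))
    (hB.inv hq (m := fun k => (x k).2.1) (hle (by
      filter_upwards [hx, h] with k h2 h3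
      omega)) (add_mem (h1 _ h2 _ (hG (fun k => p k - δ k) δ (by
        filter_upwards [hper, hp] with k h2 h3
        omega)))
      (hB.d0 he.2.2 (hB.inv hq h2 (hG (fun k => p k - δ k) (fun k => (x k).2.2.2) (by
        filter_upwards [hper, hp, hx] with k h2 h3 h4
        omega))))))
  convert h3 using 1
  simp only [← map_mul, ← map_add]
  rw [germ_eq]
  filter_upwards [hx] with k hk
  simp only [Pi.mul_apply, Pi.add_apply]
  rw [hk.2.2.2]
  ring

lemma chain (hq : Tendsto q U atTop) (ha : 2 ≤ a) {B : Submodule ℚ (UP U)} (hB : Stab U q a B)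
    {v : ℕ → ℕ → ℤ} {p δ : ℕ → ℕ → ℕ} {T : ℕ → ℕ} {C : ℝ} (hT : ∀ᶠ k in U, (T k : ℝ) ≤ C * q k)
    (hG : ∀ t l : ℕ → ℕ, (∀ᶠ k in U, t k + l k ≤ p k 0 ∧ t k + l k ≤ T k) →
      germ U (fun k => G a (v k) (t k) (l k)) ∈ B) (M : ℕ)
    (hper : ∀ᶠ k in U, ∀ m < M, 0 < δ k m ∧ δ k m ≤ p k m ∧
      ∀ x, p k m ≤ x → x < p k (m + 1) → v k x = v k (x - δ k m)) :
    ∃ e, DD U q a e ∧ ∀ t l : ℕ → ℕ, (∀ᶠ k in U, t k + l k ≤ p k M ∧ t k + l k ≤ T k) →
      germ U (fun k => e k) * germ U (fun k => G a (v k) (t k) (l k)) ∈ B := by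
  induction M with
  | zero => exact ⟨1, DD_one hq, fun t l h => hB.d0 (DD_one hq).2.2 (hG t l h)⟩
  | succ M ih =>
    obtain ⟨d, hd, h1⟩ := ih (hper.mono fun k hk m hm => hk m (by omega))
    obtain ⟨e, he, h2⟩ := step hq ha (B := B.comap (LinearMap.mulLeft ℚ (germ U fun k => d k)))
      (fun i ξ h2 h3 z hz => by
        have := hB i ξ h2 h3 _ hz
        rw [Submodule.mem_comap, LinearMap.mulLeft_apply, mul_left_comm]
        exact this) hT (hper.mono fun k hk => hk M (by omega)) h1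
    refine ⟨d * e, hd.mul ha he, fun t l h => ?_⟩
    have h3 := h2 t l h
    rw [Submodule.mem_comap, LinearMap.mulLeft_apply, ← mul_assoc, ← map_mul] at h3
    convert h3 using 3
    ext k
    simp

variable (U q a) in
/-- Elements that need a bounded number of short words besides the blocks, at every scale. -/
def AA (Bl : ℝ → Set (ℕ → ℤ)) : Submodule ℚ (UP U) where
  carrier := {z | ∃ c : ℕ, ∀ l > 0, ∃ F : Finset (ℕ → ℤ), F.card ≤ c ∧
    (∀ w ∈ F, ∀ᶠ k in U, |(w k : ℝ)| ≤ exp (l * q k)) ∧ z ∈ Sp U q a (Bl l ∪ F)}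
  zero_mem' := ⟨0, fun l _ => ⟨∅, by simp, by simp, zero_mem _⟩⟩
  add_mem' := by
    classical
    rintro x y ⟨c, h⟩ ⟨c', h'⟩
    refine ⟨c + c', fun l hl => ?_⟩
    obtain ⟨F, h1, h2, h3⟩ := h l hl
    obtain ⟨F', h1', h2', h3'⟩ := h' l hl
    refine ⟨F ∪ F', (card_union_le _ _).trans (by omega),
      fun w hw => (mem_union.1 hw).elim (h2 w) (h2' w),
      add_mem (Sp_mono ?_ h3) (Sp_mono ?_ h3')⟩
    · exact Set.union_subset_union_right _ (by simp)
    · exact Set.union_subset_union_right _ (by simp)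
  smul_mem' := by
    rintro r x ⟨c, h⟩
    refine ⟨c, fun l hl => ?_⟩
    obtain ⟨F, h1, h2, h3⟩ := h l hl
    exact ⟨F, h1, h2, Submodule.smul_mem _ r h3⟩

lemma AA_stab (ha : 2 ≤ a) (Bl : ℝ → Set (ℕ → ℤ)) : Stab U q a (AA U q a Bl) := by
  rintro i ξ hξ hi z ⟨c, h⟩
  refine ⟨c, fun l hl => ?_⟩
  obtain ⟨F, h1, h2, h3⟩ := h l hl
  exact ⟨F, h1, h2, Sp_stab ha _ i ξ hξ hi z h3⟩

lemma dict (hq : Tendsto q U atTop) (ha : 2 ≤ a) {v : ℕ → ℕ → ℤ}
    (hv : ∀ k x, 0 ≤ v k x ∧ v k x < a) {n : ℕ → ℕ} {s : ℝ}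
    (hn : ∀ᶠ k in U, (n k : ℝ) * log a ≤ s * q k) {l : ℝ} (hl : 0 < l) :
    ∃ Bl : Finset (ℕ → ℤ), Bl.card * l ≤ s + l ∧
      (∀ w ∈ Bl, ∀ᶠ k in U, |(w k : ℝ)| ≤ exp (l * q k)) ∧
      ∀ t m : ℕ → ℕ, (∀ᶠ k in U, t k + m k ≤ n k) → ∃ F : Finset (ℕ → ℤ), F.card ≤ 2 ∧
        (∀ w ∈ F, ∀ᶠ k in U, |(w k : ℝ)| ≤ exp (l * q k)) ∧
        germ U (fun k => G a (v k) (t k) (m k)) ∈ Sp U q a (Bl ∪ F) := by
  classical
  have hla : 0 < log a := log_pos (by exact_mod_cast ha)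
  have hq0 := hq.eventually_gt_atTop 0
  have hs : 0 ≤ s := by
    obtain ⟨k, h1, h2⟩ := (hn.and hq0).exists
    exact nonneg_of_mul_nonneg_left (le_trans (by positivity) h1) h2
  choose W hW0 hW1 hW2 using fun k => G_int ha (hv k)
  set L : ℕ → ℕ := fun k => ⌊l * q k / log a⌋₊ with hL
  set J : ℕ := ⌊s / l⌋₊ + 1 with hJ
  have hL1 : ∀ᶠ k in U, (L k : ℝ) ≤ l / log a * q k := hq0.mono fun k hk => by
    rw [div_mul_eq_mul_div]
    exact Nat.floor_le (by positivity)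
  have hsm : ∀ t m : ℕ → ℕ, (∀ᶠ k in U, m k ≤ L k) →
      ∀ᶠ k in U, |(W k (t k) (m k) : ℝ)| ≤ exp (l * q k) := fun t m h => by
    filter_upwards [h, hL1] with k h1 h2
    rw [abs_of_nonneg (by exact_mod_cast hW0 _ _ _)]
    calc (W k (t k) (m k) : ℝ) ≤ a ^ m k := by exact_mod_cast (hW1 _ _ _).le
      _ = exp (m k * log a) := by rw [exp_nat_mul, exp_log (by positivity)]
      _ ≤ _ := by
        rw [exp_le_exp, ← le_div_iff₀ hla, ← div_mul_eq_mul_div]
        exact le_trans (by exact_mod_cast h1) h2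
  have hmem : ∀ (F : Set (ℕ → ℤ)) (t m : ℕ → ℕ), (∀ᶠ k in U, m k ≤ L k) →
      (fun k => W k (t k) (m k)) ∈ F → germ U (fun k => G a (v k) (t k) (m k)) ∈ Sp U q a F :=
    fun F t m h hF => by
      convert (Sp_stab ha F).inv hq (m := m) (C := l / log a) (by
        filter_upwards [h, hL1] with k h1 h2
        exact le_trans (by exact_mod_cast h1) h2) (mem_Sp hF)
      rw [← map_mul]
      congr 1
      ext k
      exact hW2 _ _ _
  have hJ1 : s < J * l := by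
    rw [← div_lt_iff₀ hl, hJ]
    push_cast
    exact Nat.lt_floor_add_one _
  have hJL : ∀ᶠ k in U, 0 < L k ∧ n k ≤ J * L k := by
    filter_upwards [hn, hq.eventually_ge_atTop (log a / l),
      hq.eventually_ge_atTop (J * log a / (J * l - s))] with k h1 h2 h3
    rw [div_le_iff₀ hl] at h2
    rw [div_le_iff₀ (by linarith)] at h3
    refine ⟨Nat.floor_pos.2 (by rw [le_div_iff₀ hla]; linarith), ?_⟩
    have h4 : l * q k / log a < L k + 1 := Nat.lt_floor_add_one _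
    rw [div_lt_iff₀ hla] at h4
    have h5 : (n k : ℝ) * log a ≤ J * L k * log a := by
      have := mul_le_mul_of_nonneg_left h4.le (Nat.cast_nonneg (α := ℝ) J)
      nlinarith
    exact_mod_cast le_of_mul_le_mul_right h5 hla
  refine ⟨(range J).image fun j k => W k (j * L k) (L k), ?_, fun w hw => ?_, fun t m h => ?_⟩
  · have h1 : (((range J).image fun j k => W k (j * L k) (L k)).card : ℝ) ≤ J := by
      exact_mod_cast card_image_le.trans (card_range J).le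
    refine (mul_le_mul_of_nonneg_right h1 hl.le).trans ?_
    have h2 : (⌊s / l⌋₊ : ℝ) ≤ s / l := Nat.floor_le (by positivity)
    rw [le_div_iff₀ hl] at h2
    rw [hJ]
    push_cast
    linarith
  · obtain ⟨j, -, rfl⟩ := mem_image.1 hw
    exact hsm _ _ (Eventually.of_forall fun _ => le_rfl)
  obtain ⟨x, hx⟩ := Filter.Eventually.choice (l := U) (r := fun k (x : ℕ × ℕ × ℕ × ℕ) =>
      x.1 ≤ L k ∧ x.2.2.2 ≤ L k ∧ x.2.1 + x.2.2.1 ≤ J ∧ G a (v k) (t k) (m k) =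
      G a (v k) (t k) x.1 + ((a : ℚ) ^ x.1)⁻¹ * (G a (v k) (x.2.1 * L k) (x.2.2.1 * L k) +
        ((a : ℚ) ^ (x.2.2.1 * L k))⁻¹ * G a (v k) ((x.2.1 + x.2.2.1) * L k) x.2.2.2)) (by
    filter_upwards [hJL, h] with k h2 h3
    exact G_blocks h2.1 (h3.trans h2.2))
  obtain ⟨j, -, hj⟩ := ev_const (U := U) (fun k => (x k).2.1) (Set.finite_Iic J)
    (hx.mono fun k hk => le_trans (Nat.le_add_right _ _) hk.2.2.1)
  obtain ⟨i, -, hi⟩ := ev_const (U := U) (fun k => (x k).2.2.1) (Set.finite_Iic J)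
    (hx.mono fun k hk => le_trans (Nat.le_add_left _ _) hk.2.2.1)
  have hji : j + i ≤ J := by
    obtain ⟨k, h1, h2, h3⟩ := (hx.and (hj.and hi)).exists
    omega
  refine ⟨{fun k => W k (t k) (x k).1, fun k => W k ((j + i) * L k) (x k).2.2.2}, card_le_two,
    fun w hw => ?_, ?_⟩
  · rcases mem_insert.1 hw with rfl | hw
    · exact hsm _ _ (hx.mono fun k hk => hk.1)
    · rw [mem_singleton.1 hw]
      exact hsm _ _ (hx.mono fun k hk => hk.2.1)
  set F : Set (ℕ → ℤ) := ↑((range J).image fun j k => W k (j * L k) (L k)) ∪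
    ↑({fun k => W k (t k) (x k).1, fun k => W k ((j + i) * L k) (x k).2.2.2} : Finset (ℕ → ℤ))
    with hF
  have hS := Sp_stab (U := U) (q := q) ha F
  have hmul : ∀ i : ℕ, ∀ᶠ k in U, ((i * L k : ℕ) : ℝ) ≤ i * (l / log a) * q k := fun i =>
    hL1.mono fun k hk => by
      push_cast
      rw [mul_assoc]
      exact mul_le_mul_of_nonneg_left hk (by positivity)
  have hb : ∀ i, j + i ≤ J → germ U (fun k => G a (v k) (j * L k) (i * L k)) ∈ Sp U q a F := by
    intro i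
    induction i with
    | zero =>
      intro _
      convert zero_mem (Sp U q a F)
      exact germ_eq_zero.2 (Eventually.of_forall fun k => by simp [G_zero])
    | succ i ih =>
      intro hi
      convert add_mem (ih (by omega)) (hS.inv hq (hmul i) (hmem F (fun k => (j + i) * L k) L
        (Eventually.of_forall fun _ => le_rfl)
        (Or.inl (mem_coe.2 (mem_image.2 ⟨j + i, mem_range.2 (by omega), rfl⟩)))))
      rw [← map_mul, ← map_add]
      congr 1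
      ext k
      simp only [Pi.add_apply, Pi.mul_apply, add_mul, one_mul, G_add]
  convert add_mem (hmem F t (fun k => (x k).1) (hx.mono fun k hk => hk.1) (Or.inr (by simp)))
    (hS.inv hq (m := fun k => (x k).1) (C := l / log a) (by
      filter_upwards [hx, hL1] with k h1 h2
      exact le_trans (by exact_mod_cast h1.1) h2)
      (add_mem (hb i hji) (hS.inv hq (hmul i) (hmem F (fun k => (j + i) * L k)
        (fun k => (x k).2.2.2) (hx.mono fun k hk => hk.2.1) (Or.inr (by simp)))))) using 1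
  simp only [← map_mul, ← map_add]
  rw [germ_eq]
  filter_upwards [hx, hj, hi] with k hk h1 h2
  simp only [Pi.mul_apply, Pi.add_apply]
  rw [hk.2.2.2, h1, h2]

end H79R

open H79R in
theorem copy_rep (U : Ultrafilter ℕ) {q : ℕ → ℝ} (hq : Tendsto q U atTop) {a : ℕ} (ha : 2 ≤ a)
    (u : ℕ → ℕ → ℤ) (n N : ℕ → ℕ) (M : ℕ) {s B : ℝ}
    (hn : ∀ᶠ k in U, (n k : ℝ) * log a ≤ s * q k) (hN : ∀ᶠ k in U, (N k : ℝ) ≤ B * q k)
    (h : ∀ᶠ k in U, CopyGen a (u k) (n k) (N k) M) :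
    ∃ (c : ℕ) (d : ℕ → ℤ), (∀ᶠ k in U, d k ≠ 0) ∧
      (∀ ε > 0, ∀ᶠ k in U, |(d k : ℝ)| ≤ exp (ε * q k)) ∧
      germ U (fun k => d k) ∈ Submodule.span ℚ {z : UP U | ∃ i : ℕ → ℤ,
        Tendsto (fun k => (i k : ℝ) / q k) U (𝓝 0) ∧ z = germ U fun k => (a : ℚ) ^ i k} ∧
      ∀ l > 0, ∃ (D : ℕ) (V : Fin D → ℕ → ℤ), D * l ≤ s + c * l ∧
        (∀ j, ∀ᶠ k in U, |(V j k : ℝ)| ≤ exp (l * q k)) ∧
        germ U (fun k => d k * ∑ j ∈ range (N k), (u k j : ℚ) / a ^ (j + 1)) ∈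
          Submodule.span ℚ {z : UP U | ∃ (i : ℕ → ℤ) (ξ : ℝ) (j : Fin D), ξ ≤ 0 ∧
            Tendsto (fun k => (i k : ℝ) / q k) U (𝓝 ξ) ∧
            z = germ U fun k => (a : ℚ) ^ i k * V j k} := by
  classical
  obtain ⟨v, hv⟩ := h.choice
  obtain ⟨p, hp⟩ := hv.choice
  obtain ⟨δ, hδ⟩ := hp.choice
  have hla : 0 < log a := log_pos (by exact_mod_cast ha)
  have hv' : ∀ k x, 0 ≤ (if 0 ≤ v k x ∧ v k x < a then v k x else 0) ∧
      (if 0 ≤ v k x ∧ v k x < a then v k x else 0) < a := fun k x => by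
    split_ifs with h1
    · exact h1
    · omega
  choose! Bl h1 h2 h3 using fun l (hl : 0 < l) => dict hq ha hv' hn hl
  obtain ⟨d, hd, h4⟩ := chain hq ha (AA_stab (U := U) (q := q) ha fun l => Bl l) (v := v) (p := p)
    (δ := δ) (T := fun k => n k + N k) (C := s / log a + B) (by
      filter_upwards [hn, hN] with k h4 h5
      rw [← le_div_iff₀ hla, ← div_mul_eq_mul_div] at h4
      push_cast
      linarith) (fun t m h4 => ⟨2, fun l hl => by
        obtain ⟨F, h5, h6, h7⟩ := h3 l hl t m (by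
          filter_upwards [h4, hδ] with k h5 h6
          exact h6.2.2.1 ▸ h5.1)
        refine ⟨F, h5, h6, ?_⟩
        convert h7 using 1
        rw [germ_eq]
        filter_upwards [h4, hδ] with k h8 h9
        exact G_congr fun j hj => by
          rw [if_pos (h9.1 _ (by have := h9.2.2.1; omega))]⟩) M
    (hδ.mono fun k hk => hk.2.2.2.2)
  obtain ⟨c, hc⟩ := h4 n N (hδ.mono fun k hk => ⟨hk.2.2.2.1, le_rfl⟩)
  refine ⟨c + 1, d, hd.1, hd.2.1, hd.2.2, fun l hl => ?_⟩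
  obtain ⟨F, h5, h6, h7⟩ := hc l hl
  refine ⟨(Bl l ∪ F).card, fun j => (Bl l ∪ F).equivFin.symm j, ?_, fun j => ?_, ?_⟩
  · have h8 : ((Bl l ∪ F).card : ℝ) ≤ (Bl l).card + c := by
      exact_mod_cast (card_union_le _ _).trans (by omega)
    have h9 := mul_le_mul_of_nonneg_right h8 hl.le
    have h10 := h1 l hl
    push_cast
    linarith
  · exact (mem_union.1 ((Bl l ∪ F).equivFin.symm j).2).elim (h2 l hl _) (h6 _)
  · have e : germ U (fun k => d k * ∑ j ∈ range (N k), (u k j : ℚ) / a ^ (j + 1)) =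
        germ U (fun k => d k) * germ U (fun k => G a (v k) (n k) (N k)) := by
      rw [← map_mul, germ_eq]
      filter_upwards [hδ] with k hk
      rw [Pi.mul_apply]
      congr 1
      exact sum_congr rfl fun j hj => by rw [hk.2.1 j (mem_range.1 hj)]
    rw [e]
    refine Submodule.span_mono ?_ h7
    rintro z ⟨i, ξ, w, h8, h9, h10, rfl⟩
    refine ⟨i, ξ, (Bl l ∪ F).equivFin ⟨w, by simpa using h8⟩, h9, h10, by simp⟩

end Pool.Agent.Lib.MP_c9a594_an
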