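import Pool.Agent.Lib.MP_c9a594_an.SharpModel
import Pool.Agent.Lib.MP_c9a594_an.SharpRep

/-! The sharp two-base theorems. -/

open Filter Topology Real Finset

namespace Pool.Agent.Lib.MP_c9a594_an

lemma fin_log_pos {a : ℕ} (ha : 2 ≤ a) : 0 < log (a : ℝ) :=
  log_pos (by exact_mod_cast ha)

lemma fin_digit_sum (a : ℕ) (ha : 2 ≤ a) (x : ℝ) (N : ℕ) :
    Int.fract x - ∑ j ∈ range N, (⌊(a : ℝ) * Int.fract ((a : ℝ) ^ j * x)⌋ : ℝ) / a ^ (j + 1) =
      Int.fract ((a : ℝ) ^ N * x) / a ^ N := by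
  have h0 : (0 : ℝ) < a := by exact_mod_cast (by omega : 0 < a)
  induction N with
  | zero => simp
  | succ N ih =>
    have h1 : Int.fract ((a : ℝ) * Int.fract ((a : ℝ) ^ N * x)) =
        Int.fract ((a : ℝ) ^ (N + 1) * x) := by
      have : (a : ℝ) * Int.fract ((a : ℝ) ^ N * x) =
          (a : ℝ) ^ (N + 1) * x - ((a * ⌊(a : ℝ) ^ N * x⌋ : ℤ) : ℝ) := by
        rw [Int.fract]
        push_cast
        ring
      rw [this, Int.fract_sub_intCast]
    rw [sum_range_succ, ← sub_sub, ih, ← h1, Int.fract.eq_1 ((a : ℝ) * _)]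
    field_simp
    ring

lemma fin_digit_err {a : ℕ} (ha : 2 ≤ a) (x T : ℝ) :
    |Int.fract x - ((∑ j ∈ range ⌊T / log a⌋₊,
      ((⌊(a : ℝ) * Int.fract ((a : ℝ) ^ j * x)⌋ : ℤ) : ℚ) / a ^ (j + 1) : ℚ) : ℝ)| ≤
      a * exp (-T) := by
  have h0 : (0 : ℝ) < a := by exact_mod_cast (by omega : 0 < a)
  have h1 := fin_log_pos ha
  push_cast
  rw [fin_digit_sum a ha, abs_of_nonneg (div_nonneg (Int.fract_nonneg _) (by positivity)),
    div_le_iff₀ (by positivity)]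
  refine (Int.fract_lt_one _).le.trans ?_
  have h2 := Nat.lt_floor_add_one (T / log a)
  rw [div_lt_iff₀ h1] at h2
  have h3 : (a : ℝ) * exp (-T) * a ^ ⌊T / log a⌋₊ =
      exp (log a + -T + ⌊T / log a⌋₊ * log a) := by
    rw [exp_add, exp_add, exp_nat_mul, exp_log h0]
  rw [h3]
  exact one_le_exp (by linarith)

lemma fin_digit_mem {a : ℕ} (ha : 2 ≤ a) (y : ℝ) :
    0 ≤ ⌊(a : ℝ) * Int.fract y⌋ ∧ ⌊(a : ℝ) * Int.fract y⌋ < a := by
  have h0 : (0 : ℝ) < a := by exact_mod_cast (by omega : 0 < a)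
  refine ⟨Int.floor_nonneg.2 (mul_nonneg h0.le (Int.fract_nonneg _)), Int.floor_lt.2 ?_⟩
  have := Int.fract_lt_one y
  push_cast
  nlinarith

lemma fin_w_nonneg (a b p : ℕ) : 0 ≤ min (a.factorization p * log p / log a)
    (b.factorization p * log p / log b) :=
  le_min (by positivity) (by positivity)

lemma fin_overlap_nonneg (a b : ℕ) : 0 ≤ overlap a b :=
  sum_nonneg fun p _ => fin_w_nonneg a b p

lemma fin_env_pos (a b : ℕ) (T : ℝ) : 0 < envelope a b T :=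
  prod_pos fun _ hp => pow_pos (Nat.prime_of_mem_primeFactors hp).pos _

lemma fin_env_le (a b : ℕ) {T : ℝ} (hT : 0 ≤ T) :
    (envelope a b T : ℝ) ≤ exp (overlap a b * T) := by
  rw [envelope, overlap, sum_mul, exp_sum]
  push_cast
  refine prod_le_prod (fun p _ => by positivity) fun p hp => ?_
  have h2 := (Nat.prime_of_mem_primeFactors hp).two_le
  have h1 := fin_log_pos h2
  have h0 : (0 : ℝ) < p := by exact_mod_cast (by omega : 0 < p)
  have h3 := Nat.floor_le (div_nonneg (mul_nonneg (fin_w_nonneg a b p) hT) h1.le)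
  rw [le_div_iff₀ h1] at h3
  refine le_trans (le_of_eq ?_) (exp_le_exp.2 h3)
  rw [exp_nat_mul, exp_log h0]

lemma fin_env_dvd (a b : ℕ) {T T' : ℝ} (h : T ≤ T') : envelope a b T ∣ envelope a b T' :=
  prod_dvd_prod_of_dvd _ _ fun p _ => pow_dvd_pow _ (Nat.floor_mono
    (div_le_div_of_nonneg_right (mul_le_mul_of_nonneg_left h (fin_w_nonneg a b p))
      (by positivity)))

lemma fin_mul_span {K : Type} [Field K] [CharZero K] {S T W : Set K}
    (h : ∀ s ∈ S, ∀ t ∈ T, s * t ∈ W) {x y : K} (hx : x ∈ Submodule.span ℚ S)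
    (hy : y ∈ Submodule.span ℚ T) : x * y ∈ Submodule.span ℚ W := by
  have h1 := Submodule.mul_mem_mul hx hy
  rw [Submodule.span_mul_span] at h1
  refine Submodule.span_mono ?_ h1
  rintro _ ⟨s, hs, t, ht, rfl⟩
  exact h s hs t ht

lemma fin_const {U : Filter ℕ} {q : ℕ → ℝ} (hq : Tendsto q U atTop) (C : ℝ) {ε : ℝ}
    (hε : 0 < ε) : ∀ᶠ k in U, C ≤ exp (ε * q k) := by
  filter_upwards [(hq.const_mul_atTop hε).eventually_ge_atTop C] with k hk
  linarith [add_one_le_exp (ε * q k)]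

lemma fin_rat (y : ℚ) {m : ℕ} (hm : 0 < m) (h : y.den ∣ m) {e : ℤ} (he : e ≠ 0) (z : ℤ) :
    ∃ P : ℤ, (z : ℝ) + y / e = P / ((m : ℝ) * e.natAbs) := by
  obtain ⟨r, rfl⟩ := h
  have h1 : (y.den : ℝ) ≠ 0 := by exact_mod_cast y.den_nz
  have h2 : (r : ℝ) ≠ 0 := by
    rintro h
    have : r = 0 := by exact_mod_cast h
    simp [this] at hm
  have h3 : (e : ℝ) ≠ 0 := by exact_mod_cast he
  have h4 : (e.sign : ℝ) ≠ 0 := by exact_mod_cast Int.sign_eq_zero_iff_zero.not.2 he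
  have h5 : (e.natAbs : ℝ) = e.sign * e := by
    rw [Nat.cast_natAbs, ← Int.cast_mul, Int.sign_mul_self, Int.natCast_natAbs]
  refine ⟨z * (y.den * r * (e.sign * e)) + y.num * r * e.sign, ?_⟩
  rw [h5, Rat.cast_def]
  push_cast
  field_simp

/-- A number whose expansions are copy-generated at the scale `T` in both bases is close to a
rational number of controlled denominator. -/
theorem sharp_finitary {a b : ℕ} (ha : 2 ≤ a) (hb : 2 ≤ b)
    (hab : ∀ k l : ℕ, 0 < k → 0 < l → a ^ k ≠ b ^ l) {s t δ ε : ℝ} (hst : s + t < δ)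
    (hδ : δ < 1 - overlap a b) (hε : 0 < ε) (M M' : ℕ) :
    ∃ T0 : ℝ, ∀ T ≥ T0, ∀ (x : ℝ) (n n' : ℕ), n * log a ≤ s * T → n' * log b ≤ t * T →
      CopyGen a (fun k => ⌊(a : ℝ) * Int.fract ((a : ℝ) ^ k * x)⌋) n ⌊T / log a⌋₊ M →
      CopyGen b (fun k => ⌊(b : ℝ) * Int.fract ((b : ℝ) ^ k * x)⌋) n' ⌊T / log b⌋₊ M' →
      ∃ (P : ℤ) (Q : ℕ), 0 < Q ∧ (Q : ℝ) ≤ exp (ε * T) ∧
        |x - P / (Q * envelope a b (δ / (1 - overlap a b) * T) : ℕ)| ≤ exp ((-1 + δ + ε) * T) := by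
  by_contra hc
  push Not at hc
  choose T hT x n n' h1 h2 h3 h4 h5 using fun k : ℕ => hc (k + 1)
  have la := fin_log_pos ha
  have lb := fin_log_pos hb
  have hT0 : ∀ k, 0 < T k := fun k => lt_of_lt_of_le (by positivity) (hT k)
  have hs : 0 ≤ s := le_of_mul_le_mul_right
    (by rw [zero_mul]; exact le_trans (by positivity) (h1 0)) (hT0 0)
  have ht : 0 ≤ t := le_of_mul_le_mul_right
    (by rw [zero_mul]; exact le_trans (by positivity) (h2 0)) (hT0 0)
  let U : Ultrafilter ℕ := Ultrafilter.of atTop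
  have hq : Tendsto T U atTop :=
    (tendsto_atTop_mono (fun k => le_trans (by linarith) (hT k))
      tendsto_natCast_atTop_atTop).mono_left (Ultrafilter.of_le _)
  have hN : ∀ {a : ℕ}, 0 < log (a : ℝ) → ∀ k, (⌊T k / log a⌋₊ : ℝ) ≤ 1 / log a * T k :=
    fun {a} la k => by
      rw [one_div, ← div_eq_inv_mul]
      exact Nat.floor_le (div_nonneg (hT0 k).le la.le)
  obtain ⟨c, d, d0, d1, d2, hr⟩ := copy_rep U hq ha
    (fun k j => ⌊(a : ℝ) * Int.fract ((a : ℝ) ^ j * x k)⌋) n (fun k => ⌊T k / log a⌋₊) M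
    (Eventually.of_forall h1) (Eventually.of_forall (hN la)) (Eventually.of_forall h3)
  obtain ⟨c', d', d0', d1', d2', hr'⟩ := copy_rep U hq hb
    (fun k j => ⌊(b : ℝ) * Int.fract ((b : ℝ) ^ j * x k)⌋) n' (fun k => ⌊T k / log b⌋₊) M'
    (Eventually.of_forall h2) (Eventually.of_forall (hN lb)) (Eventually.of_forall h4)
  obtain ⟨l, l0, l1, l2⟩ : ∃ l : ℝ, 0 < l ∧ (c + c') * l ≤ δ - s - t ∧
      δ + l < 1 - overlap a b := by
    refine ⟨min ((δ - s - t) / (c + c' + 1)) ((1 - overlap a b - δ) / 2),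
      lt_min (div_pos (by linarith) (by positivity)) (by linarith), ?_, ?_⟩
    · have e1 := min_le_left ((δ - s - t) / (c + c' + 1)) ((1 - overlap a b - δ) / 2)
      have e2 : 0 < min ((δ - s - t) / (c + c' + 1)) ((1 - overlap a b - δ) / 2) :=
        lt_min (div_pos (by linarith) (by positivity)) (by linarith)
      rw [le_div_iff₀ (by positivity)] at e1
      linarith
    · linarith [min_le_right ((δ - s - t) / (c + c' + 1)) ((1 - overlap a b - δ) / 2)]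
  obtain ⟨D, V, v1, v2, v3⟩ := hr l l0
  obtain ⟨D', V', v1', v2', v3'⟩ := hr' l l0
  set X : ℕ → ℚ := fun k => ∑ j ∈ range ⌊T k / log a⌋₊,
    ((⌊(a : ℝ) * Int.fract ((a : ℝ) ^ j * x k)⌋ : ℤ) : ℚ) / a ^ (j + 1) with hX
  set X' : ℕ → ℚ := fun k => ∑ j ∈ range ⌊T k / log b⌋₊,
    ((⌊(b : ℝ) * Int.fract ((b : ℝ) ^ j * x k)⌋ : ℤ) : ℚ) / b ^ (j + 1) with hX'
  have eX : ∀ k, |Int.fract (x k) - X k| ≤ a * exp (-T k) := fun k => fin_digit_err ha _ _
  have eX' : ∀ k, |Int.fract (x k) - X' k| ≤ b * exp (-T k) := fun k => fin_digit_err hb _ _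
  obtain ⟨y, hy⟩ := sharp_ultra U hq ha hb hab (J := Fin D ⊕ Fin D') (Sum.elim V V') (l := l)
    (δ := δ) l0.le (by
      rintro (j | j)
      exacts [v2 j, v2' j]) (fun k => d k * X k * d' k) (fun k => d k * (d' k * X' k)) (by
      refine fin_mul_span ?_ v3 d2'
      rintro _ ⟨i, ξ, j, e1, e2, rfl⟩ _ ⟨i', e3, rfl⟩
      refine ⟨fun k => (i k, i' k), ξ, Sum.inl j, e1, e2, e3, ?_⟩
      rw [gm, ← map_mul, ← map_mul]
      congr 1
      funext k
      simp only [Pi.mul_apply, Sum.elim_inl]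
      ring) (by
      refine fin_mul_span ?_ d2 v3'
      rintro _ ⟨i', e3, rfl⟩ _ ⟨i, ξ, j, e1, e2, rfl⟩
      refine ⟨fun k => (i' k, i k), ξ, Sum.inr j, e1, e3, e2, ?_⟩
      rw [gm, ← map_mul, ← map_mul]
      congr 1
      funext k
      simp only [Pi.mul_apply, Sum.elim_inr]
      ring) (by
      intro η hη
      filter_upwards [d1 (η / 3) (by positivity), d1' (η / 3) (by positivity),
        fin_const hq (a + b) (ε := η / 3) (by positivity)] with k e1 e2 e3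
      have e4 : |(X k : ℝ) - X' k| ≤ exp (η / 3 * T k) * exp (-T k) := by
        have := abs_sub_le (X k : ℝ) (Int.fract (x k)) (X' k)
        rw [abs_sub_comm (X k : ℝ) (Int.fract (x k))] at this
        nlinarith [eX k, eX' k, exp_pos (-T k)]
      have e5 : ((d k * X k * d' k : ℚ) : ℝ) - ((d k * (d' k * X' k) : ℚ) : ℝ) =
          d k * d' k * (X k - X' k) := by
        push_cast
        ring
      rw [e5, abs_mul, abs_mul]
      refine (mul_le_mul (mul_le_mul e1 e2 (abs_nonneg _) (exp_pos _).le) e4 (abs_nonneg _)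
        (by positivity)).trans (le_of_eq ?_)
      rw [← exp_add, ← exp_add, ← exp_add]
      congr 1
      ring) (by
      rw [Fintype.card_sum, Fintype.card_fin, Fintype.card_fin]
      push_cast
      linarith) l2
  obtain ⟨k, ⟨e1, Q, q0, q1, q2⟩, e2, e3, e4, e5, e6, e7⟩ := ((hy (ε / 3) (by positivity)).and
    (d0.and (d0'.and ((d1 (ε / 3) (by positivity)).and ((d1' (ε / 3) (by positivity)).and
      ((fin_const hq a (ε := ε / 3) (by positivity)).and
        (fin_const hq 2 (ε := ε / 3) (by positivity)))))))).exists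
  have f0 : d k * d' k ≠ 0 := mul_ne_zero e2 e3
  obtain ⟨P, hP⟩ := fin_rat (y k) (Nat.mul_pos q0 (fin_env_pos a b _)) q2 f0 ⌊x k⌋
  have f1 : (1 : ℝ) ≤ |((d k * d' k : ℤ) : ℝ)| := by exact_mod_cast Int.one_le_abs f0
  have f2 : ((d k * d' k : ℤ) : ℝ) ≠ 0 := by exact_mod_cast f0
  refine absurd (h5 k P (Q * (d k * d' k).natAbs) (Nat.mul_pos q0 (Int.natAbs_pos.2 f0)) ?_)
    (not_lt.2 ?_)
  · rw [Nat.cast_mul, Nat.cast_natAbs, Int.cast_abs, Int.cast_mul, abs_mul]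
    refine (mul_le_mul q1 (mul_le_mul e4 e5 (abs_nonneg _) (exp_pos _).le) (by positivity)
      (exp_pos _).le).trans (le_of_eq ?_)
    rw [← exp_add, ← exp_add]
    congr 1
    ring
  · rw [mul_right_comm, Nat.cast_mul _ (d k * d' k).natAbs, ← hP]
    have g1 : x k - (⌊x k⌋ + y k / ((d k * d' k : ℤ) : ℝ)) = (Int.fract (x k) - X k) +
        (((d k * X k * d' k : ℚ) : ℝ) - y k) / ((d k * d' k : ℤ) : ℝ) := by
      rw [Int.fract]
      field_simp
      push_cast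
      ring
    have g2 : |(((d k * X k * d' k : ℚ) : ℝ) - y k) / ((d k * d' k : ℤ) : ℝ)| ≤
        exp ((-1 + δ + ε / 3) * T k) := by
      rw [abs_div]
      exact (div_le_self (abs_nonneg _) f1).trans e1
    have g3 : |Int.fract (x k) - X k| ≤ exp ((-1 + δ + ε / 3) * T k) := by
      refine (eX k).trans ((mul_le_mul_of_nonneg_right e6 (exp_pos _).le).trans ?_)
      rw [← exp_add, exp_le_exp]
      nlinarith [hT0 k]
    have g4 : exp (ε / 3 * T k) * exp ((-1 + δ + ε / 3) * T k) ≤ exp ((-1 + δ + ε) * T k) := by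
      rw [← exp_add, exp_le_exp]
      nlinarith [hT0 k]
    rw [g1]
    refine (abs_add_le _ _).trans ?_
    nlinarith [exp_pos ((-1 + δ + ε / 3) * T k)]

lemma fin_one_mem {a : ℕ} (ha : 2 ≤ a) (x : ℝ) : (1 : ℝ) ∈ {s : ℝ | 0 ≤ s ∧ ∃ M : ℕ,
    ∀ᶠ N : ℕ in atTop,
      CopyGen a (fun k => ⌊(a : ℝ) * Int.fract ((a : ℝ) ^ k * x)⌋) ⌊s * N⌋₊ N M} := by
  refine ⟨zero_le_one, 1, (eventually_gt_atTop 0).mono fun N hN => ?_⟩
  rw [one_mul, Nat.floor_natCast]
  refine ⟨fun k => ⌊(a : ℝ) * Int.fract ((a : ℝ) ^ (k % N) * x)⌋, fun m => N + m * N, fun _ => N,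
    fun k _ => fin_digit_mem ha _, fun k hk => ?_, by simp, by simp, fun m _ => ⟨hN, by simp, ?_⟩⟩
  · simp only [Nat.add_mod_left, Nat.mod_eq_of_lt hk]
  · intro k hk _
    simp only [Nat.mod_eq_sub_mod (le_trans (Nat.le_add_right _ _) hk)]

lemma fin_tendsto {a : ℕ} (ha : 2 ≤ a) : Tendsto (fun T : ℕ => ⌊(T : ℝ) / log a⌋₊) atTop atTop :=
  tendsto_nat_floor_atTop.comp (tendsto_natCast_atTop_atTop.atTop_div_const (fin_log_pos ha))

lemma fin_floor_le {a : ℕ} (ha : 2 ≤ a) {s T : ℝ} (hs : 0 ≤ s) (hT : 0 ≤ T) :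
    (⌊s * (⌊T / log a⌋₊ : ℕ)⌋₊ : ℝ) * log a ≤ s * T := by
  have la := fin_log_pos ha
  have h1 := Nat.floor_le (div_nonneg hT la.le)
  rw [le_div_iff₀ la] at h1
  calc (⌊s * (⌊T / log a⌋₊ : ℕ)⌋₊ : ℝ) * log a ≤ s * (⌊T / log a⌋₊ : ℕ) * log a :=
        mul_le_mul_of_nonneg_right (Nat.floor_le (by positivity)) la.le
    _ ≤ s * T := by
        rw [mul_assoc]
        exact mul_le_mul_of_nonneg_left h1 hs

theorem copyDim_add {a b : ℕ} (ha : 2 ≤ a) (hb : 2 ≤ b)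
    (hab : ∀ k l : ℕ, 0 < k → 0 < l → a ^ k ≠ b ^ l) {x : ℝ} (hx : Irrational x) :
    1 - overlap a b ≤ copyDim a x + copyDim b x := by
  by_contra hc
  rw [not_le] at hc
  obtain ⟨s, ⟨hs, M, hM⟩, s1⟩ := exists_lt_of_csInf_lt ⟨1, fin_one_mem ha x⟩
    (show copyDim a x < copyDim a x + (1 - overlap a b - copyDim a x - copyDim b x) / 2 by
      linarith)
  obtain ⟨t, ⟨ht, M', hM'⟩, t1⟩ := exists_lt_of_csInf_lt ⟨1, fin_one_mem hb x⟩
    (show copyDim b x < copyDim b x + (1 - overlap a b - copyDim a x - copyDim b x) / 2 by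
      linarith)
  have hσ := fin_overlap_nonneg a b
  obtain ⟨δ, hst, hδ⟩ := exists_between (show s + t < 1 - overlap a b by linarith)
  obtain ⟨τ, hτ⟩ : ∃ τ, τ = δ / (1 - overlap a b) := ⟨_, rfl⟩
  have τ0 : 0 ≤ τ := hτ ▸ div_nonneg (by linarith) (by linarith)
  have τ1 : overlap a b * τ < 1 - δ := by
    rw [hτ, ← mul_div_assoc, div_lt_iff₀ (by linarith)]
    nlinarith
  obtain ⟨ε, hε⟩ : ∃ ε, ε = (1 - δ - overlap a b * τ) / 4 := ⟨_, rfl⟩
  have ε0 : 0 < ε := by linarith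
  have σ0 : 0 ≤ overlap a b * τ := mul_nonneg hσ τ0
  obtain ⟨T0, hT0⟩ := sharp_finitary ha hb hab hst hδ ε0 M M'
  rw [← hτ] at hT0
  have key : ∀ᶠ T : ℕ in atTop, 1 + ε + overlap a b * τ ≤ ε * T ∧ ∃ (P : ℤ) (Q : ℕ), 0 < Q ∧
      (Q : ℝ) ≤ exp (ε * T) ∧
      |x - P / (Q * envelope a b (τ * T) : ℕ)| ≤ exp ((-1 + δ + ε) * T) := by
    filter_upwards [(fin_tendsto ha).eventually hM, (fin_tendsto hb).eventually hM',
      tendsto_natCast_atTop_atTop.eventually_ge_atTop T0,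
      (tendsto_natCast_atTop_atTop.const_mul_atTop ε0).eventually_ge_atTop
        (1 + ε + overlap a b * τ)] with T e1 e2 e3 e4
    exact ⟨e4, hT0 T e3 x _ _ (fin_floor_le ha hs (Nat.cast_nonneg _))
      (fin_floor_le hb ht (Nat.cast_nonneg _)) e1 e2⟩
  obtain ⟨n0, h⟩ := eventually_atTop.1 key
  choose P Q q0 q1 q2 using fun j : ℕ => (h (n0 + j) (by omega)).2
  have step : ∀ j, (P (j + 1) : ℝ) / (Q (j + 1) * envelope a b (τ * (n0 + (j + 1) : ℕ)) : ℕ) =
      P j / (Q j * envelope a b (τ * (n0 + j : ℕ)) : ℕ) := by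
    intro j
    have a1 := (h (n0 + j) (by omega)).1
    have a2 := q1 j
    have a3 := q1 (j + 1)
    have a4 := q2 j
    have a5 := q2 (j + 1)
    have a6 := fin_env_le a b (T := τ * (n0 + (j + 1) : ℕ)) (by positivity)
    obtain ⟨r, hr⟩ := fin_env_dvd a b (T := τ * (n0 + j : ℕ)) (T' := τ * (n0 + (j + 1) : ℕ))
      (mul_le_mul_of_nonneg_left (by exact_mod_cast (by omega)) τ0)
    have p1 : (0 : ℝ) < Q j := by exact_mod_cast q0 j
    have p2 : (0 : ℝ) < Q (j + 1) := by exact_mod_cast q0 (j + 1)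
    have p3 : (0 : ℝ) < envelope a b (τ * (n0 + (j + 1) : ℕ)) := by
      exact_mod_cast fin_env_pos a b _
    have p4 : (0 : ℝ) < envelope a b (τ * (n0 + j : ℕ)) := by exact_mod_cast fin_env_pos a b _
    have p5 : (envelope a b (τ * (n0 + (j + 1) : ℕ)) : ℝ) =
        envelope a b (τ * (n0 + j : ℕ)) * r := by exact_mod_cast hr
    have p6 : (0 : ℝ) < r := by
      rw [p5] at p3
      exact (mul_pos_iff_of_pos_left p4).1 p3
    rw [show n0 + (j + 1) = n0 + j + 1 from rfl] at *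
    generalize n0 + j = T at *
    generalize envelope a b (τ * (T + 1 : ℕ)) = E' at *
    generalize envelope a b (τ * T) = E at *
    push_cast at a3 a4 a5 a6 ⊢
    have b1 : ((P (j + 1) * Q j - P j * Q (j + 1) * r : ℤ) : ℝ) = Q j * Q (j + 1) * E' *
        ((x - P j / (Q j * E)) - (x - P (j + 1) / (Q (j + 1) * E'))) := by
      rw [p5]
      push_cast
      field_simp
      ring
    have b2 : exp ((-1 + δ + ε) * (T + 1)) ≤ exp ((-1 + δ + ε) * T) := by
      rw [exp_le_exp]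
      linarith
    have b3 : |((P (j + 1) * Q j - P j * Q (j + 1) * r : ℤ) : ℝ)| ≤
        exp (ε * T) * exp (ε * (T + 1)) * exp (overlap a b * (τ * (T + 1))) *
          (2 * exp ((-1 + δ + ε) * T)) := by
      rw [b1, abs_mul, abs_of_pos (by positivity)]
      refine mul_le_mul (by gcongr) ((abs_sub _ _).trans (by linarith)) (abs_nonneg _)
        (by positivity)
    have b4 : exp (ε * T) * exp (ε * (T + 1)) * exp (overlap a b * (τ * (T + 1))) *
        (2 * exp ((-1 + δ + ε) * T)) ≤ 2 * exp (-1) := by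
      rw [mul_left_comm, ← exp_add, ← exp_add, ← exp_add]
      refine mul_le_mul_of_nonneg_left (exp_le_exp.2 ?_) zero_le_two
      have : δ = 1 - overlap a b * τ - 4 * ε := by linarith
      rw [this]
      linarith
    have b5 := Real.exp_neg_one_lt_d9
    have b6 := (b3.trans b4).trans_lt (show 2 * exp (-1) < 1 by linarith)
    have b7 : P (j + 1) * Q j - P j * Q (j + 1) * r = 0 :=
      Int.abs_lt_one_iff.1 (by exact_mod_cast b6)
    rw [b7, Int.cast_zero, eq_comm, mul_eq_zero] at b1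
    have := b1.resolve_left (by positivity)
    linarith
  have all : ∀ j, (P j : ℝ) / (Q j * envelope a b (τ * (n0 + j : ℕ)) : ℕ) =
      P 0 / (Q 0 * envelope a b (τ * (n0 + 0 : ℕ)) : ℕ) := by
    intro j
    induction j with
    | zero => rfl
    | succ j ih => rw [step, ih]
  have c0 := abs_pos.2 (sub_ne_zero.2 (hx.ne_rational (P 0)
    (Q 0 * envelope a b (τ * (n0 + 0 : ℕ)) : ℕ)))
  rw [Int.cast_natCast] at c0
  have lim : Tendsto (fun j : ℕ => exp ((-1 + δ + ε) * (n0 + j : ℕ))) atTop (𝓝 0) :=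
    tendsto_exp_atBot.comp ((tendsto_natCast_atTop_atTop.comp
      (tendsto_atTop_mono (fun j => Nat.le_add_left j n0) tendsto_id)).const_mul_atTop_of_neg
        (by linarith))
  exact absurd (ge_of_tendsto' lim fun j => all j ▸ q2 j) (not_le.2 c0)

theorem copyGen_nonLiouville {a b : ℕ} (ha : 2 ≤ a) (hb : 2 ≤ b)
    (hab : ∀ k l : ℕ, 0 < k → 0 < l → a ^ k ≠ b ^ l) {μ s t : ℝ} (hμ : 1 ≤ μ) (hs : 0 ≤ s)
    (ht : 0 ≤ t) (hst : (s + t) * (1 + (μ - 1) * overlap a b) < 1 - overlap a b) (M : ℕ) {x : ℝ}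
    (hx : Irrational x) (hL : ¬ LiouvilleWith μ x) : ∀ᶠ T : ℝ in atTop, ¬
      (CopyGen a (fun k => ⌊(a : ℝ) * Int.fract ((a : ℝ) ^ k * x)⌋) ⌊s * T / log a⌋₊
        ⌊T / log a⌋₊ M ∧
      CopyGen b (fun k => ⌊(b : ℝ) * Int.fract ((b : ℝ) ^ k * x)⌋) ⌊t * T / log b⌋₊
        ⌊T / log b⌋₊ M) := by
  by_contra hc
  have hσ := fin_overlap_nonneg a b
  have ρ1 : 0 ≤ (μ - 1) * overlap a b := mul_nonneg (by linarith) hσ
  rw [← lt_div_iff₀ (by linarith)] at hst
  obtain ⟨δ, d1, d2⟩ := exists_between hst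
  rw [lt_div_iff₀ (by linarith)] at d2
  have δ0 : 0 < δ := by linarith
  have hδ : δ < 1 - overlap a b := by nlinarith
  obtain ⟨τ, hτ⟩ : ∃ τ, τ = δ / (1 - overlap a b) := ⟨_, rfl⟩
  have τ0 : 0 ≤ τ := hτ ▸ div_nonneg (by linarith) (by linarith)
  have τ1 : μ * (overlap a b * τ) < 1 - δ := by
    rw [hτ, ← mul_div_assoc, ← mul_div_assoc, div_lt_iff₀ (by linarith)]
    nlinarith
  obtain ⟨ε, hε⟩ : ∃ ε, ε = (1 - δ - μ * (overlap a b * τ)) / (μ + 1) := ⟨_, rfl⟩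
  have ε0 : 0 < ε := hε ▸ div_pos (by linarith) (by linarith)
  rw [eq_div_iff (by linarith)] at hε
  obtain ⟨κ, hκ⟩ : ∃ κ, κ = overlap a b * τ + ε := ⟨_, rfl⟩
  have κ0 : 0 < κ := by linarith [mul_nonneg hσ τ0]
  have κ1 : -1 + δ + ε = -(κ * μ) := by
    rw [hκ]
    linarith
  obtain ⟨T0, hT0⟩ := sharp_finitary ha hb hab d1 hδ ε0 M M
  rw [← hτ] at hT0
  refine hL ⟨2 ^ μ + 1, frequently_atTop.2 fun N0 => ?_⟩
  obtain ⟨T, g0, e1, e2, e3⟩ := ((not_eventually.1 hc).and_eventually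
    ((eventually_ge_atTop T0).and ((eventually_ge_atTop 0).and
      ((tendsto_id.const_mul_atTop κ0).eventually_ge_atTop (N0 : ℝ))))).exists
  obtain ⟨g1, g2⟩ := not_not.1 g0
  have hfl : ∀ {a : ℕ}, 2 ≤ a → ∀ {s : ℝ}, 0 ≤ s → (⌊s * T / log a⌋₊ : ℝ) * log a ≤ s * T :=
    fun {a} ha {s} hs => (le_div_iff₀ (fin_log_pos ha)).1
      (Nat.floor_le (div_nonneg (mul_nonneg hs e2) (fin_log_pos ha).le))
  obtain ⟨P, Q, q0, q1, q2⟩ := hT0 T e1 x _ _ (hfl ha hs) (hfl hb ht) g1 g2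
  have n1 : ((Q * envelope a b (τ * T) : ℕ) : ℝ) ≤ exp (κ * T) := by
    rw [Nat.cast_mul]
    refine (mul_le_mul q1 (fin_env_le a b (mul_nonneg τ0 e2)) (Nat.cast_nonneg _)
      (exp_pos _).le).trans (le_of_eq ?_)
    rw [← exp_add, hκ]
    congr 1
    ring
  have n0 : (0 : ℝ) < (Q * envelope a b (τ * T) : ℕ) := by
    exact_mod_cast Nat.mul_pos q0 (fin_env_pos a b _)
  generalize Q * envelope a b (τ * T) = m at q2 n1 n0
  have r1 := Nat.le_ceil (exp (κ * T) / m)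
  have r2 := Nat.ceil_lt_add_one (div_nonneg (exp_pos (κ * T)).le n0.le)
  generalize ⌈exp (κ * T) / m⌉₊ = r at r1 r2
  rw [div_le_iff₀ n0] at r1
  rw [div_add_one n0.ne', lt_div_iff₀ n0] at r2
  have r0 : (0 : ℝ) < r * m := (exp_pos _).trans_le r1
  have r3 : (r : ℝ) ≠ 0 := left_ne_zero_of_mul r0.ne'
  have r4 : (N0 : ℝ) ≤ (r * m : ℕ) := by
    have := add_one_le_exp (κ * T)
    simp only [id] at e3
    push_cast
    linarith
  refine ⟨r * m, by exact_mod_cast r4, r * P, ?_, ?_⟩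
  · have := hx.ne_rational (r * P) (r * m : ℕ)
    rwa [Int.cast_natCast] at this
  · have s1 : ((r * P : ℤ) : ℝ) / (r * m : ℕ) = P / m := by
      push_cast
      field_simp
    have s2 : (((r * m : ℕ) : ℝ)) ^ μ ≤ 2 ^ μ * exp (κ * T * μ) := by
      rw [exp_mul, ← mul_rpow zero_le_two (exp_pos _).le]
      refine rpow_le_rpow (Nat.cast_nonneg _) ?_ (by linarith)
      push_cast
      linarith
    have s3 : (0 : ℝ) < (((r * m : ℕ) : ℝ)) ^ μ := rpow_pos_of_pos (by exact_mod_cast r0) _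
    rw [s1, lt_div_iff₀ s3]
    refine (mul_le_mul q2 s2 s3.le (exp_pos _).le).trans_lt ?_
    rw [mul_left_comm, ← exp_add, κ1, show -(κ * μ) * T + κ * T * μ = 0 by ring, exp_zero]
    linarith

end Pool.Agent.Lib.MP_c9a594_an
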