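import Mathlib

/-! Alternating forms attached to independent families. -/

open Finset Matrix

namespace Pool.Agent.Lib.MP_c9a594_an

variable {R k K : Type} [CommRing R] [IsDomain R] [Field k] [Algebra R k] [IsFractionRing R k]
  [AddCommGroup K] [Module k K] [Module R K] [IsScalarTower R k K] {n : ℕ}

lemma exists_coord {b : Fin n → K} (hb : LinearIndependent k b) :
    ∃ l : K →ₗ[k] Fin n → k, ∀ c : Fin n → k, l (∑ i, c i • b i) = c := by
  obtain ⟨l, hl⟩ := (Fintype.linearCombination k b).exists_leftInverse_of_injective
    (LinearMap.ker_eq_bot.mpr hb.fintypeLinearCombination_injective)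
  exact ⟨l, fun c => by simpa [Fintype.linearCombination_apply] using LinearMap.congr_fun hl c⟩

lemma cramer_rows {ι : Type} [Fintype ι] [DecidableEq ι] {S : Type} [CommRing S] (A : Matrix ι ι S)
    (c : ι → S) (j : ι) : A.det * c j = ∑ i, (A.updateRow i c).det * A i j := by
  have := congrFun (mulVec_cramer Aᵀ c) j
  simp only [mulVec, dotProduct, cramer_transpose_apply, transpose_apply, det_transpose,
    Pi.smul_apply, smul_eq_mul] at this
  rw [← this]
  exact sum_congr rfl fun i _ => mul_comm _ _

omit [IsDomain R] in
lemma exists_alt {b : Fin n → K} {l : K →ₗ[k] Fin n → k}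
    (hl : ∀ c : Fin n → k, l (∑ i, c i • b i) = c) (θ : k) (N : Submodule R K)
    (hN : ∀ z ∈ N, z ∈ Submodule.span k (Set.range b))
    (hint : ∀ x : Fin n → N, ∃ ρ, algebraMap R k ρ = θ * (of fun i => l (x i)).det) :
    ∃ D : N [⋀^Fin n]→ₗ[R] R, (∀ x, algebraMap R k (D x) = θ * (of fun i => l (x i)).det) ∧
      ∀ x z, D x • z = ∑ i, D (Function.update x i z) • x i := by
  choose d hd using hint
  have inj := IsFractionRing.injective R k
  have hu : ∀ (x : Fin n → N) i z,
      (of fun j => l (Function.update x i z j)) = (of fun j => l (x j)).updateRow i (l z) := by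
    intro x i z
    ext j j'
    by_cases h : j = i
    · subst h; simp
    · simp [h]
  refine ⟨{ toFun := d, map_update_add' := @fun dec x i y z => inj ?_,
            map_update_smul' := @fun dec x i c y => inj ?_,
            map_eq_zero_of_eq' := fun x i j h hij => inj ?_ }, hd, fun x z => ?_⟩
  · obtain rfl : dec = instDecidableEqFin n := Subsingleton.elim _ _
    simp only [map_add, hd, hu, Submodule.coe_add]
    exact (congrArg (θ * ·) (det_updateRow_add _ i (l y) (l z))).trans (mul_add _ _ _)
  · obtain rfl : dec = instDecidableEqFin n := Subsingleton.elim _ _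
    simp only [smul_eq_mul, map_mul, hd, hu, Submodule.coe_smul]
    rw [← algebraMap_smul k c, map_smul]
    exact (congrArg (θ * ·) (det_updateRow_smul _ i (algebraMap R k c) (l y))).trans
      (mul_left_comm _ _ _)
  · rw [hd, map_zero, det_zero_of_row_eq hij (by ext; simp [h]), mul_zero]
  · have hr : ∀ z : N, (z : K) = ∑ j, l z j • b j := fun z => by
      obtain ⟨c, hc⟩ := (Submodule.mem_span_range_iff_exists_fun k).mp (hN z z.2)
      rw [← hc, hl]
    apply Subtype.ext
    simp only [AlternatingMap.coe_mk, MultilinearMap.coe_mk, Submodule.coe_smul,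
      Submodule.coe_sum]
    simp only [← algebraMap_smul k (d _), hd, hu]
    conv_lhs => rw [hr z]
    conv_rhs => enter [2, i]; rw [hr (x i)]
    simp only [smul_sum, smul_smul]
    rw [sum_comm]
    refine sum_congr rfl fun j _ => ?_
    rw [← sum_smul, mul_assoc, cramer_rows, mul_sum]
    simp [mul_assoc]

end Pool.Agent.Lib.MP_c9a594_an
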