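import Pool.Agent.Lib.MP_c9a594_an.SharpPl

/-! A generic frame of a finitely generated module of integers. -/

open MvPolynomial Finset Matrix

namespace Pool.Agent.Lib.MP_c9a594_an

variable {K Pl : Type} [Field K] [CharZero K] [Fintype Pl] [Nonempty Pl] {r : ℕ} (X : Ctx2 K Pl r)
  (k : Type) [Field k] [Algebra (PR r) k] [IsFractionRing (PR r) k] [Algebra k K]
  [Algebra (PR r) K] [IsScalarTower (PR r) k K] [IsScalarTower ℚ (PR r) K]
  (halg : ∀ F, algebraMap (PR r) K F = aeval X.g F)

include halg in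
theorem Ctx2.frame [DecidableEq Pl] {J : Type} [Fintype J] (V : J → K) (hVA : ∀ j, V j ∈ X.A)
    {o : Pl → ℝ} (hV : ∀ v j, V j ∈ X.B v (o v)) :
    ∃ (s : ℕ) (W : Option (Fin s) → K) (f : Option (Fin s) → PR r)
      (φ : Option (Fin s) → Option (Fin s) → Submodule.span (PR r) (Set.range V) →ₗ[PR r] PR r),
      s ≤ Fintype.card J ∧ (∀ i, W i ∈ X.A) ∧ (∀ v i, W i ∈ X.B v (o v)) ∧ f none ≠ 0 ∧
      ∑ j, f j • W j = 0 ∧ (∀ π, Prime π → 0 < ht X.w π → ∃ j, ¬ π ∣ f j) ∧
      (∀ x : Option (Fin s) → k, x none = 0 → ∑ j, x j • W j = 0 → x = 0) ∧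
      (∀ v j, f j ∈ Bd (X.w v) (gn (X.w v) (f none))) ∧
      (∀ v i j a, φ i j ⟨V a, Submodule.subset_span ⟨a, rfl⟩⟩ ∈ Bd (X.w v) (gn (X.w v) (f none))) ∧
      (∀ i j z, f none * φ i j z = φ i none z * f j - φ j none z * f i) ∧
      (∀ z : Submodule.span (PR r) (Set.range V), f none • (z : K) = ∑ i, φ i none z • W i) ∧
      ht X.w (f none) ≤ s * ∑ v, o v ∧
      ∀ i j (z : Submodule.span (PR r) (Set.range V)) v c, (z : K) ∈ X.B v c → φ i j z ∈
        Bd (X.w v) (c - o v + s * ∑ v, o v - (ht X.w (f none) - gn (X.w v) (f none))) := by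
  classical
  have inj := IsFractionRing.injective (PR r) k
  obtain ⟨κ, a0, ha0, hsp, hli⟩ := exists_linearIndependent' k V
  have := Fintype.ofInjective a0 ha0
  set s := Fintype.card κ
  let a : Fin s → J := a0 ∘ (Fintype.equivFin κ).symm
  have hli' : LinearIndependent k (V ∘ a) := hli.comp _ (Fintype.equivFin κ).symm.injective
  have hsp' : Submodule.span k (Set.range (V ∘ a)) = Submodule.span k (Set.range V) := by
    rw [← hsp, ← Function.comp_assoc, (Fintype.equivFin κ).symm.surjective.range_comp]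
  obtain ⟨l, hl⟩ := exists_coord hli'
  have ha : (of fun i => l (V (a i))).det ≠ 0 := by
    have : (of fun i => l (V (a i))) = 1 := by
      ext i j
      have := congrFun (hl (Pi.single i 1)) j
      simp only [Pi.single_apply, ite_smul, one_smul, zero_smul, sum_ite_eq', mem_univ,
        if_true, Function.comp_apply] at this
      simp [this, one_apply, eq_comm]
    simp [this]
  obtain ⟨θ, π, hθ, hπ, hπp⟩ := exists_primitive (R := PR r)
    (fun I : Fin s → J => (of fun i => l (V (I i))).det) ⟨a, ha⟩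
  set N := Submodule.span (PR r) (Set.range V)
  obtain ⟨D, hD, hcr⟩ := exists_alt hl θ N
    (fun z hz => hsp' ▸ Submodule.span_le_restrictScalars (PR r) k _ hz) fun x =>
      multilinear_mem (S := PR r)
        (θ • (detRowAlternating (n := Fin s) (R := k)).compLinearMap l).toMultilinearMap
        (LinearMap.range (Algebra.linearMap (PR r) k)) (fun _ => Set.range V) (fun t ht => by
          choose I hI using ht
          rw [← funext hI]
          exact ⟨π I, hπ I⟩) (x := fun i => x i) fun i => (x i).2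
  let Y : J → N := fun j => ⟨V j, Submodule.subset_span ⟨j, rfl⟩⟩
  have hY : ∀ I, D (Y ∘ I) = π I := fun I => inj (by rw [hD, hπ]; rfl)
  have hπ0 : ∃ I, π I ≠ 0 := ⟨a, fun h => mul_ne_zero hθ ha (by rw [← hπ, h, map_zero])⟩
  choose I hI hI' using fun v => exists_max_image (univ.filter fun I => π I ≠ 0)
    (fun I => gn (X.w v) (π I)) (hπ0.imp fun I h => by simpa)
  simp only [mem_filter, mem_univ, true_and] at hI hI'
  choose ε hε hε' using fun v => exists_gn (X.w v) (hI v)
  set L := Submodule.span ℚ (Set.range Y)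
  have hYL : ∀ j, Y j ∈ L := fun j => Submodule.subset_span ⟨j, rfl⟩
  have hDL : ∀ v x, (∀ i, x i ∈ L) → D x ∈ Bd (X.w v) (gn (X.w v) (π (I v))) := fun v x hx =>
    multilinear_mem D.toMultilinearMap _ (fun _ => Set.range Y) (fun t ht => by
      choose J hJ using ht
      rw [← funext hJ]
      change D (Y ∘ J) ∈ _
      rw [hY]
      by_cases h : π J = 0
      · rw [h]; exact Submodule.zero_mem _
      · exact Bd_mono (hI' v J h) (mem_Bd_gn _ _)) hx
  have hLB : ∀ v, ∀ z ∈ L, (z : K) ∈ X.B v (o v) := fun v z hz =>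
    (Submodule.span_le (p := (X.B v (o v)).comap (N.subtype.restrictScalars ℚ))).mpr
      (by rintro _ ⟨j, rfl⟩; exact hV v j) hz
  have hNA : ∀ z : N, (z : K) ∈ X.A := fun z => by
    obtain ⟨c, hc⟩ := (Submodule.mem_span_range_iff_exists_fun _).mp z.2
    exact hc ▸ X.comb_A halg V hVA c
  have hYp : ∀ p, Prime p → 0 < ht X.w p → ∃ I : Fin s → J, ¬ p ∣ D (Y ∘ I) := fun p hp _ => by
    simpa only [hY] using hπp p hp
  obtain ⟨Z, Z0, hZ, hZ0, hZ1, hZ2, hZ3⟩ := bertini D L {p | Prime p ∧ 0 < ht X.w p}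
    (fun p h => h.1) (fun p h => (hYp p h.1 h.2).elim fun I hI => ⟨Y ∘ I, fun _ => hYL _, hI⟩)
    (fun v => LinearMap.ker (lcoeff ℚ (ε v))) (fun v => ⟨Y ∘ I v, fun _ => hYL _, by
      simpa [hY] using hε v⟩) (hπ0.elim fun I h => ⟨Y ∘ I, fun _ => hYL _, by rwa [hY]⟩) 0
  simp only [Pi.zero_apply, sub_zero] at hZ
  have hμ : ∀ v, gn (X.w v) (π (I v)) = gn (X.w v) (D Z) := fun v =>
    le_antisymm (hε' v ▸ le_gn (by simpa using hZ2 v)) (gn_le hZ1 (hDL v Z hZ))
  simp only [hμ] at hDL
  have hup : ∀ {t : Fin s → N} {z : N} (i : Fin s), (∀ i, t i ∈ L) → z ∈ L →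
      ∀ j, Function.update t i z j ∈ L := fun {t z} i ht hz j => by
    by_cases h : j = i
    · subst h; simpa
    · simpa [h] using ht j
  have gf := X.gf N.subtype.toAddMonoidHom (fun F z => by simp [Algebra.smul_def, halg])
    Subtype.val_injective hNA D hcr Y hYp
  let Dl := D.toMultilinearMap.toLinearMap
  have hDl : ∀ t i z, Dl t i z = D (Function.update t i z) := fun _ _ _ => rfl
  let φ : Option (Fin s) → Option (Fin s) → N →ₗ[PR r] PR r := fun i j =>
    i.elim (j.elim 0 fun j => -Dl Z j) fun i => j.elim (Dl Z i) fun j =>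
      if i = j then 0 else Dl (Function.update Z i Z0) j
  have hφ : ∀ i j, φ i j = 0 ∨ ∃ t l, (∀ i, t i ∈ L) ∧ (φ i j = Dl t l ∨ φ i j = -Dl t l) := by
    rintro (_ | i) (_ | j)
    · exact Or.inl rfl
    · exact Or.inr ⟨Z, j, hZ, Or.inr rfl⟩
    · exact Or.inr ⟨Z, i, hZ, Or.inl rfl⟩
    · by_cases h : i = j
      · exact Or.inl (if_pos h)
      · exact Or.inr ⟨_, j, hup i hZ hZ0, Or.inl (if_neg h)⟩
  refine ⟨s, fun i => i.elim Z0 fun i => Z i,
    fun i => i.elim (D Z) fun i => -D (Function.update Z i Z0), φ, Fintype.card_le_of_injective _ ha0,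
    ?_, ?_, hZ1, ?_, ?_, ?_, ?_, ?_, ?_, ?_, ?_, ?_⟩
  · rintro (_ | i) <;> exact hNA _
  · rintro v (_ | i)
    exacts [hLB v _ hZ0, hLB v _ (hZ i)]
  · have := congrArg Subtype.val (hcr Z Z0)
    simp only [Submodule.coe_smul, Submodule.coe_sum] at this
    simp [Fintype.sum_option, this]
  · intro p h1 h2
    by_cases h : p ∣ D Z
    · obtain ⟨i, hi⟩ := hZ3 p ⟨h1, h2⟩ h
      exact ⟨some i, by simpa⟩
    · exact ⟨none, h⟩
  · intro x h0 hx
    simp only [Fintype.sum_option, h0, zero_smul, zero_add, Option.elim] at hx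
    have h1 : (of fun i => l (Z i)).det ≠ 0 := fun h => hZ1 (inj (by rw [hD, h]; simp))
    have h2 := eq_zero_of_vecMul_eq_zero h1 (v := fun i => x (some i)) (by
      ext j
      simpa [vecMul, dotProduct] using congrFun (congrArg l hx) j)
    ext (_ | i)
    exacts [h0, congrFun h2 i]
  · rintro v (_ | j)
    exacts [mem_Bd_gn _ _, Submodule.neg_mem _ (hDL v _ (hup j hZ hZ0))]
  · intro v i j b
    rcases hφ i j with h | ⟨t, l, ht, h | h⟩ <;> rw [h]
    exacts [Submodule.zero_mem _, hDL v _ (hup l ht (hYL b)),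
      Submodule.neg_mem _ (hDL v _ (hup l ht (hYL b)))]
  · rintro (_ | i) (_ | j) z
    · simp [φ]
    · simp [φ, mul_comm]
    · simp [φ, mul_comm]
    · by_cases h : i = j
      · simp [φ, h]
      simp only [φ, Option.elim, if_neg h]
      rw [← smul_eq_mul, ← map_smul, hcr, map_sum, ← add_sum_erase _ _ (mem_univ j),
        ← add_sum_erase _ _ (mem_erase.mpr ⟨h, mem_univ i⟩), sum_eq_zero fun m hm => ?_]
      · have e1 : Function.update (Function.update Z i Z0) j (Z j) = Function.update Z i Z0 := by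
          rw [Function.update_eq_self_iff, Function.update_of_ne (Ne.symm h)]
        have e2 := D.map_swap (Function.update Z j Z0) h
        rw [Equiv.comp_swap_eq_update, Function.update_idem, Function.update_self,
          Function.update_of_ne h, Function.update_comm (Ne.symm h)] at e2
        rw [map_smul, map_smul]
        simp only [hDl, e1, e2, smul_eq_mul]
        ring
      · obtain ⟨h1, h2⟩ := mem_erase.mp hm
        rw [map_smul, hDl, D.map_eq_zero_of_eq (Function.update (Function.update Z i Z0) j (Z m))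
          (i := j) (j := m) (by simp [h1, (mem_erase.mp h2).1]) (mem_erase.mp h2).1.symm, smul_zero]
  · intro z
    have := congrArg Subtype.val (hcr Z z)
    simp only [Submodule.coe_smul, Submodule.coe_sum] at this
    simp [Fintype.sum_option, this, φ, hDl]
  · simpa [mul_sum, ht] using gf (fun _ => Z) (fun _ => hZ1) (fun v _ => o v) fun v i => hLB v _ (hZ i)
  · intro i j z v c hz
    have key : ∀ t l, (∀ i, t i ∈ L) → Dl t l z ∈
        Bd (X.w v) (c - o v + s * ∑ v, o v - (ht X.w (D Z) - gn (X.w v) (D Z))) := by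
      intro t l htL
      by_cases h0 : Dl t l z = 0
      · rw [h0]; exact Submodule.zero_mem _
      refine Bd_mono ?_ (mem_Bd_gn _ _)
      have := gf (Function.update (fun _ => Z) v (Function.update t l z))
        (fun v' => by
          by_cases h : v' = v
          · subst h; simpa [hDl] using h0
          · simpa [h] using hZ1)
        (fun v' i => o v' + if v' = v ∧ i = l then c - o v else 0) fun v' i => by
          by_cases h : v' = v
          · subst h
            by_cases h' : i = l
            · subst h'; simpa using hz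
            · simpa [h'] using hLB _ _ (htL i)
          · simpa [h] using hLB _ _ (hZ i)
      rw [← add_sum_erase _ _ (mem_univ v), Function.update_self,
        sum_congr rfl (g := fun v' => gn (X.w v') (D Z)) fun v' hv' => by
          rw [Function.update_of_ne (mem_erase.mp hv').1]] at this
      have e := add_sum_erase univ (fun v' => gn (X.w v') (D Z)) (mem_univ v)
      simp only [sum_add_distrib, sum_const, card_univ, Fintype.card_fin, nsmul_eq_mul, ite_and,
        sum_ite_irrel, sum_ite_eq', mem_univ, if_true, mul_zero, ← mul_sum] at this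
      rw [hDl, ht]
      linarith
    rcases hφ i j with h | ⟨t, l, ht, h | h⟩ <;> rw [h]
    exacts [Submodule.zero_mem _, key t l ht, Submodule.neg_mem _ (key t l ht)]

end Pool.Agent.Lib.MP_c9a594_an
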