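import Pool.Agent.Lib.MP_c9a594_an.Folner

/-! Gauss norms, heights and primitive families of polynomials. -/

open MvPolynomial Finset

namespace Pool.Agent.Lib.MP_c9a594_an

/-- Polynomials in `r` variables. -/
abbrev PR (r : ℕ) : Type := MvPolynomial (Fin r) ℚ

variable {r : ℕ}

/-- Polynomials all of whose monomials have weight at most `β`. -/
def Bd (w : Fin r → ℝ) (β : ℝ) : Submodule ℚ (PR r) where
  carrier := {F | ∀ e ∈ F.support, Finsupp.weight w e ≤ β}
  zero_mem' := by simp
  add_mem' := by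
    intro F G hF hG e he
    rcases mem_union.mp (support_add he) with h | h
    exacts [hF e h, hG e h]
  smul_mem' := fun c F hF e he => hF e (support_smul he)

/-- The largest weight of a monomial. -/
noncomputable def gn (w : Fin r → ℝ) (F : PR r) : ℝ :=
  if h : F.support.Nonempty then F.support.sup' h (Finsupp.weight w) else 0

section

variable {w : Fin r → ℝ} {F G : PR r} {β β' : ℝ}

lemma mem_Bd : F ∈ Bd w β ↔ ∀ e ∈ F.support, Finsupp.weight w e ≤ β := Iff.rfl

lemma Bd_mono (h : β ≤ β') : Bd w β ≤ Bd w β' := fun _ hF e he => (hF e he).trans h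

lemma le_gn {e : Fin r →₀ ℕ} (he : e ∈ F.support) : Finsupp.weight w e ≤ gn w F := by
  rw [gn, dif_pos ⟨e, he⟩]
  exact le_sup' _ he

lemma mem_Bd_gn (w : Fin r → ℝ) (F : PR r) : F ∈ Bd w (gn w F) := fun _ he => le_gn he

lemma exists_gn (w : Fin r → ℝ) (h : F ≠ 0) : ∃ e ∈ F.support, Finsupp.weight w e = gn w F := by
  rw [gn, dif_pos (support_nonempty.mpr h)]
  obtain ⟨e, he, h1⟩ := exists_mem_eq_sup' (support_nonempty.mpr h) (Finsupp.weight w)
  exact ⟨e, he, h1.symm⟩

lemma gn_le (h : F ≠ 0) (hF : F ∈ Bd w β) : gn w F ≤ β := by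
  obtain ⟨e, he, h1⟩ := exists_gn w h
  exact h1 ▸ hF e he

lemma Bd_mul (hF : F ∈ Bd w β) (hG : G ∈ Bd w β') : F * G ∈ Bd w (β + β') := by
  intro e he
  obtain ⟨a, ha, b, hb, rfl⟩ := mem_add.mp (support_mul _ _ he)
  rw [map_add]
  exact add_le_add (hF a ha) (hG b hb)

lemma gn_mul (hF : F ≠ 0) (hG : G ≠ 0) : gn w (F * G) = gn w F + gn w G := by
  refine le_antisymm (gn_le (mul_ne_zero hF hG) (Bd_mul (mem_Bd_gn w F) (mem_Bd_gn w G))) ?_
  obtain ⟨a, ha, ha'⟩ := exists_lead w hF
  obtain ⟨b, hb, hb'⟩ := exists_lead w hG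
  have h := le_gn (w := w) (lead_mem w ha hb ha' hb')
  rw [map_add] at h
  exact le_trans (add_le_add (gn_le hF fun e he => weight_le_of_key w (ha' e he))
    (gn_le hG fun e he => weight_le_of_key w (hb' e he))) h

lemma monomial_mem_Bd {e : Fin r →₀ ℕ} (h : Finsupp.weight w e ≤ β) (c : ℚ) :
    monomial e c ∈ Bd w β := fun a ha => by
  have : a = e := by simpa using support_monomial_subset ha
  rwa [this]

lemma gn_monomial (e : Fin r →₀ ℕ) {c : ℚ} (hc : c ≠ 0) :
    gn w (monomial e c) = Finsupp.weight w e :=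
  le_antisymm (gn_le (by simpa) (monomial_mem_Bd le_rfl c)) (le_gn (by simpa))

lemma gn_one : gn w 1 = 0 := by simpa using gn_monomial (w := w) 0 one_ne_zero

lemma gn_neg : gn w (-F) = gn w F := by simp [gn]

lemma gn_pow (hF : F ≠ 0) (n : ℕ) : gn w (F ^ n) = n * gn w F := by
  induction n with
  | zero => simp [gn_one]
  | succ n ih => rw [pow_succ, gn_mul (pow_ne_zero _ hF) hF, ih]; push_cast; ring

lemma prod_mem_Bd {ι : Type*} (s : Finset ι) {f : ι → PR r} {c : ι → ℝ}
    (h : ∀ i ∈ s, f i ∈ Bd w (c i)) : ∏ i ∈ s, f i ∈ Bd w (∑ i ∈ s, c i) := by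
  classical
  induction s using Finset.induction_on with
  | empty => simpa using monomial_mem_Bd (w := w) (e := 0) (β := 0) (by simp) 1
  | insert a s ha ih =>
    rw [prod_insert ha, sum_insert ha]
    exact Bd_mul (h a (mem_insert_self _ _)) (ih fun i hi => h i (mem_insert_of_mem hi))

lemma det_mem_Bd {ι : Type*} [Fintype ι] [DecidableEq ι] {M : Matrix ι ι (PR r)} {α γ : ι → ℝ}
    (h : ∀ i j, M i j ∈ Bd w (α i + γ j)) : M.det ∈ Bd w (∑ i, α i + ∑ i, γ i) := by
  rw [Matrix.det_apply]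
  refine Submodule.sum_mem _ fun σ _ => ?_
  have := prod_mem_Bd (w := w) univ fun i _ => h (σ i) i
  rw [sum_add_distrib, Equiv.sum_comp σ α] at this
  rcases Int.units_eq_one_or (Equiv.Perm.sign σ) with h | h <;> simp [h, this]

/-- A perturbation of smaller weight does not lower the norm. -/
lemma gn_le_of_sub (hF : F ≠ 0) (h : G - F ∈ Bd w β) (hβ : β < gn w F) :
    G ≠ 0 ∧ gn w F ≤ gn w G := by
  obtain ⟨e, he, h1⟩ := exists_gn w hF
  have : e ∈ G.support := by
    by_contra hc
    refine absurd (h e ?_) (not_le.mpr (h1 ▸ hβ))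
    rw [mem_support_iff, coeff_sub, notMem_support_iff.mp hc, zero_sub, neg_ne_zero]
    exact mem_support_iff.mp he
  exact ⟨support_nonempty.mp ⟨e, this⟩, h1 ▸ le_gn this⟩

end

section ht

variable {Pl : Type} [Fintype Pl] (W : Pl → Fin r → ℝ)

/-- The height of a polynomial. -/
noncomputable def ht (F : PR r) : ℝ := ∑ v, gn (W v) F

variable {W}

lemma sum_weight (hW : ∀ i, ∑ v, W v i = 0) (e : Fin r →₀ ℕ) :
    ∑ v, Finsupp.weight (W v) e = 0 := by
  simp only [Finsupp.weight_eq_sum]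
  rw [sum_comm]
  exact sum_eq_zero fun i _ => by rw [← smul_sum, hW, smul_zero]

lemma ht_nonneg (hW : ∀ i, ∑ v, W v i = 0) {F : PR r} (h : F ≠ 0) : 0 ≤ ht W F := by
  obtain ⟨e, he⟩ := support_nonempty.mpr h
  exact (sum_weight hW e).ge.trans (sum_le_sum fun v _ => le_gn he)

lemma ht_mul {F G : PR r} (hF : F ≠ 0) (hG : G ≠ 0) : ht W (F * G) = ht W F + ht W G := by
  simp only [ht, gn_mul hF hG, sum_add_distrib]

lemma ht_monomial (hW : ∀ i, ∑ v, W v i = 0) (e : Fin r →₀ ℕ) {c : ℚ} (hc : c ≠ 0) :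
    ht W (monomial e c) = 0 := by
  simp only [ht, gn_monomial e hc, sum_weight hW]

lemma ht_eq_zero (hW : ∀ i, ∑ v, W v i = 0) {F : PR r} (h : F ≠ 0)
    (hp : ∀ π, Prime π → π ∣ F → ht W π ≤ 0) : ht W F = 0 := by
  induction F using UniqueFactorizationMonoid.induction_on_prime with
  | h₁ => exact absurd rfl h
  | h₂ x hx =>
    obtain ⟨y, hy⟩ := hx.exists_right_inv
    have h1 : y ≠ 0 := right_ne_zero_of_mul_eq_one hy
    have h2 := ht_mul (W := W) h h1
    have h3 : ht W (1 : PR r) = 0 := by simp [ht, gn_one]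
    rw [hy, h3] at h2
    linarith [ht_nonneg hW h, ht_nonneg hW h1]
  | h₃ a p ha hpp ih =>
    rw [ht_mul hpp.ne_zero ha, ih ha fun π h1 h2 => hp π h1 (h2.mul_left p), add_zero]
    exact le_antisymm (hp p hpp (dvd_mul_right _ _)) (ht_nonneg hW hpp.ne_zero)

/-- A prime of positive height does not divide a monomial. -/
lemma not_dvd_monomial (hW : ∀ i, ∑ v, W v i = 0) {π : PR r} (h : 0 < ht W π) (e : Fin r →₀ ℕ) :
    ¬ π ∣ monomial e 1 := by
  rintro ⟨G, hG⟩
  have h0 : π * G ≠ 0 := by rw [← hG]; simp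
  have := ht_mul (W := W) (left_ne_zero_of_mul h0) (right_ne_zero_of_mul h0)
  rw [← hG, ht_monomial hW e one_ne_zero] at this
  linarith [ht_nonneg hW (right_ne_zero_of_mul h0)]

end ht

/-- Values of a multilinear map on spans. -/
lemma multilinear_mem {S R M N ι : Type*} [CommRing S] [CommRing R] [AddCommGroup M]
    [AddCommGroup N] [Module R M] [Module R N] [Module S M] [Module S N] [Algebra S R]
    [IsScalarTower S R M] [IsScalarTower S R N] [Fintype ι]
    (f : MultilinearMap R (fun _ : ι => M) N) (P : Submodule S N) (T : ι → Set M)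
    (h : ∀ t, (∀ i, t i ∈ T i) → f t ∈ P) {x : ι → M} (hx : ∀ i, x i ∈ Submodule.span S (T i)) :
    f x ∈ P := by
  classical
  have key : ∀ s : Finset ι, ∀ x : ι → M, (∀ i, x i ∈ Submodule.span S (T i)) →
      (∀ i ∉ s, x i ∈ T i) → f x ∈ P := by
    intro s
    induction s using Finset.induction_on with
    | empty => exact fun x _ h2 => h x fun i => h2 i (by simp)
    | insert a s ha ih =>
      intro x h1 h2
      have : ∀ z ∈ Submodule.span S (T a), f (Function.update x a z) ∈ P := by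
        intro z hz
        induction hz using Submodule.span_induction with
        | mem z hz =>
          refine ih _ (fun i => ?_) fun i hi => ?_
          · by_cases e : i = a
            · subst e; simpa using Submodule.subset_span hz
            · simpa [e] using h1 i
          · by_cases e : i = a
            · subst e; simpa using hz
            · simpa [e] using h2 i (by simp [e, hi])
        | zero => simp
        | add y z _ _ hy hz => rw [f.map_update_add]; exact P.add_mem hy hz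
        | smul c y _ hy =>
          rw [← algebraMap_smul R c y, f.map_update_smul, algebraMap_smul]
          exact P.smul_mem c hy
      simpa using this _ (h1 a)
  exact key univ x hx (by simp)

section primitive

variable {R k A : Type*} [CommRing R] [IsDomain R] [UniqueFactorizationMonoid R] [Field k]
  [Algebra R k] [IsFractionRing R k] [Fintype A]

lemma exists_primitive (c : A → k) (h : ∃ a, c a ≠ 0) : ∃ (θ : k) (c' : A → R), θ ≠ 0 ∧
    (∀ a, algebraMap R k (c' a) = θ * c a) ∧ ∀ π, Prime π → ∃ a, ¬ π ∣ c' a := by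
  classical
  obtain ⟨a0, ha0⟩ := h
  obtain ⟨b, hb⟩ := IsLocalization.exist_integer_multiples_of_finite (nonZeroDivisors R) c
  have hb0 : algebraMap R k b ≠ 0 :=
    (map_ne_zero_iff _ (IsFractionRing.injective R k)).mpr (nonZeroDivisors.coe_ne_zero b)
  choose c1 hc1 using hb
  obtain ⟨_, ⟨c', ⟨θ, hθ, h1⟩, rfl⟩, hmin⟩ := (wellFounded_dvdNotUnit (α := R)).has_min
    ((fun c' : A → R => c' a0) '' {c' | ∃ θ : k, θ ≠ 0 ∧ ∀ a, algebraMap R k (c' a) = θ * c a})
    ⟨_, c1, ⟨_, hb0, fun a => by rw [hc1, Algebra.smul_def]⟩, rfl⟩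
  refine ⟨θ, c', hθ, h1, fun π hπ => ?_⟩
  by_contra! hc
  choose c2 hc2 using hc
  have hπ0 : algebraMap R k π ≠ 0 :=
    (map_ne_zero_iff _ (IsFractionRing.injective R k)).mpr hπ.ne_zero
  refine hmin (c2 a0) ⟨c2, ⟨θ / algebraMap R k π, div_ne_zero hθ hπ0, fun a => ?_⟩, rfl⟩
    ⟨fun h0 => ?_, π, hπ.not_isUnit, by rw [mul_comm]; exact hc2 a0⟩
  · rw [div_mul_eq_mul_div, eq_div_iff hπ0, ← h1, hc2, map_mul, mul_comm]
  · have := h1 a0
    rw [hc2, h0, mul_zero, map_zero] at this
    exact mul_ne_zero hθ ha0 this.symm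

omit [Fintype A] in
lemma int_of_primitive {c : A → R} (hc : ∀ π, Prime π → ∃ a, ¬ π ∣ c a) {ψ : k}
    (h : ∀ a, ∃ ρ, algebraMap R k ρ = ψ * algebraMap R k (c a)) : ∃ ρ, algebraMap R k ρ = ψ := by
  choose ρ hρ using h
  obtain ⟨x, y, hxy, rfl⟩ := IsFractionRing.exists_reduced_fraction R ψ
  have hy0 : algebraMap R k y ≠ 0 :=
    (map_ne_zero_iff _ (IsFractionRing.injective R k)).mpr (nonZeroDivisors.coe_ne_zero y)
  have hu : IsUnit (y : R) := by
    by_contra hu
    obtain ⟨π, hπ, hd⟩ := WfDvdMonoid.exists_irreducible_factor hu (nonZeroDivisors.coe_ne_zero y)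
    replace hπ := hπ.prime
    obtain ⟨a, ha⟩ := hc π hπ
    have h1 : y * ρ a = x * c a := IsFractionRing.injective R k (by
      rw [map_mul, map_mul, hρ, IsFractionRing.mk'_eq_div]; field_simp)
    rcases hπ.dvd_or_dvd (h1 ▸ hd.mul_right (ρ a) : π ∣ x * c a) with h2 | h2
    exacts [hπ.not_isUnit (hxy h2 hd), ha h2]
  obtain ⟨z, hz⟩ := hu.exists_right_inv
  refine ⟨x * z, ?_⟩
  rw [IsFractionRing.mk'_eq_div, eq_div_iff hy0, ← map_mul, mul_assoc, mul_comm z, hz, mul_one]

end primitive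

end Pool.Agent.Lib.MP_c9a594_an
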