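import Pool.Agent.Lib.MP_c9a594_an.SharpCtx
import Pool.Agent.Lib.MP_c9a594_an.SharpGauss
import Pool.Agent.Lib.MP_c9a594_an.SharpBertini

/-! The height of a finitely generated module of integers is nonnegative. -/

open MvPolynomial Finset Filter

namespace Pool.Agent.Lib.MP_c9a594_an

namespace Ctx2

variable {K Pl : Type} [Field K] [CharZero K] [Fintype Pl] {r : ℕ} (X : Ctx2 K Pl r)

/-- The weights of the variables at a place. -/
noncomputable def w (v : Pl) : Fin r → ℝ := fun i => X.ord v (X.g i)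

lemma wt_eq (v : Pl) (e : Fin r →₀ ℕ) : X.wt X.g v e = Finsupp.weight (X.w v) e := rfl

lemma sum_w (i : Fin r) : ∑ v, X.w v i = 0 := X.sum_g i

lemma aeval_ne {F : PR r} (h : F ≠ 0) : aeval X.g F ≠ 0 := fun h0 => h (X.inj F h0)

lemma g_O (i : Fin r) : X.g i ∈ X.O :=
  X.mem_O _ (X.g_A i) (by simpa using X.aeval_ne (X_ne_zero (R := ℚ) i))

lemma aeval_A (F : PR r) : aeval X.g F ∈ X.A := by
  induction F using MvPolynomial.induction_on with
  | C a => rw [aeval_C]; exact X.A.algebraMap_mem a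
  | add p q hp hq => rw [map_add]; exact X.A.add_mem hp hq
  | mul_X p i hp => rw [map_mul, aeval_X]; exact X.A.mul_mem hp (X.g_A i)

lemma mon_B (v : Pl) (e : Fin r →₀ ℕ) : mon X.g e ∈ X.B v (Finsupp.weight (X.w v) e) := by
  induction e using Finsupp.induction_linear with
  | zero => simpa [mon] using X.one_B v
  | add a b ha hb => rw [mon_add, map_add]; exact X.mul_B v _ _ _ ha _ hb
  | single i n =>
    induction n with
    | zero => simpa [mon] using X.one_B v
    | succ n ih =>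
      rw [Finsupp.single_add, mon_add, map_add]
      refine X.mul_B v _ _ _ ih _ ?_
      have e1 : mon X.g (Finsupp.single i 1) = X.g i := by
        rw [mon, prod_eq_single i (fun j _ hj => by simp [hj.symm]) (by simp)]; simp
      rw [e1, Finsupp.weight_single, one_smul]
      exact X.g_B v i

lemma aeval_B {v : Pl} {F : PR r} {β : ℝ} (h : F ∈ Bd (X.w v) β) : aeval X.g F ∈ X.B v β := by
  rw [aeval_eq_sum]
  exact Submodule.sum_mem _ fun e he =>
    Submodule.smul_mem _ _ (X.B_mono v (h e he) (X.mon_B v e))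

lemma aeval_mul_B {v : Pl} {F : PR r} {β β' : ℝ} {z : K} (h : F ∈ Bd (X.w v) β)
    (hz : z ∈ X.B v β') : aeval X.g F * z ∈ X.B v (β + β') :=
  X.mul_B v _ _ _ (X.aeval_B h) _ hz

lemma sum_ord_nonneg {z : K} (hz : z ∈ X.A) (h0 : z ≠ 0) : 0 ≤ ∑ v, X.ord v z := by
  have hi : LinearIndependent ℚ fun _ : Fin 1 => z := by
    rwa [linearIndependent_unique_iff]
  simpa using X.sub 1 (fun _ => z) (fun _ _ => z) (fun _ => X.mem_O z hz h0)
    (fun _ _ => X.mem_O z hz h0) hi (fun _ => hi) fun _ _ => Submodule.subset_span ⟨0, rfl⟩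

lemma ord_aeval {F : PR r} (hF : F ≠ 0) (v : Pl) : X.ord v (aeval X.g F) = gn (X.w v) F := by
  classical
  have h1 : ∀ v, X.ord v (aeval X.g F) ≤ gn (X.w v) F := fun v =>
    X.ord_le v _ _ (X.aeval_A F) (X.aeval_ne hF) (X.aeval_B (mem_Bd_gn _ F))
  choose e he he' using fun v => exists_gn (X.w v) hF
  have h2 := X.folner v X.g_O X.sum_g (E := fun j : Option Unit => j.elim 1 fun _ => aeval X.g F)
    (by rintro (_ | j); exacts [X.O.one_mem, X.mem_O _ (X.aeval_A F) (X.aeval_ne hF)])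
    (fun j => j.elim F fun _ => -1) (by simp [Fintype.sum_option])
    (fun Ψ hΨ => by
      refine ⟨-Ψ (some ()), ?_⟩
      have := X.inj (Ψ none + Ψ (some ()) * F) (by simpa [Fintype.sum_option] using hΨ)
      rintro (_ | j)
      · simpa using eq_neg_of_add_eq_zero_left this
      · simp) (fun _ => none) e he
  simp only [Fintype.sum_option, Option.elim, X.ord_one, zero_add, sum_const_zero, wt_eq, he',
    univ_unique, sum_singleton] at h2
  have h3 := (sum_eq_sum_iff_of_le fun v _ => h1 v).mp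
    (le_antisymm (sum_le_sum fun v _ => h1 v) h2)
  exact h3 v (mem_univ v)

variable {M : Type} [AddCommGroup M] [Module (PR r) M] (ev : M →+ K)
  (hev : ∀ (F : PR r) (z : M), ev (F • z) = aeval X.g F * ev z) (hinj : Function.Injective ev)
  (hA : ∀ z, ev z ∈ X.A) {n : ℕ} (D : M [⋀^Fin n]→ₗ[PR r] PR r)
  (hcr : ∀ x z, D x • z = ∑ i, D (Function.update x i z) • x i)

include hev hinj hA hcr in
lemma gf0 [Nonempty Pl] (Z : Fin n → M) (Z0 : M) (hZ : D Z ≠ 0)
    (hp : ∀ π, Prime π → 0 < ht X.w π → π ∣ D Z → ∃ i, ¬ π ∣ D (Function.update Z i Z0)) :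
    ht X.w (D Z) ≤ ∑ i, ∑ v, X.ord v (ev (Z i)) := by
  classical
  have hne : ∀ i, ev (Z i) ≠ 0 := fun i h =>
    hZ (D.map_coord_zero i (hinj (h.trans (map_zero ev).symm)))
  by_cases h0 : ev Z0 = 0
  · have h1 : Z0 = 0 := hinj (h0.trans (map_zero ev).symm)
    rw [ht_eq_zero X.sum_w hZ fun π hπ hd => ?_]
    · exact sum_nonneg fun i _ => X.sum_ord_nonneg (hA _) (hne i)
    by_contra! hc
    obtain ⟨i, hi⟩ := hp π hπ hc hd
    exact hi (by simp [h1])
  obtain ⟨G, Φ, hG, hΦ, hker⟩ := exists_generator X.inj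
    (E := fun j : Option (Fin n) => j.elim (ev Z0) fun i => ev (Z i))
    (fun Ψ hΨ i => by
      have h1 : ∑ j, Ψ j • Z j = 0 := hinj (by simpa [map_sum, hev] using hΨ)
      have h2 := D.map_update_sum univ i (fun j => Ψ j • Z j) Z
      rw [h1, D.map_update_zero, sum_eq_single i (fun j _ hj => by
        rw [D.map_update_smul, D.map_update_self _ hj.symm, smul_zero]) (by simp),
        D.map_update_smul, Function.update_eq_self, smul_eq_mul] at h2
      exact (mul_eq_zero.mp h2.symm).resolve_right hZ)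
    (Ψ := fun j => j.elim (D Z) fun i => -D (Function.update Z i Z0)) hZ (by
      have := congrArg ev (hcr Z Z0)
      simp only [map_sum, hev] at this
      simp [Fintype.sum_option, this])
  have hG0 := hG none
  simp only [Option.elim] at hG0
  have h1 : G ≠ 0 := left_ne_zero_of_mul (hG0 ▸ hZ)
  have h2 : Φ none ≠ 0 := right_ne_zero_of_mul (hG0 ▸ hZ)
  have h3 : ht X.w G = 0 := ht_eq_zero X.sum_w h1 fun π hπ hd => by
    by_contra! hc
    obtain ⟨i, hi⟩ := hp π hπ hc (hG0 ▸ hd.mul_right _)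
    exact hi (dvd_neg.mp ((hd.mul_right _).trans (hG (some i)).symm.dvd))
  choose e he he' using fun v => exists_gn (X.w v) h2
  have h4 := X.folner (Classical.arbitrary Pl) X.g_O X.sum_g
    (by rintro (_ | j); exacts [X.mem_O _ (hA _) h0, X.mem_O _ (hA _) (hne j)]) Φ hΦ hker
    (fun _ => none) e he
  simp only [Fintype.sum_option, Option.elim, wt_eq, he', sum_add_distrib] at h4
  rw [hG0, ht_mul h1 h2, h3, zero_add, ht]
  linarith

include hev hinj hA hcr in
/-- The height inequality. -/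
theorem gf [Nonempty Pl] [Module ℚ M] [IsScalarTower ℚ (PR r) M] {J : Type} [Fintype J] (Y : J → M)
    (hY : ∀ π, Prime π → 0 < ht X.w π → ∃ I : Fin n → J, ¬ π ∣ D (Y ∘ I))
    (e : Pl → Fin n → M) (he : ∀ v, D (e v) ≠ 0) (β : Pl → Fin n → ℝ)
    (hβ : ∀ v i, ev (e v i) ∈ X.B v (β v i)) :
    ∑ v, gn (X.w v) (D (e v)) ≤ ∑ v, ∑ i, β v i := by
  classical
  obtain ⟨m, hm⟩ := X.sep
  let Y' : J ⊕ Pl × Fin n → M := Sum.elim Y fun p => e p.1 p.2
  obtain ⟨C1, hC1⟩ : ∃ C1 : ℝ, ∀ v (I : Fin n → J ⊕ Pl × Fin n), |gn (X.w v) (D (Y' ∘ I))| ≤ C1 := by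
    obtain ⟨C1, h⟩ := (Set.finite_range fun p : Pl × (Fin n → J ⊕ Pl × Fin n) =>
      |gn (X.w p.1) (D (Y' ∘ p.2))|).bddAbove
    exact ⟨C1, fun v I => h ⟨(v, I), rfl⟩⟩
  obtain ⟨c0, hc0⟩ : ∃ c0 : ℝ, ∀ v j, ev (Y' j) ∈ X.B v c0 := by
    choose b hb using fun (p : Pl × (J ⊕ Pl × Fin n)) => X.exists_B p.1 _ (hA (Y' p.2))
    obtain ⟨c0, h⟩ := (Set.finite_range b).bddAbove
    exact ⟨c0, fun v j => X.B_mono v (h ⟨(v, j), rfl⟩) (hb (v, j))⟩
  obtain ⟨K0, hK1, hK2⟩ : ∃ K0 : ℝ, 2 * |C1| < K0 ∧ ∀ v i, c0 - β v i ≤ K0 := by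
    obtain ⟨c, h⟩ := (Set.finite_range fun p : Pl × Fin n => c0 - β p.1 p.2).bddAbove
    exact ⟨max c (2 * |C1| + 1), lt_max_of_lt_right (by linarith),
      fun v i => le_max_of_le_left (h ⟨(v, i), rfl⟩)⟩
  obtain ⟨C, hC⟩ : ∃ C : ℕ, ∀ v c, c ≠ some v → Finsupp.weight (X.w v) (C • m c) ≤
      Finsupp.weight (X.w v) (C • m (some v)) - K0 := by
    refine Eventually.exists (f := atTop) ?_
    simp only [eventually_all]
    intro v c hc
    filter_upwards [(tendsto_natCast_atTop_atTop.atTop_mul_const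
      (sub_pos.mpr (hm v c hc))).eventually_ge_atTop K0] with C hC
    simp only [map_nsmul, nsmul_eq_mul, wt_eq] at hC ⊢
    linarith
  let χ : Option Pl → PR r := fun c => monomial (C • m c) 1
  have hχ : ∀ c, χ c ≠ 0 := fun c => by simp [χ]
  let a : Pl → ℝ := fun v => Finsupp.weight (X.w v) (C • m (some v))
  let T : Pl → ℝ → Set M := fun v t =>
    {z | ∃ e j, Finsupp.weight (X.w v) e ≤ t ∧ z = monomial e (1 : ℚ) • Y' j}
  have f1 : ∀ v (t : Fin n → ℝ) (x : Fin n → M), (∀ i, x i ∈ Submodule.span ℚ (T v (t i))) →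
      D x ∈ Bd (X.w v) (∑ i, t i + C1) := fun v t x hx => by
    refine multilinear_mem D.toMultilinearMap _ _ (fun y hy => ?_) hx
    choose ε I h1 h2 using hy
    have : y = fun i => monomial (ε i) (1 : ℚ) • (Y' ∘ I) i := funext h2
    rw [this, MultilinearMap.map_smul_univ, smul_eq_mul]
    exact Bd_mul (prod_mem_Bd _ fun i _ => monomial_mem_Bd (h1 i) 1)
      (Bd_mono (le_of_abs_le (hC1 v I)) (mem_Bd_gn _ _))
  have f2 : ∀ v t, ∀ z ∈ Submodule.span ℚ (T v t), ev z ∈ X.B v (t + c0) := fun v t z hz => by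
    refine (Submodule.span_le (p := (X.B v (t + c0)).comap ev.toRatLinearMap)).mpr ?_ hz
    rintro _ ⟨ε, j, h1, rfl⟩
    simpa [hev] using X.aeval_mul_B (monomial_mem_Bd h1 1) (hc0 v j)
  have f3 : ∀ x : Fin n → M, ∀ c, D (fun i => χ c • x i) = χ c ^ n * D x := fun x c => by
    simpa using D.toMultilinearMap.map_smul_univ (fun _ => χ c) x
  have hL : ∀ j, χ none • Y' j ∈ Submodule.span ℚ (Set.range fun j => χ none • Y' j) :=
    fun j => Submodule.subset_span ⟨j, rfl⟩
  obtain ⟨Z, Z0, hZ, -, hZ0, -, hp⟩ := bertini D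
    (Submodule.span ℚ (Set.range fun j => χ none • Y' j)) {π | Prime π ∧ 0 < ht X.w π}
    (fun π h => h.1) (fun π h => by
      obtain ⟨I, hI⟩ := hY π h.1 h.2
      refine ⟨fun i => χ none • Y' (.inl (I i)), fun i => hL _, fun hd => ?_⟩
      rw [f3] at hd
      rcases h.1.dvd_or_dvd hd with h1 | h1
      exacts [not_dvd_monomial X.sum_w h.2 _ (h.1.dvd_of_dvd_pow h1), hI h1])
    (A := Empty) (fun a => a.elim) (fun a => a.elim)
    ⟨fun i => χ none • Y' (.inr (Classical.arbitrary Pl, i)), fun i => hL _, by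
      rw [f3]; exact mul_ne_zero (pow_ne_zero _ (hχ _)) (he _)⟩
    fun i => ∑ v, χ (some v) • e v i
  have hrest : ∀ v i, Z i - χ (some v) • e v i ∈ Submodule.span ℚ (T v (a v - K0)) := fun v i => by
    have : Z i - χ (some v) • e v i = (Z i - ∑ v, χ (some v) • e v i) +
        ∑ v' ∈ univ.erase v, χ (some v') • e v' i := by
      rw [← add_sum_erase _ _ (mem_univ v)]; abel
    rw [this]
    refine Submodule.add_mem _ (Submodule.span_mono ?_ (hZ i)) (Submodule.sum_mem _ fun v' hv' =>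
      Submodule.subset_span ⟨_, .inr (v', i), hC v _ (by simpa using (mem_erase.mp hv').1), rfl⟩)
    rintro _ ⟨j, rfl⟩
    exact ⟨_, j, hC v none (by simp), rfl⟩
  have g1 : ∀ v, n * a v + gn (X.w v) (D (e v)) ≤ gn (X.w v) (D Z) := fun v => by
    have e1 : gn (X.w v) (χ (some v) ^ n * D (e v)) = n * a v + gn (X.w v) (D (e v)) := by
      rw [gn_mul (pow_ne_zero _ (hχ _)) (he v), gn_pow (hχ _), gn_monomial _ one_ne_zero]
    rw [← e1]
    refine (gn_le_of_sub (β := n * a v - K0 + C1) (mul_ne_zero (pow_ne_zero _ (hχ _)) (he v)) ?_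
      ?_).2
    · have e2 := D.map_add_univ (fun i => χ (some v) • e v i) fun i => Z i - χ (some v) • e v i
      rw [show ((fun i => χ (some v) • e v i) + fun i => Z i - χ (some v) • e v i) = Z from
        funext fun i => by simp, ← add_sum_erase _ _ (mem_univ univ), piecewise_univ, f3] at e2
      rw [e2, add_sub_cancel_left]
      refine Submodule.sum_mem _ fun s hs => Bd_mono ?_
        (f1 v (fun i => a v - if i ∈ s then 0 else K0) _ fun i => ?_)
      · obtain ⟨i, hi⟩ : ∃ i, i ∉ s := by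
          by_contra! hc
          exact (mem_erase.mp hs).1 (eq_univ_of_forall hc)
        have := single_le_sum (f := fun i => if i ∈ s then 0 else K0)
          (fun j _ => by split_ifs; exacts [le_rfl, by linarith [abs_nonneg C1]]) (mem_univ i)
        simp only [sum_sub_distrib, sum_const, card_univ, Fintype.card_fin, nsmul_eq_mul]
        rw [if_neg hi] at this
        linarith
      · by_cases hi : i ∈ s
        · rw [piecewise_eq_of_mem _ _ _ hi, if_pos hi, sub_zero]
          exact Submodule.subset_span ⟨_, .inr (v, i), le_rfl, rfl⟩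
        · rw [piecewise_eq_of_notMem _ _ _ hi, if_neg hi]
          exact hrest v i
    · have := abs_le.mp (hC1 v fun i => .inr (v, i))
      rw [e1]
      change _ ≤ gn (X.w v) (D (e v)) ∧ _ at this
      linarith [le_abs_self C1]
  have g2 : ∀ i v, X.ord v (ev (Z i)) ≤ a v + β v i := fun i v => by
    refine X.ord_le v _ _ (hA _) (fun h => hZ0 (D.map_coord_zero i
      (hinj (h.trans (map_zero ev).symm)))) ?_
    rw [← add_sub_cancel (χ (some v) • e v i) (Z i), map_add, hev]
    exact Submodule.add_mem _ (X.aeval_mul_B (monomial_mem_Bd le_rfl 1) (hβ v i))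
      (X.B_mono v (by linarith [hK2 v i]) (f2 v _ _ (hrest v i)))
  have g3 := (X.gf0 ev hev hinj hA D hcr Z Z0 hZ0 fun π h1 h2 => hp π ⟨h1, h2⟩).trans
    (sum_le_sum fun i _ => sum_le_sum fun v _ => g2 i v)
  have g4 := sum_le_sum (s := univ) fun v _ => g1 v
  rw [sum_comm] at g3
  simp only [sum_add_distrib, sum_const, card_univ, Fintype.card_fin, nsmul_eq_mul, ht] at g3 g4
  linarith

end Ctx2

end Pool.Agent.Lib.MP_c9a594_an
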