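import Pool.Agent.Lib.MP_c9a594_an.SharpDefs
import Pool.Agent.Lib.MP_c9a594_an.H93Morphic

/-! Expansions of linear complexity and morphic expansions have copy dimension zero. -/

open Filter Real

namespace Pool.Agent.Lib.MP_c9a594_an

theorem CopyGen.mono {a : ℕ} (ha : 0 < a) {u : ℕ → ℤ} {n n' N N' M M' : ℕ}
    (h : CopyGen a u n N M) (h0 : 0 < n') (hn : n ≤ n') (hN : N' ≤ N) (hM : M ≤ M') :
    CopyGen a u n' N' M' := by
  obtain ⟨v, p, d, h1, h2, h3, h4, h5⟩ := h
  obtain ⟨e, rfl⟩ := Nat.exists_eq_add_of_le' hn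
  refine ⟨fun k => if k < e then 0 else v (k - e), fun m => e + p (min m M),
    fun m => if m < M then d m else 1, fun k hk => ?_, fun k hk => ?_, ?_, ?_, fun m hm => ?_⟩
  · dsimp only
    split_ifs with g
    · exact ⟨le_rfl, by exact_mod_cast ha⟩
    · exact h1 _ (by omega)
  · dsimp only
    rw [if_neg (by omega), show e + n + k - e = n + k by omega]
    exact h2 k (by omega)
  · simp [h3]
  · dsimp only
    rw [min_eq_right hM]
    omega
  · dsimp only
    by_cases g : m < M
    · obtain ⟨a1, a2, a3⟩ := h5 m g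
      rw [if_pos g, min_eq_left g.le, min_eq_left (by omega : m + 1 ≤ M)]
      refine ⟨a1, by omega, fun k k1 k2 => ?_⟩
      rw [if_neg (by omega), if_neg (by omega), a3 (k - e) (by omega) (by omega)]
      congr 1
      omega
    · rw [if_neg g, min_eq_right (by omega : M ≤ m), min_eq_right (by omega : M ≤ m + 1)]
      exact ⟨one_pos, by omega, fun k k1 k2 => by omega⟩

namespace H42L

/-- A factorisation into pieces that occurred earlier or are read from a dictionary. -/
lemma copyGen_of_dict {a : ℕ} {u : ℕ → ℤ} (hu : ∀ k, 0 ≤ u k ∧ u k < a) {n D N M : ℕ}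
    (hn : 0 < n) (S : Finset ℕ) (hS : S.card ≤ D) (q : ℕ → ℕ) (q0 : q 0 = 0) (qM : N ≤ q M)
    (h : ∀ t < M, (∃ i < q t, ∀ r, q t + r < q (t + 1) → u (i + r) = u (q t + r)) ∨
      (q (t + 1) ≤ q t + n ∧ ∃ x ∈ S, ∀ r, q t + r < q (t + 1) → u (x + r) = u (q t + r))) :
    CopyGen a u (D * n) N M := by
  classical
  let pos : ℕ → ℕ := fun s => S.toList.getD s 0
  have hpos : ∀ x ∈ S, ∃ s < D, pos s = x := fun x hx => by
    obtain ⟨s, hs, e⟩ := List.getElem_of_mem (Finset.mem_toList.2 hx)
    refine ⟨s, lt_of_lt_of_le (by simpa using hs) hS, ?_⟩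
    simp only [pos]
    rw [List.getD_eq_getElem _ _ hs, e]
  let v : ℕ → ℤ := fun k => if k < D * n then u (pos (k / n) + k % n) else u (k - D * n)
  have key : ∀ t, ∃ d, t < M → 0 < d ∧ d ≤ D * n + q t ∧
      ∀ k, D * n + q t ≤ k → k < D * n + q (t + 1) → v k = v (k - d) := fun t => by
    by_cases ht : t < M
    · rcases h t ht with ⟨i, hi, g⟩ | ⟨g0, x, hx, g⟩
      · refine ⟨q t - i, fun _ => ⟨by omega, by omega, fun k k1 k2 => ?_⟩⟩
        obtain ⟨r, rfl⟩ := Nat.exists_eq_add_of_le k1
        simp only [v]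
        rw [if_neg (by omega), if_neg (by omega),
          show D * n + q t + r - D * n = q t + r by omega,
          show D * n + q t + r - (q t - i) - D * n = i + r by omega]
        exact (g r (by omega)).symm
      · obtain ⟨s, hs, rfl⟩ := hpos x hx
        have s1 : s * n + n ≤ D * n := by nlinarith
        refine ⟨D * n + q t - s * n, fun _ => ⟨by omega, by omega, fun k k1 k2 => ?_⟩⟩
        obtain ⟨r, rfl⟩ := Nat.exists_eq_add_of_le k1
        have r1 : r < n := by omega
        simp only [v]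
        rw [if_neg (by omega), show D * n + q t + r - (D * n + q t - s * n) = r + s * n by omega,
          if_pos (by omega), show D * n + q t + r - D * n = q t + r by omega,
          Nat.add_mul_div_right _ _ hn, Nat.add_mul_mod_self_right, Nat.div_eq_of_lt r1,
          Nat.mod_eq_of_lt r1, zero_add]
        exact (g r (by omega)).symm
    · exact ⟨0, fun g => absurd g ht⟩
  choose d hd using key
  refine ⟨v, fun t => D * n + q t, d, fun k hk => ?_, fun k _ => ?_, by simp [q0],
    Nat.add_le_add_left qM _,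
    fun t ht => hd t ht⟩
  · simp only [v]
    rw [if_pos hk]
    exact hu _
  · simp only [v]
    rw [if_neg (by omega), Nat.add_sub_cancel_left]

lemma dg_eq {a : ℕ} (ha : 2 ≤ a) (x : ℝ) (i : ℕ) :
    (dig a ha x).dg i = ⌊(a : ℝ) * Int.fract ((a : ℝ) ^ i * x)⌋ := by
  have := (dig a ha x).step i
  have e : (dig a ha x).t i = Int.fract ((a : ℝ) ^ i * x) := rfl
  rw [← e, this, eq_comm, Int.floor_eq_iff]
  constructor <;> linarith [(dig a ha x).t0 (i + 1), (dig a ha x).t1 (i + 1)]

lemma digit_mem {a : ℕ} (ha : 2 ≤ a) (x : ℝ) (i : ℕ) :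
    0 ≤ ⌊(a : ℝ) * Int.fract ((a : ℝ) ^ i * x)⌋ ∧ ⌊(a : ℝ) * Int.fract ((a : ℝ) ^ i * x)⌋ < a := by
  rw [← dg_eq ha]
  exact ⟨Dig.dg_nonneg _ _, Dig.dg_lt _ _⟩

lemma copyDim_eq_zero {a : ℕ} (ha : 2 ≤ a) (x : ℝ)
    (h : ∀ T : ℕ, 0 < T → ∃ M : ℕ, ∀ᶠ N : ℕ in atTop, ∃ n, 0 < n ∧ T * n ≤ N ∧
      CopyGen a (fun k => ⌊(a : ℝ) * Int.fract ((a : ℝ) ^ k * x)⌋) n N M) : copyDim a x = 0 := by
  refine le_antisymm (le_of_forall_pos_le_add fun ε hε => ?_)
    (Real.sInf_nonneg fun s hs => hs.1)
  rw [zero_add]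
  refine csInf_le ⟨0, fun s hs => hs.1⟩ ⟨hε.le, ?_⟩
  obtain ⟨T, hT⟩ := exists_nat_gt (1 / ε)
  have T0 : (0 : ℝ) < T := lt_trans (by positivity) hT
  obtain ⟨M, hM⟩ := h T (by exact_mod_cast T0)
  refine ⟨M, hM.mono fun N ⟨n, n0, n1, g⟩ => ?_⟩
  have n2 : n ≤ ⌊ε * N⌋₊ := by
    refine Nat.le_floor ?_
    have b1 : (T : ℝ) * n ≤ N := by exact_mod_cast n1
    rw [div_lt_iff₀ hε] at hT
    nlinarith [Nat.cast_nonneg (α := ℝ) n]
  exact g.mono (by omega) (by omega) n2 le_rfl le_rfl

lemma log_eq_sum {a : ℕ} (S : Finset ℕ) (h : a.primeFactors ⊆ S) :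
    ∑ p ∈ S, a.factorization p * Real.log p = Real.log a := by
  rw [Real.log_nat_eq_sum_factorization, Finsupp.sum, eq_comm]
  refine Finset.sum_subset h fun p _ hp => ?_
  rw [Finsupp.notMem_support_iff.1 hp]
  simp

end H42L

open H42L H93

theorem copyGen_of_cx {a : ℕ} (ha : 2 ≤ a) (x : ℝ) {L C : ℕ} (hL : 0 < L)
    (h : cx a x (2 * L) ≤ C * L) (N : ℕ) :
    CopyGen a (fun k => ⌊(a : ℝ) * Int.fract ((a : ℝ) ^ k * x)⌋) ((C + 1) * L) N (N / L + 1) := by
  classical
  rw [cx_eq a ha] at h
  have e : (fun k => ⌊(a : ℝ) * Int.fract ((a : ℝ) ^ k * x)⌋) = (dig a ha x).dg :=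
    funext fun k => (dg_eq ha x k).symm
  rw [e]
  set X := dig a ha x
  let J : Finset ℕ := (Finset.range (N / L)).filter fun j => ∀ i < (j + 1) * L, ¬ X.E L i ((j + 1) * L)
  have first : ∀ j ∈ J, ∀ r < L, ∀ i < j * L + r + 1, X.W i (2 * L) ≠ X.W (j * L + r + 1) (2 * L) := by
    intro j hj r hr i hi g
    have g1 := (Dig.W_iff.1 g).sub (i := L - (r + 1)) (l' := L) (by omega)
    refine (Finset.mem_filter.1 hj).2 (i + (L - (r + 1))) (by rw [add_mul, one_mul]; omega) ?_
    rwa [show (j + 1) * L = j * L + r + 1 + (L - (r + 1)) by rw [add_mul, one_mul]; omega]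
  have hJ : J.card ≤ C := by
    have c1 : (J ×ˢ Finset.range L).card ≤ X.p (2 * L) := by
      rw [Dig.p, ← Set.ncard_coe_finset]
      refine Set.ncard_le_ncard_of_injOn (fun y : ℕ × ℕ => X.W (y.1 * L + y.2 + 1) (2 * L))
        (fun y _ => ⟨_, trivial, rfl⟩) ?_ (X.fin _ _)
      rintro ⟨j, r⟩ hy ⟨j', r'⟩ hy' g
      simp only [Finset.coe_product, Set.mem_prod, Finset.mem_coe, Finset.mem_range] at hy hy'
      dsimp only at g
      have g1 : j * L + r = j' * L + r' := by
        rcases lt_trichotomy (j * L + r) (j' * L + r') with c | c | c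
        · exact absurd g (first j' hy'.1 r' hy'.2 _ (by omega))
        · exact c
        · exact absurd g.symm (first j hy.1 r hy.2 _ (by omega))
      have g2 : r = r' := by
        have := congrArg (· % L) g1
        simpa [Nat.mod_eq_of_lt hy.2, Nat.mod_eq_of_lt hy'.2] using this
      subst g2
      have g3 : j = j' := Nat.eq_of_mul_eq_mul_right hL (by omega)
      rw [g3]
    rw [Finset.card_product, Finset.card_range] at c1
    exact Nat.le_of_mul_le_mul_right (c1.trans h) hL
  refine copyGen_of_dict (fun k => ⟨X.dg_nonneg k, X.dg_lt k⟩) hL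
    (insert 0 (J.image fun j => (j + 1) * L))
    ((Finset.card_insert_le _ _).trans (Nat.succ_le_succ (Finset.card_image_le.trans hJ)))
    (fun t => t * L) (by simp) ?_ fun t ht => ?_
  · have := Nat.lt_mul_div_succ N hL
    rw [mul_comm] at this
    exact this.le
  · have e1 : (t + 1) * L = t * L + L := by ring
    obtain _ | j := t
    · exact Or.inr ⟨e1.le, 0, Finset.mem_insert_self _ _, fun r _ => by simp⟩
    · by_cases hj : j ∈ J
      · exact Or.inr ⟨e1.le, _, Finset.mem_insert_of_mem (Finset.mem_image_of_mem _ hj),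
          fun r _ => rfl⟩
      · left
        by_contra c
        refine hj (Finset.mem_filter.2 ⟨Finset.mem_range.2 (by omega), fun i hi g => c ⟨i, hi, ?_⟩⟩)
        intro r hr
        exact g r (by omega)

theorem copyDim_of_linear {a : ℕ} (ha : 2 ≤ a) (x C : ℝ)
    (h : ∀ n : ℕ, 1 ≤ n → (cx a x n : ℝ) ≤ C * n) : copyDim a x = 0 := by
  obtain ⟨C', hC⟩ : ∃ C' : ℕ, 2 * C ≤ C' := ⟨_, Nat.le_ceil _⟩
  refine copyDim_eq_zero ha x fun T hT => ⟨2 * ((C' + 1) * T) + 1, ?_⟩
  have K0 : 0 < (C' + 1) * T := by positivity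
  filter_upwards [eventually_ge_atTop ((C' + 1) * T)] with N hN
  obtain ⟨L, hL⟩ : ∃ L, L = N / ((C' + 1) * T) := ⟨_, rfl⟩
  have L0 : 0 < L := hL ▸ Nat.div_pos hN K0
  have L1 : (C' + 1) * T * L ≤ N := hL ▸ Nat.mul_div_le _ _
  have L2 : N < (C' + 1) * T * (L + 1) := hL ▸ Nat.lt_mul_div_succ N K0
  have c : cx a x (2 * L) ≤ C' * L := by
    have := h (2 * L) (by omega)
    have g : (cx a x (2 * L) : ℝ) ≤ C' * L := by
      push_cast at this
      nlinarith [Nat.cast_nonneg (α := ℝ) L]
    exact_mod_cast g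
  refine ⟨(C' + 1) * L, by positivity, by nlinarith,
    (copyGen_of_cx ha x L0 c N).mono (by omega) (by positivity) le_rfl le_rfl ?_⟩
  refine Nat.succ_le_succ (Nat.div_le_of_le_mul ?_)
  nlinarith

theorem copyDim_of_morphic {a : ℕ} (ha : 2 ≤ a) (x : ℝ) (h : Morphic (digit a x)) :
    copyDim a x = 0 := by
  classical
  obtain ⟨m, σ, c, φ, θ, hθ, h1, h2⟩ := h
  have m0 : 0 < m := c.pos
  refine copyDim_eq_zero ha x fun T hT => ?_
  have K0 : 0 < m * T := by positivity
  obtain ⟨M, n0, hM⟩ := exists_scale σ c hθ h1 (2 * (m * T))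
  refine ⟨M, ?_⟩
  filter_upwards [eventually_ge_atTop (m * T * (n0 + 1))] with N hN
  obtain ⟨n, hn⟩ : ∃ n, n = N / (m * T) := ⟨_, rfl⟩
  have n1 : n0 + 1 ≤ n := by
    rw [hn, Nat.le_div_iff_mul_le K0, mul_comm]
    exact hN
  have L1 : m * T * n ≤ N := hn ▸ Nat.mul_div_le _ _
  have L2 : N < m * T * (n + 1) := hn ▸ Nat.lt_mul_div_succ N K0
  obtain ⟨k, j, g1, g2, g3⟩ := hM n (by omega)
  have mat : ∀ (i : ℕ) (hi : i < (it σ k (it σ j [c])).length),
      digit a x i = φ (it σ k (it σ j [c]))[i] := fun i hi => by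
    simp only [← it_add] at hi ⊢
    exact h2 _ i hi
  rw [len, it_add] at g3
  generalize it σ j [c] = w at g1 g2 g3 mat
  let q : ℕ → ℕ := fun t => (it σ k (w.take t)).length
  have qs : ∀ t (ht : t < w.length), q (t + 1) = q t + len σ k w[t] := fun t ht => by
    simp only [q]
    rw [List.take_succ_eq_append_getElem ht, it_append, List.length_append, len]
  have occ : ∀ t (ht : t < w.length), ∀ r (hr : r < (it σ k [w[t]]).length),
      digit a x (q t + r) = φ (it σ k [w[t]])[r] := fun t ht r hr => by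
    have e : it σ k w = it σ k (w.take t) ++ (it σ k [w[t]] ++ it σ k (w.drop (t + 1))) := by
      rw [← it_cons, ← it_append, List.cons_getElem_drop_succ, List.take_append_drop]
    have hi : q t + r < (it σ k w).length := by
      rw [e, List.length_append, List.length_append]
      simp only [q]
      omega
    rw [mat _ hi]
    congr 1
    simp only [e]
    rw [List.getElem_append_right (by simp [q]), List.getElem_append_left (by simpa [q] using hr)]
    simp [q]
  have : ∀ b : Fin m, ∃ y, ∀ t (ht : t < w.length), w[t] = b → ∀ r < len σ k b,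
      digit a x (y + r) = digit a x (q t + r) := fun b => by
    by_cases g : ∃ (t : ℕ) (ht : t < w.length), w[t] = b
    · obtain ⟨t0, h0, rfl⟩ := g
      refine ⟨q t0, fun t ht e r hr => ?_⟩
      rw [occ t0 h0 r hr, occ t ht r (by rw [e]; exact hr)]
      simp only [e]
      rfl
    · exact ⟨0, fun t ht e => absurd ⟨t, ht, e⟩ g⟩
  choose y hy using this
  refine ⟨m * n, Nat.mul_pos m0 (by omega), by nlinarith, CopyGen.mono (by omega)
    (copyGen_of_dict (digit_mem ha x) (by omega) (Finset.univ.image y)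
      (Finset.card_image_le.trans (by simp)) q (by simp [q, it_nil]) (M := w.length) ?_
      fun t ht => Or.inr ⟨?_, y w[t], Finset.mem_image_of_mem _ (Finset.mem_univ _), fun r hr => ?_⟩)
    (Nat.mul_pos m0 (by omega)) le_rfl le_rfl g1⟩
  · simp only [q, List.take_length]
    nlinarith
  · rw [qs t ht]
    exact Nat.add_le_add_left (g2 _ (List.getElem_mem ht)) _
  · rw [qs t ht] at hr
    exact hy _ t ht rfl r (by omega)

theorem overlap_lt_one {a b : ℕ} (ha : 2 ≤ a) (hb : 2 ≤ b)
    (hab : ∀ k l : ℕ, 0 < k → 0 < l → a ^ k ≠ b ^ l) : overlap a b < 1 := by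
  have la : 0 < Real.log a := Real.log_pos (by exact_mod_cast ha)
  have lb : 0 < Real.log b := Real.log_pos (by exact_mod_cast hb)
  have sa : ∑ p ∈ (a * b).primeFactors, a.factorization p * Real.log p / Real.log a = 1 := by
    rw [← Finset.sum_div, log_eq_sum _ (Nat.primeFactors_mono (dvd_mul_right a b) (by positivity)),
      div_self la.ne']
  have sb : ∑ p ∈ (a * b).primeFactors, b.factorization p * Real.log p / Real.log b = 1 := by
    rw [← Finset.sum_div, log_eq_sum _ (Nat.primeFactors_mono (dvd_mul_left b a) (by positivity)),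
      div_self lb.ne']
  by_contra c
  rw [not_lt, overlap] at c
  have e1 := (Finset.sum_eq_sum_iff_of_le fun p _ => min_le_left _ _).1
    (le_antisymm (Finset.sum_le_sum fun p _ => min_le_left _ _) (sa.le.trans c))
  have e2 := (Finset.sum_eq_sum_iff_of_le fun p _ => min_le_right _ _).1
    (le_antisymm (Finset.sum_le_sum fun p _ => min_le_right _ _) (sb.le.trans c))
  obtain ⟨p, hp, hpa⟩ := Nat.exists_prime_and_dvd (show a ≠ 1 by omega)
  have hm : p ∈ (a * b).primeFactors :=
    Nat.mem_primeFactors.2 ⟨hp, hpa.mul_right b, by positivity⟩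
  have e := (e1 p hm).symm.trans (e2 p hm)
  have lp : 0 < Real.log p := Real.log_pos (by exact_mod_cast hp.one_lt)
  have l0 : 0 < a.factorization p := hp.factorization_pos_of_dvd (by omega) hpa
  rw [div_eq_div_iff la.ne' lb.ne'] at e
  have e3 : (b.factorization p : ℝ) * Real.log a = a.factorization p * Real.log b :=
    mul_left_cancel₀ lp.ne' (by linarith)
  have k0 : 0 < b.factorization p := by
    by_contra g
    have g1 : b.factorization p = 0 := by omega
    have : (0 : ℝ) < a.factorization p := by exact_mod_cast l0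
    rw [g1] at e3
    simp only [Nat.cast_zero, zero_mul] at e3
    nlinarith
  refine hab _ _ k0 l0 ?_
  rw [← Real.log_pow, ← Real.log_pow] at e3
  have := Real.log_injOn_pos (Set.mem_Ioi.2 (by positivity)) (Set.mem_Ioi.2 (by positivity)) e3
  exact_mod_cast this

theorem overlap_of_coprime {a b : ℕ} (h : Nat.Coprime a b) : overlap a b = 0 := by
  refine Finset.sum_eq_zero fun p hp => ?_
  have pp := Nat.prime_of_mem_primeFactors hp
  have nn : ∀ c : ℕ, 0 ≤ c.factorization p * Real.log p / Real.log c := fun c =>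
    div_nonneg (mul_nonneg (Nat.cast_nonneg _) (Real.log_natCast_nonneg _))
      (Real.log_natCast_nonneg _)
  by_cases g : p ∣ a
  · have g' : ¬ p ∣ b := fun g' => pp.one_lt.ne' (Nat.eq_one_of_dvd_coprimes h g g')
    rw [min_eq_right ((le_of_eq ?_).trans (nn a))] <;>
      simp [Nat.factorization_eq_zero_of_not_dvd g']
  · rw [min_eq_left ((le_of_eq ?_).trans (nn b))] <;>
      simp [Nat.factorization_eq_zero_of_not_dvd g]

/-- A block of length `L` that occurs twice saves `L` digits. -/
theorem copyGen_of_repeat {a : ℕ} (ha : 2 ≤ a) {u : ℕ → ℤ} (hu : ∀ k, 0 ≤ u k ∧ u k < a)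
    {i j L N : ℕ} (hij : i < j) (hj : j + L ≤ N) (h : ∀ k < L, u (i + k) = u (j + k)) :
    CopyGen a u (N - L) N 3 := by
  obtain ⟨n, hn⟩ : ∃ n, n = N - L := ⟨_, rfl⟩
  rw [← hn]
  refine ⟨fun k => if k < j then u k else if k < n then u (k + L) else u (k - n),
    fun m => n + if m = 0 then 0 else if m = 1 then j else if m = 2 then j + L else N,
    fun m => if m = 0 then n else if m = 1 then j - i else n + L,
    fun k _ => ?_, fun k _ => ?_, by simp, by simp, fun m hm => ?_⟩
  · dsimp only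
    split_ifs <;> exact hu _
  · dsimp only
    rw [if_neg (by omega), if_neg (by omega), Nat.add_sub_cancel_left]
  · interval_cases m
    · refine ⟨by simp; omega, by simp, fun k k1 k2 => ?_⟩
      simp at k1 k2 ⊢
      rw [if_neg (by omega), if_neg (by omega), if_pos (by omega)]
    · refine ⟨by simp; omega, by simp; omega, fun k k1 k2 => ?_⟩
      simp at k1 k2 ⊢
      rw [if_neg (by omega), if_neg (by omega), if_neg (by omega), if_neg (by omega),
        show k - n = j + (k - n - j) by omega, show k - (j - i) - n = i + (k - n - j) by omega]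
      exact (h _ (by omega)).symm
    · refine ⟨by simp; omega, by simp, fun k k1 k2 => ?_⟩
      simp at k1 k2 ⊢
      rw [if_neg (by omega), if_neg (by omega), if_neg (by omega), if_pos (by omega)]
      congr 1
      omega

end Pool.Agent.Lib.MP_c9a594_an
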