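import Pool.Agent.Lib.MP_c9a594_an.SharpFrame

/-! The abstract sharp theorem. -/

open MvPolynomial Finset

namespace Pool.Agent.Lib.MP_c9a594_an

/-- The part of a polynomial of weight above a threshold. -/
lemma exists_trunc {r : ℕ} (w : Fin r → ℝ) (t : ℝ) : ∃ τ : PR r → PR r, ∀ F e,
    coeff e (τ F) = if t < Finsupp.weight w e then coeff e F else 0 := by
  classical
  refine ⟨fun F => ∑ e ∈ F.support with t < Finsupp.weight w e, monomial e (coeff e F),
    fun F e => ?_⟩
  simp only [coeff_sum, coeff_monomial, sum_ite_eq', mem_filter, mem_support_iff]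
  by_cases h : coeff e F = 0 <;> simp [h]

theorem Ctx2.sharp {K P : Type} [Field K] [CharZero K] [Fintype P] {r : ℕ}
    (X : Ctx2 K (Option P) r) {J T T' : Type} [Fintype J] [Fintype T] [Fintype T'] (V : J → K)
    {l δ : ℝ} (hl : 0 ≤ l) (hVA : ∀ j, V j ∈ X.A) (hV : ∀ j, V j ∈ X.B none l)
    (hV' : ∀ j p, V j ∈ X.B (some p) 0) (α β : P → ℝ) (hα : ∀ p, 0 ≤ α p) (hβ : ∀ p, 0 ≤ β p)
    (e : T → J) (e' : T' → J) (c : T → ℚ) (c' : T' → ℚ) (u : T → Fin r →₀ ℕ)
    (u' : T' → Fin r →₀ ℕ) (u0 : Fin r →₀ ℕ)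
    (hu : ∀ t, X.wt X.g none (u t) ≤ X.wt X.g none u0 ∧ ∀ p, X.wt X.g (some p) (u t) ≤
      X.wt X.g (some p) u0 + α p * (X.wt X.g none u0 - X.wt X.g none (u t)))
    (hu' : ∀ t, X.wt X.g none (u' t) ≤ X.wt X.g none u0 ∧ ∀ p, X.wt X.g (some p) (u' t) ≤
      X.wt X.g (some p) u0 + β p * (X.wt X.g none u0 - X.wt X.g none (u' t)))
    (x x' : K) (hx : mon X.g u0 * x = ∑ t, c t • (mon X.g (u t) * V (e t)))
    (hx' : mon X.g u0 * x' = ∑ t, c' t • (mon X.g (u' t) * V (e' t)))
    (hΛ : x - x' ∈ X.B none (-1)) (hD : Fintype.card J * l ≤ δ)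
    (hδ : δ + l < 1 - ∑ p, min (α p) (β p)) :
    ∃ y : K, x - y ∈ X.B none (-1 + δ) ∧
      (∀ p, y ∈ X.B (some p) (min (α p) (β p) * (δ / (1 - ∑ p, min (α p) (β p))))) ∧
      (∃ w ∈ X.A, w ≠ 0 ∧ w * y ∈ X.A) ∧
      ∀ Q : K, Q ≠ 0 → (∀ w ∈ X.A, w * y ∈ X.A → w * Q⁻¹ ∈ X.A) →
        ∀ κ : Option P → ℝ, (∀ v, Q⁻¹ ∈ X.B v (κ v)) → 0 ≤ ∑ v, κ v := by
  classical
  let : Algebra (PR r) K := (aeval X.g).toRingHom.toAlgebra
  have halg : ∀ F, algebraMap (PR r) K F = aeval X.g F := fun _ => rfl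
  have : IsScalarTower ℚ (PR r) K := IsScalarTower.of_algebraMap_eq fun c => by simp [halg]
  have : FaithfulSMul (PR r) K := (faithfulSMul_iff_algebraMap_injective _ _).mpr
    ((injective_iff_map_eq_zero _).mpr X.inj)
  let := FractionRing.liftAlgebra (PR r) K
  have := FractionRing.isScalarTower_liftAlgebra (PR r) K
  have hsm : ∀ (F : PR r) (z : K), F • z = aeval X.g F * z := fun F z => Algebra.smul_def F z
  obtain ⟨s, W, f, φ, hs, hWA, hW, h0, hf, hfp, hind, hμ, hφV, hφ2, hφ3, hH, hφΛ⟩ :=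
    X.frame (FractionRing (PR r)) halg V hVA (o := fun v => v.elim l fun _ => 0)
      (by rintro (_ | p) j; exacts [hV j, hV' j p])
  simp only [Fintype.sum_option, Option.elim, sum_const_zero, add_zero] at hH hφΛ
  simp only [wt_eq] at hu hu'
  set μ : Option P → ℝ := fun v => gn (X.w v) (f none) with hμd
  set b : Option P → ℝ := fun v => Finsupp.weight (X.w v) u0 with hbd
  set σ := ∑ p, min (α p) (β p) with hσ
  have hσ0 : 0 ≤ σ := sum_nonneg fun p _ => le_min (hα p) (hβ p)
  have hsl : s * l ≤ δ := (mul_le_mul_of_nonneg_right (by exact_mod_cast hs) hl).trans hD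
  have hsl0 : 0 ≤ s * l := by positivity
  have hσ1 : 0 < 1 - σ := by linarith
  have hH0 := ht_nonneg X.sum_w h0
  have hHμ : ht X.w (f none) = μ none + ∑ p, μ (some p) := Fintype.sum_option _
  have hb0 : b none + ∑ p, b (some p) = 0 := (Fintype.sum_option _).symm.trans
    (sum_weight X.sum_w u0)
  have hmon : ∀ a, aeval X.g (monomial a (1 : ℚ)) = mon X.g a := fun a => by
    rw [aeval_monomial_eq, one_smul]
  have reg : ∀ {T : Type} [Fintype T] (e : T → J) (c : T → ℚ) (u : T → Fin r →₀ ℕ) (α : P → ℝ),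
      (∀ p, 0 ≤ α p) → (∀ t, Finsupp.weight (X.w none) (u t) ≤ b none ∧ ∀ p,
        Finsupp.weight (X.w (some p)) (u t) ≤
          b (some p) + α p * (b none - Finsupp.weight (X.w none) (u t))) →
      ∃ z : Submodule.span (PR r) (Set.range V), (z : K) = ∑ t, c t • (mon X.g (u t) * V (e t)) ∧
        ∀ i j, ∀ a ∈ (φ i j z).support, ∀ p, Finsupp.weight (X.w (some p)) a ≤ b (some p) +
          μ (some p) + α p * (b none + μ none - Finsupp.weight (X.w none) a) := by
    intro T _ e c u α hα hu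
    refine ⟨∑ t, (monomial (u t) (c t) : PR r) • ⟨V (e t), Submodule.subset_span ⟨_, rfl⟩⟩, ?_,
      fun i j a ha p => ?_⟩
    · simp [hsm, aeval_monomial_eq]
    · simp only [map_sum, map_smul, smul_eq_mul] at ha
      obtain ⟨t, -, ht⟩ := mem_biUnion.mp (support_sum ha)
      obtain ⟨a1, h1, a2, h2, rfl⟩ := mem_add.mp (support_mul _ _ ht)
      obtain rfl : a1 = u t := by simpa using support_monomial_subset h1
      have h3 := hφV none i j _ a2 h2
      have h4 := hφV (some p) i j _ a2 h2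
      have h5 := mul_le_mul_of_nonneg_left h3 (hα p)
      simp only [map_add]
      nlinarith [(hu t).2 p]
  obtain ⟨z, hz, hzr⟩ := reg e c u α hα hu
  obtain ⟨z', hz', hzr'⟩ := reg e' c' u' β hβ hu'
  rw [← hx] at hz
  rw [← hx'] at hz'
  set lam := b none - 1 - l + s * l - ∑ p, μ (some p) with hlam
  have hΛ' : ∀ i j, φ i j z - φ i j z' ∈ Bd (X.w none) lam := fun i j => by
    rw [← map_sub]
    refine Bd_mono (le_of_eq ?_) (hφΛ i j (z - z') none (b none + -1) ?_)
    · rw [hHμ]; simp only [hlam, hμd]; ring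
    · rw [Submodule.coe_sub, hz, hz', ← mul_sub]
      exact X.mul_B _ _ _ _ (X.mon_B none u0) _ hΛ
  obtain ⟨τ, hτ⟩ := exists_trunc (X.w none) lam
  set τ0 := δ / (1 - σ) with hτ0
  have hp : ∀ i j q, τ (φ i j z) ∈
      Bd (X.w (some q)) (b (some q) + μ (some q) + min (α q) (β q) * τ0) := by
    intro i j q a ha
    rw [mem_support_iff, hτ] at ha
    have h1 : lam < Finsupp.weight (X.w none) a := by
      by_contra h; exact ha (if_neg h)
    rw [if_pos h1] at ha
    have h2 : a ∈ (φ i j z').support := by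
      by_contra h
      refine absurd (hΛ' i j a ?_) (not_le.mpr h1)
      rwa [mem_support_iff, coeff_sub, notMem_support_iff.mp h, sub_zero]
    have h3 : ∀ p, Finsupp.weight (X.w (some p)) a ≤ b (some p) + μ (some p) +
        min (α p) (β p) * (b none + μ none - Finsupp.weight (X.w none) a) := fun p => by
      rcases min_choice (α p) (β p) with h | h <;> rw [h]
      exacts [hzr i j a (mem_support_iff.mpr ha) p, hzr' i j a h2 p]
    have h4 := sum_le_sum (s := univ) fun p _ => h3 p
    have h5 := sum_weight X.sum_w a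
    simp only [sum_add_distrib, ← sum_mul, Fintype.sum_option] at h4 h5
    have h6 : b none + μ none - Finsupp.weight (X.w none) a ≤ τ0 := by
      rw [hτ0, le_div_iff₀ hσ1]
      nlinarith
    exact (h3 q).trans (add_le_add_right
      (mul_le_mul_of_nonneg_left h6 (le_min (hα q) (hβ q))) _)
  have hdeep : ∀ i j, τ (φ i j z) - φ i j z ∈ Bd (X.w none) lam := by
    intro i j a ha
    by_contra h
    rw [mem_support_iff, coeff_sub, hτ, if_pos (not_le.mp h), sub_self] at ha
    exact ha rfl
  have hanti : ∀ i j, φ j i z = -φ i j z := fun i j => mul_left_cancel₀ h0 (by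
    rw [mul_neg, hφ2, hφ2]; ring)
  have hanti' : ∀ i j, τ (φ j i z) = -τ (φ i j z) := fun i j => by
    ext a
    rw [coeff_neg, hτ, hτ, hanti i j, coeff_neg]
    split_ifs <;> simp
  have ha0 : algebraMap (PR r) (FractionRing (PR r)) (f none) ≠ 0 :=
    (map_ne_zero_iff _ (IsFractionRing.injective _ _)).mpr h0
  have key := X.alt_zero halg W hWA hW f hf hfp h0 hind hμ (Matrix.of fun i j => τ (φ i j z))
    hanti' (ν := fun v => v.elim lam fun q => b (some q) + μ (some q) + min (α q) (β q) * τ0)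
    (by
      rintro (_ | q)
      · refine ⟨_, hdeep, fun i => algebraMap _ _ (φ i none z) / algebraMap _ _ (f none),
          fun i => -algebraMap _ _ (φ i none z) / algebraMap _ _ (f none), fun i j => ?_⟩
        have := congrArg (algebraMap (PR r) (FractionRing (PR r))) (hφ2 i j z)
        simp only [map_mul, map_sub, Matrix.of_apply] at this ⊢
        field_simp
        linear_combination this
      · exact ⟨_, fun i j => hp i j q, 0, 0, by simp⟩)
    (by
      simp only [Fintype.sum_option, Option.elim, sum_add_distrib, ← sum_mul, sum_const_zero]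
      have : (1 - σ) * τ0 = δ := mul_div_cancel₀ _ hσ1.ne'
      have h1 : τ0 + l < 1 := by
        rw [hτ0, div_add' _ _ _ hσ1.ne', div_lt_one hσ1]
        nlinarith
      rw [← hσ]
      linarith)
  simp only [Matrix.of_apply] at key
  let S : Option (Fin s) → K := fun i => ∑ j, τ (φ j i z) • W j
  have hS : ∀ i, f none • S i = f i • S none := fun i => by
    have h1 : ∀ j, f none • τ (φ j i z) • W j =
        τ (φ none i z) • f j • W j + f i • τ (φ j none z) • W j := fun j => by
      rw [smul_smul, smul_smul, smul_smul, ← add_smul, key j i, hanti' j none]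
      congr 1
      ring
    change f none • ∑ j, τ (φ j i z) • W j = f i • ∑ j, τ (φ j none z) • W j
    rw [smul_sum, smul_sum, sum_congr rfl fun j _ => h1 j, sum_add_distrib, ← smul_sum, hf,
      smul_zero, zero_add]
  set w := aeval X.g (f none * monomial u0 1) with hw
  have hm0 : (monomial u0 1 : PR r) ≠ 0 := by simp
  have hw0 : w ≠ 0 := X.aeval_ne (mul_ne_zero h0 hm0)
  have hwg : ∀ v, gn (X.w v) (f none * monomial u0 1) = μ v + b v := fun v => by
    rw [gn_mul h0 hm0, gn_monomial _ one_ne_zero]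
  have hdiv : ∀ v β' y, w * y ∈ X.B v (μ v + b v + β') → y ∈ X.B v β' := fun v β' y =>
    X.div_B v _ β' w (X.aeval_A _) hw0 (hwg v ▸ X.aeval_B (mem_Bd_gn _ _))
      (hwg v ▸ X.ord_aeval (mul_ne_zero h0 hm0) v) y
  have hwy : w * (S none / w) = S none := mul_div_cancel₀ _ hw0
  refine ⟨S none / w, hdiv _ _ _ ?_, fun p => hdiv _ _ _ ?_,
    ⟨w, X.aeval_A _, hw0, hwy.symm ▸ X.comb_A halg W hWA _⟩, fun Q hQ hQA κ hκ => ?_⟩
  · have : w * (x - S none / w) = -∑ j, (τ (φ j none z) - φ j none z) • W j := by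
      rw [mul_sub, hwy, hw, map_mul, hmon, mul_assoc, ← hz, ← hsm, hφ3]
      simp [S, sub_smul]
    rw [this]
    refine Submodule.neg_mem _ (X.B_mono _ ?_ (X.comb_B halg W hW fun j => hdeep j none))
    simp only [Option.elim]
    linarith
  · rw [hwy]
    refine X.B_mono _ (le_of_eq ?_) (X.comb_B halg W hW fun j => hp j none p)
    simp only [Option.elim]
    ring
  · let I : Ideal (PR r) :=
      { carrier := {F | aeval X.g F * mon X.g u0 * (S none / w) ∈ X.A}
        zero_mem' := by simp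
        add_mem' := fun h1 h2 => by simpa [add_mul] using X.A.add_mem h1 h2
        smul_mem' := fun F G h => by simpa [mul_assoc] using X.A.mul_mem (X.aeval_A F) h }
    have hI : ∀ i, f i ∈ I := fun i => by
      have : aeval X.g (f i) * mon X.g u0 * (S none / w) = S i := by
        refine mul_left_cancel₀ (X.aeval_ne h0) ?_
        have h1 := X.aeval_ne h0
        have h2 : mon X.g u0 ≠ 0 := hmon u0 ▸ X.aeval_ne hm0
        rw [← hsm _ (S i), hS, hsm, hw, map_mul, hmon]
        field_simp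
      change _ ∈ X.A
      rw [this]
      exact X.comb_A halg W hWA _
    have hmA : mon X.g u0 ∈ X.A := hmon u0 ▸ X.aeval_A _
    have := X.gf (M := I) (n := 1)
      { toFun := fun F => aeval X.g (F : PR r) * mon X.g u0 * Q⁻¹
        map_zero' := by simp
        map_add' := fun F G => by simp [add_mul] }
      (fun F G => by simp [mul_assoc])
      ((injective_iff_map_eq_zero _).mpr fun F hF => Subtype.ext (X.inj _ (by
        simpa [hQ, hmon u0 ▸ X.aeval_ne hm0] using hF)))
      (fun F => hQA _ (X.A.mul_mem (X.aeval_A _) hmA) F.2)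
      (AlternatingMap.ofSubsingleton _ _ _ 0 I.subtype)
      (fun x z => by ext1; simp [mul_comm]) (fun i => ⟨f i, hI i⟩)
      (fun π h1 h2 => (hfp π h1 h2).elim fun j hj => ⟨fun _ => j, hj⟩)
      (fun _ _ => ⟨f none, hI none⟩) (fun _ => h0) (fun v _ => μ v + b v + κ v) fun v _ =>
        X.mul_B _ _ _ _ (X.aeval_mul_B (mem_Bd_gn _ _) (X.mon_B v u0)) _ (hκ v)
    simp only [sum_add_distrib, univ_unique, sum_singleton] at this
    change ∑ v, μ v ≤ _ at this
    rw [← Fintype.sum_option b] at hb0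
    linarith

end Pool.Agent.Lib.MP_c9a594_an
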