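import Pool.Agent.Lib.MP_c9a594_an.SharpDefs
import Pool.Agent.Lib.MP_c9a594_an.SharpMain
import Pool.Agent.Lib.MP_c9a594_an.Dioph

/-! The sharp theorem in the ultrapower of the rationals. -/

open Filter Topology Real Finset

namespace Pool.Agent.Lib.MP_c9a594_an

namespace Mdl

open Pool.Agent.Subspace

variable {U : Ultrafilter ℕ} {q : ℕ → ℝ} {ω : ℕ} {S : Finset ℕ} {hS : ∀ p ∈ S, p.Prime}

/-- Rational multiples of tame elements. -/
def ring (hq : Tendsto q U atTop) (hω : ω ≠ 0) : Subalgebra ℚ (UP U) where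
  carrier := {z | ∃ d : ℤ, d ≠ 0 ∧ ((d : ℚ) • z = 0 ∨ (d : ℚ) • z ∈ tameO U q ω)}
  mul_mem' := by
    rintro x y ⟨d, hd, h⟩ ⟨d', hd', h'⟩
    refine ⟨d * d', mul_ne_zero hd hd', ?_⟩
    rw [Int.cast_mul, ← smul_mul_smul_comm]
    exact mul_mem_or h h'
  add_mem' := by
    rintro x y ⟨d, hd, h⟩ ⟨d', hd', h'⟩
    refine ⟨d * d', mul_ne_zero hd hd', ?_⟩
    rw [smul_add, Int.cast_mul, mul_smul _ _ y, mul_comm, mul_smul]
    exact add_mem_or hq hω (zsmul_mem_or hq _ h) (zsmul_mem_or hq _ h')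
  algebraMap_mem' c := by
    refine ⟨c.den, by simp, ?_⟩
    rw [Algebra.algebraMap_eq_smul_one, smul_smul, Int.cast_natCast, mul_comm, Rat.mul_den_eq_num]
    exact zsmul_mem_or hq _ (Or.inr (one_mem _))

variable {hq : Tendsto q U atTop} {hω : ω ≠ 0}

lemma mem_ring {z : UP U} (h : z = 0 ∨ z ∈ tameO U q ω) : z ∈ ring hq hω :=
  ⟨1, one_ne_zero, by rwa [Int.cast_one, one_smul]⟩

lemma exists_tame {z : UP U} (h : z ∈ ring hq hω) (h0 : z ≠ 0) :
    ∃ d : ℤ, d ≠ 0 ∧ (d : ℚ) • z ∈ tameO U q ω := by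
  obtain ⟨d, hd, h⟩ := h
  exact ⟨d, hd, h.resolve_left (smul_ne_zero (by exact_mod_cast hd) h0)⟩

lemma ev_ne {f : ℕ → ℚ} (h : germ U f ≠ 0) : ∀ᶠ k in U, f k ≠ 0 :=
  Ultrafilter.eventually_not.mpr fun h' => h (germ_eq_zero.mpr h')

lemma tendsto_ring {f : ℕ → ℚ} (h : germ U f ∈ ring hq hω) (h0 : germ U f ≠ 0) (v : Option S) :
    Tendsto (rate hS q v f) U (𝓝 (ordU U hS q v (germ U f))) ∧ ∀ d : ℤ, d ≠ 0 →
      (d : ℚ) • germ U f ∈ tameO U q ω →
        ordU U hS q v (germ U f) = ordU U hS q v ((d : ℚ) • germ U f) := by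
  have key : ∀ d : ℤ, d ≠ 0 → (d : ℚ) • germ U f ∈ tameO U q ω →
      Tendsto (rate hS q v f) U (𝓝 (ordU U hS q v ((d : ℚ) • germ U f))) := fun d hd h => by
    rw [germ_smul] at h ⊢
    have h1 := (tendsto_ordU (hS := hS) hq hω h v).sub
      ((tendsto_const_nhds (x := log (plAbs S hS v d))).div_atTop hq)
    rw [sub_zero] at h1
    refine h1.congr' ((ev_ne h0).mono fun k hk => ?_)
    simp only [rate, map_mul]
    rw [log_mul ((plAbs S hS v).ne_zero (by exact_mod_cast hd)) ((plAbs S hS v).ne_zero hk)]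
    ring
  obtain ⟨d, hd, h1⟩ := exists_tame h h0
  exact ⟨by rw [ordU_eq (key d hd h1)]; exact key d hd h1, fun d hd h => ordU_eq (key d hd h)⟩

lemma ordU_mul {x y : UP U} (hx : x ∈ ring hq hω) (hx0 : x ≠ 0) (hy : y ∈ ring hq hω)
    (hy0 : y ≠ 0) (v : Option S) :
    ordU U hS q v (x * y) = ordU U hS q v x + ordU U hS q v y := by
  obtain ⟨f, rfl⟩ := germ_surj x
  obtain ⟨g, rfl⟩ := germ_surj y
  rw [← map_mul]
  refine ordU_eq (((tendsto_ring hx hx0 v).1.add (tendsto_ring hy hy0 v).1).congr' ?_)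
  filter_upwards [ev_ne hx0, ev_ne hy0] with k h1 h2
  simp only [rate, Pi.mul_apply, map_mul]
  rw [log_mul ((plAbs S hS v).ne_zero h1) ((plAbs S hS v).ne_zero h2), add_div]

lemma sub_ring (hωS : ∀ p, p.Prime → p ∣ ω → p ∈ S) (N : ℕ) (x : Fin N → UP U)
    (w : Option S → Fin N → UP U) (hx : ∀ i, x i ∈ ring hq hω) (hw : ∀ v i, w v i ∈ ring hq hω)
    (ix : LinearIndependent ℚ x) (iw : ∀ v, LinearIndependent ℚ (w v))
    (hs : ∀ v i, w v i ∈ Submodule.span ℚ (Set.range x)) :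
    0 ≤ ∑ v, ∑ i, ordU U hS q v (w v i) := by
  choose d hd h using fun i => exists_tame (hx i) (ix.ne_zero i)
  choose d' hd' h' using fun v i => exists_tame (hw v i) ((iw v).ne_zero i)
  have h1 := sub_ordU (hS := hS) hq hω hωS N (fun i => (d i : ℚ) • x i)
    (fun v i => (d' v i : ℚ) • w v i) h h'
    (ix.units_smul fun i => Units.mk0 (d i : ℚ) (by exact_mod_cast hd i))
    (fun v => (iw v).units_smul fun i => Units.mk0 (d' v i : ℚ) (by exact_mod_cast hd' v i))
    fun v i => Submodule.smul_mem _ _ (Submodule.span_le.mpr (by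
      rintro _ ⟨j, rfl⟩
      rw [← inv_smul_smul₀ (show (d j : ℚ) ≠ 0 by exact_mod_cast hd j) (x j)]
      exact Submodule.smul_mem _ _ (Submodule.subset_span ⟨j, rfl⟩)) (hs v i))
  refine h1.trans_eq (sum_congr rfl fun v _ => sum_congr rfl fun i _ => ?_)
  obtain ⟨f, hf⟩ := germ_surj (w v i)
  have h2 := (tendsto_ring (hS := hS) (hf ▸ hw v i) (hf ▸ (iw v).ne_zero i) v).2 _ (hd' v i)
    (hf ▸ h' v i)
  rw [← hf, h2]

variable (hS hq) in
/-- Elements of growth rate at most `r` at the place `v`. -/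
def smallAt (v : Option S) (r : ℝ) : Submodule ℚ (UP U) where
  carrier := {z | ∀ f, z = germ U f → ∀ ε > 0, ∀ᶠ k in U,
    plAbs S hS v (f k) ≤ exp ((r + ε) * q k)}
  zero_mem' f hf ε _ := (germ_eq_zero.mp hf.symm).mono fun k hk => by simp [hk, (exp_pos _).le]
  add_mem' := by
    intro x y hx hy f hf ε hε
    obtain ⟨g, rfl⟩ := germ_surj x
    obtain ⟨g', rfl⟩ := germ_surj y
    rw [← map_add, germ_eq] at hf
    filter_upwards [hf, hx g rfl (ε / 2) (by positivity), hy g' rfl (ε / 2) (by positivity),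
      (hq.const_mul_atTop (r := ε / 2) (by positivity)).eventually_ge_atTop 1] with k h1 h2 h3 h4
    rw [← h1, Pi.add_apply, show (r + ε) * q k = ε / 2 * q k + (r + ε / 2) * q k by ring, exp_add]
    have := add_one_le_exp (ε / 2 * q k)
    nlinarith [(plAbs S hS v).add_le (g k) (g' k), exp_pos ((r + ε / 2) * q k)]
  smul_mem' := by
    intro c x hx f hf ε hε
    obtain ⟨g, rfl⟩ := germ_surj x
    rw [germ_smul, germ_eq] at hf
    filter_upwards [hf, hx g rfl (ε / 2) (by positivity),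
      (hq.const_mul_atTop (r := ε / 2) (by positivity)).eventually_ge_atTop (plAbs S hS v c)]
      with k h1 h2 h4
    rw [← h1, map_mul, show (r + ε) * q k = ε / 2 * q k + (r + ε / 2) * q k by ring, exp_add]
    have := add_one_le_exp (ε / 2 * q k)
    exact mul_le_mul (by linarith) h2 ((plAbs S hS v).nonneg _) (exp_pos _).le

lemma mem_smallAt {v : Option S} {r : ℝ} {f : ℕ → ℚ} : germ U f ∈ smallAt hS hq v r ↔
    ∀ ε > 0, ∀ᶠ k in U, plAbs S hS v (f k) ≤ exp ((r + ε) * q k) :=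
  ⟨fun h => h f rfl, fun h g hg ε hε => by
    filter_upwards [h ε hε, germ_eq.mp hg] with k h1 h2
    rwa [← h2]⟩

lemma smallAt_of_le {v : Option S} {r : ℝ} {f : ℕ → ℚ}
    (h : ∀ᶠ k in U, plAbs S hS v (f k) ≤ exp (r * q k)) : germ U f ∈ smallAt hS hq v r :=
  mem_smallAt.mpr fun ε hε => by
    filter_upwards [h, hq.eventually_ge_atTop 0] with k h1 h2
    exact h1.trans (exp_le_exp.mpr (by nlinarith))

lemma smallAt_mono {v : Option S} {r r' : ℝ} (h : r ≤ r') :
    smallAt hS hq v r ≤ smallAt hS hq v r' := fun z hz f hf ε hε => by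
  filter_upwards [hz f hf ε hε, hq.eventually_ge_atTop 0] with k h1 h2
  exact h1.trans (exp_le_exp.mpr (by nlinarith))

lemma smallAt_mul {v : Option S} {r r' : ℝ} {x y : UP U} (hx : x ∈ smallAt hS hq v r)
    (hy : y ∈ smallAt hS hq v r') : x * y ∈ smallAt hS hq v (r + r') := by
  obtain ⟨f, rfl⟩ := germ_surj x
  obtain ⟨g, rfl⟩ := germ_surj y
  rw [← map_mul, mem_smallAt]
  intro ε hε
  filter_upwards [hx f rfl (ε / 2) (by positivity), hy g rfl (ε / 2) (by positivity)] with k h1 h2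
  rw [Pi.mul_apply, map_mul,
    show (r + r' + ε) * q k = (r + ε / 2) * q k + (r' + ε / 2) * q k by ring, exp_add]
  exact mul_le_mul h1 h2 ((plAbs S hS v).nonneg _) (exp_pos _).le

lemma smallAt_iff {v : Option S} {r : ℝ} {z : UP U} (h : z ∈ ring hq hω) (h0 : z ≠ 0) :
    z ∈ smallAt hS hq v r ↔ ordU U hS q v z ≤ r := by
  obtain ⟨f, rfl⟩ := germ_surj z
  have h1 := (tendsto_ring (hS := hS) h h0 v).1
  rw [mem_smallAt]
  refine ⟨fun hr => le_of_forall_pos_le_add fun ε hε => le_of_tendsto h1 ?_, fun hr ε hε => ?_⟩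
  · filter_upwards [hr ε hε, hq.eventually_gt_atTop 0, ev_ne h0] with k hk hq h0
    rw [rate, div_le_iff₀ hq]
    exact (log_le_iff_le_exp ((plAbs S hS v).pos h0)).mpr hk
  · filter_upwards [h1.eventually_lt_const (show _ < r + ε by linarith), hq.eventually_gt_atTop 0]
      with k hk hq
    rw [rate, div_lt_iff₀ hq] at hk
    exact (le_exp_log _).trans (exp_le_exp.mpr hk.le)

lemma inv_smallAt {v : Option S} {z : UP U} (h : z ∈ ring hq hω) (h0 : z ≠ 0) :
    z⁻¹ ∈ smallAt hS hq v (-ordU U hS q v z) := by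
  obtain ⟨f, rfl⟩ := germ_surj z
  rw [← germ_inv, mem_smallAt]
  intro ε hε
  filter_upwards [(tendsto_ring (hS := hS) h h0 v).1.eventually_const_lt
    (sub_lt_self _ hε), hq.eventually_gt_atTop 0] with k hk hq
  rw [rate, lt_div_iff₀ hq] at hk
  rw [Pi.inv_apply, map_inv₀]
  refine (le_exp_log _).trans (exp_le_exp.mpr ?_)
  rw [log_inv]
  linarith

section merge

variable {P : Type} [Fintype P] [DecidableEq P]

variable (hS hq hω) in
/-- The model with merged places. -/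
noncomputable def ctx (hωS : ∀ p, p.Prime → p ∣ ω → p ∈ S) (cls : Option S → P) :
    Ctx (UP U) P where
  O := { carrier := {z | z ∈ ring hq hω ∧ z ≠ 0}
         mul_mem' := fun h h' => ⟨mul_mem h.1 h'.1, mul_ne_zero h.2 h'.2⟩
         one_mem' := ⟨one_mem _, one_ne_zero⟩ }
  ord c z := ∑ v with cls v = c, ordU U hS q v z
  ord_mul c x hx y hy := by
    rw [← sum_add_distrib]
    exact sum_congr rfl fun v _ => ordU_mul hx.1 hx.2 hy.1 hy.2 v
  sub N x w hx hw ix iw hs := by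
    refine (sub_ring (hS := hS) hωS N x (fun v => w (cls v)) (fun i => (hx i).1)
      (fun v i => (hw _ i).1) ix (fun v => iw _) fun v => hs _).trans_eq ?_
    rw [← sum_fiberwise univ cls]
    refine sum_congr rfl fun c _ => ?_
    rw [sum_comm]
    exact sum_congr rfl fun i _ => sum_congr rfl fun v hv => by rw [(mem_filter.mp hv).2]

variable (hS hq) in
/-- Elements of small growth at all places of a class. -/
noncomputable def smallC (cls : Option S → P) (t : Option S → ℝ) (c : P) (r : ℝ) : Submodule ℚ (UP U) :=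
  ⨅ v, ⨅ _ : cls v = c, smallAt hS hq v (t v * r)

omit [Fintype P] [DecidableEq P] in
lemma mem_smallC {cls : Option S → P} {t : Option S → ℝ} {c : P} {r : ℝ} {z : UP U} :
    z ∈ smallC hS hq cls t c r ↔ ∀ v, cls v = c → z ∈ smallAt hS hq v (t v * r) := by
  simp only [smallC, Submodule.mem_iInf]

variable (hS hq hω) in
/-- The model of `Ctx2`. -/
noncomputable def ctx2 (hωS : ∀ p, p.Prime → p ∣ ω → p ∈ S) (cls : Option S → P)
    (t : Option S → ℝ) (ht : ∀ v, 0 < t v) (h1 : ∀ c, ∑ v with cls v = c, t v = 1) {r : ℕ}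
    (g : Fin r → UP U) (hg : ∀ i, g i ∈ (ctx hS hq hω hωS cls).O)
    (hg0 : ∀ i, ∑ v, ordU U hS q v (g i) = 0)
    (hi : ∀ F : MvPolynomial (Fin r) ℚ, MvPolynomial.aeval g F = 0 → F = 0)
    (hgt : ∀ v i, ordU U hS q v (g i) = t v * (ctx hS hq hω hωS cls).ord (cls v) (g i))
    (hs : ∃ m : Option P → Fin r →₀ ℕ, ∀ v c, c ≠ some v →
      (ctx hS hq hω hωS cls).wt g v (m c) < (ctx hS hq hω hωS cls).wt g v (m (some v))) :
    Ctx2 (UP U) P r where
  toCtx := ctx hS hq hω hωS cls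
  g := g
  A := ring hq hω
  B := smallC hS hq cls t
  g_A i := (hg i).1
  sum_g i := (sum_fiberwise univ cls _).trans (hg0 i)
  inj := hi
  mem_O z h h0 := ⟨h, h0⟩
  one_B c := mem_smallC.mpr fun v _ => by
    rw [← map_one (germ U)]
    exact smallAt_of_le (Eventually.of_forall fun k => by simp)
  g_B c i := mem_smallC.mpr fun v hv => (smallAt_iff (hg i).1 (hg i).2).mpr (hv ▸ (hgt v i).le)
  mul_B c β β' z hz z' hz' := mem_smallC.mpr fun v hv => by
    rw [mul_add]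
    exact smallAt_mul (mem_smallC.mp hz v hv) (mem_smallC.mp hz' v hv)
  B_mono c β β' h z hz := mem_smallC.mpr fun v hv =>
    smallAt_mono (mul_le_mul_of_nonneg_left h (ht v).le) (mem_smallC.mp hz v hv)
  ord_le c β z h h0 hz := by
    refine (sum_le_sum fun v hv =>
      (smallAt_iff h h0).mp (mem_smallC.mp hz v (mem_filter.mp hv).2)).trans_eq ?_
    rw [← sum_mul, h1, one_mul]
  exists_B c z h := by
    by_cases h0 : z = 0
    · exact ⟨0, h0 ▸ zero_mem _⟩
    refine ⟨∑ v, |ordU U hS q v z| / t v, mem_smallC.mpr fun v _ => (smallAt_iff h h0).mpr ?_⟩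
    rw [← div_le_iff₀' (ht v)]
    exact (div_le_div_of_nonneg_right (le_abs_self _) (ht v).le).trans
      (single_le_sum (f := fun v => |ordU U hS q v z| / t v)
        (fun v _ => div_nonneg (abs_nonneg _) (ht v).le) (mem_univ v))
  div_B c β β' w h h0 hw he z hz := mem_smallC.mpr fun v hv => by
    have h2 : ordU U hS q v w = t v * β := (sum_eq_sum_iff_of_le fun v hv =>
      (smallAt_iff h h0).mp (mem_smallC.mp hw v (mem_filter.mp hv).2)).mp
        (by rw [← sum_mul, h1, one_mul]; exact he) v (mem_filter.mpr ⟨mem_univ v, hv⟩)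
    have h3 := smallAt_mul (inv_smallAt h h0) (mem_smallC.mp hz v hv)
    rwa [inv_mul_cancel_left₀ h0, h2, mul_add, neg_add_cancel_left] at h3
  sep := hs

end merge

lemma exists_split (hS : ∀ p ∈ S, p.Prime) {n : ℕ} (hn : n ≠ 0) :
    ∃ Q : ℕ, n = Q * ∏ p ∈ S, p ^ n.factorization p ∧ ∀ p ∈ S, ¬p ∣ Q := by
  obtain ⟨Q, hQ⟩ : ∏ p ∈ S, p ^ n.factorization p ∣ n :=
    Finset.prod_dvd_of_isRelPrime (fun p hp p' hp' h => Nat.coprime_iff_isRelPrime.mp
      (((Nat.coprime_primes (hS p hp) (hS p' hp')).mpr h).pow _ _)) fun p _ => Nat.ordProj_dvd n p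
  refine ⟨Q, hQ.trans (mul_comm _ _), fun p hp h => Nat.pow_succ_factorization_not_dvd hn (hS p hp) ?_⟩
  rw [pow_succ]
  conv_rhs => rw [hQ]
  exact mul_dvd_mul (dvd_prod_of_mem (fun p => p ^ n.factorization p) hp) h

lemma den_le (p : S) (y : ℚ) {B : ℝ} (hB : 0 ≤ B) (h : plAbs S hS (some p) y ≤ exp B) :
    (y.den.factorization p : ℝ) * log ((p : ℕ) : ℝ) ≤ B := by
  by_cases h0 : y.den.factorization p = 0
  · rwa [h0, Nat.cast_zero, zero_mul]
  have h1 : (p : ℕ) ∣ y.den := Nat.dvd_of_factorization_pos h0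
  have h2 : ¬((p : ℕ) : ℤ) ∣ y.num := fun h => (hS p p.2).one_lt.ne'
    (Nat.eq_one_of_dvd_coprimes y.reduced (Int.natCast_dvd.mp h) h1)
  have h3 : y.num ≠ 0 := fun h => h2 (h ▸ dvd_zero _)
  have h4 := plAbs_some_int (hS := hS) p h3
  have h5 : plAbs S hS (some p) y ≠ 0 := (plAbs S hS _).ne_zero (Rat.num_ne_zero.mp h3)
  rw [padicValInt.eq_zero_of_not_dvd h2, pow_zero, inv_one, ← Rat.mul_den_eq_num, map_mul] at h4
  have h6 := congrArg log h4
  rw [log_mul h5 ((plAbs S hS _).ne_zero (by exact_mod_cast y.den_nz)), log_plAbs_nat y.den_nz,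
    log_one] at h6
  linarith [(log_le_iff_le_exp ((plAbs S hS _).pos (Rat.num_ne_zero.mp h3))).mpr h]

lemma exists_dvd (hωS : ∀ p, p.Prime → p ∣ ω → p ∈ S) {y : ℕ → ℚ} {Q : ℕ → ℕ}
    (hQ : ∀ k, Q k ∣ (y k).den ∧ ∀ p ∈ S, ¬p ∣ Q k) {w : UP U} (hw : w ∈ ring hq hω) (h0 : w ≠ 0)
    (hy : w * germ U y ∈ ring hq hω) :
    w * (germ U fun k => Q k)⁻¹ ∈ ring hq hω ∧ (germ U fun k => Q k) ∈ ring hq hω := by
  obtain ⟨d', hd', f', m', h'⟩ : ∃ d : ℤ, d ≠ 0 ∧ ∃ (f : ℕ → ℤ) (m : ℕ → ℕ),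
      (d : ℚ) • (w * germ U y) = germ U fun k => f k / ω ^ m k := by
    obtain ⟨d, hd, h | ⟨f, m, -, h, -⟩⟩ := hy
    · exact ⟨d, hd, 0, 0, h.trans (germ_eq_zero.mpr (by simp)).symm⟩
    · exact ⟨d, hd, f, m, h⟩
  obtain ⟨d, hd, f, m, C, h, hC⟩ := exists_tame (Subalgebra.smul_mem _ hw (d' : ℚ))
    (smul_ne_zero (by exact_mod_cast hd') h0)
  have hω' : (ω : ℚ) ≠ 0 := by exact_mod_cast hω
  have hQ0 : ∀ k, 0 < Q k := fun k => Nat.pos_of_dvd_of_pos (hQ k).1 (y k).den_pos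
  have h1 : ∀ᶠ k in U, (Q k : ℤ) ∣ f k := by
    have h2 := congrArg (· * germ U y) h
    simp only [smul_mul_assoc, h', germ_smul, ← map_mul, germ_eq, Pi.mul_apply] at h2
    refine h2.mono fun k hk => ?_
    have h3 : f k * ((y k).num * ω ^ m' k) = (y k).den * (d * f' k * ω ^ m k) := by
      have h4 := Rat.mul_den_eq_num (y k)
      field_simp at hk
      rw [← Int.cast_inj (α := ℚ)]
      push_cast
      linear_combination (-(y k).den : ℚ) * hk - f k * ω ^ m' k * h4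
    refine IsCoprime.dvd_of_dvd_mul_right (IsCoprime.mul_right ?_ (IsCoprime.pow_right ?_))
      (h3 ▸ (Int.natCast_dvd_natCast.mpr (hQ k).1).mul_right _)
    · exact Int.isCoprime_iff_nat_coprime.mpr ((y k).reduced.symm.coprime_dvd_left (hQ k).1)
    · exact Nat.isCoprime_iff_coprime.mpr (Nat.coprime_of_dvd fun p hp h1 h2 =>
        (hQ k).2 p (hωS p hp h2) h1)
  constructor
  · refine ⟨d * d', mul_ne_zero hd hd', Or.inr ⟨fun k => f k / Q k, m, C, ?_, ?_⟩⟩
    · rw [← smul_mul_assoc, Int.cast_mul, mul_smul, h, ← germ_inv, ← map_mul, germ_eq]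
      refine h1.mono fun k hk => ?_
      rw [Int.cast_div hk (by exact_mod_cast (hQ0 k).ne'), Pi.mul_apply, Pi.inv_apply]
      push_cast
      ring
    · filter_upwards [h1, hC] with k h1 h2
      refine ⟨fun h => h2.1 (Int.eq_zero_of_ediv_eq_zero h1 h), le_trans ?_ h2.2.1, h2.2.2⟩
      exact_mod_cast Int.abs_ediv_le_abs _ _
  · refine mem_ring (Or.inr (int_mem (f := fun k => Q k) (C := C) hq ?_))
    filter_upwards [h1, hC] with k h1 h2
    refine ⟨by exact_mod_cast (hQ0 k).ne', le_trans ?_ h2.2.1⟩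
    exact_mod_cast Int.le_of_dvd (abs_pos.mpr h2.1) ((abs_dvd_abs _ _).mpr h1)

lemma exists_den {y : ℕ → ℚ} {Q : ℕ → ℕ}
    (hQ : ∀ k, (y k).den = Q k * ∏ p ∈ S, p ^ (y k).den.factorization p) (ν : ℕ → ℝ) {τ : ℝ}
    (hν : ∀ p, 0 ≤ ν p * τ) (h1 : (germ U fun k => Q k) ∈ smallAt hS hq none 0)
    (h2 : ∀ p : S, germ U y ∈ smallAt hS hq (some p) (ν p * τ)) {ε : ℝ} (hε : 0 < ε) :
    ∀ᶠ k in U, ∃ R : ℕ, 0 < R ∧ (R : ℝ) ≤ exp (ε * q k) ∧
      (y k).den ∣ R * ∏ p ∈ S, p ^ ⌊ν p * (τ * q k) / log p⌋₊ := by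
  obtain ⟨η, hη⟩ : ∃ η : ℝ, η = ε / (1 + 2 * S.card) := ⟨_, rfl⟩
  have hη0 : 0 < η := by rw [hη]; positivity
  have hη1 : η * (1 + 2 * S.card) = ε := hη ▸ div_mul_cancel₀ _ (by positivity)
  filter_upwards [mem_smallAt.mp h1 η hη0, eventually_all.mpr fun p => mem_smallAt.mp (h2 p) η hη0,
    eventually_all.mpr fun p : S =>
      (hq.const_mul_atTop hη0).eventually_ge_atTop (log ((p : ℕ) : ℝ)), hq.eventually_ge_atTop 0]
    with k a1 a2 a3 a4
  rw [plAbs_none, Rat.cast_natCast, Nat.abs_cast, zero_add] at a1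
  refine ⟨Q k * ∏ p ∈ S, p ^ ((y k).den.factorization p - ⌊ν p * (τ * q k) / log p⌋₊),
    Nat.mul_pos (Nat.pos_of_mul_pos_right (hQ k ▸ (y k).den_pos))
      (prod_pos fun p hp => pow_pos (hS p hp).pos _), ?_, ?_⟩
  · have a5 : ∀ p ∈ S, (p : ℝ) ^ ((y k).den.factorization p - ⌊ν p * (τ * q k) / log p⌋₊) ≤
        exp (2 * (η * q k)) := fun p hp => by
      have b1 := log_pos_of_mem hS ⟨p, hp⟩
      have b2 := den_le ⟨p, hp⟩ (y k) (mul_nonneg (add_nonneg (hν p) hη0.le) a4) (a2 ⟨p, hp⟩)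
      have b3 := (div_lt_iff₀ b1).mp (Nat.lt_floor_add_one (ν p * (τ * q k) / log p))
      have b4 := a3 ⟨p, hp⟩
      rcases le_total ((y k).den.factorization p) ⌊ν p * (τ * q k) / log p⌋₊ with h | h
      · rw [Nat.sub_eq_zero_of_le h, pow_zero]
        exact one_le_exp (by positivity)
      · refine (le_exp_log _).trans (exp_le_exp.mpr ?_)
        rw [log_pow, Nat.cast_sub h]
        dsimp only at b1 b2 b3 b4
        linarith
    have a6 := prod_le_prod (fun p _ => by positivity) a5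
    rw [prod_const, ← exp_nat_mul] at a6
    rw [show ε * q k = η * q k + S.card * (2 * (η * q k)) by rw [← hη1]; ring, exp_add]
    push_cast
    exact mul_le_mul a1 a6 (by positivity) (exp_pos _).le
  · rw [mul_assoc, ← prod_mul_distrib]
    conv_lhs => rw [hQ k]
    refine mul_dvd_mul_left _ (prod_dvd_prod_of_dvd _ _ fun p _ => ?_)
    rw [← pow_add]
    exact pow_dvd_pow _ le_tsub_add

lemma tendsto_floor (hq : Tendsto q U atTop) (x : ℝ) :
    Tendsto (fun k => ((⌊x * q k⌋ : ℤ) : ℝ) / q k) U (𝓝 x) := by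
  have h1 := (tendsto_const_nhds (x := x)).sub ((tendsto_const_nhds (x := (1 : ℝ))).div_atTop hq)
  rw [sub_zero] at h1
  refine tendsto_of_tendsto_of_tendsto_of_le_of_le' h1 tendsto_const_nhds ?_ ?_
  · filter_upwards [hq.eventually_gt_atTop 0] with k hk
    rw [le_div_iff₀ hk, sub_mul, div_mul_cancel₀ _ hk.ne']
    exact (Int.sub_one_lt_floor _).le
  · filter_upwards [hq.eventually_gt_atTop 0] with k hk
    rw [div_le_iff₀ hk]
    exact Int.floor_le _

lemma tame_of_tendsto (hq : Tendsto q U atTop) {γ : ℕ → ℤ × ℤ} {x y : ℝ}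
    (hx : Tendsto (fun k => ((γ k).1 : ℝ) / q k) U (𝓝 x))
    (hy : Tendsto (fun k => ((γ k).2 : ℝ) / q k) U (𝓝 y)) : γ ∈ tameE U q := by
  refine ⟨max |x| |y| + 1, ?_⟩
  filter_upwards [(hx.abs.max hy.abs).eventually_lt_const (lt_add_one _), hq.eventually_gt_atTop 0]
    with k h1 h2
  rw [abs_div, abs_div, abs_of_pos h2, max_div_div_right h2.le, div_lt_iff₀ h2] at h1
  exact h1.le

section slope

variable (a b : ℕ)

/-- The weight of a prime. -/
noncomputable def ms (p : ℕ) : ℝ := a.factorization p * log p + b.factorization p * log p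

/-- The slope of a prime. -/
noncomputable def sl (p : ℕ) : ℝ := a.factorization p * log p / ms a b p

/-- The slopes that occur. -/
noncomputable def Sl : Finset ℝ := (a * b).primeFactors.image (sl a b)

/-- The class of a place. -/
noncomputable def cl : Option (a * b).primeFactors → Option (Sl a b) :=
  Option.map fun p => ⟨sl a b p, mem_image_of_mem _ p.2⟩

/-- The weight of a place. -/
noncomputable def mu (v : Option (a * b).primeFactors) : ℝ := v.elim 1 fun p => ms a b p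

/-- The direction of a class. -/
noncomputable def dir (c : Option (Sl a b)) : ℝ × ℝ := c.elim (log a, log b) fun θ => (-θ, θ - 1)

/-- The weight of a class. -/
noncomputable def tot (c : Option (Sl a b)) : ℝ := ∑ v with cl a b v = c, mu a b v

/-- Separating exponents. -/
noncomputable def ex (c : Option (Option (Sl a b))) : ℝ × ℝ :=
  c.elim (0, 0) fun c => c.elim (1, 1) fun θ => (θ ^ 2 - 2 * θ - 1, θ ^ 2 - 1)

variable {a b}

lemma ms_pos {p : ℕ} (hp : p ∈ (a * b).primeFactors) : 0 < ms a b p := by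
  obtain ⟨h1, h2, h3⟩ := Nat.mem_primeFactors.mp hp
  have h4 := h1.factorization_pos_of_dvd h3 h2
  rw [Nat.factorization_mul (left_ne_zero_of_mul h3) (right_ne_zero_of_mul h3)] at h4
  rw [ms, ← add_mul]
  exact mul_pos (by exact_mod_cast h4) (log_pos (by exact_mod_cast h1.one_lt))

lemma mu_pos (v : Option (a * b).primeFactors) : 0 < mu a b v := by
  rcases v with _ | p
  · exact one_pos
  · exact ms_pos p.2

lemma Sl_mem (θ : Sl a b) : (0 ≤ θ.1 ∧ θ.1 ≤ 1) ∧ ∃ p, cl a b (some p) = some θ := by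
  obtain ⟨θ, hθ⟩ := θ
  obtain ⟨p, hp, rfl⟩ := mem_image.mp hθ
  have h1 := log_natCast_nonneg p
  exact ⟨⟨div_nonneg (by positivity) (ms_pos hp).le,
    div_le_one_of_le₀ (le_add_of_nonneg_right (by positivity)) (ms_pos hp).le⟩, ⟨p, hp⟩, rfl⟩

lemma cl_none {v : Option (a * b).primeFactors} : cl a b v = none ↔ v = none :=
  Option.map_eq_none_iff

lemma tot_none : tot a b none = 1 := by
  refine sum_eq_single_of_mem none (mem_filter.mpr ⟨mem_univ _, rfl⟩) fun v hv h => ?_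
  exact absurd (cl_none.mp (mem_filter.mp hv).2) h

lemma tot_pos (c : Option (Sl a b)) : 0 < tot a b c := by
  rcases c with _ | θ
  · rw [tot_none]
    exact one_pos
  · obtain ⟨p, hp⟩ := (Sl_mem θ).2
    exact sum_pos (fun v _ => mu_pos v) ⟨some p, mem_filter.mpr ⟨mem_univ _, hp⟩⟩

lemma log_plAbs_dir {hS : ∀ p ∈ (a * b).primeFactors, p.Prime} (ha : a ≠ 0) (hb : b ≠ 0)
    (v : Option (a * b).primeFactors) :
    log (plAbs _ hS v a) = mu a b v * (dir a b (cl a b v)).1 ∧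
      log (plAbs _ hS v b) = mu a b v * (dir a b (cl a b v)).2 := by
  rcases v with _ | p
  · simp [plAbs_none, mu, dir, cl]
  · have h := (ms_pos p.2).ne'
    rw [log_plAbs_nat ha, log_plAbs_nat hb]
    change _ = ms a b p * -sl a b p ∧ _ = ms a b p * (sl a b p - 1)
    rw [sl, mul_neg, mul_sub, mul_div_cancel₀ _ h, ms]
    exact ⟨rfl, by ring⟩

lemma ex_sep (ha : 2 ≤ a) (hb : 2 ≤ b) (v : Option (Sl a b)) (c : Option (Option (Sl a b)))
    (h : c ≠ some v) : (ex a b c).1 * (dir a b v).1 + (ex a b c).2 * (dir a b v).2 <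
      (ex a b (some v)).1 * (dir a b v).1 + (ex a b (some v)).2 * (dir a b v).2 := by
  have h1 : 0 < log a := log_pos (by exact_mod_cast ha)
  have h2 : 0 < log b := log_pos (by exact_mod_cast hb)
  rcases v with _ | θ <;> rcases c with _ | _ | θ' <;> simp only [ex, dir, Option.elim]
  · linarith
  · exact absurd rfl h
  · obtain ⟨h3, h4⟩ := (Sl_mem θ').1
    exact add_lt_add (mul_lt_mul_of_pos_right (by nlinarith) h1)
      (mul_lt_mul_of_pos_right (by nlinarith) h2)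
  · nlinarith [sq_nonneg θ.1]
  · nlinarith [sq_nonneg θ.1]
  · have h3 : θ'.1 - θ.1 ≠ 0 := sub_ne_zero.mpr fun e => h (by rw [Subtype.ext e])
    nlinarith [sq_pos_of_ne_zero h3]

lemma min_ms {p : ℕ} (hp : p ∈ (a * b).primeFactors) :
    ms a b p * min (sl a b p / log a) ((1 - sl a b p) / log b) =
      min (a.factorization p * log p / log a) (b.factorization p * log p / log b) := by
  have h := ms_pos hp
  rw [mul_min_of_nonneg _ _ h.le, ← mul_div_assoc, ← mul_div_assoc, sl, mul_sub,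
    mul_div_cancel₀ _ h.ne', mul_one, ms, add_sub_cancel_left]

lemma sum_min : ∑ θ : Sl a b, min (tot a b (some θ) * (θ / log a))
    (tot a b (some θ) * ((1 - θ) / log b)) = overlap a b := by
  let F : Option (Sl a b) → ℝ := fun c => c.elim 0 fun θ => min (θ / log a) ((1 - θ) / log b)
  have h1 : ∑ c, tot a b c * F c = ∑ v, mu a b v * F (cl a b v) := by
    rw [← sum_fiberwise univ (cl a b)]
    refine sum_congr rfl fun c _ => ?_
    rw [tot, sum_mul]
    exact sum_congr rfl fun v hv => by rw [(mem_filter.mp hv).2]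
  rw [Fintype.sum_option, Fintype.sum_option, show F none = 0 from rfl,
    show F (cl a b none) = 0 from rfl, mul_zero, mul_zero, zero_add, zero_add] at h1
  rw [overlap, ← sum_coe_sort (a * b).primeFactors]
  exact (sum_congr rfl fun θ _ => (mul_min_of_nonneg _ _ (tot_pos _).le).symm).trans
    (h1.trans (sum_congr rfl fun p _ => min_ms p.2))

end slope

end Mdl

open Mdl Pool.Agent.Subspace

/-- The envelope of the denominators at scale `T`. -/
noncomputable def envelope (a b : ℕ) (T : ℝ) : ℕ :=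
  ∏ p ∈ (a * b).primeFactors, p ^ ⌊min (a.factorization p * log p / log a)
    (b.factorization p * log p / log b) * T / log p⌋₊

theorem sharp_ultra (U : Ultrafilter ℕ) {q : ℕ → ℝ} (hq : Tendsto q U atTop) {a b : ℕ}
    (ha : 2 ≤ a) (hb : 2 ≤ b) (hab : ∀ k l : ℕ, 0 < k → 0 < l → a ^ k ≠ b ^ l)
    {J : Type} [Fintype J] (V : J → ℕ → ℤ) {l δ : ℝ} (hl : 0 ≤ l)
    (hV : ∀ j, ∀ᶠ k in U, |(V j k : ℝ)| ≤ exp (l * q k)) (x x' : ℕ → ℚ)
    (hx : germ U x ∈ Submodule.span ℚ {z : UP U | ∃ (γ : ℕ → ℤ × ℤ) (ξ : ℝ) (j : J), ξ ≤ 0 ∧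
      Tendsto (fun k => ((γ k).1 : ℝ) / q k) U (𝓝 ξ) ∧
      Tendsto (fun k => ((γ k).2 : ℝ) / q k) U (𝓝 0) ∧ z = gm U a b γ * germ U fun k => V j k})
    (hx' : germ U x' ∈ Submodule.span ℚ {z : UP U | ∃ (γ : ℕ → ℤ × ℤ) (ξ : ℝ) (j : J), ξ ≤ 0 ∧
      Tendsto (fun k => ((γ k).1 : ℝ) / q k) U (𝓝 0) ∧
      Tendsto (fun k => ((γ k).2 : ℝ) / q k) U (𝓝 ξ) ∧ z = gm U a b γ * germ U fun k => V j k})
    (hΛ : ∀ ε > 0, ∀ᶠ k in U, |(x k : ℝ) - x' k| ≤ exp ((-1 + ε) * q k))
    (hD : Fintype.card J * l ≤ δ) (hδ : δ + l < 1 - overlap a b) :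
    ∃ y : ℕ → ℚ, ∀ ε > 0, ∀ᶠ k in U, |(x k : ℝ) - y k| ≤ exp ((-1 + δ + ε) * q k) ∧
      ∃ Q : ℕ, 0 < Q ∧ (Q : ℝ) ≤ exp (ε * q k) ∧
        (y k).den ∣ Q * envelope a b (δ / (1 - overlap a b) * q k) := by
  have ha0 : a ≠ 0 := by omega
  have hb0 : b ≠ 0 := by omega
  have hω := mul_ne_zero ha0 hb0
  have hla : 0 < log a := log_pos (by exact_mod_cast ha)
  have hlb : 0 < log b := log_pos (by exact_mod_cast hb)
  have hS : ∀ p ∈ (a * b).primeFactors, p.Prime := fun p => Nat.prime_of_mem_primeFactors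
  have hωS : ∀ p, p.Prime → p ∣ a * b → p ∈ (a * b).primeFactors := fun p hp h =>
    Nat.mem_primeFactors.mpr ⟨hp, h, hω⟩
  obtain ⟨n, c, z, hz⟩ := Submodule.mem_span_set'.mp hx
  obtain ⟨n', c', z', hz'⟩ := Submodule.mem_span_set'.mp hx'
  choose γ1 ξ1 e h1 h2 h3 h4 using fun t => (z t).2
  choose γ2 ξ2 e' h1' h2' h3' h4' using fun t => (z' t).2
  let γ : (Fin n ⊕ Fin n') ⊕ Option (Option (Sl a b)) → ℕ → ℤ × ℤ :=
    Sum.elim (Sum.elim γ1 γ2) fun c k => (⌊(ex a b c).1 * q k⌋, ⌊(ex a b c).2 * q k⌋)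
  let ζ : (Fin n ⊕ Fin n') ⊕ Option (Option (Sl a b)) → ℝ × ℝ :=
    Sum.elim (Sum.elim (fun t => (ξ1 t, 0)) fun t => (0, ξ2 t)) (ex a b)
  have hζ : ∀ t, Tendsto (fun k => ((γ t k).1 : ℝ) / q k) U (𝓝 (ζ t).1) ∧
      Tendsto (fun k => ((γ t k).2 : ℝ) / q k) U (𝓝 (ζ t).2) := by
    rintro ((t | t) | t)
    exacts [⟨h2 t, h3 t⟩, ⟨h2' t, h3' t⟩, ⟨tendsto_floor hq _, tendsto_floor hq _⟩]
  have hγ : ∀ t, γ t ∈ tameE U q := fun t => tame_of_tendsto hq (hζ t).1 (hζ t).2
  obtain ⟨r, g, u, u0, c0, hg, hgi, hu⟩ := exists_monomials (a := a) (b := b) ha0 hb0 γ hγ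
  let Y := ctx hS hq hω hωS (cl a b)
  have hO : ∀ {β}, β ∈ tameE U q → gm U a b β ∈ Y.O := fun h =>
    ⟨mem_ring (Or.inr (gm_mem ha0 hb0 h)), fun h0 => by
      obtain ⟨k, hk⟩ := ((germ_eq_zero.mp h0).and (ne_zero_of_mem hω (gm_mem ha0 hb0 h))).exists
      exact hk.2 hk.1⟩
  have hv : ∀ {β : ℕ → ℤ × ℤ} {s t : ℝ}, Tendsto (fun k => ((β k).1 : ℝ) / q k) U (𝓝 s) →
      Tendsto (fun k => ((β k).2 : ℝ) / q k) U (𝓝 t) → ∀ v, ordU U hS q v (gm U a b β) =
        mu a b v * (s * (dir a b (cl a b v)).1 + t * (dir a b (cl a b v)).2) := fun hs ht v => by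
    rw [ordU_gm ha0 hb0 hs ht, (log_plAbs_dir ha0 hb0 v).1, (log_plAbs_dir ha0 hb0 v).2]
    ring
  have hc : ∀ {β : ℕ → ℤ × ℤ} {s t : ℝ}, Tendsto (fun k => ((β k).1 : ℝ) / q k) U (𝓝 s) →
      Tendsto (fun k => ((β k).2 : ℝ) / q k) U (𝓝 t) → ∀ w, Y.ord w (gm U a b β) =
        tot a b w * (s * (dir a b w).1 + t * (dir a b w).2) := fun hs ht w => by
    rw [tot, sum_mul]
    change ∑ v with cl a b v = w, ordU U hS q v _ = _
    exact sum_congr rfl fun v h => by rw [hv hs ht, (mem_filter.mp h).2]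
  have hwt : ∀ t w, Y.wt (fun j => gm U a b (g j)) w (u t) = Y.wt (fun j => gm U a b (g j)) w u0 +
      tot a b w * ((ζ t).1 * (dir a b w).1 + (ζ t).2 * (dir a b w).2) := fun t w => by
    have h5 := congrArg (Y.ord w) (hu t)
    have h6 : (fun _ => c0 t) ∈ tameE U q := ⟨1, (hq.eventually_ge_atTop ‖c0 t‖).mono
      fun k hk => by rwa [one_mul]⟩
    have h7 := fun j => hO (hg j)
    rw [Y.ord_mul w _ (Y.mon_mem h7 _) _ (hO (hγ t)), Y.ord_mul w _ (hO h6) _ (Y.mon_mem h7 _),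
      Y.ord_mon h7, Y.ord_mon h7, hc (hζ t).1 (hζ t).2, hc (β := fun _ => c0 t)
        (tendsto_const_nhds.div_atTop hq) (tendsto_const_nhds.div_atTop hq)] at h5
    linarith
  let tt := fun v => mu a b v / tot a b (cl a b v)
  let X := ctx2 hS hq hω hωS (cl a b) tt (fun v => div_pos (mu_pos v) (tot_pos _))
    (fun w => by
      rw [← div_self (tot_pos w).ne', tot, sum_div]
      exact sum_congr rfl fun v h => by simp only [tt, (mem_filter.mp h).2, tot])
    (fun j => gm U a b (g j)) (fun j => hO (hg j)) (fun j => sum_ordU_gm hq ha0 hb0 hωS (hg j))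
    (aeval_gm_injective ha hb hab hgi)
    (fun v j => by
      obtain ⟨s, t, hs, ht⟩ := exists_hat hq (hg j)
      rw [hv hs ht, hc hs ht, ← mul_assoc, div_mul_cancel₀ _ (tot_pos _).ne'])
    ⟨fun w => u (.inr w), fun v w h => by
      rw [hwt, hwt]
      exact add_lt_add_right (mul_lt_mul_of_pos_left (ex_sep ha hb v w h) (tot_pos v)) _⟩
  have hB : ∀ {β w}, w ∈ X.B none β ↔ w ∈ smallAt hS hq none β := fun {β w} => by
    have e : tt none * β = β := by
      rw [show tt none = 1 / tot a b none from rfl, tot_none, div_one, one_mul]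
    exact mem_smallC.trans ⟨fun h => e ▸ h none rfl, fun h v hv => by
      rwa [cl_none.mp hv, e]⟩
  have hB0 : ∀ {θ} {f : ℕ → ℚ}, (∀ p k, plAbs _ hS (some p) (f k) ≤ 1) →
      germ U f ∈ X.B (some θ) 0 := fun h => mem_smallC.mpr fun v hv => by
    obtain ⟨p, rfl, -⟩ := Option.map_eq_some_iff.mp hv
    exact smallAt_of_le (Eventually.of_forall fun k => by simpa using h p k)
  have hmul : ∀ {T : Type} [Fintype T] (σ : T → ℚ) (τ : T → _) (w : T → UP U),
      mon (fun j => gm U a b (g j)) u0 * ∑ t, σ t • (gm U a b (γ (τ t)) * w t) =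
      ∑ t, (σ t * ((a : ℚ) ^ (c0 (τ t)).1 * (b : ℚ) ^ (c0 (τ t)).2)) •
        (mon (fun j => gm U a b (g j)) (u (τ t)) * w t) := by
    intro T _ σ τ w
    rw [mul_sum]
    exact sum_congr rfl fun t _ => by
      rw [mul_smul_comm, ← mul_assoc, hu, mul_assoc, gm_const, smul_smul]
  obtain ⟨y, y1, y2, ⟨w, hw, hw0, hwy⟩, y4⟩ := X.sharp (fun j => germ U fun k => V j k) hl
    (fun j => mem_ring (hq := hq) (hω := hω) ((int_mem_or hq (hV j)).imp_right (int_mem hq)))
    (fun j => hB.mpr (smallAt_of_le ((hV j).mono fun k hk => (plAbs_none_int _).trans_le hk)))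
    (fun j θ => hB0 fun p k => @Rat.AbsoluteValue.padic_le_one p ⟨hS p p.2⟩ _)
    (fun θ => tot a b (some θ) * (θ / log a)) (fun θ => tot a b (some θ) * ((1 - θ) / log b))
    (fun θ => mul_nonneg (tot_pos _).le (div_nonneg (Sl_mem θ).1.1 hla.le))
    (fun θ => mul_nonneg (tot_pos _).le (div_nonneg (sub_nonneg.mpr (Sl_mem θ).1.2) hlb.le))
    e e' _ _ (fun t => u (.inl (.inl t))) (fun t => u (.inl (.inr t))) u0
    (fun t => by
      have h5 : ∀ w, X.wt X.g w _ = X.wt X.g w u0 + _ := hwt (.inl (.inl t))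
      refine ⟨(h5 _).trans_le (add_le_of_nonpos_right ?_), fun θ => (h5 _).trans_le
        (add_le_add_right (le_of_eq ?_) _)⟩
      · simpa [tot_none, ζ, dir] using mul_nonpos_of_nonpos_of_nonneg (h1 t) hla.le
      · rw [h5 none]
        simp only [tot_none, ζ, dir, Sum.elim_inl, Option.elim]
        field_simp
        ring)
    (fun t => by
      have h5 : ∀ w, X.wt X.g w _ = X.wt X.g w u0 + _ := hwt (.inl (.inr t))
      refine ⟨(h5 _).trans_le (add_le_of_nonpos_right ?_), fun θ => (h5 _).trans_le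
        (add_le_add_right (le_of_eq ?_) _)⟩
      · simpa [tot_none, ζ, dir] using mul_nonpos_of_nonpos_of_nonneg (h1' t) hlb.le
      · rw [h5 none]
        simp only [tot_none, ζ, dir, Sum.elim_inl, Sum.elim_inr, Option.elim]
        field_simp
        ring)
    (germ U x) (germ U x')
    (by
      rw [← hz, sum_congr rfl fun t _ => congrArg (c t • ·) (h4 t)]
      exact hmul c (fun t => .inl (.inl t)) _)
    (by
      rw [← hz', sum_congr rfl fun t _ => congrArg (c' t • ·) (h4' t)]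
      exact hmul c' (fun t => .inl (.inr t)) _)
    (by
      rw [hB, ← map_sub, mem_smallAt]
      simpa only [plAbs_none, Pi.sub_apply, Rat.cast_sub] using hΛ)
    hD (by rwa [sum_min])
  obtain ⟨y, rfl⟩ := germ_surj y
  choose Q hQ hQ' using fun k => exists_split hS (y k).den_nz
  have hQd : ∀ k, Q k ∣ (y k).den ∧ ∀ p ∈ (a * b).primeFactors, ¬p ∣ Q k := fun k =>
    ⟨Dvd.intro _ (hQ k).symm, hQ' k⟩
  have hQ0 : ∀ k, Q k ≠ 0 := fun k => ne_zero_of_dvd_ne_zero (y k).den_nz (hQd k).1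
  have hQ1 : (germ U fun k => Q k) ≠ 0 := fun h => by
    obtain ⟨k, hk⟩ := (germ_eq_zero.mp h).exists
    exact hQ0 k (by exact_mod_cast hk)
  have hQA := (exists_dvd (hq := hq) (hω := hω) hωS hQd hw hw0 hwy).2
  have y5 := y4 _ hQ1 (fun w hw h => by
      by_cases h0 : w = 0
      · rw [h0, zero_mul]
        exact zero_mem _
      · exact (exists_dvd (hq := hq) (hω := hω) hωS hQd hw h0 h).1)
    (fun v => v.elim (-ordU U hS q none (germ U fun k => Q k)) fun _ => 0) (by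
      rintro (_ | θ)
      · exact hB.mpr (inv_smallAt hQA hQ1)
      · refine germ_inv (U := U) _ ▸ hB0 fun p k => ?_
        have := plAbs_some_int (hS := hS) p (z := Q k) (by exact_mod_cast hQ0 k)
        rw [padicValInt.eq_zero_of_not_dvd fun h => hQ' k p p.2 (Int.natCast_dvd_natCast.mp h),
          Int.cast_natCast] at this
        simp [this])
  rw [Fintype.sum_option] at y5
  simp only [Option.elim, sum_const_zero, add_zero, Left.nonneg_neg_iff] at y5
  rw [hB, ← map_sub, mem_smallAt] at y1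
  have hδ0 : 0 ≤ δ := le_trans (by positivity) hD
  refine ⟨y, fun ε hε => (y1 ε hε).and (exists_den (hq := hq) hQ (fun p => min
    (a.factorization p * log p / log a) (b.factorization p * log p / log b)) (fun p => ?_)
    ((smallAt_iff hQA hQ1).mpr y5) (fun p => ?_) hε) |>.mono fun k hk => ⟨?_, hk.2⟩⟩
  · have := log_natCast_nonneg p
    exact mul_nonneg (by positivity) (div_nonneg hδ0 (by linarith))
  · have := mem_smallC.mp (y2 ⟨_, mem_image_of_mem _ p.2⟩) (some p) rfl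
    rwa [sum_min, ← mul_min_of_nonneg _ _ (tot_pos _).le, ← mul_assoc, ← mul_assoc,
      show tt (some p) = ms a b p / tot a b (some ⟨_, mem_image_of_mem _ p.2⟩) from rfl,
      div_mul_cancel₀ _ (tot_pos _).ne', min_ms p.2] at this
  · simpa only [plAbs_none, Pi.sub_apply, Rat.cast_sub] using hk.1

end Pool.Agent.Lib.MP_c9a594_an
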