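import Pool.Agent.Lib.MP_c9a594_an.SharpGF
import Pool.Agent.Lib.MP_c9a594_an.SharpForm

/-! Heights of subspaces in Plücker coordinates. -/

open MvPolynomial Finset Matrix

namespace Pool.Agent.Lib.MP_c9a594_an

variable {K Pl : Type} [Field K] [CharZero K] [Fintype Pl] [Nonempty Pl] {r : ℕ} (X : Ctx2 K Pl r)
  {k : Type} [Field k] [Algebra (PR r) k] [IsFractionRing (PR r) k] [Algebra k K]
  [Algebra (PR r) K] [IsScalarTower (PR r) k K] [IsScalarTower ℚ (PR r) K]
  (halg : ∀ F, algebraMap (PR r) K F = aeval X.g F)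
  {ι : Type} [Fintype ι] (W : ι → K) (hWA : ∀ j, W j ∈ X.A) {o : Pl → ℝ}
  (hW : ∀ v j, W j ∈ X.B v (o v)) (f : ι → PR r) (hf : ∑ j, f j • W j = 0)
  (hfp : ∀ π, Prime π → 0 < ht X.w π → ∃ j, ¬ π ∣ f j)

omit [Nonempty Pl] [IsScalarTower ℚ (PR r) K] in
include halg hW in
lemma Ctx2.comb_B {v : Pl} {x : ι → PR r} {β : ℝ} (hx : ∀ j, x j ∈ Bd (X.w v) β) :
    ∑ j, x j • W j ∈ X.B v (β + o v) :=
  Submodule.sum_mem _ fun j _ => by
    rw [Algebra.smul_def, halg]; exact X.aeval_mul_B (hx j) (hW v j)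

omit [Nonempty Pl] [IsScalarTower ℚ (PR r) K] in
include halg hWA in
lemma Ctx2.comb_A (x : ι → PR r) : ∑ j, x j • W j ∈ X.A :=
  X.A.sum_mem fun j _ => by
    rw [Algebra.smul_def, halg]; exact X.A.mul_mem (X.aeval_A _) (hWA j)

include halg hWA hW hf hfp in
theorem Ctx2.pluecker {μ : Pl → ℝ} (hμ : ∀ v, ∃ j, f j ≠ 0 ∧ μ v ≤ gn (X.w v) (f j)) {m : ℕ}
    (A : Matrix ι (Fin (m + 1)) k) (hA : ∀ j, A j 0 = algebraMap (PR r) k (f j))
    (hb : LinearIndependent k fun β : Fin m => ∑ j, A j β.succ • W j) {θ : k} (hθ : θ ≠ 0)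
    (κ : (Fin (m + 1) → ι) → PR r)
    (hκ : ∀ I, algebraMap (PR r) k (κ I) = θ * (A.submatrix I id).det)
    (hκp : ∀ π, Prime π → ∃ I, ¬ π ∣ κ I) {M : Pl → ℝ} (hM : ∀ v I, κ I ∈ Bd (X.w v) (M v))
    (hM' : ∀ v, ∃ I, κ I ≠ 0 ∧ gn (X.w v) (κ I) = M v) :
    ∑ v, μ v ≤ ∑ v, M v + m * ∑ v, o v := by
  classical
  have inj := IsFractionRing.injective (PR r) k
  obtain ⟨l, hl⟩ := exists_coord hb
  let N : Submodule (PR r) K :=
    { carrier := {z | ∃ (x : ι → PR r) (c : Fin (m + 1) → k),
        (∀ j, algebraMap (PR r) k (x j) = (A *ᵥ c) j) ∧ z = ∑ j, x j • W j}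
      zero_mem' := ⟨0, 0, by simp, by simp⟩
      add_mem' := by
        rintro _ _ ⟨x, c, h, rfl⟩ ⟨x', c', h', rfl⟩
        exact ⟨x + x', c + c', fun j => by simp [h, h', mulVec_add], by
          simp [add_smul, sum_add_distrib]⟩
      smul_mem' := by
        rintro a _ ⟨x, c, h, rfl⟩
        exact ⟨a • x, algebraMap (PR r) k a • c, fun j => by
          rw [mulVec_smul, Pi.smul_apply, Pi.smul_apply, smul_eq_mul, smul_eq_mul, map_mul, h], by
          simp [smul_sum, smul_smul]⟩ }
  have hc : ∀ {x : ι → PR r} {c : Fin (m + 1) → k},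
      (∀ j, algebraMap (PR r) k (x j) = (A *ᵥ c) j) →
      ∑ j, x j • W j = ∑ β : Fin m, c β.succ • ∑ j, A j β.succ • W j := by
    intro x c h
    have h0 : ∑ j, (A j 0 * c 0) • W j = 0 := by
      simp only [mul_comm _ (c 0), mul_smul, ← smul_sum, hA, algebraMap_smul, hf, smul_zero]
    simp only [← algebraMap_smul k (x _), h, mulVec, dotProduct, Fin.sum_univ_succ, add_smul,
      sum_add_distrib, h0, zero_add, sum_smul, smul_sum, smul_smul]
    rw [sum_comm]
    simp only [mul_comm]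
  have key : ∀ (x : Fin m → ι → PR r) (c : Fin m → Fin (m + 1) → k),
      (∀ β j, algebraMap (PR r) k (x β j) = (A *ᵥ c β) j) → ∀ I : Fin (m + 1) → ι,
      algebraMap (PR r) k (of fun i => Fin.cons (f (I i)) fun β => x β (I i)).det =
        θ⁻¹ * (of fun β => l (∑ j, x β j • W j)).det * algebraMap (PR r) k (κ I) := by
    intro x c h I
    let Cm : Matrix (Fin (m + 1)) (Fin (m + 1)) k :=
      of fun i => Fin.cons (Pi.single (M := fun _ => k) 0 1 i) fun β => c β i
    have e1 : (algebraMap (PR r) k).mapMatrix (of fun i => Fin.cons (f (I i)) fun β => x β (I i)) =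
        A.submatrix I id * Cm := by
      ext i j
      refine Fin.cases ?_ (fun β => ?_) j
      · simp [Cm, mul_apply, hA, Pi.single_apply]
      · simp [Cm, mul_apply, h, mulVec, dotProduct]
    have e2 : Cm.det = (of fun β => l (∑ j, x β j • W j)).det := by
      simp only [hc (h _), hl]
      rw [det_succ_column_zero, Fin.sum_univ_succ]
      simp [Cm, Pi.single_apply]
      exact det_transpose (of fun β i => c β i.succ)
    rw [RingHom.map_det, e1, det_mul, e2, hκ]
    field_simp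
  obtain ⟨D, hD, hcr⟩ := exists_alt hl θ⁻¹ N (by
      rintro _ ⟨x, c, h, rfl⟩
      rw [hc h]
      exact Submodule.sum_mem _ fun β _ => Submodule.smul_mem _ _ (Submodule.subset_span ⟨β, rfl⟩))
    fun z => by
      choose x c h hz using fun β => (z β).2
      simp only [hz]
      exact int_of_primitive hκp fun I => ⟨_, key x c h I⟩
  have hup : ∀ (I : Fin (m + 1) → ι) i j, A.submatrix (Function.update I i j) id =
      (A.submatrix I id).updateRow i (A j) := fun I i j => by
    ext i' c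
    by_cases h : i' = i
    · subst h; simp
    · simp [h]
  have hy : ∀ I i, ∃ c, ∀ j, algebraMap (PR r) k (κ (Function.update I i j)) = (A *ᵥ c) j :=
    fun I i => ⟨fun c => θ * adjugate (A.submatrix I id)ᵀ i c, fun j => by
      rw [hκ, hup, ← cramer_transpose_apply, cramer_eq_adjugate_mulVec]
      simp only [mulVec, dotProduct, mul_sum]
      exact sum_congr rfl fun c _ => by ring⟩
  choose cy hcy using hy
  let Y : (Fin (m + 1) → ι) × Fin (m + 1) → N := fun p =>
    ⟨∑ j, κ (Function.update p.1 p.2 j) • W j, _, _, hcy p.1 p.2, rfl⟩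
  have hz : ∀ I i i', i ≠ i' → κ (Function.update I i (I i')) = 0 := fun I i i' h => inj (by
    rw [hκ, map_zero, det_zero_of_row_eq h (by ext; simp [h.symm]), mul_zero])
  have hY : ∀ I, D (fun β => Y (I, β.succ)) * κ I = f (I 0) * κ I ^ m := fun I => by
    have h1 := key _ _ (fun β => hcy I β.succ) I
    rw [← hD (fun β => Y (I, β.succ)), ← map_mul] at h1
    rw [← inj h1, det_succ_row_zero, Fin.sum_univ_succ]
    simp only [of_apply, Fin.cons_succ, hz I _ 0 (Fin.succ_ne_zero _)]
    have : (of fun i => Fin.cons (f (I i)) fun β => κ (Function.update I β.succ (I i)) :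
        Matrix (Fin (m + 1)) (Fin (m + 1)) (PR r)).submatrix Fin.succ Fin.succ = κ I • 1 := by
      ext1 i j
      by_cases h : i = j
      · subst h; simp
      · simp [h, hz I j.succ i.succ (by simpa using Ne.symm h)]
    simp [this]
  have horth : ∀ I j, κ I * f j = ∑ i, κ (Function.update I i j) * f (I i) := fun I j => inj (by
    simp only [map_mul, map_sum, hκ, hup, ← hA, mul_assoc, ← mul_sum]
    exact congrArg _ (cramer_rows _ (A j) 0))
  have hsw : ∀ I i, ∃ I', I' 0 = I i ∧ (κ I' = κ I ∨ κ I' = -κ I) := fun I i => by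
    refine ⟨I ∘ Equiv.swap 0 i, by simp, ?_⟩
    have := det_permute (Equiv.swap 0 i) (A.submatrix I id)
    rw [submatrix_submatrix, Function.comp_id] at this
    rcases Int.units_eq_one_or (Equiv.Perm.sign (Equiv.swap 0 i)) with h | h
    · exact Or.inl (inj (by simp [hκ, this, h]))
    · exact Or.inr (inj (by simp [hκ, this, h]))
  have hbest : ∀ v, ∃ I, κ I ≠ 0 ∧ gn (X.w v) (κ I) = M v ∧ f (I 0) ≠ 0 ∧
      μ v ≤ gn (X.w v) (f (I 0)) := fun v => by
    obtain ⟨I, h1, h2⟩ := hM' v
    obtain ⟨j, h3, h4⟩ := hμ v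
    obtain ⟨e, he, he'⟩ := exists_gn (X.w v) (mul_ne_zero h1 h3)
    rw [horth] at he
    obtain ⟨i, -, hi⟩ := mem_biUnion.mp (support_sum he)
    have h5 := Bd_mul (hM v _) (mem_Bd_gn (X.w v) (f (I i))) e hi
    rw [he', gn_mul h1 h3, h2] at h5
    obtain ⟨I', h6, h7⟩ := hsw I i
    refine ⟨I', ?_, ?_, h6 ▸ right_ne_zero_of_mul (support_nonempty.mp ⟨e, hi⟩), by
      rw [h6]; linarith⟩
    · rcases h7 with h | h <;> simpa [h] using h1
    · rcases h7 with h | h <;> simpa [h, gn_neg] using h2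
  choose I h1 h2 h3 h4 using hbest
  have hne : ∀ v, D (fun β => Y (I v, β.succ)) ≠ 0 := fun v =>
    left_ne_zero_of_mul (hY (I v) ▸ mul_ne_zero (h3 v) (pow_ne_zero _ (h1 v)))
  have main := X.gf N.subtype.toAddMonoidHom (fun F z => by simp [Algebra.smul_def, halg])
    Subtype.val_injective (by rintro ⟨_, x, c, h, rfl⟩; exact X.comb_A halg W hWA x) D hcr Y
    (fun π hπ hh => by
      obtain ⟨I, hI⟩ := hκp π hπ
      obtain ⟨j, hj⟩ := hfp π hπ hh
      obtain ⟨i, hi⟩ : ∃ i, ¬ π ∣ f (I i) := by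
        by_contra! hc
        exact (hπ.dvd_or_dvd (horth I j ▸ dvd_sum fun i _ => (hc i).mul_left _)).elim hI hj
      obtain ⟨I', h6, h7⟩ := hsw I i
      refine ⟨fun β => (I', β.succ), fun hd => ?_⟩
      rcases hπ.dvd_or_dvd (hY I' ▸ hd.mul_right (κ I') : π ∣ f (I' 0) * κ I' ^ m) with h | h
      · exact hi (h6 ▸ h)
      · rcases h7 with h' | h' <;> exact hI (by simpa [h'] using hπ.dvd_of_dvd_pow h))
    (fun v β => Y (I v, β.succ)) hne (fun v _ => M v + o v)
    fun v β => X.comb_B halg W hW fun j => hM v _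
  have h5 : ∀ v, μ v + m * M v ≤ gn (X.w v) (D fun β => Y (I v, β.succ)) + M v := fun v => by
    have := congrArg (gn (X.w v)) (hY (I v))
    rw [gn_mul (hne v) (h1 v), gn_mul (h3 v) (pow_ne_zero _ (h1 v)), gn_pow (h1 v), h2] at this
    linarith [h4 v]
  have h6 := sum_le_sum (s := univ) fun v _ => h5 v
  simp only [sum_add_distrib, sum_const, card_univ, Fintype.card_fin, nsmul_eq_mul,
    ← mul_sum] at main h6
  linarith

/-- The bordered determinant. -/
noncomputable def border {S n : Type} [CommRing S] [Fintype n] [DecidableEq n] (P : Matrix n n S)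
    (f : n → S) : S :=
  (fromBlocks P (of fun i (_ : Unit) => f i) (of fun (_ : Unit) j => f j) 0).det

lemma border_add {S n : Type} [CommRing S] [Fintype n] [DecidableEq n] {P Q : Matrix n n S}
    {f x x' : n → S} (h : ∀ i j, Q i j = P i j + x i * f j + f i * x' j) :
    border Q f = border P f := by
  have : fromBlocks Q (of fun i (_ : Unit) => f i) (of fun (_ : Unit) j => f j) 0 =
      fromBlocks 1 (of fun i (_ : Unit) => x i) 0 1 *
        fromBlocks P (of fun i (_ : Unit) => f i) (of fun (_ : Unit) j => f j) 0 *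
        fromBlocks 1 0 (of fun (_ : Unit) j => x' j) 1 := by
    simp only [fromBlocks_multiply]
    ext (i | i) (j | j) <;> simp [h, mul_apply]
  rw [border, this, det_mul, det_mul, det_fromBlocks_zero₂₁, det_fromBlocks_zero₁₂]
  simp [border]

lemma border_mul {S n : Type} [CommRing S] [Fintype n] [DecidableEq n] (A C : Matrix n n S)
    (e : n → S) : border (A * C * Aᵀ) (A *ᵥ e) = border C e * A.det ^ 2 := by
  have : fromBlocks (A * C * Aᵀ) (of fun i (_ : Unit) => (A *ᵥ e) i)
      (of fun (_ : Unit) j => (A *ᵥ e) j) 0 = fromBlocks A 0 0 1 *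
        fromBlocks C (of fun i (_ : Unit) => e i) (of fun (_ : Unit) j => e j) 0 *
        fromBlocks Aᵀ 0 0 1 := by
    simp only [fromBlocks_multiply]
    ext (i | i) (j | j) <;> simp [mul_apply, mulVec, dotProduct, mul_comm]
  rw [border, this, det_mul, det_mul, det_fromBlocks_zero₂₁, det_fromBlocks_zero₁₂]
  simp only [border, det_one, det_transpose]
  ring

lemma border_ne {S : Type} [Field S] {m : ℕ} {C : Matrix (Fin m) (Fin m) S} (h : C.det ≠ 0) :
    border (of (Fin.cons 0 fun β => Fin.cons 0 (C β)) : Matrix (Fin (m + 1)) (Fin (m + 1)) S)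
      (Pi.single 0 1) ≠ 0 := by
  intro h0
  obtain ⟨v, hv, h1⟩ := exists_mulVec_eq_zero_iff.mpr h0
  have a1 := congrFun h1 (.inr ())
  have a2 := congrFun h1 (.inl 0)
  have a3 : C *ᵥ (fun β => v (.inl β.succ)) = 0 := funext fun β => by
    simpa [mulVec, dotProduct, Fin.sum_univ_succ] using congrFun h1 (.inl β.succ)
  simp [mulVec, dotProduct, Pi.single_apply] at a1 a2
  refine hv (funext ?_)
  rintro (i | i)
  · exact Fin.cases a1 (congrFun (eq_zero_of_mulVec_eq_zero h a3)) i
  · exact a2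

lemma exists_left_inv {S ι : Type} [Field S] [Fintype ι] {n : ℕ} (A : Matrix ι (Fin n) S)
    (h : ∀ c, A *ᵥ c = 0 → c = 0) : ∃ L : Matrix (Fin n) ι S, L * A = 1 := by
  classical
  obtain ⟨l, hl⟩ := (toLin' A).exists_leftInverse_of_injective (LinearMap.ker_eq_bot'.mpr h)
  exact ⟨LinearMap.toMatrix' l, by
    rw [← LinearMap.toMatrix'_toLin' A, ← LinearMap.toMatrix'_comp, hl, LinearMap.toMatrix'_id]⟩

lemma exists_minor {S ι : Type} [Field S] [Fintype ι] {n : ℕ} (A : Matrix ι (Fin n) S)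
    (h : ∀ c, A *ᵥ c = 0 → c = 0) : ∃ I : Fin n → ι, (A.submatrix I id).det ≠ 0 := by
  obtain ⟨L, hL⟩ := exists_left_inv A h
  by_contra! hc
  have := multilinear_mem (S := S) (detRowAlternating (n := Fin n) (R := S)).toMultilinearMap ⊥
    (fun _ => Set.range A) (fun t ht => by
      choose I hI using ht
      rw [← funext hI]
      exact hc I) (x := (L * A : Matrix _ _ S)) fun i => by
      rw [show (L * A) i = ∑ j, L i j • A j by ext; simp [mul_apply]]
      exact Submodule.sum_mem _ fun j _ => Submodule.smul_mem _ _ (Submodule.subset_span ⟨j, rfl⟩)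
  rw [hL] at this
  exact one_ne_zero ((det_one (n := Fin n)).symm.trans this)

include halg hWA hW hf hfp in
/-- An alternating matrix of negative height comes from a vector. -/
theorem Ctx2.alt_zero {i0 : ι} (h0 : f i0 ≠ 0)
    (hind : ∀ x : ι → k, x i0 = 0 → ∑ j, x j • W j = 0 → x = 0)
    (hμ : ∀ v j, f j ∈ Bd (X.w v) (gn (X.w v) (f i0))) (p : Matrix ι ι (PR r))
    (hp : ∀ i j, p j i = -p i j) {ν : Pl → ℝ}
    (hν : ∀ v, ∃ P : Matrix ι ι (PR r), (∀ i j, P i j ∈ Bd (X.w v) (ν v)) ∧ ∃ x x' : ι → k,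
      ∀ i j, algebraMap (PR r) k (p i j) = algebraMap (PR r) k (P i j) +
        x i * algebraMap (PR r) k (f j) + algebraMap (PR r) k (f i) * x' j)
    (hneg : ∑ v, ν v + 2 * ∑ v, o v < 0) (i j : ι) :
    f i0 * p i j = f i * p i0 j - f j * p i0 i := by
  classical
  have inj := IsFractionRing.injective (PR r) k
  set a := algebraMap (PR r) k
  have ha0 : a (f i0) ≠ 0 := (map_ne_zero_iff _ inj).mpr h0
  have hp0 : p i0 i0 = 0 := self_eq_neg.mp (hp i0 i0)
  let U : Matrix ι ι k := of fun i j =>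
    a (p i j) - a (f i) / a (f i0) * a (p i0 j) + a (f j) / a (f i0) * a (p i0 i)
  suffices hU : U = 0 by
    have := congrFun (congrFun hU i) j
    simp only [U, of_apply, Matrix.zero_apply] at this
    refine inj ?_
    simp only [map_mul, map_sub]
    field_simp at this
    linear_combination this
  have hUt : Uᵀ = -U := by
    ext i j
    simp only [U, transpose_apply, of_apply, Matrix.neg_apply, hp i j, map_neg]
    ring
  have hU0 : ∀ j, U i0 j = 0 := fun j => by simp [U, hp0, ha0]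
  by_contra hU
  set m := Module.finrank k (LinearMap.range U.mulVecLin)
  let b := Module.finBasis k (LinearMap.range U.mulVecLin)
  let B : Matrix ι (Fin m) k := of fun i β => (b β : ι → k) i
  have hBc : ∀ c, B *ᵥ c = ((∑ β, c β • b β : LinearMap.range U.mulVecLin) : ι → k) := fun c => by
    ext i; simp [B, mulVec, dotProduct, mul_comm]
  have hB : ∀ c, B *ᵥ c = 0 → c = 0 := fun c hc => by
    rw [hBc, Submodule.coe_eq_zero] at hc
    exact funext (Fintype.linearIndependent_iff.mp b.linearIndependent c hc)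
  obtain ⟨L, hL⟩ := exists_left_inv B hB
  obtain ⟨T, hT⟩ : ∃ T : Matrix ι (Fin m) k, U * T = B := by
    choose t ht using fun β => (b β).2
    exact ⟨of fun i β => t β i, by ext i β; exact congrFun (ht β) i⟩
  obtain ⟨T', hT'⟩ : ∃ T' : Matrix (Fin m) ι k, B * T' = U := by
    refine ⟨of fun β j => b.repr ⟨U *ᵥ Pi.single j 1, _, rfl⟩ β, ?_⟩
    ext i j
    have := congrFun (hBc (b.repr ⟨U *ᵥ Pi.single j 1, _, rfl⟩)) i
    rw [b.sum_repr] at this
    simpa [mul_apply, mulVec, dotProduct, Pi.single_apply] using this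
  have hBLU : B * L * U = U := by
    conv_lhs => rw [← hT', Matrix.mul_assoc, ← Matrix.mul_assoc L, hL, Matrix.one_mul, hT']
  have hC : B * (L * U * Lᵀ) * Bᵀ = U := by
    have := congrArg transpose hBLU
    rw [transpose_mul, transpose_mul, hUt, Matrix.neg_mul, neg_inj] at this
    rw [Matrix.mul_assoc, Matrix.mul_assoc, Matrix.mul_assoc, this, ← Matrix.mul_assoc, hBLU]
  have hdet : (L * U * Lᵀ).det ≠ 0 := det_ne_zero_of_right_inverse (B := Bᵀ * T) (by
    rw [← Matrix.one_mul (L * U * Lᵀ), ← hL, Matrix.mul_assoc L, Matrix.mul_assoc L,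
      ← Matrix.mul_assoc _ Bᵀ, hC, hT])
  have hm : 0 < m := by
    rcases Nat.eq_zero_or_pos m with h | h
    · refine absurd ?_ hU
      rw [← hT']
      ext i j
      have : IsEmpty (Fin m) := by rw [h]; infer_instance
      simp [mul_apply]
    · exact h
  have hB0 : ∀ c, (B *ᵥ c) i0 = 0 := fun c => by
    rw [← hT, ← mulVec_mulVec]; simp [mulVec, dotProduct, hU0]
  let A : Matrix ι (Fin (m + 1)) k := of fun j => Fin.cons (a (f j)) (B j)
  obtain ⟨I0, hI0⟩ := exists_minor A fun c hc => by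
    have e : ∀ j, (A *ᵥ c) j = a (f j) * c 0 + (B *ᵥ fun β => c β.succ) j := fun j => by
      simp [A, mulVec, dotProduct, Fin.sum_univ_succ]
    have h1 := e i0
    rw [hc, hB0, add_zero, Pi.zero_apply, eq_comm, mul_eq_zero, or_iff_right ha0] at h1
    have h2 := hB _ (funext fun j => by simpa [hc, h1] using (e j).symm)
    exact funext (Fin.cases h1 (congrFun h2))
  obtain ⟨θ, κ, hθ, hκ, hκp⟩ := exists_primitive (R := PR r)
    (fun I : Fin (m + 1) → ι => (A.submatrix I id).det) ⟨I0, hI0⟩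
  have hκ0 : κ I0 ≠ 0 := fun h => mul_ne_zero hθ hI0 (by rw [← hκ, h, map_zero])
  choose I hI hI' using fun v => exists_max_image (univ.filter fun I => κ I ≠ 0)
    (fun I => gn (X.w v) (κ I)) ⟨I0, by simpa⟩
  simp only [mem_filter, mem_univ, true_and] at hI hI'
  have h1 := X.pluecker halg W hWA hW f hf hfp (μ := fun v => gn (X.w v) (f i0))
    (fun v => ⟨i0, h0, le_rfl⟩) A (fun j => rfl) (Fintype.linearIndependent_iff.mpr fun c hc =>
      congrFun (hB c (hind _ (hB0 c) (by
        rw [← hc]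
        simp only [A, mulVec, dotProduct, sum_smul, smul_sum, smul_smul, of_apply, Fin.cons_succ]
        rw [sum_comm]
        simp only [mul_comm])))) hθ κ hκ hκp (M := fun v => gn (X.w v) (κ (I v)))
    (fun v J => by
      by_cases h : κ J = 0
      · rw [h]; exact Submodule.zero_mem _
      · exact Bd_mono (hI' v J h) (mem_Bd_gn _ _)) fun v => ⟨I v, hI v, rfl⟩
  let C' : Matrix (Fin (m + 1)) (Fin (m + 1)) k :=
    of (Fin.cons 0 fun β => Fin.cons 0 ((L * U * Lᵀ) β))
  have hmap : ∀ (P : Matrix ι ι (PR r)) (J : Fin (m + 1) → ι),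
      a (border (P.submatrix J J) (f ∘ J)) =
        border (of fun i j => a (P (J i) (J j))) fun i => a (f (J i)) := fun P J => by
    rw [border, border, RingHom.map_det]
    congr 1
    ext (i | i) (j | j) <;> simp
  have hΔ : ∀ J : Fin (m + 1) → ι, a (border (p.submatrix J J) (f ∘ J)) =
      border C' (Pi.single 0 1) / θ ^ 2 * a (κ J ^ 2) := fun J => by
    have e1 : A.submatrix J id * C' * (A.submatrix J id)ᵀ = U.submatrix J J := by
      ext i j
      rw [← hC]
      simp [A, C', mul_apply, Fin.sum_univ_succ]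
    have e2 := border_mul (A.submatrix J id) C' (Pi.single 0 1)
    rw [e1, show A.submatrix J id *ᵥ Pi.single 0 1 = fun i => a (f (J i)) by ext; simp [A]] at e2
    rw [hmap, map_pow, hκ, border_add (P := U.submatrix J J)
      (x := fun i => -a (p i0 (J i)) / a (f i0)) (x' := fun i => a (p i0 (J i)) / a (f i0))
      (fun i j => by simp only [U, of_apply, submatrix_apply]; ring), e2]
    field_simp
  obtain ⟨ρ, hρ⟩ := int_of_primitive (c := fun J => κ J ^ 2)
    (fun π hπ => (hκp π hπ).imp fun J h h' => h (hπ.dvd_of_dvd_pow h')) fun J => ⟨_, hΔ J⟩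
  have hρ0 : ρ ≠ 0 := fun h => div_ne_zero (border_ne hdet) (pow_ne_zero 2 hθ)
    (hρ.symm.trans (by rw [h, map_zero]))
  have h2 : ∀ v, gn (X.w v) ρ + 2 * gn (X.w v) (κ (I v)) ≤ m * ν v + 2 * gn (X.w v) (f i0) := by
    intro v
    obtain ⟨P, hP, x, x', hx⟩ := hν v
    have e1 : ρ * κ (I v) ^ 2 = border (P.submatrix (I v) (I v)) (f ∘ I v) := inj (by
      rw [map_mul, hρ, ← hΔ, hmap, hmap]
      exact border_add (x := x ∘ I v) (x' := x' ∘ I v) fun i j => hx _ _)
    let α : Fin (m + 1) ⊕ Unit → ℝ :=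
      Sum.elim (fun _ => ν v / 2) fun _ => gn (X.w v) (f i0) - ν v / 2
    have e2 : ρ * κ (I v) ^ 2 ∈ Bd (X.w v) (∑ i, α i + ∑ i, α i) := by
      rw [e1, border]
      refine det_mem_Bd ?_
      rintro (i | i) (j | j)
      · simpa [α] using hP _ _
      · simpa [α] using hμ v _
      · simpa [α] using hμ v _
      · simp
    replace e2 := gn_le (mul_ne_zero hρ0 (pow_ne_zero 2 (hI v))) e2
    rw [gn_mul hρ0 (pow_ne_zero 2 (hI v)), gn_pow (hI v)] at e2
    simp only [α, Fintype.sum_sum_type, Sum.elim_inl, Sum.elim_inr, sum_const, card_univ,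
      Fintype.card_fin, Fintype.card_unit, nsmul_eq_mul] at e2
    push_cast at e2
    linarith
  have h3 := sum_le_sum (s := univ) fun v _ => h2 v
  have h4 := ht_nonneg X.sum_w hρ0
  have h5 : (0 : ℝ) < m := by exact_mod_cast hm
  simp only [sum_add_distrib, ← mul_sum] at h3
  rw [ht] at h4
  nlinarith

end Pool.Agent.Lib.MP_c9a594_an
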