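import Pool.Agent.Lib.MP_c9a594_an.WordsB

/-! Block complexity, and the approximation of numbers of low complexity. -/

open Filter Real

namespace Pool.Agent.Lib.MP_c9a594_an

/-- Block complexity: number of words of length `n` in the base `a` expansion of `x`. -/
noncomputable def cx (a : ℕ) (x : ℝ) (n : ℕ) : ℕ :=
  Set.ncard {z : ℤ | ∃ k : ℕ, z = ⌊(a : ℝ) ^ n * Int.fract ((a : ℝ) ^ k * x)⌋}

/-- The expansion of `x` in base `a`. -/
noncomputable def dig (a : ℕ) (ha : 2 ≤ a) (x : ℝ) : Dig a where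
  t := fun k => Int.fract ((a : ℝ) ^ k * x)
  dg := fun k => ⌊(a : ℝ) ^ (k + 1) * x⌋ - a * ⌊(a : ℝ) ^ k * x⌋
  two := ha
  t0 := fun _ => Int.fract_nonneg _
  t1 := fun _ => Int.fract_lt_one _
  step := fun k => by
    simp only [Int.fract]
    push_cast
    ring

lemma cx_eq (a : ℕ) (ha : 2 ≤ a) (x : ℝ) (n : ℕ) : cx a x n = (dig a ha x).p n := by
  have : ∀ k, ⌊(a : ℝ) ^ n * Int.fract ((a : ℝ) ^ k * x)⌋ = (dig a ha x).W k n := by
    intro k
    have h := (dig a ha x).W_spec k n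
    have h0 := (dig a ha x).t0 (k + n)
    have h1 := (dig a ha x).t1 (k + n)
    have e : (dig a ha x).t k = Int.fract ((a : ℝ) ^ k * x) := rfl
    rw [← e, h, Int.floor_eq_iff]
    constructor <;> linarith
  unfold cx Dig.p
  congr 1
  ext z
  simp [this, eq_comm]

lemma exists_level (p : ℕ → ℕ) (C n : ℕ) (hn : 1 ≤ n) (h : p n ≤ C * n) :
    ∃ m, n ≤ 2 * m + 1 ∧ m ≤ n ∧ p (m + 1) ≤ p m + 2 * C := by
  by_contra c
  push Not at c
  have : ∀ j, n / 2 + j ≤ n → j * (2 * C + 1) ≤ p (n / 2 + j) := by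
    intro j
    induction j with
    | zero => simp
    | succ j ih =>
      intro hj
      have h1 := ih (by omega)
      have h2 := c (n / 2 + j) (by omega) (by omega)
      rw [add_mul, one_mul, ← add_assoc (n / 2)]
      omega
  have h1 := this (n - n / 2) (by omega)
  rw [show n / 2 + (n - n / 2) = n by omega] at h1
  have h2 : n ≤ 2 * (n - n / 2) := by omega
  generalize n - n / 2 = j at h1 h2
  have : C * n ≤ C * (2 * j) := Nat.mul_le_mul_left _ h2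
  nlinarith

lemma exists_enum {S : Set ℝ} (hS : S.Finite) (h0 : S.Nonempty) {D : ℕ} (hD : S.ncard ≤ D) :
    ∃ v : Fin D → ℝ, (∀ j, v j ∈ S) ∧ ∀ w ∈ S, ∃ j, v j = w := by
  classical
  have := hS.fintype
  have := h0.to_subtype
  obtain ⟨f⟩ : Nonempty (S ↪ Fin D) := by
    refine Function.Embedding.nonempty_of_card_le ?_
    rwa [Fintype.card_fin, ← Nat.card_eq_fintype_card, Nat.card_coe_set_eq]
  refine ⟨fun j => (Function.invFun f j : S), fun j => Subtype.property _, fun w hw => ?_⟩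
  obtain ⟨j, hj⟩ := Function.invFun_surjective f.injective ⟨w, hw⟩
  exact ⟨j, by simp only [hj]⟩

theorem words (a : ℕ) (ha : 2 ≤ a) (C : ℝ) : ∃ (D : ℕ) (c : ℝ), ∀ K : ℝ, ∃ (M n0 : ℕ) (B : ℝ),
    ∀ n ≥ n0, ∀ x : ℝ, (cx a x n : ℝ) ≤ C * n →
    ∃ (d : ℤ) (V : Fin D → ℤ) (s : Fin M → ℤ) (i : Fin M → ℕ) (e : Fin M → Fin D),
      d ≠ 0 ∧ |(d : ℝ)| ≤ exp (c * n) ∧ (∀ j, |(V j : ℝ)| ≤ exp (c * n)) ∧ (∀ t, |s t| ≤ 1) ∧
      (∀ t, (i t : ℝ) ≤ B * n) ∧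
      |d * Int.fract x - ∑ t, (s t * V (e t) : ℝ) / a ^ i t| ≤ exp (-K * n) := by
  obtain ⟨C', hC⟩ : ∃ C' : ℕ, C ≤ C' := ⟨_, Nat.le_ceil C⟩
  obtain ⟨D, hD⟩ : ∃ D, D = 4 * (2 * C') + 4 := ⟨_, rfl⟩
  obtain ⟨c, hc⟩ : ∃ c : ℝ, c = ((C' + 1) * (D + 1) : ℕ) * log a := ⟨_, rfl⟩
  refine ⟨D, c, fun K => ?_⟩
  obtain ⟨L0, hL⟩ : ∃ L0 : ℕ, 2 * (c + K) ≤ L0 := ⟨_, Nat.le_ceil _⟩
  refine ⟨1 + 4 * L0 * (2 * (2 * (2 * C')) + 4), 1, ((2 * L0 + C' + 4 : ℕ) : ℝ),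
    fun n hn x hx => ?_⟩
  set X := dig a ha x with hX
  have h0 := X.apos
  have hp : X.p n ≤ C' * n := by
    rw [cx_eq a ha] at hx
    have : (X.p n : ℝ) ≤ C' * n := hx.trans (by gcongr)
    exact_mod_cast this
  obtain ⟨m, m1, m2, m3⟩ := exists_level X.p C' n hn hp
  have hpm : X.p m ≤ C' * n := (X.p_mono m2).trans hp
  obtain ⟨S, s1, s2, s3, s4⟩ := X.exists_ctx m (2 * C') ((C' + 1) * n) m3 (by nlinarith)
    (by nlinarith)
  have ctx := s4 (L0 * n) ((2 * L0 + C' + 4) * n) (by nlinarith)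
  obtain ⟨y, ⟨s, i, w, r1, rfl⟩, r2⟩ := ctx.done (4 * L0) (by
    rw [mul_comm 4, mul_assoc]
    exact Nat.mul_le_mul_left _ (by omega))
  obtain ⟨v, v1, v2⟩ := exists_enum s1 ⟨0, ctx.zero⟩ (hD ▸ s2 : S.ncard ≤ D)
  choose q z q1 q2 q3 using fun j => (s3 _ (v1 j)).2
  choose e he using fun t => v2 _ (r1 t).2.2
  have hd : |((∏ j, q j : ℤ) : ℝ)| ≤ ((a : ℝ) ^ ((C' + 1) * n)) ^ D := by
    push_cast
    rw [Finset.abs_prod]
    refine (Finset.prod_le_prod (fun j _ => abs_nonneg _) fun j _ => q2 j).trans ?_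
    simp
  have hV : ∀ j, ∃ V : ℤ, (V : ℝ) = (∏ j, q j : ℤ) * v j := by
    intro j
    obtain ⟨u, hu⟩ : q j ∣ ∏ j, q j := Finset.dvd_prod_of_mem _ (Finset.mem_univ j)
    refine ⟨u * z j, ?_⟩
    rw [hu]
    push_cast
    rw [← q3 j]
    ring
  choose V hV using hV
  have hE : ((a : ℝ) ^ ((C' + 1) * n)) ^ (D + 1) = exp (c * n) := by
    rw [hc, ← pow_mul, mul_right_comm _ (log a), ← Nat.cast_mul, exp_nat_mul,
      exp_log (by linarith), mul_right_comm]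
  have h1 : (1 : ℝ) ≤ (a : ℝ) ^ ((C' + 1) * n) := one_le_pow₀ h0.le
  have hd' : |((∏ j, q j : ℤ) : ℝ)| ≤ exp (c * n) :=
    hd.trans (hE ▸ pow_le_pow_right₀ h1 (by omega))
  refine ⟨∏ j, q j, V, s, i, e, Finset.prod_ne_zero_iff.2 fun j _ => q1 j, hd', fun j => ?_,
    fun t => (r1 t).1, fun t => by exact_mod_cast (r1 t).2.1, ?_⟩
  · rw [hV, abs_mul, ← hE, pow_succ]
    exact mul_le_mul hd (s3 _ (v1 j)).1 (abs_nonneg _) (by positivity)
  · have e0 : X.t 0 = Int.fract x := by simp [hX, dig]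
    have e1 : ∑ t, (s t * V (e t) : ℝ) / a ^ i t =
        (∏ j, q j : ℤ) * ∑ t, s t * w t / (a : ℝ) ^ i t := by
      rw [Finset.mul_sum]
      refine Finset.sum_congr rfl fun t _ => ?_
      rw [hV, he]
      ring
    rw [e1, ← e0, ← mul_sub, abs_mul]
    refine (mul_le_mul hd' r2 (abs_nonneg _) (by positivity)).trans ?_
    have e2 : exp (L0 * n / 2) ≤ (a : ℝ) ^ (L0 * n) := by
      have a2 : exp (1 / 2) ≤ (a : ℝ) := by
        have : (2 : ℝ) ≤ a := by exact_mod_cast ha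
        have h2 := Real.exp_one_lt_d9
        have h3 : exp (1 / 2) * exp (1 / 2) = exp 1 := by rw [← exp_add]; norm_num
        nlinarith [exp_pos (1 / 2)]
      refine le_trans (le_of_eq ?_) (pow_le_pow_left₀ (exp_pos _).le a2 _)
      rw [← exp_nat_mul]
      congr 1
      push_cast
      ring
    rw [mul_one_div, div_le_iff₀ (by positivity)]
    refine le_trans ?_ (mul_le_mul_of_nonneg_left e2 (exp_pos _).le)
    rw [← exp_add, exp_le_exp]
    have : (0 : ℝ) ≤ n := by positivity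
    nlinarith

end Pool.Agent.Lib.MP_c9a594_an
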