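import Mathlib

/-! Digit sequences: blocks, special positions, runs. -/

namespace Pool.Agent.Lib.MP_c9a594_an

open Finset

/-- Counting through a factorisation. -/
lemma ncard_fac {α β γ : Type} [Nonempty γ] (P : Set α) (f : α → β) (g : α → γ)
    (hf : (f '' P).Finite) (h : ∀ x ∈ P, ∀ y ∈ P, f x = f y → g x = g y) :
    (g '' P).Finite ∧ (g '' P).ncard ≤ (f '' P).ncard := by
  classical
  let φ : β → γ := fun b => if hb : ∃ x ∈ P, f x = b then g hb.choose else Classical.arbitrary γ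
  have e : g '' P ⊆ φ '' (f '' P) := by
    rintro _ ⟨x, hx, rfl⟩
    refine ⟨f x, ⟨x, hx, rfl⟩, ?_⟩
    have hb : ∃ y ∈ P, f y = f x := ⟨x, hx, rfl⟩
    simp only [φ, dif_pos hb]
    exact h _ hb.choose_spec.1 x hx hb.choose_spec.2
  exact ⟨(hf.image φ).subset e,
    (Set.ncard_le_ncard e (hf.image φ)).trans (Set.ncard_image_le hf)⟩

/-- The tails `t k` and the digits `dg k` of an expansion in base `a`. -/
structure Dig (a : ℕ) where
  t : ℕ → ℝ
  dg : ℕ → ℤ
  two : 2 ≤ a
  t0 : ∀ k, 0 ≤ t k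
  t1 : ∀ k, t k < 1
  step : ∀ k, a * t k = dg k + t (k + 1)

namespace Dig

variable {a : ℕ} (X : Dig a)

/-- The value of the block of length `l` at position `k`. -/
def W (k : ℕ) : ℕ → ℤ
  | 0 => 0
  | l + 1 => a * W k l + X.dg (k + l)

/-- The blocks of length `l` at `k` and at `k'` agree. -/
def E (l k k' : ℕ) : Prop := ∀ j < l, X.dg (k + j) = X.dg (k' + j)

include X in
lemma apos : (1 : ℝ) < a := by have := X.two; exact_mod_cast this

lemma W_spec (k l : ℕ) : (a : ℝ) ^ l * X.t k = X.W k l + X.t (k + l) := by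
  induction l with
  | zero => simp [W]
  | succ l ih =>
    have := X.step (k + l)
    simp only [W, pow_succ, ← add_assoc]
    push_cast
    linear_combination a * ih + this

lemma W_nonneg (k l : ℕ) : 0 ≤ X.W k l := by
  have h := X.W_spec k l
  have h1 := X.t1 (k + l)
  have h2 : 0 ≤ (a : ℝ) ^ l * X.t k := mul_nonneg (by positivity) (X.t0 k)
  have : (-1 : ℝ) < X.W k l := by linarith
  have : (-1 : ℤ) < X.W k l := by exact_mod_cast this
  omega

lemma W_lt (k l : ℕ) : X.W k l < (a : ℤ) ^ l := by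
  have h := X.W_spec k l
  have h1 := X.t0 (k + l)
  have h0 := X.apos
  have h2 : (a : ℝ) ^ l * X.t k < (a : ℝ) ^ l * 1 :=
    mul_lt_mul_of_pos_left (X.t1 k) (by positivity)
  have : (X.W k l : ℝ) < (a : ℝ) ^ l := by linarith
  exact_mod_cast this

lemma dg_nonneg (k : ℕ) : 0 ≤ X.dg k := by simpa [W] using X.W_nonneg k 1

lemma dg_lt (k : ℕ) : X.dg k < a := by simpa [W] using X.W_lt k 1

lemma W_div (k l : ℕ) : X.W k (l + 1) / a = X.W k l := by
  have h0 := X.dg_nonneg (k + l)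
  have h1 := X.dg_lt (k + l)
  have h2 : (a : ℤ) ≠ 0 := by omega
  rw [W, add_comm, Int.add_mul_ediv_left _ _ h2, Int.ediv_eq_zero_of_lt h0 h1, zero_add]

lemma W_add (k l l' : ℕ) : X.W k (l + l') = (a : ℤ) ^ l' * X.W k l + X.W (k + l) l' := by
  induction l' with
  | zero => simp [W]
  | succ l' ih =>
    rw [← add_assoc, W, W, ih, add_assoc k]
    ring

variable {X}

lemma E.symm {l k k'} (h : X.E l k k') : X.E l k' k := fun j hj => (h j hj).symm

lemma E.trans {l k k' k''} (h : X.E l k k') (h' : X.E l k' k'') : X.E l k k'' :=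
  fun j hj => (h j hj).trans (h' j hj)

lemma E.sub {l k k'} (h : X.E l k k') {i l'} (hl : i + l' ≤ l) : X.E l' (k + i) (k' + i) := by
  intro j hj
  rw [add_assoc, add_assoc]
  exact h _ (by omega)

lemma E.mono {l k k'} (h : X.E l k k') {l'} (hl : l' ≤ l) : X.E l' k k' :=
  fun j hj => h j (by omega)

lemma E.succ {l k k'} (h : X.E l k k') (h' : X.dg (k + l) = X.dg (k' + l)) :
    X.E (l + 1) k k' := by
  intro j hj
  rcases Nat.lt_succ_iff_lt_or_eq.1 hj with e | rfl
  · exact h j e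
  · exact h'

lemma W_iff {l k k'} : X.W k l = X.W k' l ↔ X.E l k k' := by
  induction l with
  | zero => simp [W, E]
  | succ l ih =>
    constructor
    · intro h
      have h1 : X.W k l = X.W k' l := by rw [← X.W_div, h, X.W_div]
      refine (ih.1 h1).succ ?_
      simp only [W, h1] at h
      linarith
    · intro h
      rw [W, W, ih.2 (h.mono (by omega)), h l (by omega)]

variable (X)

lemma fin (l : ℕ) (P : Set ℕ) : ((fun k => X.W k l) '' P).Finite :=
  (Set.finite_Ico 0 ((a : ℤ) ^ l)).subset (by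
    rintro _ ⟨k, -, rfl⟩
    exact ⟨X.W_nonneg k l, X.W_lt k l⟩)

/-- The number of blocks of length `l`. -/
noncomputable def p (l : ℕ) : ℕ := ((fun k => X.W k l) '' Set.univ).ncard

lemma p_mono : Monotone X.p := by
  intro l l' h
  exact (ncard_fac _ _ _ (X.fin l' _) fun x _ y _ e => W_iff.2 ((W_iff.1 e).mono h)).2

/-- The block of length `m` at `k` has two continuations. -/
def Sp (m k : ℕ) : Prop := ∃ k', X.E m k k' ∧ X.dg (k + m) ≠ X.dg (k' + m)

variable {X}

lemma Sp.of_E {m k k'} (h : X.Sp m k) (e : X.E m k k') : X.Sp m k' := by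
  obtain ⟨j, h1, h2⟩ := h
  by_cases c : X.dg (k' + m) = X.dg (j + m)
  · exact ⟨k, e.symm, fun e' => h2 (e'.symm.trans c)⟩
  · exact ⟨j, e.symm.trans h1, c⟩

/-- Determinism away from special positions. -/
lemma E.det {m k k'} (e : X.E m k k') (l : ℕ) (h : ∀ j < l, ¬ X.Sp m (k + j)) :
    X.E (m + l) k k' := by
  induction l with
  | zero => exact e
  | succ l ih =>
    have h1 := ih fun j hj => h j (by omega)
    refine h1.succ ?_
    by_contra c
    refine h l (by omega) ⟨k' + l, h1.sub (by omega), ?_⟩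
    rwa [add_assoc, add_assoc, add_comm l m]

variable (X)

lemma card_sp (m D0 : ℕ) (h : X.p (m + 1) ≤ X.p m + D0) :
    ((fun k => X.W k (m + 1)) '' {k | X.Sp m k}).ncard ≤ 2 * D0 := by
  classical
  set Z := (fun k => X.W k (m + 1)) '' {k | X.Sp m k} with hZ
  set S := (fun k => X.W k m) '' {k | X.Sp m k} with hS
  set N' := (fun k => X.W k (m + 1)) '' {k | ¬ X.Sp m k} with hN'
  set N := (fun k => X.W k m) '' {k | ¬ X.Sp m k} with hN
  have h1 : X.p (m + 1) = Z.ncard + N'.ncard := by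
    rw [← Set.ncard_union_eq _ (X.fin _ _) (X.fin _ _), p, ← Set.image_union]
    · congr 2
      ext k
      simp [em]
    · rw [Set.disjoint_left]
      rintro _ ⟨k, hk, rfl⟩ ⟨k', hk', e⟩
      exact hk' (Sp.of_E hk ((W_iff.1 e).symm.mono (by omega)))
  have h2 : X.p m ≤ S.ncard + N.ncard := by
    refine le_trans (le_of_eq ?_) (Set.ncard_union_le _ _)
    rw [p, ← Set.image_union]
    congr 2
    ext k
    simp [em]
  have h3 : N.ncard ≤ N'.ncard :=
    (ncard_fac _ _ _ (X.fin _ _) fun x _ y _ e => W_iff.2 ((W_iff.1 e).mono (by omega))).2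
  have fZ : Z.Finite := X.fin _ _
  have h4 : 2 * S.ncard ≤ Z.ncard := by
    have e : S = (fZ.toFinset.image (fun z => z / (a : ℤ)) : Finset ℤ) := by
      rw [Finset.coe_image, Set.Finite.coe_toFinset, hZ, Set.image_image]
      simp only [X.W_div, hS]
    rw [e, Set.ncard_coe_finset, Set.ncard_eq_toFinset_card _ fZ]
    refine Finset.mul_card_image_le_card _ _ fun b hb => ?_
    obtain ⟨z, hz, rfl⟩ := Finset.mem_image.1 hb
    obtain ⟨k, hk, rfl⟩ := fZ.mem_toFinset.1 hz
    obtain ⟨k', e1, e2⟩ := id hk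
    refine Finset.one_lt_card.2 ⟨X.W k (m + 1), Finset.mem_filter.2 ⟨hz, rfl⟩, X.W k' (m + 1),
      Finset.mem_filter.2 ⟨fZ.mem_toFinset.2 ⟨k', Sp.of_E hk e1, rfl⟩, ?_⟩, fun e => ?_⟩
    · simp only [X.W_div]
      exact W_iff.2 e1.symm
    · exact e2 (W_iff.1 e m (by omega))
  omega

/-- Among `p m + 1` positions two carry the same block. -/
lemma pigeon (m k : ℕ) : ∃ k1 k2, k < k1 ∧ k1 < k2 ∧ k2 ≤ k + X.p m + 1 ∧ X.E m k1 k2 := by
  by_contra c
  push Not at c
  have : ((Finset.Ioc k (k + X.p m + 1) : Finset ℕ) : Set ℕ).ncard ≤ X.p m := by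
    refine Set.ncard_le_ncard_of_injOn (fun k => X.W k m) (fun j _ => ⟨j, trivial, rfl⟩) ?_
      (X.fin _ _)
    intro i hi j hj e
    simp only [Finset.coe_Ioc, Set.mem_Ioc] at hi hj
    rcases lt_trichotomy i j with h | h | h
    · exact absurd (W_iff.1 e) (c i j hi.1 h hj.2)
    · exact h
    · exact absurd (W_iff.1 e.symm) (c j i hj.1 h hi.2)
  rw [Set.ncard_coe_finset, Nat.card_Ioc] at this
  omega

variable {X}

/-- A closed loop without special positions is never left. -/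
lemma E.loop {m k1 k2} (e : X.E m k1 k2) (hk : k1 < k2)
    (h : ∀ j, k1 ≤ j → j < k2 → ¬ X.Sp m j) (j : ℕ) : ¬ X.Sp m (k1 + j) := by
  induction j using Nat.strong_induction_on with
  | _ j ih =>
    by_cases c : k1 + j < k2
    · exact h _ (by omega) c
    · intro hs
      obtain ⟨i, hi⟩ : ∃ i, k1 + j = k2 + i := ⟨k1 + j - k2, by omega⟩
      have e1 := e.det i fun i' hi' => ih i' (by omega)
      rw [hi] at hs
      exact ih i (by omega) (hs.of_E (e1.sub (by omega)).symm)

/-- `k + l` is the next special position after `k`. -/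
def Nx (X : Dig a) (m k l : ℕ) : Prop :=
  0 < l ∧ X.Sp m (k + l) ∧ ∀ j, k < j → j < k + l → ¬ X.Sp m j

lemma Nx.le {m k l} (h : X.Nx m k l) : l ≤ X.p m + 1 := by
  by_contra c
  obtain ⟨k1, k2, h1, h2, h3, e⟩ := X.pigeon m k
  refine e.loop h2 (fun j a1 a2 => h.2.2 j (by omega) (by omega)) (k + l - k1) ?_
  rw [show k1 + (k + l - k1) = k + l by omega]
  exact h.2.1

lemma Nx.E {m k l k'} (h : X.Nx m k l) (e : X.E (m + 1) k k') : X.E (m + l) k k' := by
  obtain ⟨l, rfl⟩ : ∃ l', l = l' + 1 := ⟨l - 1, by have := h.1; omega⟩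
  have e1 := (e.sub (i := 1) (l' := m) (by omega)).det l
    fun j hj => h.2.2 _ (by omega) (by omega)
  intro j hj
  rcases j with _ | j
  · exact e 0 (by omega)
  · have := e1 j (by omega)
    rwa [add_assoc, add_assoc, add_comm 1 j] at this

lemma Nx.dict {m k l k' l'} (h : X.Nx m k l) (h' : X.Nx m k' l') (e : X.E (m + 1) k k') :
    X.W (k + m) l = X.W (k' + m) l' := by
  have key : ∀ {k l k' l'}, X.Nx m k l → X.Nx m k' l' → X.E (m + 1) k k' → l' ≤ l := by
    intro k l k' l' h h' e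
    by_contra c
    exact h'.2.2 (k' + l) (by have := h.1; omega) (by omega)
      (h.2.1.of_E ((h.E e).sub (by omega)))
  have : l = l' := le_antisymm (key h' h e.symm) (key h h' e)
  subst this
  exact W_iff.2 ((h.E e).sub le_rfl)

lemma t_eq {k k'} (h : ∀ l, X.E l k k') : X.t k = X.t k' := by
  by_contra c
  have c' : 0 < |X.t k - X.t k'| := abs_pos.2 (sub_ne_zero.2 c)
  obtain ⟨l, hl⟩ := pow_unbounded_of_one_lt (1 / |X.t k - X.t k'|) X.apos
  have h1 := X.W_spec k l
  have h2 := X.W_spec k' l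
  rw [W_iff.2 (h l)] at h1
  have h3 : (a : ℝ) ^ l * (X.t k - X.t k') = X.t (k + l) - X.t (k' + l) := by linarith
  have h4 : |X.t (k + l) - X.t (k' + l)| ≤ 1 := by
    rw [abs_le]
    constructor <;> linarith [X.t0 (k + l), X.t1 (k + l), X.t0 (k' + l), X.t1 (k' + l)]
  rw [← h3, abs_mul, abs_of_pos (by have := X.apos; positivity)] at h4
  rw [div_lt_iff₀ c'] at hl
  linarith

/-- A number with a small denominator and of small size. -/
def Nice (a e : ℕ) (v : ℝ) : Prop :=
  |v| ≤ (a : ℝ) ^ e ∧ ∃ q z : ℤ, q ≠ 0 ∧ |(q : ℝ)| ≤ (a : ℝ) ^ e ∧ q * v = z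

lemma nice_W (k : ℕ) {l e : ℕ} (h : l ≤ e) : Nice a e (X.W k l) := by
  have h0 := X.apos
  refine ⟨?_, 1, X.W k l, one_ne_zero, by simpa using one_le_pow₀ h0.le, by simp⟩
  have h1 : (0 : ℝ) ≤ X.W k l := by exact_mod_cast X.W_nonneg k l
  have h2 : (X.W k l : ℝ) < (a : ℝ) ^ l := by exact_mod_cast X.W_lt k l
  rw [abs_of_nonneg h1]
  exact h2.le.trans (pow_le_pow_right₀ h0.le h)

lemma nice_last {m k e : ℕ} (h : ∀ j, k < j → ¬ X.Sp m j) (he : X.p m + 1 ≤ e) :
    Nice a e (X.t (k + m)) := by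
  have h0 := X.apos
  obtain ⟨k1, k2, h1, h2, h3, e⟩ := X.pigeon m k
  obtain ⟨i, rfl⟩ := Nat.exists_eq_add_of_le h1.le
  obtain ⟨l, rfl⟩ := Nat.exists_eq_add_of_le h2.le
  have e1 : X.t (k + i + m) = X.t (k + i + l + m) :=
    t_eq fun j => (e.det j fun j' _ => h _ (by omega)).sub le_rfl
  have s1 := X.W_spec (k + m) i
  have s2 := X.W_spec (k + i + m) l
  rw [show k + m + i = k + i + m by ring] at s1
  rw [show k + i + m + l = k + i + l + m by ring, ← e1] at s2
  have hl : (1 : ℝ) < (a : ℝ) ^ l := one_lt_pow₀ h0 (by omega)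
  refine ⟨?_, (a ^ l - 1) * a ^ i, (a ^ l - 1) * X.W (k + m) i + X.W (k + i + m) l, ?_, ?_, ?_⟩
  · rw [abs_of_nonneg (X.t0 _)]
    exact (X.t1 _).le.trans (one_le_pow₀ h0.le)
  · have : (0 : ℝ) < ((a : ℝ) ^ l - 1) * a ^ i := mul_pos (by linarith) (by positivity)
    have : (0 : ℤ) < ((a : ℤ) ^ l - 1) * a ^ i := by exact_mod_cast this
    omega
  · push_cast
    rw [abs_of_nonneg (mul_nonneg (by linarith) (by positivity))]
    calc ((a : ℝ) ^ l - 1) * a ^ i ≤ a ^ l * a ^ i := by gcongr; linarith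
      _ = a ^ (l + i) := by rw [pow_add]
      _ ≤ _ := pow_le_pow_right₀ h0.le (by omega)
  · push_cast
    linear_combination ((a : ℝ) ^ l - 1) * s1 + s2

variable (X)

/-- The value of the periodic sequence with the block of length `l` at `s` as its period. -/
noncomputable def r (s l : ℕ) : ℝ := X.W s l / ((a : ℝ) ^ l - 1)

lemma r_mem (s : ℕ) {l : ℕ} (hl : 0 < l) : 0 ≤ X.r s l ∧ X.r s l ≤ 1 := by
  have h1 : (1 : ℝ) < (a : ℝ) ^ l := one_lt_pow₀ X.apos (by omega)
  have h2 : (0 : ℝ) ≤ X.W s l := by exact_mod_cast X.W_nonneg s l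
  have h3 : X.W s l + 1 ≤ (a : ℤ) ^ l := X.W_lt s l
  have h4 : (X.W s l : ℝ) + 1 ≤ (a : ℝ) ^ l := by exact_mod_cast h3
  exact ⟨div_nonneg h2 (by linarith), (div_le_one (by linarith)).2 (by linarith)⟩

lemma nice_r (s : ℕ) {l e : ℕ} (hl : 0 < l) (he : l ≤ e) : Nice a e (X.r s l) := by
  have h0 := X.apos
  have h1 : (1 : ℝ) < (a : ℝ) ^ l := one_lt_pow₀ X.apos (by omega)
  refine ⟨?_, a ^ l - 1, X.W s l, ?_, ?_, ?_⟩
  · rw [abs_of_nonneg (X.r_mem s hl).1]
    exact (X.r_mem s hl).2.trans (one_le_pow₀ h0.le)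
  · have : (1 : ℤ) < (a : ℤ) ^ l := by exact_mod_cast h1
    omega
  · push_cast
    rw [abs_of_nonneg (by linarith)]
    linarith [pow_le_pow_right₀ h0.le he]
  · push_cast
    rw [r, mul_div_cancel₀ _ (by linarith)]

variable {X}

lemma run {s l i : ℕ} (hl : 0 < l) (h : X.E i s (s + l)) :
    (a : ℝ) ^ i * (X.t (s + l) - X.r s l) = X.t (s + i + l) - X.r (s + i) l := by
  have h1 : (1 : ℝ) < (a : ℝ) ^ l := one_lt_pow₀ X.apos (by omega)
  have e1 := X.W_add s i l
  have e2 := X.W_add s l i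
  rw [add_comm l i, e1, ← W_iff.2 h] at e2
  have e3 : (a : ℝ) ^ l * X.W s i + X.W (s + i) l = (a : ℝ) ^ i * X.W s l + X.W s i := by
    exact_mod_cast e2
  have e4 := X.W_spec (s + l) i
  rw [← W_iff.2 h, show s + l + i = s + i + l by ring] at e4
  have h2 : (a : ℝ) ^ l - 1 ≠ 0 := by linarith
  rw [r, r]
  field_simp
  linear_combination ((a : ℝ) ^ l - 1) * e4 + e3

lemma r_dict {m k l k' l' : ℕ} (hl : 0 < l) (hl' : 0 < l') (hm : l + l' ≤ m)
    (h : X.E m k (k + l)) (h' : X.E m k' (k' + l')) (e : X.E m (k + l) (k' + l')) :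
    X.r (k + m) l = X.r (k' + m) l' := by
  obtain ⟨o, rfl⟩ : ∃ o, m = o + l + l' := ⟨m - l - l', by omega⟩
  have h1 : (1 : ℝ) < (a : ℝ) ^ l := one_lt_pow₀ X.apos (by omega)
  have h2 : (1 : ℝ) < (a : ℝ) ^ l' := one_lt_pow₀ X.apos (by omega)
  have e1 := X.W_add (k + l + o) l l'
  have e2 := X.W_add (k + l + o) l' l
  have a1 : X.W (k + l + o + l') l = X.W (k + (o + l + l')) l := by congr 1; ring
  have a2 : X.W (k + l + o + l) l' = X.W (k' + (o + l + l')) l' := by
    have := W_iff.2 (e.sub (i := o + l) (l' := l') (by omega))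
    rw [show k + l + o + l = k + l + (o + l) by ring, this]
    congr 1; ring
  have a3 : X.W (k + l + o) l' = X.W (k + l + o + l) l' := by
    have := W_iff.2 (h.sub (i := o + l) (l' := l') (by omega))
    rw [show k + l + o = k + (o + l) by ring, this]
    congr 1; ring
  have a4 : X.W (k + l + o) l = X.W (k + l + o + l') l := by
    have b1 := W_iff.2 (e.sub (i := o) (l' := l) (by omega))
    have b2 := W_iff.2 (h'.sub (i := o + l') (l' := l) (by omega))
    have b3 := W_iff.2 (e.sub (i := o + l') (l' := l) (by omega))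
    rw [b1, show k' + l' + o = k' + (o + l') by ring, b2, ← b3]
    congr 1; ring
  rw [add_comm l' l, e1, a3, a4, a1, a2] at e2
  have e3 : (a : ℝ) ^ l' * X.W (k + (o + l + l')) l + X.W (k' + (o + l + l')) l' =
      (a : ℝ) ^ l * X.W (k' + (o + l + l')) l' + X.W (k + (o + l + l')) l := by exact_mod_cast e2
  rw [r, r, div_eq_div_iff (by linarith) (by linarith)]
  linear_combination e3

end Dig

end Pool.Agent.Lib.MP_c9a594_an
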