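import Pool.Agent.Lib.MP_c9a594_an.WordsA

/-! A sequence of low complexity is a short sum of few values. -/

namespace Pool.Agent.Lib.MP_c9a594_an

open Finset

/-- `y` is a sum of `M` terms `± w / a ^ i` or `0` with `w ∈ S` and `i ≤ B`. -/
def Rep (a : ℕ) (S : Set ℝ) (B M : ℕ) (y : ℝ) : Prop :=
  ∃ (s : Fin M → ℤ) (i : Fin M → ℕ) (w : Fin M → ℝ),
    (∀ t, |s t| ≤ 1 ∧ i t ≤ B ∧ w t ∈ S) ∧ y = ∑ t, s t * w t / (a : ℝ) ^ i t

lemma Rep.zero (a : ℕ) (S : Set ℝ) (B : ℕ) : Rep a S B 0 0 :=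
  ⟨0, 0, 0, fun t => t.elim0, by simp⟩

lemma Rep.add {a S B M y} (h : Rep a S B M y) (s : ℤ) {i : ℕ} {w y' : ℝ} (hs : |s| ≤ 1)
    (hi : i ≤ B) (hw : w ∈ S) (hy : y' = y + s * w / (a : ℝ) ^ i) : Rep a S B (M + 1) y' := by
  obtain ⟨s', i', w', h1, rfl⟩ := h
  refine ⟨Fin.cons s s', Fin.cons i i', Fin.cons w w', fun t => ?_, ?_⟩
  · refine Fin.cases ?_ (fun t => ?_) t
    · exact ⟨hs, hi, hw⟩
    · exact h1 t
  · rw [hy, Fin.sum_univ_succ, add_comm]
    rfl

lemma Rep.mono {a S B M M' y} (h : Rep a S B M y) (h0 : (0 : ℝ) ∈ S) (hM : M ≤ M') :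
    Rep a S B M' y := by
  induction M', hM using Nat.le_induction with
  | base => exact h
  | succ M' _ ih => exact ih.add 0 (i := 0) (by simp) (by simp) h0 (by simp)

namespace Dig

variable {a : ℕ} (X : Dig a)

def Stop (m k : ℕ) : Prop := k = 0 ∨ X.Sp m k

/-- The set `S` contains all values that are used. -/
structure Ctx (m D L B : ℕ) (S : Set ℝ) : Prop where
  zero : (0 : ℝ) ∈ S
  first : (X.W 0 m : ℝ) ∈ S
  seg : ∀ k l, X.Stop m k → X.Nx m k l → (X.W (k + m) l : ℝ) ∈ S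
  last : ∀ k, X.Stop m k → (∀ j, k < j → ¬ X.Sp m j) → X.t (k + m) ∈ S
  per : ∀ k l, 0 < l → 2 * l ≤ m → X.E m k (k + l) → X.Sp m (k + l) → X.r (k + m) l ∈ S
  few : ((fun k => X.W k m) '' {k | X.Sp m k}).ncard ≤ D
  big : 2 * L + 3 * m + X.p m + 1 ≤ B

def At (m B : ℕ) (S : Set ℝ) (k r : ℕ) : Prop :=
  X.Stop m k ∧ Rep a S B r (X.t 0 - X.t (k + m) / (a : ℝ) ^ (k + m))

def Done (L B : ℕ) (S : Set ℝ) (r : ℕ) : Prop :=
  ∃ y, Rep a S B r y ∧ |X.t 0 - y| ≤ 1 / (a : ℝ) ^ L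

/-- A block is repeated at a special position in `(k, k + j]`. -/
def Rpt (m k j : ℕ) : Prop :=
  ∃ q q', k < q ∧ q < q' ∧ q' ≤ k + j ∧ X.Sp m q' ∧ X.E m q q'

variable {X} {m D L B : ℕ} {S : Set ℝ} (C : X.Ctx m D L B S)
include C

lemma Ctx.at_mono {k r r'} (h : X.At m B S k r) (hr : r ≤ r') : X.At m B S k r' :=
  ⟨h.1, h.2.mono C.zero hr⟩

lemma Ctx.done_mono {r r'} (h : X.Done L B S r) (hr : r ≤ r') : X.Done L B S r' := by
  obtain ⟨y, h1, h2⟩ := h
  exact ⟨y, h1.mono C.zero hr, h2⟩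

lemma Ctx.start : X.At m B S 0 1 := by
  have h0 := X.apos
  refine ⟨Or.inl rfl, (Rep.zero a S B).add 1 (i := m) (by simp) (by have := C.big; omega)
    C.first ?_⟩
  have := X.W_spec 0 m
  simp only [zero_add] at this ⊢
  field_simp
  push_cast
  linear_combination this

lemma Ctx.next {k r l} (h : X.At m B S k r) (hk : k ≤ 2 * L + 2 * m) (hn : X.Nx m k l) :
    X.At m B S (k + l) (r + 1) := by
  have h0 := X.apos
  have := hn.le
  refine ⟨Or.inr hn.2.1, h.2.add 1 (i := k + l + m) (by simp) (by have := C.big; omega)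
    (C.seg k l h.1 hn) ?_⟩
  have := X.W_spec (k + m) l
  rw [show k + l + m = k + m + l by ring, pow_add _ (k + m) l]
  field_simp
  push_cast
  linear_combination this

lemma Ctx.step {k r j} (h : X.At m B S k r) (hk : k ≤ 2 * L + 2 * m)
    (hj : ∀ i, k < i → i ≤ j → ¬ X.Sp m i) :
    X.Done L B S (r + 1) ∨ ∃ k', j < k' ∧ (X.Sp m (j + 1) → k ≤ j → k' = j + 1) ∧
      X.At m B S k' (r + 1) := by
  classical
  by_cases c : ∃ i, k < i ∧ X.Sp m i
  · right
    obtain ⟨l, hl⟩ : ∃ l, Nat.find c = k + l :=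
      Nat.exists_eq_add_of_le (Nat.find_spec c).1.le
    have h1 := Nat.find_spec c
    have h2 : ∀ i, k < i → i < k + l → ¬ X.Sp m i := fun i a1 a2 a3 =>
      Nat.find_min c (hl ▸ a2) ⟨a1, a3⟩
    rw [hl] at h1
    have h3 : j < k + l := by
      by_contra c'
      exact hj _ h1.1 (by omega) h1.2
    refine ⟨k + l, h3, fun hs hkj => ?_, C.next h hk ⟨by omega, h1.2, h2⟩⟩
    by_contra c'
    exact h2 (j + 1) (by omega) (by omega) hs
  · left
    push Not at c
    refine ⟨X.t 0, h.2.add 1 (i := k + m) (by simp) (by have := C.big; omega)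
      (C.last k h.1 c) (by simp), ?_⟩
    simp

open Classical in
lemma Ctx.walk {k r} (h : X.At m B S k r) (j : ℕ) (hk : k + j ≤ 2 * L + 2 * m) :
    ∃ k', k ≤ k' ∧ k' ≤ k + j ∧ (∀ i, k' < i → i ≤ k + j → ¬ X.Sp m i) ∧
      X.At m B S k' (r + #{i ∈ Ioc k (k + j) | X.Sp m i}) := by
  induction j with
  | zero => exact ⟨k, le_rfl, le_rfl, fun i h1 h2 => by omega, by simpa using h⟩
  | succ j ih =>
    obtain ⟨k', h1, h2, h3, h4⟩ := ih (by omega)
    have e : Ioc k (k + (j + 1)) = insert (k + j + 1) (Ioc k (k + j)) := by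
      ext i; simp only [mem_Ioc, mem_insert]; omega
    rw [e, filter_insert]
    by_cases c : X.Sp m (k + j + 1)
    · obtain ⟨l, hl⟩ : ∃ l, k + j + 1 = k' + l := Nat.exists_eq_add_of_le (by omega)
      refine ⟨k + j + 1, by omega, by omega, fun i a1 a2 => by omega, ?_⟩
      rw [if_pos c, card_insert_of_notMem (by simp), hl, ← add_assoc]
      exact C.next h4 (by omega) ⟨by omega, hl ▸ c, fun i a1 a2 => h3 i a1 (by omega)⟩
    · rw [if_neg c]
      refine ⟨k', h1, by omega, fun i a1 a2 => ?_, h4⟩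
      by_cases c' : i = k + j + 1
      · rwa [c']
      · exact h3 i a1 (by omega)

open Classical in
lemma Ctx.count {k j} (h : ¬ X.Rpt m k j) : #{i ∈ Ioc k (k + j) | X.Sp m i} ≤ D := by
  refine le_trans ?_ C.few
  rw [← Set.ncard_coe_finset]
  refine Set.ncard_le_ncard_of_injOn (fun k => X.W k m) (fun i hi => ⟨i, ?_, rfl⟩) ?_ (X.fin _ _)
  · exact (mem_filter.1 hi).2
  · intro i hi i' hi' e
    have a1 := mem_filter.1 hi
    have a2 := mem_filter.1 hi'
    rw [mem_Ioc] at a1 a2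
    rcases lt_trichotomy i i' with c | c | c
    · exact absurd ⟨i, i', a1.1.1, c, a2.1.2, a2.2, W_iff.1 e⟩ h
    · exact c
    · exact absurd ⟨i', i, a2.1.1, c, a1.1.2, a1.2, W_iff.1 e.symm⟩ h

lemma Ctx.jump {k r j} (h : X.At m B S k r) (hk : k + j ≤ 2 * L + 2 * m) (hn : ¬ X.Rpt m k j) :
    X.Done L B S (r + D + 1) ∨ ∃ k', k + j < k' ∧ (X.Sp m (k + j + 1) → k' = k + j + 1) ∧
      X.At m B S k' (r + D + 1) := by
  obtain ⟨k', h1, h2, h3, h4⟩ := C.walk h j hk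
  rcases C.step (C.at_mono h4 (Nat.add_le_add_left (C.count hn) r)) (by omega) h3 with
    e | ⟨k'', e1, e2, e3⟩
  · exact Or.inl e
  · exact Or.inr ⟨k'', e1, fun hs => e2 hs h2, e3⟩

lemma Ctx.run {k l r} (h : X.At m B S (k + l) r) (hk : k + l ≤ L + m) (hl : 0 < l)
    (hm : 2 * l ≤ m) (e : X.E m k (k + l)) (hs : X.Sp m (k + l)) :
    X.Done L B S (r + 2) ∨ ∃ i < L, X.E m (k + i) (k + i + l) ∧
      X.dg (k + i + m) ≠ X.dg (k + i + l + m) ∧ X.At m B S (k + i + l) (r + 2) := by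
  classical
  have h0 := X.apos
  have big := C.big
  have hE : ∀ i, (∀ j < i, X.dg (k + j + m) = X.dg (k + j + l + m)) →
      X.E (m + i) k (k + l) := by
    intro i hi j hj
    by_cases c : j < m
    · exact e j c
    · obtain ⟨j, rfl⟩ := Nat.exists_eq_add_of_le (not_lt.1 c)
      have := hi j (by omega)
      rwa [show k + j + m = k + (m + j) by ring, show k + j + l + m = k + l + (m + j) by ring]
        at this
  have hR : ∀ i, X.E (m + i) k (k + l) → (a : ℝ) ^ i * (X.t (k + l + m) - X.r (k + m) l) =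
      X.t (k + i + l + m) - X.r (k + i + m) l := by
    intro i hi
    have := hi.sub (i := m) (l' := i) le_rfl
    rw [show k + l + m = k + m + l by ring] at this ⊢
    rw [Dig.run hl this]
    congr 2 <;> ring
  have r1 := h.2.add 1 (i := k + l + m) (by simp) (by omega) (C.per k l hl hm e hs) rfl
  by_cases c : ∃ i, i < L ∧ X.dg (k + i + m) ≠ X.dg (k + i + l + m)
  · right
    obtain ⟨h1, h2⟩ := Nat.find_spec c
    have h3 := hE (Nat.find c) fun j hj => by
      by_contra c'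
      exact Nat.find_min c hj ⟨by omega, c'⟩
    generalize Nat.find c = i at h1 h2 h3
    have h4 : X.E m (k + i) (k + i + l) := by
      have := h3.sub (i := i) (l' := m) (by omega)
      rwa [show k + l + i = k + i + l by ring] at this
    have h5 : X.Sp m (k + i + l) := ⟨k + i, h4.symm, h2.symm⟩
    refine ⟨i, h1, h4, h2, Or.inr h5, r1.add (-1) (i := k + i + l + m) (by simp) (by omega)
      (C.per (k + i) l hl hm h4 h5) ?_⟩
    have := hR i h3
    rw [show (a : ℝ) ^ (k + i + l + m) = a ^ (k + l + m) * a ^ i by ring]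
    field_simp
    push_cast
    linear_combination this
  · left
    push Not at c
    have h1 := hR L (hE L c)
    refine C.done_mono ⟨_, r1, ?_⟩ (by omega)
    have h2 : |X.t (k + L + l + m) - X.r (k + L + m) l| ≤ 1 := by
      have := X.r_mem (k + L + m) hl
      rw [abs_le]
      constructor <;> linarith [X.t0 (k + L + l + m), X.t1 (k + L + l + m)]
    rw [← h1, abs_mul, abs_of_pos (by positivity)] at h2
    rw [show X.t 0 - (X.t 0 - X.t (k + l + m) / (a : ℝ) ^ (k + l + m) +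
        ((1 : ℤ) : ℝ) * X.r (k + m) l / (a : ℝ) ^ (k + l + m)) =
        (X.t (k + l + m) - X.r (k + m) l) / (a : ℝ) ^ (k + l + m) by push_cast; ring,
      abs_div, le_div_iff₀ (by positivity), abs_of_pos (a := (a : ℝ) ^ _) (by positivity)]
    have h3 : (1 : ℝ) ≤ (a : ℝ) ^ (k + l + m) := one_le_pow₀ h0.le
    rw [div_mul_eq_mul_div, div_le_one (by positivity)]
    linarith

omit C in
/-- After the break of a short period there is no short repetition. -/
lemma no_rpt {k l h} (hl : l ≤ h) (hm : 2 * h ≤ m) (e : X.E m k (k + l))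
    (hb : X.dg (k + m) ≠ X.dg (k + l + m)) : ¬ X.Rpt m (k + l) h := by
  rintro ⟨q, q', h1, h2, h3, -, e'⟩
  have a1 := e' (k + l + m - q') (by omega)
  have a2 := e (q + m - q') (by omega)
  have a3 := e' (k + m - q') (by omega)
  rw [show q' + (k + l + m - q') = k + l + m by omega,
    show q + (k + l + m - q') = k + l + (q + m - q') by omega, ← a2] at a1
  rw [show q' + (k + m - q') = k + m by omega,
    show q + (k + m - q') = k + (q + m - q') by omega] at a3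
  exact hb (a3.symm.trans a1)

lemma Ctx.round {k r} (h : X.At m B S k r) (hk : k ≤ L) :
    X.Done L B S (r + (2 * D + 4)) ∨ ∃ k', k + m / 2 < k' ∧ X.At m B S k' (r + (2 * D + 4)) := by
  classical
  by_cases c : ∃ j, j ≤ m / 2 ∧ X.Rpt m k j
  swap
  · rcases C.jump h (j := m / 2) (by omega) (fun e => c ⟨_, le_rfl, e⟩) with e | ⟨k', e1, -, e2⟩
    · exact Or.inl (C.done_mono e (by omega))
    · exact Or.inr ⟨k', e1, C.at_mono e2 (by omega)⟩
  obtain ⟨h1, q, q', h2, h3, h4, h5, h6⟩ := Nat.find_spec c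
  obtain ⟨j, hj⟩ : ∃ j, Nat.find c = j + 1 := ⟨Nat.find c - 1, by omega⟩
  have h7 : ¬ X.Rpt m k j := fun e => Nat.find_min c (m := j) (by omega) ⟨by omega, e⟩
  have h8 : q' = k + j + 1 := by
    by_contra c'
    exact h7 ⟨q, q', h2, h3, by omega, h5, h6⟩
  rcases C.jump h (j := j) (by omega) h7 with e | ⟨k', -, e1, e2⟩
  · exact Or.inl (C.done_mono e (by omega))
  rw [e1 (h8 ▸ h5), ← h8] at e2
  obtain ⟨l, rfl⟩ := Nat.exists_eq_add_of_le h3.le
  rcases C.run e2 (by omega) (by omega) (by omega) h6 h5 with e | ⟨i, i1, i2, i3, i4⟩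
  · exact Or.inl (C.done_mono e (by omega))
  rcases C.jump i4 (j := m / 2) (by omega) (no_rpt (by omega) (by omega) i2 i3) with
    e | ⟨k'', e3, -, e4⟩
  · exact Or.inl (C.done_mono e (by omega))
  · exact Or.inr ⟨k'', by omega, C.at_mono e4 (by omega)⟩

omit C in
lemma done_of_at {k r} (h : X.At m B S k r) (hk : L ≤ k) : X.Done L B S r := by
  have h0 := X.apos
  refine ⟨_, h.2, ?_⟩
  rw [sub_sub_cancel, abs_of_nonneg (div_nonneg (X.t0 _) (by positivity))]
  exact div_le_div₀ zero_le_one (X.t1 _).le (by positivity) (pow_le_pow_right₀ h0.le (by omega))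

lemma Ctx.done (R : ℕ) (hR : L ≤ R * (m / 2 + 1)) : X.Done L B S (1 + R * (2 * D + 4)) := by
  have : ∀ R, X.Done L B S (1 + R * (2 * D + 4)) ∨
      ∃ k, R * (m / 2 + 1) ≤ k ∧ X.At m B S k (1 + R * (2 * D + 4)) := by
    intro R
    induction R with
    | zero => exact Or.inr ⟨0, by simp, by simpa using C.start⟩
    | succ R ih =>
      rw [add_mul, one_mul, ← add_assoc, add_mul R, one_mul]
      rcases ih with e | ⟨k, e1, e2⟩
      · exact Or.inl (C.done_mono e (by omega))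
      by_cases c : L ≤ k
      · exact Or.inl (C.done_mono (done_of_at e2 c) (by omega))
      rcases C.round e2 (by omega) with e | ⟨k', e3, e4⟩
      · exact Or.inl e
      · exact Or.inr ⟨k', by omega, e4⟩
  rcases this R with e | ⟨k, e1, e2⟩
  · exact e
  · exact done_of_at e2 (by omega)

omit C in
/-- The dictionary of values. -/
lemma exists_ctx (X : Dig a) (m D0 e : ℕ) (h : X.p (m + 1) ≤ X.p m + D0) (he : m ≤ e)
    (he' : X.p m + 1 ≤ e) : ∃ S : Set ℝ, S.Finite ∧ S.ncard ≤ 4 * D0 + 4 ∧ (∀ v ∈ S, Nice a e v) ∧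
      ∀ L B, 2 * L + 3 * m + X.p m + 1 ≤ B → X.Ctx m (2 * D0) L B S := by
  have c1 := X.card_sp m D0 h
  have c2 : ((fun k => X.W k m) '' {k | X.Sp m k}).ncard ≤ 2 * D0 :=
    (ncard_fac _ _ _ (X.fin _ _) fun x _ y _ e =>
      W_iff.2 ((W_iff.1 e).mono (by omega))).2.trans c1
  let P1 : Set (ℕ × ℕ) := {x | X.Stop m x.1 ∧ X.Nx m x.1 x.2}
  let P2 : Set ℕ := {k | X.Stop m k ∧ ∀ j, k < j → ¬ X.Sp m j}
  let P3 : Set (ℕ × ℕ) :=
    {x | 0 < x.2 ∧ 2 * x.2 ≤ m ∧ X.E m x.1 (x.1 + x.2) ∧ X.Sp m (x.1 + x.2)}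
  have s1 : (fun x : ℕ × ℕ => X.W x.1 (m + 1)) '' P1 ⊆
      insert (X.W 0 (m + 1)) ((fun k => X.W k (m + 1)) '' {k | X.Sp m k}) := by
    rintro _ ⟨x, ⟨hx | hx, -⟩, rfl⟩
    · left; simp only [hx]
    · right; exact ⟨x.1, hx, rfl⟩
  have f1 := (X.fin (m + 1) {k | X.Sp m k}).insert (X.W 0 (m + 1))
  obtain ⟨g1, n1⟩ := ncard_fac P1 (fun x => X.W x.1 (m + 1))
    (fun x => (X.W (x.1 + m) x.2 : ℝ)) (f1.subset s1)
    (fun x hx y hy e => by rw [hx.2.dict hy.2 (W_iff.1 e)])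
  have n1' := (Set.ncard_le_ncard s1 f1).trans (Set.ncard_insert_le _ _)
  have s2 : P2.Subsingleton := by
    intro k hk k' hk'
    have key : ∀ k ∈ P2, ∀ k' ∈ P2, k' ≤ k := by
      intro k hk k' hk'
      by_contra c
      rcases hk'.1 with e | e
      · omega
      · exact hk.2 k' (by omega) e
    exact le_antisymm (key _ hk' _ hk) (key _ hk _ hk')
  have g2 : ((fun k => X.t (k + m)) '' P2).Finite := s2.finite.image _
  have n2 : ((fun k => X.t (k + m)) '' P2).ncard ≤ 1 :=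
    (Set.ncard_le_one g2).2 fun x hx y hy => (s2.image _) hx hy
  have s3 : (fun x : ℕ × ℕ => X.W (x.1 + x.2) m) '' P3 ⊆ (fun k => X.W k m) '' {k | X.Sp m k} := by
    rintro _ ⟨x, hx, rfl⟩
    exact ⟨_, hx.2.2.2, rfl⟩
  obtain ⟨g3, n3⟩ := ncard_fac P3 (fun x => X.W (x.1 + x.2) m)
    (fun x => X.r (x.1 + m) x.2) ((X.fin _ _).subset s3)
    (fun x hx y hy e => r_dict hx.1 hy.1 (by have := hx.2.1; have := hy.2.1; omega) hx.2.2.1
      hy.2.2.1 (W_iff.1 e))
  have n3' := Set.ncard_le_ncard s3 (X.fin _ _)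
  refine ⟨insert 0 (insert (X.W 0 m : ℝ) ((fun x : ℕ × ℕ => (X.W (x.1 + m) x.2 : ℝ)) '' P1 ∪
    ((fun k => X.t (k + m)) '' P2 ∪ (fun x : ℕ × ℕ => X.r (x.1 + m) x.2) '' P3))),
    ((g1.union (g2.union g3)).insert _).insert _, ?_, ?_, fun L B hB => ⟨?_, ?_, ?_, ?_, ?_, c2, hB⟩⟩
  · refine (Set.ncard_insert_le _ _).trans (Nat.succ_le_succ ?_)
    refine (Set.ncard_insert_le _ _).trans (Nat.succ_le_succ ?_)
    refine (Set.ncard_union_le _ _).trans ?_
    refine (Nat.add_le_add_left (Set.ncard_union_le _ _) _).trans ?_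
    omega
  · rintro v (rfl | rfl | ⟨x, hx, rfl⟩ | ⟨x, hx, rfl⟩ | ⟨x, hx, rfl⟩)
    · simpa [W] using nice_W (X := X) 0 (Nat.zero_le e)
    · exact nice_W 0 he
    · exact nice_W _ (hx.2.le.trans he')
    · exact nice_last hx.2 he'
    · exact X.nice_r _ hx.1 (by have := hx.2.1; omega)
  · exact Or.inl rfl
  · exact Or.inr (Or.inl rfl)
  · exact fun k l h1 h2 => Or.inr (Or.inr (Or.inl ⟨(k, l), ⟨h1, h2⟩, rfl⟩))
  · exact fun k h1 h2 => Or.inr (Or.inr (Or.inr (Or.inl ⟨k, ⟨h1, h2⟩, rfl⟩)))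
  · exact fun k l h1 h2 h3 h4 => Or.inr (Or.inr (Or.inr (Or.inr ⟨(k, l), ⟨h1, h2, h3, h4⟩, rfl⟩)))

end Dig

end Pool.Agent.Lib.MP_c9a594_an
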